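import Pool.Agent.H61.Rh.Basic

/-! # G5a: area of a triangle

The set is the image of `{(α, β) : 0 < α, 0 ≤ β, α + β ≤ 1}` (area `1/2`) under the linear map
`(α, β) ↦ α x + β y` of determinant `cr x y`.  (`Complex.volume_preserving_equiv_real_prod`,
`MeasureTheory.Measure.addHaar_image_linearMap`, or region between graphs.) -/

set_option autoImplicit false

namespace Pool.H61.Rh

open Complex Finset MeasureTheory

/-- half open triangle with vertices `0, x, y` (without the side on the ray of `y`) -/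
def Tri (x y : ℂ) : Set ℂ :=
  {z | ∃ α β : ℝ, 0 < α ∧ 0 ≤ β ∧ α + β ≤ 1 ∧ z = α * x + β * y}

private def G5a_S : Set (ℝ × ℝ) := {p | 0 < p.1 ∧ 0 ≤ p.2 ∧ p.1 + p.2 ≤ 1}

private lemma G5a_S_meas : MeasurableSet G5a_S := by
  have h1 : MeasurableSet {p : ℝ × ℝ | 0 < p.1} := measurableSet_lt measurable_const measurable_fst
  have h2 : MeasurableSet {p : ℝ × ℝ | 0 ≤ p.2} := measurableSet_le measurable_const measurable_snd
  have h3 : MeasurableSet {p : ℝ × ℝ | p.1 + p.2 ≤ 1} :=
    measurableSet_le (measurable_fst.add measurable_snd) measurable_const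
  exact h1.inter (h2.inter h3)

private lemma G5a_S_vol : volume G5a_S = ENNReal.ofReal (1 / 2) := by
  rw [Measure.volume_eq_prod, Measure.prod_apply G5a_S_meas]
  have hsl : ∀ x : ℝ, volume (Prod.mk x ⁻¹' G5a_S) =
      (Set.Ioc (0 : ℝ) 1).indicator (fun x => ENNReal.ofReal (1 - x)) x := by
    intro x
    by_cases hx : x ∈ Set.Ioc (0 : ℝ) 1
    · rw [Set.indicator_of_mem hx]
      have : Prod.mk x ⁻¹' G5a_S = Set.Icc 0 (1 - x) := by
        ext b
        simp only [G5a_S, Set.mem_preimage, Set.mem_setOf_eq, Set.mem_Icc]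
        constructor
        · rintro ⟨-, h2, h3⟩; exact ⟨h2, by linarith⟩
        · rintro ⟨h2, h3⟩; exact ⟨hx.1, h2, by linarith⟩
      rw [this, Real.volume_Icc]; congr 1; ring
    · rw [Set.indicator_of_notMem hx]
      have : Prod.mk x ⁻¹' G5a_S = ∅ := by
        ext b
        simp only [G5a_S, Set.mem_preimage, Set.mem_setOf_eq, Set.mem_empty_iff_false, iff_false]
        rintro ⟨h1, h2, h3⟩
        exact hx ⟨h1, by linarith⟩
      rw [this, measure_empty]
  simp_rw [hsl]
  rw [lintegral_indicator measurableSet_Ioc]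
  rw [← ofReal_integral_eq_lintegral_ofReal]
  · congr 1
    rw [← intervalIntegral.integral_of_le (by norm_num : (0 : ℝ) ≤ 1)]
    rw [intervalIntegral.integral_sub (by simp) (by simp)]
    simp
    norm_num
  · have : IntegrableOn (fun x : ℝ => 1 - x) (Set.Icc 0 1) volume :=
      (continuous_const.sub continuous_id).continuousOn.integrableOn_Icc
    exact this.mono_set Set.Ioc_subset_Icc_self
  · rw [Filter.EventuallyLE, ae_restrict_iff' measurableSet_Ioc]
    filter_upwards with x hx
    simp only [Pi.zero_apply]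
    linarith [hx.2]

private lemma G5a_base : Tri 1 I = Complex.measurableEquivRealProd ⁻¹' G5a_S := by
  ext z
  simp only [Tri, Set.mem_setOf_eq, Set.mem_preimage, G5a_S,
    Complex.measurableEquivRealProd_apply]
  constructor
  · rintro ⟨α, β, h1, h2, h3, rfl⟩
    simp
    exact ⟨h1, h2, h3⟩
  · rintro ⟨h1, h2, h3⟩
    refine ⟨z.re, z.im, h1, h2, h3, ?_⟩
    rw [mul_one]
    exact (Complex.re_add_im z).symm

private noncomputable def G5a_L (x y : ℂ) : ℂ →ₗ[ℝ] ℂ :=
  Matrix.toLin Complex.basisOneI Complex.basisOneI !![x.re, y.re; x.im, y.im]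

private lemma G5a_L_det (x y : ℂ) : LinearMap.det (G5a_L x y) = cr x y := by
  unfold G5a_L
  rw [LinearMap.det_toLin, Matrix.det_fin_two_of, cr]
  ring

private lemma G5a_L_apply (x y : ℂ) (z : ℂ) : G5a_L x y z = z.re * x + z.im * y := by
  unfold G5a_L
  rw [Matrix.toLin_apply]
  apply Complex.ext
  · simp [Matrix.mulVec, Fin.sum_univ_two, dotProduct, Complex.coe_basisOneI_repr]
    ring
  · simp [Matrix.mulVec, Fin.sum_univ_two, dotProduct, Complex.coe_basisOneI_repr]
    ring

private lemma G5a_image (x y : ℂ) : Tri x y = G5a_L x y '' Tri 1 I := by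
  ext z
  simp only [Tri, Set.mem_setOf_eq, Set.mem_image]
  constructor
  · rintro ⟨α, β, h1, h2, h3, rfl⟩
    refine ⟨α * 1 + β * I, ⟨α, β, h1, h2, h3, rfl⟩, ?_⟩
    rw [G5a_L_apply]
    simp
  · rintro ⟨w, ⟨α, β, h1, h2, h3, rfl⟩, rfl⟩
    refine ⟨α, β, h1, h2, h3, ?_⟩
    rw [G5a_L_apply]
    simp

theorem measurable_Tri (x y : ℂ) (h : 0 < cr x y) : MeasurableSet (Tri x y) := by
  rw [G5a_image]
  have hdet : LinearMap.det (G5a_L x y) ≠ 0 := by rw [G5a_L_det]; exact h.ne'
  have hb : MeasurableSet (Tri 1 I) := by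
    rw [G5a_base]; exact Complex.measurableEquivRealProd.measurable G5a_S_meas
  let e := (LinearMap.equivOfDetNeZero (G5a_L x y) hdet).toContinuousLinearEquiv
  have he : (G5a_L x y : ℂ → ℂ) = e := by
    ext z; rfl
  rw [he]
  exact e.toHomeomorph.toMeasurableEquiv.measurableSet_image.2 hb

theorem volume_Tri (x y : ℂ) (h : 0 < cr x y) : volume (Tri x y) = ENNReal.ofReal (cr x y / 2) := by
  rw [G5a_image, Measure.addHaar_image_linearMap, G5a_L_det, abs_of_pos h, G5a_base]
  rw [Complex.volume_preserving_equiv_real_prod.measure_preimage_equiv, G5a_S_vol,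
    ← ENNReal.ofReal_mul h.le]
  congr 1; ring

end Pool.H61.Rh
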