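import Pool.Agent.H61.Rh.G2
import Pool.Agent.H61.Rh.G5a

/-! # G5b: inscribed polygons have smaller area

Extend `t` to the whole turn (`t (i + n) = t i + π`, `i ≤ n`).  The triangles
`Tri (Gp (t i)) (Gp (t (i+1)))`, `i < 2n`, `t i < t (i+1)`, are contained in `{ν ≤ 1}`,
pairwise disjoint (angles in `[t i, t (i+1))`, total turn `2π`), so the sum of their areas is
at most the area of `{ν ≤ 1}` (bounded, hence of finite area); the second half of the sum is
equal to the first (`Gp_pi`).  (If `t (i+1) = t i + π` the summand is `0`.)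
An induction on the number of sectors, with the additivity of the measure on
`{ν ≤ 1} ∩ {z : angle in [t 0, t i)}`, is an alternative. -/

set_option autoImplicit false

namespace Pool.H61.Rh

open Complex Finset MeasureTheory

/-- uniqueness of the angle -/
private lemma G5b_uniq {ν : ℂ → ℝ} (h : SN ν) (s t : ℝ) (hst : s < t)
    (h2 : t < s + 2 * Real.pi) (r r' : ℝ) (hr : 0 < r) (hr' : 0 < r')
    (he : (r : ℂ) * Gp ν s = r' * Gp ν t) : False := by
  have hz : cr ((r : ℂ) * Gp ν s) (r' * Gp ν t) = 0 := by rw [he, cr_self]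
  rw [cr_smul_left, cr_smul_right] at hz
  have hz' : cr (Gp ν s) (Gp ν t) = 0 := by
    rcases mul_eq_zero.mp hz with h0 | h0
    · exact absurd h0 hr.ne'
    rcases mul_eq_zero.mp h0 with h1 | h1
    · exact absurd h1 hr'.ne'
    · exact h1
  rcases lt_trichotomy t (s + Real.pi) with h3 | h3 | h3
  · exact absurd hz' (h.Gp_cr s t hst h3).ne'
  · rw [h3, h.Gp_pi] at he
    have h4 : ν ((r : ℂ) * Gp ν s) = ν ((r' : ℂ) * -Gp ν s) := by rw [he]
    have h5 : ((r + r' : ℝ) : ℂ) * Gp ν s = ((0 : ℝ) : ℂ) := by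
      push_cast
      have : (r : ℂ) * Gp ν s + r' * Gp ν s = 0 := by rw [he]; ring
      linear_combination this
    have h6 : ν (((r + r' : ℝ) : ℂ) * Gp ν s) = r + r' := by
      rw [h.hom, h.Gp_norm, abs_of_pos (by linarith)]; ring
    rw [h5] at h6
    have h7 : ν (((0 : ℝ) : ℂ)) = 0 := by
      have := h.zero
      simpa using this
    linarith
  · have h4 : Gp ν t = - Gp ν (t - Real.pi) := by
      rw [← h.Gp_pi]; congr 1; ring
    rw [h4, cr_neg_right] at hz'
    have := h.Gp_cr s (t - Real.pi) (by linarith) (by linarith)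
    linarith

/-- angle of a point of the triangle -/
private lemma G5b_angle {ν : ℂ → ℝ} (h : SN ν) (s u : ℝ) (hsu : s < u)
    (h2 : u < s + Real.pi) (z : ℂ) (hz : z ∈ Tri (Gp ν s) (Gp ν u)) :
    ∃ r t : ℝ, 0 < r ∧ s ≤ t ∧ t < u ∧ z = (r : ℂ) * Gp ν t := by
  obtain ⟨α, β, hα, hβ, -, rfl⟩ := hz
  rcases hβ.eq_or_lt with hb | hb
  · refine ⟨α, s, hα, le_refl _, hsu, ?_⟩
    rw [← hb]; simp
  have hD := h.Gp_cr s u hsu h2
  set z : ℂ := α * Gp ν s + β * Gp ν u with hzd
  have hc1 : 0 < cr (Gp ν s) z := by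
    rw [hzd, cr_add_right, cr_smul_right, cr_smul_right, cr_self]
    have := mul_pos hb hD
    linarith
  have hc2 : 0 < cr z (Gp ν u) := by
    rw [hzd, cr_add_left, cr_smul_left, cr_smul_left, cr_self]
    have := mul_pos hα hD
    linarith
  have hz0 : z ≠ 0 := by
    intro h0
    rw [h0, cr_zero_right] at hc1
    exact lt_irrefl _ hc1
  have hνz := h.pos z hz0
  set v : ℂ := ((1 / ν z : ℝ) : ℂ) * z with hv
  have hνv : ν v = 1 := by
    rw [hv, h.hom, abs_of_pos (by positivity)]
    field_simp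
  have hcv : 0 < cr (Gp ν s) v := by
    rw [hv, cr_smul_right]; positivity
  obtain ⟨t, ht1, ht2, ht3⟩ := h.Gp_surj s v hνv hcv
  have hzt : z = (ν z : ℂ) * Gp ν t := by
    rw [ht3, hv]
    push_cast
    have : (ν z : ℂ) ≠ 0 := by exact_mod_cast hνz.ne'
    field_simp
  refine ⟨ν z, t, hνz, ht1.le, ?_, hzt⟩
  by_contra htu
  push Not at htu
  have hc3 : 0 < cr (Gp ν t) (Gp ν u) := by
    have : cr z (Gp ν u) = ν z * cr (Gp ν t) (Gp ν u) := by
      conv_lhs => rw [hzt]
      rw [cr_smul_left]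
    rw [this] at hc2
    exact (mul_pos_iff_of_pos_left hνz).mp hc2
  rcases htu.eq_or_lt with h5 | h5
  · rw [← h5, cr_self] at hc3; exact lt_irrefl _ hc3
  · have := h.Gp_cr u t h5 (by linarith)
    rw [cr_swap] at this
    linarith

private lemma G5b_sub {ν : ℂ → ℝ} (h : SN ν) (s u : ℝ) :
    Tri (Gp ν s) (Gp ν u) ⊆ {z : ℂ | ν z ≤ 1} := by
  rintro z ⟨α, β, hα, hβ, hab, rfl⟩
  show ν (α * Gp ν s + β * Gp ν u) ≤ 1
  refine (h.tri _ _).trans ?_
  rw [h.hom, h.hom, h.Gp_norm, h.Gp_norm, abs_of_pos hα, abs_of_nonneg hβ]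
  linarith

private lemma G5b_finite {ν : ℂ → ℝ} (h : SN ν) : volume {z : ℂ | ν z ≤ 1} ≠ ⊤ := by
  obtain ⟨c, C, hc, -, hcC⟩ := h.equiv
  have hsub : {z : ℂ | ν z ≤ 1} ⊆ Metric.closedBall 0 (1 / c) := by
    intro z hz
    have hz' : ν z ≤ 1 := hz
    rw [mem_closedBall_zero_iff, le_div_iff₀ hc]
    have := (hcC z).1
    linarith
  exact (lt_of_le_of_lt (measure_mono hsub) measure_closedBall_lt_top).ne

/-- the triangle of an interval (empty if degenerate) -/
private noncomputable def G5b_T (ν : ℂ → ℝ) (s u : ℝ) : Set ℂ := by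
  classical
  exact if 0 < cr (Gp ν s) (Gp ν u) then Tri (Gp ν s) (Gp ν u) else ∅

private lemma G5b_T_meas (ν : ℂ → ℝ) (s u : ℝ) : MeasurableSet (G5b_T ν s u) := by
  classical
  unfold G5b_T
  split_ifs with hc
  · exact measurable_Tri _ _ hc
  · exact MeasurableSet.empty

private lemma G5b_T_vol (ν : ℂ → ℝ) (s u : ℝ) :
    volume (G5b_T ν s u) = ENNReal.ofReal (cr (Gp ν s) (Gp ν u) / 2) := by
  classical
  unfold G5b_T
  split_ifs with hc
  · exact volume_Tri _ _ hc
  · rw [measure_empty, eq_comm, ENNReal.ofReal_eq_zero]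
    push Not at hc
    linarith

private lemma G5b_T_sub {ν : ℂ → ℝ} (h : SN ν) (s u : ℝ) :
    G5b_T ν s u ⊆ {z : ℂ | ν z ≤ 1} := by
  classical
  unfold G5b_T
  split_ifs with hc
  · exact G5b_sub h s u
  · exact Set.empty_subset _

private lemma G5b_T_angle {ν : ℂ → ℝ} (h : SN ν) (s u : ℝ) (hsu : s ≤ u)
    (h2 : u ≤ s + Real.pi) (z : ℂ) (hz : z ∈ G5b_T ν s u) :
    ∃ r t : ℝ, 0 < r ∧ s ≤ t ∧ t < u ∧ z = (r : ℂ) * Gp ν t := by
  classical
  unfold G5b_T at hz
  split_ifs at hz with hc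
  · rcases hsu.eq_or_lt with h3 | h3
    · rw [h3, cr_self] at hc; exact absurd hc (lt_irrefl _)
    rcases h2.eq_or_lt with h4 | h4
    · rw [h4, h.Gp_pi, cr_neg_right, cr_self] at hc
      simp at hc
    exact G5b_angle h s u h3 h4 z hz
  · exact absurd hz (Set.notMem_empty _)

/-- disjointness of the triangles of disjoint intervals of a turn -/
private lemma G5b_disj {ν : ℂ → ℝ} (h : SN ν) (s u s' u' : ℝ) (hsu : s ≤ u)
    (h2 : u ≤ s + Real.pi) (h3 : u ≤ s') (hsu' : s' ≤ u') (h2' : u' ≤ s' + Real.pi)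
    (h4 : u' ≤ s + 2 * Real.pi) : Disjoint (G5b_T ν s u) (G5b_T ν s' u') := by
  rw [Set.disjoint_left]
  intro z hz hz'
  obtain ⟨r, t, hr, h5, h6, h7⟩ := G5b_T_angle h s u hsu h2 z hz
  obtain ⟨r', t', hr', h5', h6', h7'⟩ := G5b_T_angle h s' u' hsu' h2' z hz'
  exact G5b_uniq h t t' (by linarith) (by linarith) r r' hr hr' (by rw [← h7, ← h7'])

theorem SN.poly_le {ν : ℂ → ℝ} (h : SN ν) (n : ℕ) (t : ℕ → ℝ) (ht : Monotone t)
    (htn : t n = t 0 + Real.pi) :
    ∑ i ∈ Finset.range n, cr (Gp ν (t i)) (Gp ν (t (i + 1))) ≤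
      (volume {z : ℂ | ν z ≤ 1}).toReal := by
  have hpi := Real.pi_pos
  have hle : ∀ i, i ≤ n → t i ≤ t 0 + Real.pi := fun i hi => by
    rw [← htn]; exact ht hi
  have hge : ∀ i, t 0 ≤ t i := fun i => ht (Nat.zero_le i)
  have hst : ∀ i, t i ≤ t (i + 1) := fun i => ht (Nat.le_succ i)
  have hpi' : ∀ i, i < n → t (i + 1) ≤ t i + Real.pi := fun i hi => by
    have := hle (i + 1) hi
    have := hge i
    linarith
  -- nonnegativity of the summands
  have hnn : ∀ i, i < n → 0 ≤ cr (Gp ν (t i)) (Gp ν (t (i + 1))) := by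
    intro i hi
    rcases (hst i).eq_or_lt with h3 | h3
    · rw [h3, cr_self]
    rcases (hpi' i hi).eq_or_lt with h4 | h4
    · rw [h4, h.Gp_pi, cr_neg_right, cr_self]; simp
    exact (h.Gp_cr _ _ h3 h4).le
  set U : Set ℂ := ⋃ i ∈ Finset.range n, G5b_T ν (t i) (t (i + 1)) with hU
  set V : Set ℂ := ⋃ i ∈ Finset.range n,
    G5b_T ν (t i + Real.pi) (t (i + 1) + Real.pi) with hV
  have hUV : Disjoint U V := by
    rw [hU, hV, Set.disjoint_left]
    intro z hz hz'
    simp only [Set.mem_iUnion, Finset.mem_range, exists_prop] at hz hz'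
    obtain ⟨i, hi, hz⟩ := hz
    obtain ⟨j, hj, hz'⟩ := hz'
    have hd := G5b_disj h (t i) (t (i + 1)) (t j + Real.pi) (t (j + 1) + Real.pi)
      (hst i) (hpi' i hi) (by have := hle (i + 1) hi; have := hge j; linarith)
      (by have := hst j; linarith) (by have := hpi' j hj; linarith)
      (by have := hle (j + 1) hj; have := hge i; linarith)
    exact (Set.disjoint_left.mp hd) hz hz'
  have hVm : MeasurableSet V := by
    rw [hV]
    exact Finset.measurableSet_biUnion _ (fun i _ => G5b_T_meas _ _ _)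
  have hvU : volume U = ∑ i ∈ Finset.range n,
      ENNReal.ofReal (cr (Gp ν (t i)) (Gp ν (t (i + 1))) / 2) := by
    rw [hU, measure_biUnion_finset]
    · exact Finset.sum_congr rfl (fun i _ => G5b_T_vol _ _ _)
    · intro i hi j hj hij
      have hi' : i < n := by simpa using hi
      have hj' : j < n := by simpa using hj
      rcases lt_or_gt_of_ne hij with hlt | hlt
      · exact G5b_disj h _ _ _ _ (hst i) (hpi' i hi') (ht hlt) (hst j) (hpi' j hj')
          (by have := hle (j + 1) hj'; have := hge i; linarith)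
      · exact (G5b_disj h _ _ _ _ (hst j) (hpi' j hj') (ht hlt) (hst i) (hpi' i hi')
          (by have := hle (i + 1) hi'; have := hge j; linarith)).symm
    · exact fun i _ => G5b_T_meas _ _ _
  have hvV : volume V = ∑ i ∈ Finset.range n,
      ENNReal.ofReal (cr (Gp ν (t i)) (Gp ν (t (i + 1))) / 2) := by
    rw [hV, measure_biUnion_finset]
    · refine Finset.sum_congr rfl (fun i _ => ?_)
      rw [G5b_T_vol, h.Gp_pi, h.Gp_pi, cr_neg_left, cr_neg_right, neg_neg]
    · intro i hi j hj hij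
      have hi' : i < n := by simpa using hi
      have hj' : j < n := by simpa using hj
      rcases lt_or_gt_of_ne hij with hlt | hlt
      · exact G5b_disj h _ _ _ _ (by have := hst i; linarith)
          (by have := hpi' i hi'; linarith)
          (by have := ht (show i + 1 ≤ j from hlt); linarith) (by have := hst j; linarith)
          (by have := hpi' j hj'; linarith)
          (by have := hle (j + 1) hj'; have := hge i; linarith)
      · exact (G5b_disj h _ _ _ _ (by have := hst j; linarith)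
          (by have := hpi' j hj'; linarith)
          (by have := ht (show j + 1 ≤ i from hlt); linarith) (by have := hst i; linarith)
          (by have := hpi' i hi'; linarith)
          (by have := hle (i + 1) hi'; have := hge j; linarith)).symm
    · exact fun i _ => G5b_T_meas _ _ _
  have hsub : U ∪ V ⊆ {z : ℂ | ν z ≤ 1} := by
    refine Set.union_subset ?_ ?_
    · exact Set.iUnion₂_subset (fun i _ => G5b_T_sub h _ _)
    · exact Set.iUnion₂_subset (fun i _ => G5b_T_sub h _ _)
  have hmain : volume U + volume V ≤ volume {z : ℂ | ν z ≤ 1} := by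
    rw [← measure_union hUV hVm]
    exact measure_mono hsub
  have hsum : ∑ i ∈ Finset.range n,
      ENNReal.ofReal (cr (Gp ν (t i)) (Gp ν (t (i + 1))) / 2) =
      ENNReal.ofReal (∑ i ∈ Finset.range n, cr (Gp ν (t i)) (Gp ν (t (i + 1))) / 2) := by
    rw [ENNReal.ofReal_sum_of_nonneg]
    intro i hi
    have := hnn i (by simpa using hi)
    linarith
  have hS0 : 0 ≤ ∑ i ∈ Finset.range n, cr (Gp ν (t i)) (Gp ν (t (i + 1))) / 2 := by
    refine Finset.sum_nonneg (fun i hi => ?_)
    have := hnn i (by simpa using hi)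
    linarith
  rw [hvU, hvV, hsum, ← ENNReal.ofReal_add hS0 hS0] at hmain
  have h9 := ENNReal.toReal_mono (G5b_finite h) hmain
  rw [ENNReal.toReal_ofReal (by linarith)] at h9
  refine le_trans (le_of_eq ?_) h9
  rw [← Finset.sum_add_distrib]
  exact Finset.sum_congr rfl (fun i _ => by ring)

end Pool.H61.Rh
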