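import Pool.Agent.H61.Rh.G1

/-! # H1a: the lattice of an inscribed hexagon, and strictly convex approximation

`lattice_far`: let `r = q - p`.  If `m, n ≥ 0`: `(m+n) q = (m p + n q) + m r` and
`(m+n) p = (m p + n q) - n r`, so `ν (m p + n q) ≥ max n m`.  The other sign patterns: write
`m p + n q` in terms of `q, r` (`p = q - r`) or `r, -p` (`q = r + p`) with nonnegative
coefficients and use the same argument (`ν (x) = ν (-x)`). -/

set_option autoImplicit false

namespace Pool.H61.Rh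

open Complex Finset

private lemma H1a_core {ν : ℂ → ℝ} (h : SN ν) (p q : ℂ) (hp : ν p = 1) (hq : ν q = 1)
    (hr : ν (q - p) = 1) (x y : ℝ) (hx : 0 ≤ x) (hy : 0 ≤ y) :
    x ≤ ν (x * p + y * q) ∧ y ≤ ν (x * p + y * q) := by
  constructor
  · have h1 := h.tri (x * p + y * q) (-((y : ℂ) * (q - p)))
    have e : (x : ℂ) * p + y * q + -((y : ℂ) * (q - p)) = ((x + y : ℝ) : ℂ) * p := by
      push_cast
      ring
    rw [e, h.neg, h.hom, h.hom, hp, hr, abs_of_nonneg (add_nonneg hx hy), abs_of_nonneg hy] at h1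
    linarith
  · have h1 := h.tri (x * p + y * q) ((x : ℂ) * (q - p))
    have e : (x : ℂ) * p + y * q + (x : ℂ) * (q - p) = ((x + y : ℝ) : ℂ) * q := by
      push_cast
      ring
    rw [e, h.hom, h.hom, hq, hr, abs_of_nonneg (add_nonneg hx hy), abs_of_nonneg hx] at h1
    linarith

private lemma H1a_nn {ν : ℂ → ℝ} (h : SN ν) (p q : ℂ) (hp : ν p = 1) (hq : ν q = 1)
    (hr : ν (q - p) = 1) (i j : ℤ) (hi : 0 ≤ i) (hj : 0 ≤ j) (hij : ¬ (i = 0 ∧ j = 0)) :
    1 ≤ ν (i * p + j * q) := by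
  obtain ⟨h1, h2⟩ := H1a_core h p q hp hq hr (i : ℝ) (j : ℝ) (by exact_mod_cast hi)
    (by exact_mod_cast hj)
  rw [ofReal_intCast, ofReal_intCast] at h1 h2
  by_cases h3 : i = 0
  · have h4 : 1 ≤ j := by
      rcases lt_or_eq_of_le hj with h5 | h5
      · exact h5
      · exact absurd ⟨h3, h5.symm⟩ hij
    have h5 : (1 : ℝ) ≤ j := by exact_mod_cast h4
    exact h5.trans h2
  · have h4 : 1 ≤ i := by
      rcases lt_or_eq_of_le hi with h5 | h5
      · exact h5
      · exact absurd h5.symm h3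
    have h5 : (1 : ℝ) ≤ i := by exact_mod_cast h4
    exact h5.trans h1

private lemma H1a_mx {ν : ℂ → ℝ} (h : SN ν) (p q : ℂ) (hp : ν p = 1) (hq : ν q = 1)
    (hr : ν (q - p) = 1) (k n : ℤ) (hk : 0 ≤ k) (hn : 0 ≤ n) (hkn : ¬ (k = 0 ∧ n = 0)) :
    1 ≤ ν (-(k * p) + n * q) := by
  rcases le_total k n with hc | hc
  · have h1 := H1a_nn h (q - p) q hr hq (by rw [sub_sub_cancel]; exact hp) k (n - k) hk
      (by omega) (by omega)
    have e : (k : ℂ) * (q - p) + ((n - k : ℤ) : ℂ) * q = -(k * p) + n * q := by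
      push_cast
      ring
    rwa [e] at h1
  · have h1 := H1a_nn h (-p) (q - p) (by rw [h.neg]; exact hp) hr
      (by rw [sub_neg_eq_add, sub_add_cancel]; exact hq) (k - n) n (by omega) hn (by omega)
    have e : ((k - n : ℤ) : ℂ) * (-p) + (n : ℂ) * (q - p) = -(k * p) + n * q := by
      push_cast
      ring
    rwa [e] at h1

theorem SN.lattice_far {ν : ℂ → ℝ} (h : SN ν) (p q : ℂ) (hp : ν p = 1) (hq : ν q = 1)
    (hr : ν (q - p) = 1) (m n : ℤ) (hmn : ¬ (m = 0 ∧ n = 0)) : 1 ≤ ν (m * p + n * q) := by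
  rcases le_total 0 m with hm | hm
  · rcases le_total 0 n with hn | hn
    · exact H1a_nn h p q hp hq hr m n hm hn hmn
    · have h1 := H1a_mx h p q hp hq hr m (-n) hm (by omega) (by omega)
      rw [← h.neg] at h1
      have e : -(-((m : ℂ) * p) + ((-n : ℤ) : ℂ) * q) = m * p + n * q := by
        push_cast
        ring
      rwa [e] at h1
  · rcases le_total 0 n with hn | hn
    · have h1 := H1a_mx h p q hp hq hr (-m) n (by omega) hn (by omega)
      have e : -(((-m : ℤ) : ℂ) * p) + (n : ℂ) * q = m * p + n * q := by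
        push_cast
        ring
      rwa [e] at h1
    · have h1 := H1a_nn h p q hp hq hr (-m) (-n) (by omega) (by omega) (by omega)
      rw [← h.neg] at h1
      have e : -(((-m : ℤ) : ℂ) * p + ((-n : ℤ) : ℂ) * q) = m * p + n * q := by
        push_cast
        ring
      rwa [e] at h1

end Pool.H61.Rh
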