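import Pool.Agent.H61.Rh.Basic

/-! # D1: parametrisation by area

`S` is strictly increasing, continuous, surjective (`Slow`, `Sup`); let `U` be its inverse,
`T = S 1`, `γ' = γ ∘ U`.  `U (τ + T) = U τ + 1`, `U` is 2-Lipschitz, `U 0 = 0`, `U T = 1`. -/

set_option autoImplicit false

namespace Pool.H61.Rh

open Complex Finset

/-- the inverse function -/
theorem D1_inverse {S : ℝ → ℝ} (S0 : S 0 = 0)
    (Slow : ∀ u v, u ≤ v → 1 / 2 * (v - u) ≤ S v - S u)
    (Sup : ∀ u v, u ≤ v → S v - S u ≤ 50 * (v - u)) :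
    ∃ U : ℝ → ℝ, (∀ τ, S (U τ) = τ) ∧ (∀ u, U (S u) = u) ∧ (∀ s t, s ≤ t → U s ≤ U t) ∧
      ∀ s t, s ≤ t → U t - U s ≤ 2 * (t - s) := by
  have hlip : LipschitzWith 50 S := by
    refine LipschitzWith.of_dist_le_mul fun x y => ?_
    rw [Real.dist_eq, Real.dist_eq]
    have h50 : ((50 : NNReal) : ℝ) = 50 := rfl
    rw [h50]
    rcases le_total x y with hxy | hxy
    · have h1 := Slow x y hxy
      have h2 := Sup x y hxy
      rw [abs_sub_comm (S x), abs_sub_comm x, abs_of_nonneg (by linarith), abs_of_nonneg (by linarith)]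
      exact h2
    · have h1 := Slow y x hxy
      have h2 := Sup y x hxy
      rw [abs_of_nonneg (by linarith), abs_of_nonneg (by linarith)]
      exact h2
  have hinj : ∀ u v, S u = S v → u = v := by
    intro u v h
    rcases le_total u v with huv | huv
    · have h1 := Slow u v huv
      linarith
    · have h1 := Slow v u huv
      linarith
  have hsurj : ∀ τ, ∃ u, S u = τ := by
    intro τ
    have h1 := Slow 0 (2 * |τ|) (by positivity)
    have h2 := Slow (-(2 * |τ|)) 0 (by linarith [abs_nonneg τ])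
    have hle : -(2 * |τ|) ≤ 2 * |τ| := by linarith [abs_nonneg τ]
    have h3 := intermediate_value_Icc hle hlip.continuous.continuousOn
    have h4 : τ ∈ Set.Icc (S (-(2 * |τ|))) (S (2 * |τ|)) := by
      constructor
      · linarith [neg_abs_le τ]
      · linarith [le_abs_self τ]
    obtain ⟨u, -, hu⟩ := h3 h4
    exact ⟨u, hu⟩
  choose U hU using hsurj
  have hmono : ∀ s t, s ≤ t → U s ≤ U t := by
    intro s t hst
    by_contra hcon
    push Not at hcon
    have h1 := Slow (U t) (U s) hcon.le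
    rw [hU, hU] at h1
    linarith
  refine ⟨U, hU, fun u => hinj _ _ (hU _), hmono, fun s t hst => ?_⟩
  have h1 := Slow (U s) (U t) (hmono s t hst)
  rw [hU, hU] at h1
  linarith

theorem exists_AC {A : ℝ} {γ : ℝ → ℂ} {S : ℝ → ℝ} (h : PC A γ S) :
    ∃ (T : ℝ) (γ' : ℝ → ℂ), AC T γ' ∧ 3 * T ≤ A := by
  obtain ⟨U, hSU, hUS, hmono, hlip⟩ := D1_inverse h.S0 h.Slow h.Sup
  have hT : 1 / 2 ≤ S 1 := by
    have h1 := h.Slow 0 1 zero_le_one
    rw [h.S0] at h1
    linarith
  have hU1 : ∀ τ, U (τ + S 1) = U τ + 1 := by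
    intro τ
    rw [← hUS (U τ + 1), h.Sper, hSU]
  have hU2 : ∀ τ, U (τ + 2 * S 1) = U τ + 2 := by
    intro τ
    rw [two_mul, ← add_assoc, hU1, hU1]
    ring
  have hU3 : ∀ τ, U (τ + 3 * S 1) = U τ + 3 := by
    intro τ
    have e : τ + 3 * S 1 = τ + 2 * S 1 + S 1 := by ring
    rw [e, hU1, hU2]
    ring
  have hU0 : U 0 = 0 := by
    have h1 := hUS 0
    rwa [h.S0] at h1
  have habs : ∀ s t, |U s - U t| ≤ 2 * |s - t| := by
    intro s t
    rcases le_total s t with hst | hst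
    · have h1 := hmono s t hst
      have h2 := hlip s t hst
      rw [abs_sub_comm, abs_sub_comm s, abs_of_nonneg (by linarith), abs_of_nonneg (by linarith)]
      exact h2
    · have h1 := hmono t s hst
      have h2 := hlip t s hst
      rw [abs_of_nonneg (by linarith), abs_of_nonneg (by linarith)]
      exact h2
  refine ⟨S 1, fun τ => γ (U τ), ⟨by linarith, ?_, ?_, ?_, ?_, ⟨12, ?_⟩, ?_, ?_, ?_, ⟨432, ?_⟩⟩,
    h.SA⟩
  · intro τ
    show γ (U (τ + 2 * S 1)) = γ (U (τ + S 1)) - γ (U τ)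
    rw [hU2, hU1]
    exact h.hex _
  · show γ (U 0) = 1
    rw [hU0]
    exact h.g0
  · show γ (U (S 1)) = ze
    rw [hUS]
    exact h.g1
  · intro τ
    show cr (γ (U τ)) (γ (U (τ + S 1))) = s3 / 2
    rw [hU1]
    exact h.det _
  · refine LipschitzWith.of_dist_le_mul fun x y => ?_
    rw [dist_eq_norm, Real.dist_eq]
    have h12 : ((12 : NNReal) : ℝ) = 12 := rfl
    rw [h12]
    have h1 := h.lip (U x) (U y)
    have h2 := habs x y
    calc ‖γ (U x) - γ (U y)‖ ≤ 6 * |U x - U y| := h1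
      _ ≤ 6 * (2 * |x - y|) := by linarith
      _ = 12 * |x - y| := by ring
  · intro s t u v hst htu huv hvs
    refine h.conv (U s) (U t) (U u) (U v) (hmono _ _ hst) (hmono _ _ htu) (hmono _ _ huv) ?_
    have h1 := hmono _ _ hvs
    rwa [hU3] at h1
  · intro τ
    obtain ⟨n, -, h1, h2⟩ := h.supp (U τ)
    exact ⟨n, h1, fun x => h2 (U x)⟩
  · intro n t ht hn
    refine h.poly n (fun i => U (t i)) (fun i j hij => hmono _ _ (ht hij)) ?_
    show U (t n) = U (t 0) + 3
    rw [hn, hU3]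
  · intro s t hst
    have h1 := h.area (U s) (U t) (hmono s t hst)
    show |cr (γ (U s)) (γ (U t)) + cr (γ (U (s + S 1))) (γ (U (t + S 1)))
      + cr (γ (U (s + 2 * S 1))) (γ (U (t + 2 * S 1))) - 3 * (t - s)| ≤ 432 * (t - s) ^ 2
    rw [hU1, hU1, hU2, hU2]
    rw [hSU, hSU] at h1
    refine h1.trans ?_
    have h2 := hmono s t hst
    have h3 := hlip s t hst
    nlinarith

end Pool.H61.Rh
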