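import Pool.Agent.H61.Rh.E2a

/-! # E5: convexity of the arcs at points where `y` is differentiable

As in E3, `0 ≤ cr (g(τ) v(τ)) (g(τ+ε) v(τ+ε))` for small `ε > 0`, where
`v = i (ζ^j + y ζ^{-j})`, `g v = hx a b v`; subtract `cr (g v) (g v) = 0`, divide by `ε`,
`ε → 0`: `0 ≤ cr (g v) (d/dτ (g v))`; `d/dτ (g v) = hx a' b' v + hx a b v'`,
`hx a' b' v = hx a b (i v + i y v̄)` by the differential equations, `v' = i y' ζ^{-j}`.
By `cr_hx` : `0 ≤ cr v (i v + i y v̄ + i y' ζ^{-j})`, which equals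
`(1 - |y|²)(1 + dt u_j y) + cr u_j y' + cr y y'` (`u_j = ζ^{2j}`, `|ζ^j| = 1`). -/

set_option autoImplicit false

namespace Pool.H61.Rh

open Complex Finset Filter Topology

private lemma E5_hx (a b z y v : ℂ) (hz : normSq z = 1) (hn : normSq a - normSq b = 1) :
    cr (hx a b (I * (z + y * (starRingEnd ℂ) z)))
      ((I * (a - (starRingEnd ℂ) y * b)) * (I * (z + y * (starRingEnd ℂ) z))
        + a * (I * (v * (starRingEnd ℂ) z))
        + ((I * (y * a - b)) * (-I * ((starRingEnd ℂ) z + (starRingEnd ℂ) y * z))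
        + b * (-I * ((starRingEnd ℂ) v * z)))) =
    (1 - normSq y) * (1 + dt (z ^ 2) y) + cr (z ^ 2) v + cr y v := by
  have h1 : (I * (a - (starRingEnd ℂ) y * b)) * (I * (z + y * (starRingEnd ℂ) z))
        + a * (I * (v * (starRingEnd ℂ) z))
        + ((I * (y * a - b)) * (-I * ((starRingEnd ℂ) z + (starRingEnd ℂ) y * z))
        + b * (-I * ((starRingEnd ℂ) v * z))) =
      hx a b (I * (I * (z + y * (starRingEnd ℂ) z))
        + I * y * (starRingEnd ℂ) (I * (z + y * (starRingEnd ℂ) z))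
        + I * (v * (starRingEnd ℂ) z)) := by
    simp only [hx, map_add, map_mul, map_neg, conj_I, Complex.conj_conj]
    ring
  rw [h1, cr_hx, hn, one_mul]
  rw [normSq_apply] at hz
  simp only [cr, dt, normSq_apply, pow_two, add_re, add_im, mul_re, mul_im, I_re, I_im, conj_re,
    conj_im]
  linear_combination (1 - (y.re * y.re + y.im * y.im) + (y.re * v.im - y.im * v.re)) * hz

private lemma E5_cr_slope (t : ℝ) (x y : ℂ) (h : 0 ≤ cr x y) : 0 ≤ cr (t • x) (t • y) := by
  rw [Complex.real_smul, Complex.real_smul, cr_smul_left, cr_smul_right, ← mul_assoc]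
  exact mul_nonneg (mul_self_nonneg t) h

private lemma E5_dir (T : ℝ) (c : ℝ → ℂ) (τ ε : ℝ) (hε : 0 < ε) (hεT : ε < 3 * T)
    (conv : ∀ s t u v, s ≤ t → t ≤ u → u ≤ v → v ≤ s + 3 * T → 0 ≤ cr (c t - c s) (c v - c u))
    (g1 g2 : ℂ) (h1 : HasDerivAt c g1 τ) (h2 : HasDerivAt c g2 (τ + ε)) :
    0 ≤ cr g1 g2 := by
  have k1 := h1.tendsto_slope_zero_right
  have k2 := h2.tendsto_slope_zero_right
  have k3 := (continuous_cr.tendsto (g1, g2)).comp (k1.prodMk_nhds k2)
  refine ge_of_tendsto k3 ?_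
  have hm : 0 < min ε (3 * T - ε) := lt_min hε (by linarith)
  filter_upwards [Ioo_mem_nhdsGT hm] with t ht
  simp only [Set.mem_Ioo] at ht
  have ht1 : t < ε := lt_of_lt_of_le ht.2 (min_le_left _ _)
  have ht2 : t < 3 * T - ε := lt_of_lt_of_le ht.2 (min_le_right _ _)
  exact E5_cr_slope _ _ _ (conv τ (τ + t) (τ + ε) (τ + ε + t) (by linarith) (by linarith)
    (by linarith) (by linarith))

private lemma E5_main (T : ℝ) (hT : 0 < T) (a b y : ℝ → ℂ) (z : ℂ) (hz : normSq z = 1)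
    (conv : ∀ s t u v, s ≤ t → t ≤ u → u ≤ v → v ≤ s + 3 * T →
      0 ≤ cr (hx (a t) (b t) z - hx (a s) (b s) z) (hx (a v) (b v) z - hx (a u) (b u) z))
    (ha : ∀ τ, HasDerivAt a (I * (a τ - (starRingEnd ℂ) (y τ) * b τ)) τ)
    (hb : ∀ τ, HasDerivAt b (I * (y τ * a τ - b τ)) τ)
    (hn : ∀ τ, normSq (a τ) - normSq (b τ) = 1)
    (τ : ℝ) (v : ℂ) (hv : HasDerivAt y v τ) :
    0 ≤ (1 - normSq (y τ)) * (1 + dt (z ^ 2) (y τ)) + cr (z ^ 2) v + cr (y τ) v := by
  -- the derivative of the curve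
  have hc : ∀ x, HasDerivAt (fun x => hx (a x) (b x) z)
      (hx (a x) (b x) (I * (z + y x * (starRingEnd ℂ) z))) x := by
    intro x
    have h := ((ha x).mul_const z).add ((hb x).mul_const ((starRingEnd ℂ) z))
    have e : hx (a x) (b x) (I * (z + y x * (starRingEnd ℂ) z)) =
        I * (a x - (starRingEnd ℂ) (y x) * b x) * z
          + I * (y x * a x - b x) * (starRingEnd ℂ) z := by
      simp only [hx, map_add, map_mul, conj_I, Complex.conj_conj]
      ring
    rw [e]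
    exact h
  -- the derivative of the derivative
  have hy' : HasDerivAt (fun x => (starRingEnd ℂ) (y x)) ((starRingEnd ℂ) v) τ :=
    (Complex.conjCLE.hasFDerivAt (x := y τ)).comp_hasDerivAt τ hv
  have hA : HasDerivAt (fun x => I * (z + y x * (starRingEnd ℂ) z))
      (I * (v * (starRingEnd ℂ) z)) τ := by
    have := ((hv.mul_const ((starRingEnd ℂ) z)).const_add z).const_mul I
    exact this
  have hB : HasDerivAt (fun x => -I * ((starRingEnd ℂ) z + (starRingEnd ℂ) (y x) * z))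
      (-I * ((starRingEnd ℂ) v * z)) τ := by
    have := ((hy'.mul_const z).const_add ((starRingEnd ℂ) z)).const_mul (-I)
    exact this
  have hG := ((ha τ).mul hA).add ((hb τ).mul hB)
  have hG' : HasDerivAt (fun x => hx (a x) (b x) (I * (z + y x * (starRingEnd ℂ) z)))
      ((I * (a τ - (starRingEnd ℂ) (y τ) * b τ)) * (I * (z + y τ * (starRingEnd ℂ) z))
        + a τ * (I * (v * (starRingEnd ℂ) z))
        + ((I * (y τ * a τ - b τ)) * (-I * ((starRingEnd ℂ) z + (starRingEnd ℂ) (y τ) * z))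
        + b τ * (-I * ((starRingEnd ℂ) v * z)))) τ := by
    have e : (fun x => hx (a x) (b x) (I * (z + y x * (starRingEnd ℂ) z))) =
        (fun x => a x * (I * (z + y x * (starRingEnd ℂ) z))
          + b x * (-I * ((starRingEnd ℂ) z + (starRingEnd ℂ) (y x) * z))) := by
      funext x
      simp only [hx, map_add, map_mul, conj_I, Complex.conj_conj]
    rw [e]
    exact hG
  rw [← E5_hx (a τ) (b τ) z (y τ) v hz (hn τ)]
  set g0 := hx (a τ) (b τ) (I * (z + y τ * (starRingEnd ℂ) z)) with hg0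
  set g1 := ((I * (a τ - (starRingEnd ℂ) (y τ) * b τ)) * (I * (z + y τ * (starRingEnd ℂ) z))
        + a τ * (I * (v * (starRingEnd ℂ) z))
        + ((I * (y τ * a τ - b τ)) * (-I * ((starRingEnd ℂ) z + (starRingEnd ℂ) (y τ) * z))
        + b τ * (-I * ((starRingEnd ℂ) v * z)))) with hg1
  have k1 := hG'.tendsto_slope_zero_right
  have k2 : Tendsto (fun t : ℝ => g0) (𝓝[>] (0 : ℝ)) (𝓝 g0) := tendsto_const_nhds
  have k3 := (continuous_cr.tendsto (g0, g1)).comp (k2.prodMk_nhds k1)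
  refine ge_of_tendsto k3 ?_
  have hm : 0 < 3 * T := by linarith
  filter_upwards [Ioo_mem_nhdsGT hm] with t ht
  simp only [Set.mem_Ioo] at ht
  show 0 ≤ cr g0 (t⁻¹ • (hx (a (τ + t)) (b (τ + t)) (I * (z + y (τ + t) * (starRingEnd ℂ) z))
    - hx (a τ) (b τ) (I * (z + y τ * (starRingEnd ℂ) z))))
  rw [← hg0, Complex.real_smul, cr_smul_right, cr_sub_right, cr_self, sub_zero]
  refine mul_nonneg (inv_nonneg.mpr ht.1.le) ?_
  exact E5_dir T (fun x => hx (a x) (b x) z) τ t ht.1 ht.2 conv g0 _ (hc τ) (hc (τ + t))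

theorem AC.kap {T : ℝ} {γ : ℝ → ℂ} (h : AC T γ) (y : ℝ → ℂ)
    (ha : ∀ τ, HasDerivAt (av T γ) (I * (av T γ τ - (starRingEnd ℂ) (y τ) * bv T γ τ)) τ)
    (hb : ∀ τ, HasDerivAt (bv T γ) (I * (y τ * av T γ τ - bv T γ τ)) τ)
    (τ : ℝ) (v : ℂ) (hv : HasDerivAt y v τ) : Kap (y τ) v := by
  intro j
  fin_cases j
  · have := E5_main T h.Tpos (av T γ) (bv T γ) y 1 (by simp) (by
      intro s t u v h1 h2 h3 h4
      rw [← (h.g_eq s).1, ← (h.g_eq t).1, ← (h.g_eq u).1, ← (h.g_eq v).1]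
      exact h.conv s t u v h1 h2 h3 h4) ha hb h.ab_norm τ v hv
    rw [one_pow] at this
    exact this
  · have := E5_main T h.Tpos (av T γ) (bv T γ) y ze normSq_ze (by
      intro s t u v h1 h2 h3 h4
      rw [← (h.g_eq s).2.1, ← (h.g_eq t).2.1, ← (h.g_eq u).2.1, ← (h.g_eq v).2.1]
      exact h.conv _ _ _ _ (by linarith) (by linarith) (by linarith) (by linarith))
      ha hb h.ab_norm τ v hv
    rw [← uu_one] at this
    exact this
  · have hz : normSq (ze - 1) = 1 := by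
      have h3 := s3_mul
      rw [normSq_apply, sub_re, sub_im, ze_re, ze_im, one_re, one_im]
      nlinarith
    have hz2 : (ze - 1) ^ 2 = uu 2 := by
      rw [uu_two]
      have : (ze - 1) ^ 2 = ze ^ 2 - 2 * ze + 1 := by ring
      rw [this, ze_sq]
      ring
    have := E5_main T h.Tpos (av T γ) (bv T γ) y (ze - 1) hz (by
      intro s t u v h1 h2 h3 h4
      rw [← (h.g_eq s).2.2, ← (h.g_eq t).2.2, ← (h.g_eq u).2.2, ← (h.g_eq v).2.2]
      exact h.conv _ _ _ _ (by linarith) (by linarith) (by linarith) (by linarith))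
      ha hb h.ab_norm τ v hv
    rw [hz2] at this
    exact this

end Pool.H61.Rh
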