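import Pool.Agent.H61.Rh.E4
import Pool.Agent.H61.Rh.E5

/-! # E6: from curves to the differential system -/

set_option autoImplicit false

namespace Pool.H61.Rh

open Complex Finset

theorem AC.rs {T : ℝ} {γ : ℝ → ℂ} (h : AC T γ) (hT : 3 * T < 2 * s3 * (9025 / 10000)) :
    ∃ a b y : ℝ → ℂ, RS T a b y ∧ b 0 = 0 := by
  obtain ⟨y, hlip, hdom, ha, hb, hy⟩ := h.exists_y hT
  refine ⟨av T γ, bv T γ, y, ⟨h.Tpos, h.Tlow, ha, hb, h.ab_norm, fun τ => (h.ab_qp τ).1,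
    fun τ => (h.ab_qp τ).2, hy, hlip, hdom, ?_⟩, h.ab_init.2⟩
  obtain ⟨C, hC⟩ := hlip
  filter_upwards [hC.ae_differentiableAt_real] with τ hτ
  exact h.kap y ha hb τ _ hτ.hasDerivAt

end Pool.H61.Rh
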