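import Pool.Agent.H61.Rh.G2

/-! # G4: chords of the boundary curve turn to the left

`s ≤ t ≤ u ≤ v ≤ s + π`.  Trivial if `s = t` or `u = v`.  Put `P1..P4 = Gp s, Gp t, Gp u, Gp v`,
`e = P2 - P1`, `H(x) = cr e x`, `D = cr P1 P2 ≥ 0`; `H(P1) = H(P2) = -D`, `H(-P1) = D`.
If `v = s + π`: `H(P4) = D` and `H(P3) ≤ D` (orientation of `P1, P2, -P3`..: i.e.
`cr (P2-P1) (-P1 - P3) ≥ 0`).  If `t = u`: `H(P3) = -D ≤ H(P4)`.
Otherwise `s < t < u < v < s + π`; for `x < y < z < x + π` the strict orientation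
`0 < cr (Gp y - Gp x) (Gp z - Gp x)` holds: `Gp y = α Gp x + β Gp z`, `α + β > 1` (`SN.cone`),
and the cross product is `(α + β - 1) cr (Gp x) (Gp z)`; also with `z = x + π`.
Suppose `H(P4) < H(P3)`.  From the orientations of `(P2,P3,P4)` (strict), `(P3,P4,-P1)`,
`(P2,P3,-P1)` and `H(P3) + D ≥ 0`, `D - H(P3) ≥ 0` one gets a contradiction: with coordinates
`P3 - P2 = (A,B)`, `-P1 - P3 = (X,Y)`, `P4 - P3 = (p,-q)` where the second coordinate is `H`
(so `B, Y ≥ 0`, `q > 0`): `-A q - B p > 0`, `p Y + q X ≥ 0`, `A Y - B X ≥ 0`; then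
`0 ≤ B (pY + qX) = Y (B p) + q (B X) ≤ Y(Bp) + q (A Y) = Y (B p + A q) ≤ 0`, so everything
vanishes; finish by cases.  (The basis is `e` and any vector.) -/

set_option autoImplicit false

namespace Pool.H61.Rh

open Complex Finset

/-- strict orientation of three boundary points -/
private lemma G4_ori {ν : ℂ → ℝ} (h : SN ν) (x y z : ℝ) (h1 : x < y) (h2 : y < z)
    (h3 : z ≤ x + Real.pi) : 0 < cr (Gp ν y - Gp ν x) (Gp ν z - Gp ν x) := by
  rcases eq_or_lt_of_le h3 with rfl | h3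
  · rw [h.Gp_pi]
    have := h.Gp_cr x y h1 h2
    simp only [cr_sub_left, cr_sub_right, cr_neg_right, cr_self]
    rw [cr_swap (Gp ν y) (Gp ν x)]
    linarith
  · obtain ⟨α, β, hα, hβ, he⟩ := h.Gp_comb x y z h1 h2 h3
    have hc := h.Gp_cr x z (h1.trans h2) h3
    have hy : ν (α * Gp ν x + β * Gp ν z) = 1 := by rw [← he]; exact h.Gp_norm y
    have hab := (h.cone (Gp ν x) (Gp ν z) α β hα hβ (h.Gp_norm x) (h.Gp_norm z) hc.ne' hy).1
    have : cr (Gp ν y - Gp ν x) (Gp ν z - Gp ν x) = (α + β - 1) * cr (Gp ν x) (Gp ν z) := by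
      rw [he]
      simp only [cr_sub_left, cr_sub_right, cr_add_left, cr_smul_left, cr_self]
      rw [cr_swap (Gp ν z) (Gp ν x)]
      ring
    rw [this]
    exact mul_pos (by linarith) hc

private lemma G4_id (e a b d : ℂ) : cr e b * cr a d = cr e a * cr b d + cr e d * cr a b := by
  simp only [cr]
  ring

theorem SN.chords {ν : ℂ → ℝ} (h : SN ν) (s t u v : ℝ) (h1 : s ≤ t) (h2 : t ≤ u) (h3 : u ≤ v)
    (h4 : v ≤ s + Real.pi) : 0 ≤ cr (Gp ν t - Gp ν s) (Gp ν v - Gp ν u) := by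
  have hpi := Real.pi_pos
  rcases eq_or_lt_of_le h1 with rfl | h1
  · rw [sub_self, cr_zero_left]
  rcases eq_or_lt_of_le h3 with rfl | h3
  · rw [sub_self, cr_zero_right]
  rcases eq_or_lt_of_le h2 with rfl | h2
  · have := G4_ori h s t v h1 h3 h4
    have e : cr (Gp ν t - Gp ν s) (Gp ν v - Gp ν s) = cr (Gp ν t - Gp ν s) (Gp ν v - Gp ν t) := by
      rw [show Gp ν v - Gp ν s = (Gp ν v - Gp ν t) + (Gp ν t - Gp ν s) by ring, cr_add_right,
        cr_self, add_zero]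
    rw [← e]
    exact this.le
  -- now `s < t < u < v`
  have hY : 0 < cr (Gp ν t - Gp ν s) (-Gp ν s - Gp ν u) := by
    have h5 : Gp ν (u - Real.pi) = -Gp ν u := by
      have := h.Gp_pi (u - Real.pi)
      rw [sub_add_cancel] at this
      rw [this, neg_neg]
    have := G4_ori h (u - Real.pi) s t (by linarith) h1 (by linarith)
    rw [h5] at this
    have e : cr (Gp ν s - -Gp ν u) (Gp ν t - -Gp ν u) = cr (Gp ν t - Gp ν s) (-Gp ν s - Gp ν u) := by
      simp only [cr]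
      simp only [sub_re, sub_im, neg_re, neg_im]
      ring
    rw [← e]
    exact this
  rcases eq_or_lt_of_le h4 with rfl | h4
  · rw [h.Gp_pi]
    exact hY.le
  have hEA : 0 < cr (Gp ν t - Gp ν s) (Gp ν u - Gp ν t) := by
    have := G4_ori h s t u h1 h2 (by linarith)
    rwa [show Gp ν u - Gp ν s = (Gp ν u - Gp ν t) + (Gp ν t - Gp ν s) by ring, cr_add_right,
      cr_self, add_zero] at this
  have hAB : 0 < cr (Gp ν u - Gp ν t) (Gp ν v - Gp ν u) := by
    have := G4_ori h t u v h2 h3 (by linarith)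
    rwa [show Gp ν v - Gp ν t = (Gp ν v - Gp ν u) + (Gp ν u - Gp ν t) by ring, cr_add_right,
      cr_self, add_zero] at this
  have hBD : 0 < cr (Gp ν v - Gp ν u) (-Gp ν s - Gp ν u) := by
    have := G4_ori h u v (s + Real.pi) h3 h4 (by linarith)
    rwa [h.Gp_pi] at this
  have hAD : 0 < cr (Gp ν u - Gp ν t) (-Gp ν s - Gp ν u) := by
    have := G4_ori h t u (s + Real.pi) h2 (by linarith) (by linarith)
    rwa [h.Gp_pi, show -Gp ν s - Gp ν t = (-Gp ν s - Gp ν u) + (Gp ν u - Gp ν t) by ring,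
      cr_add_right, cr_self, add_zero] at this
  have hid := G4_id (Gp ν t - Gp ν s) (Gp ν u - Gp ν t) (Gp ν v - Gp ν u) (-Gp ν s - Gp ν u)
  have hpos : 0 < cr (Gp ν t - Gp ν s) (Gp ν v - Gp ν u) *
      cr (Gp ν u - Gp ν t) (-Gp ν s - Gp ν u) := by
    rw [hid]
    exact add_pos (mul_pos hEA hBD) (mul_pos hY hAB)
  exact ((pos_iff_pos_of_mul_pos hpos).mpr hAD).le

end Pool.H61.Rh
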