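import Pool.Agent.H61.Rh.G3
import Pool.Agent.H61.Rh.G4

/-! # G6b (the parameters; second paragraph of:) configurations inscribed in the unit ball of a strictly convex norm

`t ↦ cr (Gp t) (Gp (σ t))` is continuous and has period `π` (`σ (t+π) = σ t + π` from `cube`), so it
has a minimum at some `t₀`; `p = Gp t₀`, `q = Gp (σ t₀)`.  `k = (√3/2)/cr p q`.  Let
`L = hx a b` be the linear map with `L p = 1`, `L q = ζ` (exists), so `cr (L x) (L y) = k cr x y`,
`L (q - p) = ζ - 1`, `L (-p) = -1`.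
For `t ∈ [t₀, σ t₀]` consider the hexagon `(L Gp t, L Gp (σ t), L Gp (σ (σ t)))`;
`s t = pr (L Gp t) (L Gp (σ t))` is continuous, `s t₀ = 0`, `s (σ t₀) = 1`, and monotone on
`[t₀, σ t₀]`: `3 (s t' - s t) = dt Δp (ζ-1) + dt Δq (-1) + dt Δr (-ζ)` with nonnegative terms,
because of `SN.chords` with the chords `Gp(σ t₀) - Gp(t₀)` etc. (each `Δ` lies in a sector of
`120°`, see A1).  Choose `t_i ∈ [t₀, σ t₀]` with `s t_i = i/N` (`t_0 = t₀`, `t_N = σ t₀`); they are
increasing.  `P i = L Gp t_i`, `Q i = L Gp (σ t_i)`, `Q i - P i = L Gp (σ (σ t_i))`.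
All conditions of `Cfg` follow from `SN.chords` (four parameters within `[x, x + π]`, using
`σ t₀ ≤ σ t_j ≤ σ σ t₀ ≤ σ σ t_j ≤ t₀ + π`), `det` from minimality.
`Ws N P Q = k ∑ cr (Gp (x_i)) (Gp (x_{i+1}))` for the partition
`x = t_0, …, t_N = σ t_0, σ t_1, …, σ t_N = σσ t_0, …, t_0 + π` of length `3N`; `SN.poly_le`. -/

set_option autoImplicit false

namespace Pool.H61.Rh

open Complex Finset MeasureTheory

private lemma G6b_hx_sub (a b x y : ℂ) : hx a b (x - y) = hx a b x - hx a b y := by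
  simp only [hx, map_sub]; ring

private lemma G6b_hx_neg (a b x : ℂ) : hx a b (-x) = -hx a b x := by
  simp only [hx, map_neg]; ring

private lemma G6b_pr_sub (p q p' q' : ℂ) :
    3 * (pr p' q' - pr p q) = dt (p' - p) (ze - 1) + dt (q' - q) (-1) +
      dt ((q' - q) - (p' - p)) (-ze) := by
  simp only [pr, dt, sub_re, sub_im, neg_re, neg_im, one_re, one_im, ze_re, ze_im]
  ring

private lemma G6b_dt1 (x : ℂ) (h1 : 0 ≤ cr x (-1)) (h2 : 0 ≤ cr x (-ze)) :
    0 ≤ dt x (ze - 1) := by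
  have h3 := s3_pos
  have e : s3 * dt x (ze - 1) = cr x (-ze) + cr x (-1) := by
    have := s3_mul
    simp only [dt, cr, sub_re, sub_im, neg_re, neg_im, one_re, one_im, ze_re, ze_im]
    linear_combination (x.im / 2) * this
  by_contra hc
  push Not at hc
  have := mul_neg_of_pos_of_neg h3 hc
  linarith

private lemma G6b_dt2 (x : ℂ) (h1 : 0 ≤ cr (ze - 1) x) (h2 : 0 ≤ cr x (-ze)) :
    0 ≤ dt x (-1) := by
  have h3 := s3_pos
  have e : s3 * dt x (-1) = cr (ze - 1) x + cr x (-ze) := by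
    simp only [dt, cr, sub_re, sub_im, neg_re, neg_im, one_re, one_im, ze_re, ze_im]
    ring
  by_contra hc
  push Not at hc
  have := mul_neg_of_pos_of_neg h3 hc
  linarith

private lemma G6b_dt3 (x : ℂ) (h1 : 0 ≤ cr (ze - 1) x) (h2 : 0 ≤ cr (-1) x) :
    0 ≤ dt x (-ze) := by
  have h3 := s3_pos
  have e : s3 * dt x (-ze) = cr (ze - 1) x + cr (-1) x := by
    have := s3_mul
    simp only [dt, cr, sub_re, sub_im, neg_re, neg_im, one_re, one_im, ze_re, ze_im]
    linear_combination (-x.im / 2) * this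
  by_contra hc
  push Not at hc
  have := mul_neg_of_pos_of_neg h3 hc
  linarith

/-- the parameters `t_i` with equidistant progress -/
theorem SN.exists_params {ν : ℂ → ℝ} (h : SN ν) {σ : ℝ → ℝ} (hσ : NV ν σ) (t0 : ℝ) (a b : ℂ)
    (hp : hx a b (Gp ν t0) = 1) (hq : hx a b (Gp ν (σ t0)) = ze) (k : ℝ) (hk : 0 < k)
    (hL : ∀ x y, cr (hx a b x) (hx a b y) = k * cr x y) (N : ℕ) (hN : 0 < N) :
    ∃ t : ℕ → ℝ, Monotone t ∧ t 0 = t0 ∧ t N = σ t0 ∧
      ∀ i ≤ N, pr (hx a b (Gp ν (t i))) (hx a b (Gp ν (σ (t i)))) = (i : ℝ) / N := by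
  have hσm : Monotone σ := hσ.mono.monotone
  have hcube := hσ.cube t0
  have hg0 : t0 ≤ σ t0 := (hσ.gt t0).le
  have hg1 : σ t0 ≤ σ (σ t0) := (hσ.gt (σ t0)).le
  have hg2 : σ (σ t0) ≤ t0 + Real.pi := by rw [← hcube]; exact (hσ.gt (σ (σ t0))).le
  -- the images of the hexagon
  have hr : ∀ x, hx a b (Gp ν (σ x)) - hx a b (Gp ν x) = hx a b (Gp ν (σ (σ x))) := by
    intro x
    rw [hσ.hex x, G6b_hx_sub]
  have hq2 : hx a b (Gp ν (σ (σ t0))) = ze - 1 := by rw [← hr, hq, hp]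
  have hq3 : hx a b (Gp ν (t0 + Real.pi)) = -1 := by rw [h.Gp_pi, G6b_hx_neg, hp]
  have hch : ∀ s t u v : ℝ, s ≤ t → t ≤ u → u ≤ v → v ≤ s + Real.pi →
      0 ≤ cr (hx a b (Gp ν t) - hx a b (Gp ν s)) (hx a b (Gp ν v) - hx a b (Gp ν u)) := by
    intro s t u v h1 h2 h3 h4
    rw [← G6b_hx_sub, ← G6b_hx_sub, hL]
    exact mul_nonneg hk.le (h.chords s t u v h1 h2 h3 h4)
  -- the three sides
  have hs1 : hx a b (Gp ν (σ t0)) - hx a b (Gp ν t0) = ze - 1 := by rw [hp, hq]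
  have hs2 : hx a b (Gp ν (σ (σ t0))) - hx a b (Gp ν (σ t0)) = -1 := by rw [hq2, hq]; ring
  have hs3 : hx a b (Gp ν (t0 + Real.pi)) - hx a b (Gp ν (σ (σ t0))) = -ze := by
    rw [hq3, hq2]; ring
  set G : ℝ → ℝ := fun x => pr (hx a b (Gp ν x)) (hx a b (Gp ν (σ x))) with hG
  have hG0 : G t0 = 0 := by
    show pr (hx a b (Gp ν t0)) (hx a b (Gp ν (σ t0))) = 0
    rw [hp, hq]
    have := s3_mul
    simp only [pr, one_im, ze_re, ze_im]
    linear_combination (-1 / 12) * this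
  have hG1 : G (σ t0) = 1 := by
    show pr (hx a b (Gp ν (σ t0))) (hx a b (Gp ν (σ (σ t0)))) = 1
    rw [hq, hq2]
    have := s3_mul
    simp only [pr, sub_re, sub_im, one_re, one_im, ze_re, ze_im]
    linear_combination (1 / 12) * this
  have hGc : Continuous G := by
    have c1 := h.Gp_cont
    have c2 : Continuous (fun x => Gp ν (σ x)) := c1.comp hσ.cont
    have c3 : ∀ f : ℝ → ℂ, Continuous f → Continuous (fun x => hx a b (f x)) := by
      intro f hf
      unfold hx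
      exact (continuous_const.mul hf).add (continuous_const.mul (continuous_conj.comp hf))
    have c4 := c3 _ c1
    have c5 := c3 _ c2
    show Continuous (fun x => pr (hx a b (Gp ν x)) (hx a b (Gp ν (σ x))))
    unfold pr
    have r5 := continuous_re.comp c5
    have i4 := continuous_im.comp c4
    have i5 := continuous_im.comp c5
    exact (continuous_const.sub (r5.div_const 2)).add
      (continuous_const.mul ((continuous_const.mul i4).sub i5))
  have hGm : ∀ x ∈ Set.Icc t0 (σ t0), ∀ x' ∈ Set.Icc t0 (σ t0), x ≤ x' → G x ≤ G x' := by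
    rintro x ⟨hx0, hx1⟩ x' ⟨hx0', hx1'⟩ hxx
    have e := G6b_pr_sub (hx a b (Gp ν x)) (hx a b (Gp ν (σ x))) (hx a b (Gp ν x'))
      (hx a b (Gp ν (σ x')))
    have hs := hσm hxx
    have hss := hσm hs
    have s0 := hσm hx0
    have s1 := hσm hx1'
    have ss0 := hσm s0
    have ss1 : σ (σ x') ≤ t0 + Real.pi := by rw [← hcube]; exact hσm s1
    have e3 : (hx a b (Gp ν (σ x')) - hx a b (Gp ν (σ x))) -
        (hx a b (Gp ν x') - hx a b (Gp ν x)) =
        hx a b (Gp ν (σ (σ x'))) - hx a b (Gp ν (σ (σ x))) := by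
      rw [← hr, ← hr]; ring
    rw [e3] at e
    have d1 : 0 ≤ dt (hx a b (Gp ν x') - hx a b (Gp ν x)) (ze - 1) := by
      apply G6b_dt1
      · rw [← hs2]
        exact hch _ _ _ _ hxx hx1' hg1 (by linarith)
      · rw [← hs3]
        exact hch _ _ _ _ hxx (by linarith) hg2 (by linarith)
    have d2 : 0 ≤ dt (hx a b (Gp ν (σ x')) - hx a b (Gp ν (σ x))) (-1) := by
      apply G6b_dt2
      · rw [← hs1]
        exact hch _ _ _ _ hg0 s0 hs (by linarith)
      · rw [← hs3]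
        exact hch _ _ _ _ hs s1 hg2 (by linarith)
    have d3 : 0 ≤ dt (hx a b (Gp ν (σ (σ x'))) - hx a b (Gp ν (σ (σ x)))) (-ze) := by
      apply G6b_dt3
      · rw [← hs1]
        exact hch _ _ _ _ hg0 (by linarith) hss ss1
      · rw [← hs2]
        exact hch _ _ _ _ hg1 ss0 hss (by linarith)
    show pr (hx a b (Gp ν x)) (hx a b (Gp ν (σ x))) ≤ pr (hx a b (Gp ν x')) (hx a b (Gp ν (σ x')))
    linarith
  have hivt : ∀ y : ℝ, ∃ x, y ∈ Set.Icc (0 : ℝ) 1 → x ∈ Set.Icc t0 (σ t0) ∧ G x = y := by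
    intro y
    by_cases hy : y ∈ Set.Icc (0 : ℝ) 1
    · have := intermediate_value_Icc hg0 hGc.continuousOn
      rw [hG0, hG1] at this
      obtain ⟨x, hx, hxy⟩ := this hy
      exact ⟨x, fun _ => ⟨hx, hxy⟩⟩
    · exact ⟨0, fun h => absurd h hy⟩
  choose c hc using hivt
  have hN' : (0 : ℝ) < N := Nat.cast_pos.mpr hN
  have hmem : ∀ i : ℕ, i ≤ N → (i : ℝ) / N ∈ Set.Icc (0 : ℝ) 1 := by
    intro i hi
    refine ⟨by positivity, ?_⟩
    rw [div_le_one hN']
    exact_mod_cast hi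
  let t : ℕ → ℝ := fun i => if i = 0 then t0 else if N ≤ i then σ t0 else c ((i : ℝ) / N)
  have ht0 : t 0 = t0 := if_pos rfl
  have htN : ∀ i, N ≤ i → t i = σ t0 := fun i hi => by
    show (if i = 0 then t0 else if N ≤ i then σ t0 else c ((i : ℝ) / N)) = σ t0
    rw [if_neg (by omega), if_pos hi]
  have htm : ∀ i, 0 < i → i < N → t i = c ((i : ℝ) / N) := fun i h0 hi => by
    show (if i = 0 then t0 else if N ≤ i then σ t0 else c ((i : ℝ) / N)) = _
    rw [if_neg (by omega), if_neg (by omega)]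
  have hval : ∀ i ≤ N, t i ∈ Set.Icc t0 (σ t0) ∧ G (t i) = (i : ℝ) / N := by
    intro i hi
    rcases Nat.eq_zero_or_pos i with h0 | h0
    · subst h0
      rw [ht0, hG0]
      exact ⟨⟨le_refl _, hg0⟩, by simp⟩
    · rcases hi.lt_or_eq with hi' | hi'
      · rw [htm i h0 hi']
        exact hc _ (hmem i hi)
      · subst hi'
        rw [htN i le_rfl, hG1]
        exact ⟨⟨hg0, le_refl _⟩, by rw [div_self hN'.ne']⟩
  refine ⟨t, ?_, ht0, htN N le_rfl, fun i hi => (hval i hi).2⟩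
  refine monotone_nat_of_le_succ fun i => ?_
  rcases lt_or_ge i N with hi | hi
  · obtain ⟨m1, v1⟩ := hval i hi.le
    obtain ⟨m2, v2⟩ := hval (i + 1) hi
    by_contra hlt
    push Not at hlt
    have := hGm _ m2 _ m1 hlt.le
    rw [v1, v2, div_le_div_iff_of_pos_right hN'] at this
    push_cast at this
    linarith
  · rw [htN i hi, htN (i + 1) (by omega)]

end Pool.H61.Rh
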