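import Pool.Agent.H61.Rh.G6a
import Pool.Agent.H61.Rh.G6b
import Pool.Agent.H61.Rh.G5b

/-! # G6: configurations inscribed in the unit ball of a strictly convex norm

`t ↦ cr (Gp t) (Gp (σ t))` is continuous and has period `π` (`σ (t+π) = σ t + π` from `cube`), so it
has a minimum at some `t₀`; `p = Gp t₀`, `q = Gp (σ t₀)`.  `k = (√3/2)/cr p q`.  Let
`L = hx a b` be the linear map with `L p = 1`, `L q = ζ` (exists), so `cr (L x) (L y) = k cr x y`,
`L (q - p) = ζ - 1`, `L (-p) = -1`.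
For `t ∈ [t₀, σ t₀]` consider the hexagon `(L Gp t, L Gp (σ t), L Gp (σ (σ t)))`;
`s t = pr (L Gp t) (L Gp (σ t))` is continuous, `s t₀ = 0`, `s (σ t₀) = 1`, and monotone on
`[t₀, σ t₀]`: `3 (s t' - s t) = dt Δp (ζ-1) + dt Δq (-1) + dt Δr (-ζ)` with nonnegative terms,
because of `SN.chords` with the chords `Gp(σ t₀) - Gp(t₀)` etc. (each `Δ` lies in a sector of
`120°`, see A1).  Choose `t_i ∈ [t₀, σ t₀]` with `s t_i = i/N` (`t_0 = t₀`, `t_N = σ t₀`); they are
increasing.  `P i = L Gp t_i`, `Q i = L Gp (σ t_i)`, `Q i - P i = L Gp (σ (σ t_i))`.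
All conditions of `Cfg` follow from `SN.chords` (four parameters within `[x, x + π]`, using
`σ t₀ ≤ σ t_j ≤ σ σ t₀ ≤ σ σ t_j ≤ t₀ + π`), `det` from minimality.
`Ws N P Q = k ∑ cr (Gp (x_i)) (Gp (x_{i+1}))` for the partition
`x = t_0, …, t_N = σ t_0, σ t_1, …, σ t_N = σσ t_0, …, t_0 + π` of length `3N`; `SN.poly_le`. -/

set_option autoImplicit false

namespace Pool.H61.Rh

open Complex Finset MeasureTheory

private lemma G6_hx_sub (a b x y : ℂ) : hx a b (x - y) = hx a b x - hx a b y := by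
  simp only [hx, map_sub]; ring

/-- the partition of `[t₀, t₀ + π]` -/
private noncomputable def G6_part (N : ℕ) (σ : ℝ → ℝ) (t : ℕ → ℝ) (j : ℕ) : ℝ :=
  if j < N then t j else if j < 2 * N then σ (t (j - N)) else σ (σ (t (j - 2 * N)))

private lemma G6_part1 {N : ℕ} (hN : 0 < N) {σ : ℝ → ℝ} {t : ℕ → ℝ} (h : t N = σ (t 0))
    {i : ℕ} (hi : i ≤ N) : G6_part N σ t i = t i := by
  unfold G6_part
  rcases hi.lt_or_eq with hi | hi
  · rw [if_pos hi]
  · subst hi
    rw [if_neg (lt_irrefl _), if_pos (by omega), Nat.sub_self, h]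

private lemma G6_part2 {N : ℕ} (hN : 0 < N) {σ : ℝ → ℝ} {t : ℕ → ℝ} (h : t N = σ (t 0))
    {i : ℕ} (hi : i ≤ N) : G6_part N σ t (N + i) = σ (t i) := by
  unfold G6_part
  rw [if_neg (by omega)]
  rcases hi.lt_or_eq with hi | hi
  · rw [if_pos (by omega), show N + i - N = i by omega]
  · subst hi
    rw [if_neg (by omega), show i + i - 2 * i = 0 by omega, h]

private lemma G6_part3 {N : ℕ} {σ : ℝ → ℝ} {t : ℕ → ℝ}
    (i : ℕ) : G6_part N σ t (N + N + i) = σ (σ (t i)) := by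
  unfold G6_part
  rw [if_neg (by omega), if_neg (by omega), show N + N + i - 2 * N = i by omega]

private lemma G6_part_mono {N : ℕ} (hN : 0 < N) {σ : ℝ → ℝ} (hσ : Monotone σ) {t : ℕ → ℝ}
    (ht : Monotone t) (h : t N = σ (t 0)) : Monotone (G6_part N σ t) := by
  refine monotone_nat_of_le_succ fun j => ?_
  rcases lt_or_ge j N with hj | hj
  · rw [G6_part1 hN h hj.le, G6_part1 hN h (by omega : j + 1 ≤ N)]
    exact ht (Nat.le_succ j)
  · rcases lt_or_ge j (N + N) with hj2 | hj2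
    · obtain ⟨i, rfl⟩ := Nat.exists_eq_add_of_le hj
      rw [G6_part2 hN h (by omega : i ≤ N), add_assoc, G6_part2 hN h (by omega : i + 1 ≤ N)]
      exact hσ (ht (Nat.le_succ i))
    · obtain ⟨i, rfl⟩ := Nat.exists_eq_add_of_le hj2
      rw [G6_part3 i, add_assoc (N + N) i 1, G6_part3 (i + 1)]
      exact hσ (hσ (ht (Nat.le_succ i)))

private lemma G6_part_sum {N : ℕ} (hN : 0 < N) {σ : ℝ → ℝ} {t : ℕ → ℝ}
    (h : t N = σ (t 0)) (f : ℝ → ℝ → ℝ) :
    ∑ j ∈ Finset.range (N + N + N), f (G6_part N σ t j) (G6_part N σ t (j + 1)) =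
      ∑ i ∈ Finset.range N, (f (t i) (t (i + 1)) + f (σ (t i)) (σ (t (i + 1))) +
        f (σ (σ (t i))) (σ (σ (t (i + 1))))) := by
  rw [Finset.sum_range_add, Finset.sum_range_add, Finset.sum_add_distrib,
    Finset.sum_add_distrib]
  congr 1
  · congr 1
    · refine Finset.sum_congr rfl fun i hi => ?_
      have hi' := Finset.mem_range.mp hi
      rw [G6_part1 hN h hi'.le, G6_part1 hN h (by omega : i + 1 ≤ N)]
    · refine Finset.sum_congr rfl fun i hi => ?_
      have hi' := Finset.mem_range.mp hi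
      rw [G6_part2 hN h hi'.le, add_assoc, G6_part2 hN h (by omega : i + 1 ≤ N)]
  · refine Finset.sum_congr rfl fun i _ => ?_
    rw [G6_part3 i, add_assoc (N + N) i 1, G6_part3 (i + 1)]

theorem SN.core_cfg {ν : ℂ → ℝ} (h : SN ν) :
    ∃ p q : ℂ, ν p = 1 ∧ ν q = 1 ∧ ν (q - p) = 1 ∧ 0 < cr p q ∧
      ∀ N : ℕ, 0 < N → ∃ P Q : ℕ → ℂ, Cfg N P Q ∧
        Ws N P Q ≤ s3 / 2 / cr p q * (volume {z : ℂ | ν z ≤ 1}).toReal := by
  obtain ⟨σ, hσ⟩ := h.exists_nv
  obtain ⟨t0, ht0⟩ := h.exists_t0 hσ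
  have hpq : 0 < cr (Gp ν t0) (Gp ν (σ t0)) := h.Gp_cr t0 (σ t0) (hσ.gt t0) (hσ.lt t0)
  refine ⟨Gp ν t0, Gp ν (σ t0), h.Gp_norm t0, h.Gp_norm (σ t0), hσ.one t0, hpq, ?_⟩
  obtain ⟨a, b, hp, hq, hL⟩ := exists_L (Gp ν t0) (Gp ν (σ t0)) hpq
  set k : ℝ := s3 / 2 / cr (Gp ν t0) (Gp ν (σ t0)) with hk
  have hk0 : 0 < k := div_pos (div_pos s3_pos two_pos) hpq
  intro N hN
  obtain ⟨t, htm, ht00, htN, hprog⟩ := h.exists_params hσ t0 a b hp hq k hk0 hL N hN
  have hσm : Monotone σ := hσ.mono.monotone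
  -- the hexagon relation
  have hr : ∀ x, hx a b (Gp ν (σ x)) - hx a b (Gp ν x) = hx a b (Gp ν (σ (σ x))) := by
    intro x
    rw [hσ.hex x, G6_hx_sub]
  -- bounds for the parameters
  have hlo : ∀ i, t0 ≤ t i := fun i => by rw [← ht00]; exact htm (Nat.zero_le i)
  have hhi : ∀ i, i ≤ N → t i ≤ σ t0 := fun i hi => by rw [← htN]; exact htm hi
  have hcube := hσ.cube t0
  have hg1 : σ t0 ≤ σ (σ t0) := (hσ.gt (σ t0)).le
  have hg2 : σ (σ t0) ≤ σ (σ (σ t0)) := (hσ.gt (σ (σ t0))).le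
  have hslo : ∀ i, σ t0 ≤ σ (t i) := fun i => hσm (hlo i)
  have hshi : ∀ i, i ≤ N → σ (t i) ≤ σ (σ t0) := fun i hi => hσm (hhi i hi)
  have hsslo : ∀ i, σ (σ t0) ≤ σ (σ (t i)) := fun i => hσm (hslo i)
  have hsshi : ∀ i, i ≤ N → σ (σ (t i)) ≤ t0 + Real.pi := fun i hi => by
    rw [← hcube]; exact hσm (hshi i hi)
  have hg0 : t0 ≤ σ t0 := (hσ.gt t0).le
  -- chords
  have hch : ∀ s t u v : ℝ, s ≤ t → t ≤ u → u ≤ v → v ≤ s + Real.pi →
      0 ≤ cr (hx a b (Gp ν t) - hx a b (Gp ν s)) (hx a b (Gp ν v) - hx a b (Gp ν u)) := by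
    intro s t u v h1 h2 h3 h4
    rw [← G6_hx_sub, ← G6_hx_sub, hL]
    exact mul_nonneg hk0.le (h.chords s t u v h1 h2 h3 h4)
  have hch' : ∀ τ : ℕ → ℝ, Monotone τ → (∀ i j, i ≤ N → j ≤ N → τ j ≤ τ i + Real.pi) →
      ∀ i j, i ≤ j → j < N →
      0 ≤ cr (hx a b (Gp ν (τ (i + 1))) - hx a b (Gp ν (τ i)))
        (hx a b (Gp ν (τ (j + 1))) - hx a b (Gp ν (τ j))) := by
    intro τ hτ hb i j hij hj
    rcases hij.lt_or_eq with hij | hij
    · exact hch _ _ _ _ (hτ (Nat.le_succ i)) (hτ hij) (hτ (Nat.le_succ j))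
        (hb i (j + 1) (by omega) (by omega))
    · subst hij
      rw [cr_self]
  have hr' : ∀ i, (hx a b (Gp ν (σ (t (i + 1)))) - hx a b (Gp ν (σ (t i)))) -
      (hx a b (Gp ν (t (i + 1))) - hx a b (Gp ν (t i))) =
      hx a b (Gp ν (σ (σ (t (i + 1))))) - hx a b (Gp ν (σ (σ (t i)))) := by
    intro i
    rw [← hr, ← hr]
    ring
  refine ⟨fun i => hx a b (Gp ν (t i)), fun i => hx a b (Gp ν (σ (t i))), ?_, ?_⟩
  · refine ⟨?_, ?_, ?_, ?_, hprog, ?_, ?_, ?_, ?_, ?_, ?_, ?_⟩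
    · show hx a b (Gp ν (t 0)) = 1
      rw [ht00, hp]
    · show hx a b (Gp ν (σ (t 0))) = ze
      rw [ht00, hq]
    · show hx a b (Gp ν (t N)) = ze
      rw [htN, hq]
    · show hx a b (Gp ν (σ (t N))) = ze - 1
      rw [htN, ← hr, hq, hp]
    · -- cpp
      intro i j hij hj
      refine hch' t htm (fun i j _ hj => ?_) i j hij hj
      have := hhi j hj
      have := hlo i
      linarith
    · -- cqq
      intro i j hij hj
      refine hch' (fun i => σ (t i)) (hσm.comp htm) (fun i j _ hj => ?_) i j hij hj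
      have := hshi j hj
      have := hslo i
      show σ (t j) ≤ σ (t i) + Real.pi
      linarith
    · -- crr
      intro i j hij hj
      show 0 ≤ cr ((hx a b (Gp ν (σ (t (i + 1)))) - hx a b (Gp ν (σ (t i)))) -
        (hx a b (Gp ν (t (i + 1))) - hx a b (Gp ν (t i))))
        ((hx a b (Gp ν (σ (t (j + 1)))) - hx a b (Gp ν (σ (t j)))) -
        (hx a b (Gp ν (t (j + 1))) - hx a b (Gp ν (t j))))
      rw [hr', hr']
      refine hch' (fun i => σ (σ (t i))) (hσm.comp (hσm.comp htm)) (fun i j _ hj => ?_) i j hij hj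
      have := hsshi j hj
      have := hsslo i
      show σ (σ (t j)) ≤ σ (σ (t i)) + Real.pi
      linarith
    · -- cpq
      intro i j hi hj
      refine hch _ _ _ _ (htm (Nat.le_succ i)) ?_ (hσm (htm (Nat.le_succ j))) ?_
      · exact (hhi (i + 1) hi).trans (hslo j)
      · have := hshi (j + 1) hj
        have := hlo i
        linarith
    · -- cpr
      intro i j hi hj
      show 0 ≤ cr (hx a b (Gp ν (t (i + 1))) - hx a b (Gp ν (t i)))
        ((hx a b (Gp ν (σ (t (j + 1)))) - hx a b (Gp ν (σ (t j)))) -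
        (hx a b (Gp ν (t (j + 1))) - hx a b (Gp ν (t j))))
      rw [hr']
      refine hch _ _ _ _ (htm (Nat.le_succ i)) ?_ (hσm (hσm (htm (Nat.le_succ j)))) ?_
      · exact ((hhi (i + 1) hi).trans hg1).trans (hsslo j)
      · have := hsshi (j + 1) hj
        have := hlo i
        linarith
    · -- cqr
      intro i j hi hj
      show 0 ≤ cr (hx a b (Gp ν (σ (t (i + 1)))) - hx a b (Gp ν (σ (t i))))
        ((hx a b (Gp ν (σ (t (j + 1)))) - hx a b (Gp ν (σ (t j)))) -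
        (hx a b (Gp ν (t (j + 1))) - hx a b (Gp ν (t j))))
      rw [hr']
      refine hch _ _ _ _ (hσm (htm (Nat.le_succ i))) ?_ (hσm (hσm (htm (Nat.le_succ j)))) ?_
      · exact (hshi (i + 1) hi).trans (hsslo j)
      · have := hsshi (j + 1) hj
        have := hslo i
        linarith
    · -- det
      intro i _
      show s3 / 2 ≤ cr (hx a b (Gp ν (t i))) (hx a b (Gp ν (σ (t i))))
      rw [hL]
      have h1 := mul_le_mul_of_nonneg_left (ht0 (t i)) hk0.le
      have h2 : k * cr (Gp ν t0) (Gp ν (σ t0)) = s3 / 2 := by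
        rw [hk]; field_simp
      linarith
  · -- the area
    have htN' : t N = σ (t 0) := by rw [htN, ht00]
    have hmono := G6_part_mono hN hσm htm htN'
    have hend : G6_part N σ t (N + N + N) = G6_part N σ t 0 + Real.pi := by
      rw [G6_part3 N, G6_part1 hN htN' (Nat.zero_le N), htN', hσ.cube]
    have hle := h.poly_le (N + N + N) (G6_part N σ t) hmono hend
    rw [G6_part_sum hN htN' (fun x y => cr (Gp ν x) (Gp ν y))] at hle
    have hW : Ws N (fun i => hx a b (Gp ν (t i))) (fun i => hx a b (Gp ν (σ (t i)))) =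
        k * ∑ i ∈ Finset.range N, (cr (Gp ν (t i)) (Gp ν (t (i + 1))) +
          cr (Gp ν (σ (t i))) (Gp ν (σ (t (i + 1)))) +
          cr (Gp ν (σ (σ (t i)))) (Gp ν (σ (σ (t (i + 1)))))) := by
      unfold Ws
      rw [Finset.mul_sum]
      refine Finset.sum_congr rfl fun i _ => ?_
      rw [hr, hr, hL, hL, hL]
      ring
    rw [hW]
    exact mul_le_mul_of_nonneg_left hle hk0.le

end Pool.H61.Rh
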