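import Pool.Agent.H61.Rh.Basic

/-! # H1b: strictly convex approximation of a convex body -/

set_option autoImplicit false

namespace Pool.H61.Rh

open Complex Finset

private lemma H1b_zero_mem (K : Set ℂ) (hc : Convex ℝ K) (hi : (interior K).Nonempty)
    (hs : ∀ x ∈ K, -x ∈ K) : K ∈ nhds (0 : ℂ) := by
  obtain ⟨x, hx⟩ := hi
  have hneg : -x ∈ interior K := by
    rw [mem_interior] at hx ⊢
    obtain ⟨t, ht, hto, hxt⟩ := hx
    refine ⟨-t, ?_, hto.neg, by simpa using hxt⟩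
    intro y hy
    have h1 : -y ∈ K := ht (by simpa using hy)
    have h2 := hs _ h1
    simpa using h2
  have h0 : (0 : ℂ) ∈ interior K := by
    have h := hc.interior hx hneg (by norm_num : (0 : ℝ) ≤ 1 / 2) (by norm_num : (0 : ℝ) ≤ 1 / 2)
      (by norm_num)
    have h2 : ((1 / 2 : ℝ) • x + (1 / 2 : ℝ) • (-x)) = 0 := by
      rw [smul_neg, add_neg_cancel]
    rwa [h2] at h
  exact mem_interior_iff_mem_nhds.mp h0

private lemma H1b_gauge_hom (K : Set ℂ) (hs : ∀ x ∈ K, -x ∈ K) (t : ℝ) (x : ℂ) :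
    gauge K (t * x) = |t| * gauge K x := by
  have hx : ((t : ℂ) * x) = t • x := by rw [real_smul]
  rw [hx]
  rcases le_total 0 t with h | h
  · rw [gauge_smul_of_nonneg h, abs_of_nonneg h, smul_eq_mul]
  · have h2 : t • x = -((-t) • x) := by rw [neg_smul, neg_neg]
    rw [h2, gauge_neg hs, gauge_smul_of_nonneg (by linarith), abs_of_nonpos h, smul_eq_mul]

private lemma H1b_norm_lt (x y : ℂ) (h : cr x y ≠ 0) : ‖x + y‖ < ‖x‖ + ‖y‖ := by
  have h1 : ‖x + y‖ ^ 2 = ‖x‖ ^ 2 + ‖y‖ ^ 2 + 2 * dt x y := by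
    simp only [← normSq_eq_norm_sq, normSq_apply, dt, add_re, add_im]; ring
  have h2 : dt x y ^ 2 + cr x y ^ 2 = (‖x‖ * ‖y‖) ^ 2 := by
    rw [mul_pow]
    simp only [← normSq_eq_norm_sq, normSq_apply, dt, cr]; ring
  have h3 : 0 < cr x y ^ 2 := by positivity
  have h4 : 0 ≤ ‖x‖ * ‖y‖ := by positivity
  have h5 : dt x y < ‖x‖ * ‖y‖ := by nlinarith
  have h6 : 0 ≤ ‖x‖ + ‖y‖ := by positivity
  nlinarith [norm_nonneg (x + y)]

/-- `ν z = gauge K z + ε ‖z‖` with `ε R ≤ η`, `K ⊆ ball 0 R`: `0 ∈ interior K` (symmetry and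
convexity), `gauge K` is a norm (`gauge_add_le`, `gauge_smul` for symmetric sets, positive
because `K` is bounded), `gauge K z ≤ 1 → z ∈ K` (closed), `z ∈ interior K → gauge K z < 1`. -/
theorem sn_of_body (K : Set ℂ) (hc : Convex ℝ K) (hk : IsCompact K) (hi : (interior K).Nonempty)
    (hs : ∀ x ∈ K, -x ∈ K) (η : ℝ) (hη : 0 < η) :
    ∃ ν : ℂ → ℝ, SN ν ∧ (∀ z, ν z ≤ 1 → z ∈ K) ∧ ∀ z ∈ interior K, ν z < 1 + η := by
  have h0 := H1b_zero_mem K hc hi hs
  have habs : Absorbent ℝ K := absorbent_nhds_zero h0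
  obtain ⟨R, hR⟩ := hk.isBounded.exists_norm_le
  set ε : ℝ := η / (|R| + 1) with hε
  have hεpos : 0 < ε := by positivity
  refine ⟨fun z => gauge K z + ε * ‖z‖, ⟨?_, ?_, ?_, ?_⟩, ?_, ?_⟩
  · intro x hx
    have h1 : 0 ≤ gauge K x := gauge_nonneg x
    have h2 : 0 < ‖x‖ := norm_pos_iff.mpr hx
    have h3 : 0 < ε * ‖x‖ := by positivity
    show 0 < gauge K x + ε * ‖x‖
    linarith
  · intro t x
    show gauge K (t * x) + ε * ‖(t : ℂ) * x‖ = |t| * (gauge K x + ε * ‖x‖)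
    rw [H1b_gauge_hom K hs, norm_mul, norm_real, Real.norm_eq_abs]
    ring
  · intro x y
    show gauge K (x + y) + ε * ‖x + y‖ ≤ (gauge K x + ε * ‖x‖) + (gauge K y + ε * ‖y‖)
    have h1 := gauge_add_le hc habs x y
    have h2 := mul_le_mul_of_nonneg_left (norm_add_le x y) hεpos.le
    linarith
  · intro x y hxy
    show gauge K (x + y) + ε * ‖x + y‖ < (gauge K x + ε * ‖x‖) + (gauge K y + ε * ‖y‖)
    have h1 := gauge_add_le hc habs x y
    have h2 := mul_lt_mul_of_pos_left (H1b_norm_lt x y hxy) hεpos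
    linarith
  · intro z hz
    have h1 : gauge K z ≤ 1 := by
      have h2 : 0 ≤ ε * ‖z‖ := by positivity
      have h3 : gauge K z + ε * ‖z‖ ≤ 1 := hz
      linarith
    have h4 := (gauge_le_one_iff_mem_closure hc h0).mp h1
    rwa [hk.isClosed.closure_eq] at h4
  · intro z hz
    have h1 : gauge K z < 1 := (gauge_lt_one_iff_mem_interior hc h0).mpr hz
    have h2 : ‖z‖ ≤ R := hR z (interior_subset hz)
    have h3 : ‖z‖ ≤ |R| + 1 := by linarith [le_abs_self R]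
    have h4 : ε * ‖z‖ ≤ η := by
      calc ε * ‖z‖ ≤ ε * (|R| + 1) := by gcongr
        _ = η := by rw [hε]; field_simp
    show gauge K z + ε * ‖z‖ < 1 + η
    linarith

end Pool.H61.Rh
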