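import Pool.Agent.H61.Rh.A4
import Pool.Agent.H61.Rh.B1
import Pool.Agent.H61.Rh.B3
import Pool.Agent.H61.Rh.D1
import Pool.Agent.H61.Rh.E6
import Pool.Agent.H61.Rh.G6
import Pool.Agent.H61.Rh.H1a
import Pool.Agent.H61.Rh.H1b

/-! # Gen: from a lower bound for the differential system to lattice packings, general constant

If every solution of the differential system `RS` with `b 0 = 0` has `2 √3 c ≤ 3 T`, then every
centrally symmetric convex disk has lattice packings of density at least `c'`, for each `c' < c`. -/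

set_option autoImplicit false

namespace Pool.H61.Rh

open Complex Finset MeasureTheory

/-- the lower bound `2 √3 c` for the area of the closed curves of the differential system -/
def RSBound (c : ℝ) : Prop :=
  ∀ (T : ℝ) (a b y : ℝ → ℂ), RS T a b y → b 0 = 0 → 2 * s3 * c ≤ 3 * T

theorem SN.density_gen {c : ℝ} (hc : c ≤ 9025 / 10000) (H : RSBound c) {ν : ℂ → ℝ} (h : SN ν) :
    ∃ p q : ℂ, ν p = 1 ∧ ν q = 1 ∧ ν (q - p) = 1 ∧ 0 < cr p q ∧
      c * (4 * cr p q) ≤ (volume {z : ℂ | ν z ≤ 1}).toReal := by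
  obtain ⟨p, q, hp, hq, hr, hcr, hcfg⟩ := h.core_cfg
  refine ⟨p, q, hp, hq, hr, hcr, ?_⟩
  by_contra hcon
  push Not at hcon
  set V := (volume {z : ℂ | ν z ≤ 1}).toReal with hV
  set A := s3 / 2 / cr p q * V with hA
  have hAlt : A < 2 * s3 * c := by
    rw [hA, div_mul_eq_mul_div, div_lt_iff₀ hcr]
    have := s3_pos
    nlinarith
  obtain ⟨γ, S, hPC⟩ := exists_PC A (fun k => by
    obtain ⟨P, Q, hC, hW⟩ := hcfg (k + 1) (Nat.succ_pos k)
    obtain ⟨p', q', hC', hd', hW'⟩ := balanced (Nat.succ_pos k) hC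
    refine dc_of_cfg (Nat.succ_pos k) hC' hd' ?_
    push_cast at hW' ⊢
    linarith)
  obtain ⟨T, γ', hAC, hT⟩ := exists_AC hPC
  have hT' : 3 * T < 2 * s3 * c := lt_of_le_of_lt hT hAlt
  obtain ⟨a, b, y, hRS, hb0⟩ := hAC.rs (by
    have := s3_pos
    nlinarith)
  exact absurd (H T a b y hRS hb0) (by linarith)

theorem packing_C_gen {c c' : ℝ} (hc : c ≤ 9025 / 10000) (H : RSBound c) (hc0 : 0 ≤ c')
    (hcc : c' < c) (K : Set ℂ) (hcv : Convex ℝ K) (hk : IsCompact K) (hi : (interior K).Nonempty)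
    (hs : ∀ x ∈ K, -x ∈ K) :
    ∃ v w : ℂ, cr v w ≠ 0 ∧
      (∀ m n : ℤ, ¬ (m = 0 ∧ n = 0) → ∀ x ∈ interior K, x + (m * v + n * w) ∉ interior K) ∧
      c' ≤ (volume K).toReal / |cr v w| := by
  set η : ℝ := (c - c') / 3 with hη
  have hη0 : 0 < η := by rw [hη]; linarith
  have hη1 : η ≤ 1 / 3 := by rw [hη]; linarith
  have hcη : (1 + η) ^ 2 * c' ≤ c := by
    have h1 : c' ≤ 1 := by linarith
    have h2 : (1 + η) ^ 2 * c' = c' + (2 * η + η ^ 2) * c' := by ring
    have h3 : (2 * η + η ^ 2) * c' ≤ (2 * η + η ^ 2) * 1 :=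
      mul_le_mul_of_nonneg_left h1 (by positivity)
    have h4 : η ^ 2 ≤ η * (1 / 3) := by rw [pow_two]; exact mul_le_mul_of_nonneg_left hη1 hη0.le
    have h5 : c - c' = 3 * η := by rw [hη]; ring
    linarith
  obtain ⟨ν, hν, h1, h2⟩ := sn_of_body K hcv hk hi hs η hη0
  obtain ⟨p, q, hp, hq, hr, hcr, hV⟩ := hν.density_gen hc H
  have hR : (0 : ℝ) < 2 * (1 + η) := by positivity
  refine ⟨((2 * (1 + η) : ℝ) : ℂ) * p, ((2 * (1 + η) : ℝ) : ℂ) * q, ?_, ?_, ?_⟩
  · rw [cr_smul_left, cr_smul_right]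
    positivity
  · intro m n hmn x hx hx'
    have e1 : (m : ℂ) * (((2 * (1 + η) : ℝ) : ℂ) * p)
        + n * (((2 * (1 + η) : ℝ) : ℂ) * q)
        = ((2 * (1 + η) : ℝ) : ℂ) * (m * p + n * q) := by ring
    rw [e1] at hx'
    have h3 := hν.lattice_far p q hp hq hr m n hmn
    have h4 : ν (((2 * (1 + η) : ℝ) : ℂ) * (m * p + n * q))
        = 2 * (1 + η) * ν (m * p + n * q) := by
      rw [hν.hom, abs_of_pos hR]
    have h5 := h2 x hx
    have h6 := h2 _ hx'
    have h7 : ν (((2 * (1 + η) : ℝ) : ℂ) * (m * p + n * q)) ≤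
        ν (x + ((2 * (1 + η) : ℝ) : ℂ) * (m * p + n * q)) + ν (-x) := by
      have := hν.tri (x + ((2 * (1 + η) : ℝ) : ℂ) * (m * p + n * q)) (-x)
      rwa [show x + ((2 * (1 + η) : ℝ) : ℂ) * (m * p + n * q) + -x
        = ((2 * (1 + η) : ℝ) : ℂ) * (m * p + n * q) by ring] at this
    rw [hν.neg, h4] at h7
    have h8 : 2 * (1 + η) * 1 ≤ 2 * (1 + η) * ν (m * p + n * q) :=
      mul_le_mul_of_nonneg_left h3 hR.le
    linarith
  · have hsub : {z : ℂ | ν z ≤ 1} ⊆ K := fun z hz => h1 z hz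
    have hfin : volume K ≠ ⊤ := hk.measure_lt_top.ne
    have hle : (volume {z : ℂ | ν z ≤ 1}).toReal ≤ (volume K).toReal :=
      ENNReal.toReal_mono hfin (measure_mono hsub)
    rw [cr_smul_left, cr_smul_right, abs_of_pos (by positivity), le_div_iff₀ (by positivity)]
    have h9 : c' * (2 * (1 + η) * (2 * (1 + η) * cr p q)) = ((1 + η) ^ 2 * c') * (4 * cr p q) := by
      ring
    rw [h9]
    have h10 := mul_le_mul_of_nonneg_right hcη (show (0 : ℝ) ≤ 4 * cr p q by positivity)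
    linarith

theorem packing_R2_gen {c c' : ℝ} (hc : c ≤ 9025 / 10000) (H : RSBound c) (hc0 : 0 ≤ c')
    (hcc : c' < c) (K : Set (ℝ × ℝ)) (hcv : Convex ℝ K) (hk : IsCompact K)
    (hi : (interior K).Nonempty) (hs : ∀ x ∈ K, -x ∈ K) :
    ∃ v w : ℝ × ℝ, v.1 * w.2 - v.2 * w.1 ≠ 0 ∧
      (∀ m n : ℤ, ¬ (m = 0 ∧ n = 0) →
        ∀ x ∈ interior K, x + ((m : ℝ) • v + (n : ℝ) • w) ∉ interior K) ∧
      c' ≤ (volume K).toReal / |v.1 * w.2 - v.2 * w.1| := by
  let e := Complex.equivRealProdCLM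
  have hint : interior (e ⁻¹' K) = e ⁻¹' interior K :=
    (e.toHomeomorph.preimage_interior K).symm
  have hvol : volume (e ⁻¹' K) = volume K := by
    have h1 : MeasurePreserving Complex.measurableEquivRealProd := Complex.volume_preserving_equiv_real_prod
    have h2 := h1.measure_preimage_equiv K
    exact h2
  obtain ⟨v, w, hvw, hpack, hd⟩ := packing_C_gen hc H hc0 hcc (e ⁻¹' K)
    (hcv.linear_preimage e.toLinearEquiv.toLinearMap)
    (e.toHomeomorph.isCompact_preimage.2 hk)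
    (by
      rw [hint]
      obtain ⟨x, hx⟩ := hi
      refine ⟨e.symm x, ?_⟩
      simpa using hx)
    (by
      intro x hx
      have := hs (e x) hx
      simpa using this)
  refine ⟨e v, e w, ?_, ?_, ?_⟩
  · simpa [cr, e] using hvw
  · intro m n hmn x hx hx'
    refine hpack m n hmn (e.symm x) ?_ ?_
    · rw [hint]; simpa using hx
    · rw [hint]
      show e (e.symm x + (m * v + n * w)) ∈ interior K
      have h1 : e (e.symm x + (m * v + n * w)) = x + ((m : ℝ) • e v + (n : ℝ) • e w) := by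
        have h2 : (m : ℂ) * v + n * w = (m : ℝ) • v + (n : ℝ) • w := by
          simp
        rw [h2, map_add, map_add, map_smul, map_smul, ContinuousLinearEquiv.apply_symm_apply]
      rw [h1]
      exact hx'
  · rw [hvol] at hd
    simpa [cr, e] using hd

/-- arbitrary centre of symmetry -/
theorem packing_center_gen {c c' : ℝ} (hc : c ≤ 9025 / 10000) (H : RSBound c) (hc0 : 0 ≤ c')
    (hcc : c' < c) (K : Set (ℝ × ℝ)) (hcv : Convex ℝ K) (hk : IsCompact K)
    (hi : (interior K).Nonempty) (o : ℝ × ℝ) (hs : ∀ x ∈ K, o + o - x ∈ K) :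
    ∃ v w : ℝ × ℝ, v.1 * w.2 - v.2 * w.1 ≠ 0 ∧
      (∀ m n : ℤ, ¬ (m = 0 ∧ n = 0) →
        ∀ x ∈ interior K, x + ((m : ℝ) • v + (n : ℝ) • w) ∉ interior K) ∧
      c' ≤ (volume K).toReal / |v.1 * w.2 - v.2 * w.1| := by
  let e : (ℝ × ℝ) ≃ₜ (ℝ × ℝ) := Homeomorph.addRight o
  have he : ∀ x, e x = x + o := fun x => rfl
  have hint : interior (e ⁻¹' K) = e ⁻¹' interior K := (e.preimage_interior K).symm
  have hvol : volume (e ⁻¹' K) = volume K := by
    have : (e ⁻¹' K) = (fun x => x + o) ⁻¹' K := rfl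
    rw [this]
    exact measure_preimage_add_right volume o K
  obtain ⟨v, w, h1, h2, h3⟩ := packing_R2_gen hc H hc0 hcc (e ⁻¹' K) (by
      have := hcv.translate_preimage_left o
      exact this) (e.isCompact_preimage.mpr hk) (by
      obtain ⟨x, hx⟩ := hi
      refine ⟨x - o, ?_⟩
      rw [hint, Set.mem_preimage, he, sub_add_cancel]
      exact hx) (by
      intro x hx
      rw [Set.mem_preimage, he] at hx ⊢
      have := hs _ hx
      rwa [show o + o - (x + o) = -x + o by abel] at this)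
  refine ⟨v, w, h1, ?_, ?_⟩
  · intro m n hmn x hx hx'
    refine h2 m n hmn (x - o) ?_ ?_
    · rw [hint, Set.mem_preimage, he, sub_add_cancel]
      exact hx
    · rw [hint, Set.mem_preimage, he]
      rwa [show x - o + ((m : ℝ) • v + (n : ℝ) • w) + o = x + ((m : ℝ) • v + (n : ℝ) • w) by abel]
  · rwa [hvol] at h3

end Pool.H61.Rh
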