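import Pool.Agent.H61.Rh.Basic

/-! # Dm: bounds on the domain

`c_j = dt (uu j) y`, `d_j = 1 - 2 c_j`, `∑ c_j = 0`, `∑ c_j² = (3/2) |y|²`, `∑ d_j = 3`,
`d_0 d_1 + d_1 d_2 + d_2 d_0 = 3 (1 - |y|²)`; all `d_j > 0` gives `|y|² < 1`.
`dom_norm`: if all `c_j ≤ m` then (sum zero) all `c_j ≥ -2m`, and `(c_j - m)(c_j + 2m) ≤ 0` summed
gives `(3/2) r² ≤ 6 m²`, so `max c_j ≥ r/2`, `r = ‖y‖`; so some `0 ≤ d_j ≤ 1 - r`, and
`0.059 (1 - r²) ≤ (1-r)²` gives `r ≤ 0.941/1.059 < 0.8887`. -/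

set_option autoImplicit false

namespace Pool.H61.Rh

open Complex Finset

private theorem Dm_coords {y : ℂ} (h : Dom y) :
    (1 / 30 ≤ 1 - 2 * y.re ∧ 59 / 1000 * (1 - normSq y) ≤ (1 - 2 * y.re) ^ 2) ∧
    (1 / 30 ≤ 1 - 2 * (-(y.re / 2) + s3 * y.im / 2) ∧
      59 / 1000 * (1 - normSq y) ≤ (1 - 2 * (-(y.re / 2) + s3 * y.im / 2)) ^ 2) ∧
    (1 / 30 ≤ 1 - 2 * (-(y.re / 2) - s3 * y.im / 2) ∧
      59 / 1000 * (1 - normSq y) ≤ (1 - 2 * (-(y.re / 2) - s3 * y.im / 2)) ^ 2) := by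
  have e0 : dt (uu 0) y = y.re := by
    show (1 : ℂ).re * y.re + (1 : ℂ).im * y.im = y.re
    simp
  have e1 : dt (uu 1) y = -(y.re / 2) + s3 * y.im / 2 := by
    show (-1 / 2 : ℝ) * y.re + s3 / 2 * y.im = _
    ring
  have e2 : dt (uu 2) y = -(y.re / 2) - s3 * y.im / 2 := by
    show (-1 / 2 : ℝ) * y.re + (-(s3 / 2)) * y.im = _
    ring
  have h0 := h 0
  have h1 := h 1
  have h2 := h 2
  rw [e0] at h0
  rw [e1] at h1
  rw [e2] at h2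
  exact ⟨h0, h1, h2⟩

theorem dom_normSq {y : ℂ} (h : Dom y) : normSq y < 1 := by
  obtain ⟨⟨h0, -⟩, ⟨h1, -⟩, ⟨h2, -⟩⟩ := Dm_coords h
  have hs := s3_mul
  rw [normSq_apply]
  have p1 := mul_pos (lt_of_lt_of_le (by norm_num : (0 : ℝ) < 1 / 30) h0)
    (lt_of_lt_of_le (by norm_num : (0 : ℝ) < 1 / 30) h1)
  have p2 := mul_pos (lt_of_lt_of_le (by norm_num : (0 : ℝ) < 1 / 30) h1)
    (lt_of_lt_of_le (by norm_num : (0 : ℝ) < 1 / 30) h2)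
  have p3 := mul_pos (lt_of_lt_of_le (by norm_num : (0 : ℝ) < 1 / 30) h2)
    (lt_of_lt_of_le (by norm_num : (0 : ℝ) < 1 / 30) h0)
  have e : (1 - 2 * y.re) * (1 - 2 * (-(y.re / 2) + s3 * y.im / 2))
      + (1 - 2 * (-(y.re / 2) + s3 * y.im / 2)) * (1 - 2 * (-(y.re / 2) - s3 * y.im / 2))
      + (1 - 2 * (-(y.re / 2) - s3 * y.im / 2)) * (1 - 2 * y.re)
      = 3 - 3 * (y.re * y.re) - (s3 * s3) * (y.im * y.im) := by ring
  rw [hs] at e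
  linarith

theorem dom_norm {y : ℂ} (h : Dom y) : ‖y‖ ≤ 8887 / 10000 := by
  have hlt := dom_normSq h
  obtain ⟨⟨h0, g0⟩, ⟨h1, g1⟩, ⟨h2, g2⟩⟩ := Dm_coords h
  have hs := s3_mul
  have hr0 : 0 ≤ ‖y‖ := norm_nonneg y
  have hr2 : ‖y‖ ^ 2 = y.re * y.re + y.im * y.im := by
    rw [← normSq_eq_norm_sq, normSq_apply]
  rw [normSq_eq_norm_sq] at hlt g0 g1 g2
  set r := ‖y‖ with hr
  have hr1 : r < 1 := lt_of_pow_lt_pow_left₀ 2 (by norm_num) (by simpa using hlt)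
  have fin : ∀ d : ℝ, 1 / 30 ≤ d → d ≤ 1 - r → 59 / 1000 * (1 - r ^ 2) ≤ d ^ 2 →
      r ≤ 8887 / 10000 := by
    intro d hd0 hd1 hd2
    have h3 : d ^ 2 ≤ (1 - r) ^ 2 := pow_le_pow_left₀ (by linarith) hd1 2
    have h4 : (1 - r) * ((1 - r) - 59 / 1000 * (1 + r))
        = (1 - r) ^ 2 - 59 / 1000 * (1 - r ^ 2) := by ring
    have h5 : 0 ≤ (1 - r) - 59 / 1000 * (1 + r) := by
      by_contra hc
      push Not at hc
      have := mul_neg_of_pos_of_neg (by linarith : 0 < 1 - r) hc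
      linarith
    linarith
  by_cases c0 : r / 2 ≤ y.re
  · exact fin _ h0 (by linarith) g0
  by_cases c1 : r / 2 ≤ -(y.re / 2) + s3 * y.im / 2
  · exact fin _ h1 (by linarith) g1
  by_cases c2 : r / 2 ≤ -(y.re / 2) - s3 * y.im / 2
  · exact fin _ h2 (by linarith) g2
  exfalso
  push Not at c0 c1 c2
  have q0 := mul_pos (by linarith : 0 < r / 2 - y.re) (by linarith : 0 < y.re + r)
  have q1 := mul_pos (by linarith : 0 < r / 2 - (-(y.re / 2) + s3 * y.im / 2))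
    (by linarith : 0 < (-(y.re / 2) + s3 * y.im / 2) + r)
  have q2 := mul_pos (by linarith : 0 < r / 2 - (-(y.re / 2) - s3 * y.im / 2))
    (by linarith : 0 < (-(y.re / 2) - s3 * y.im / 2) + r)
  have e : (r / 2 - y.re) * (y.re + r)
      + (r / 2 - (-(y.re / 2) + s3 * y.im / 2)) * ((-(y.re / 2) + s3 * y.im / 2) + r)
      + (r / 2 - (-(y.re / 2) - s3 * y.im / 2)) * ((-(y.re / 2) - s3 * y.im / 2) + r)
      = 3 / 2 * r ^ 2 - 3 / 2 * (y.re * y.re) - (s3 * s3) * (y.im * y.im) / 2 := by ring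
  rw [hs] at e
  linarith

end Pool.H61.Rh
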