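import Pool.Agent.H61.Rh.Basic

/-! # A1: bounds for configurations

Sums telescope: `∑ Δp_j = p N - p 0 = ζ - 1`, `∑ Δq_j = q N - q 0 = -1`,
`∑ Δr_j = -ζ` where `r = q - p`, `Δr_j = Δq_j - Δp_j`.
Summing `cpq, cpr, cqr` over one index gives for every `i < N`
`0 ≤ cr (Δp_i) (-1)`, `0 ≤ cr (Δp_i) (-ζ)`; `0 ≤ cr (ζ - 1) (Δq_i)`, `0 ≤ cr (Δq_i) (-ζ)`;
`0 ≤ cr (ζ - 1) (Δr_i)`, `0 ≤ cr (-1) (Δr_i)`.
So `Δp_i, Δq_i, Δr_i` lie in the sectors of directions `[60°,180°], [120°,240°], [180°,300°]`,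
hence `‖Δp‖ ≤ 2 dt Δp (ζ-1)`, `‖Δq‖ ≤ 2 dt Δq (-1)`, `‖Δr‖ ≤ 2 dt Δr (-ζ)` and all these
dot products are nonnegative; by `prog`, `dt Δp (ζ-1) + dt Δq (-1) + dt Δr (-ζ) = 3 / N`
(identity `3 (pr p' q' - pr p q) = ...`, with `s3 * s3 = 3`).
-/

set_option autoImplicit false

namespace Pool.H61.Rh

open Complex Finset

private lemma A1_sum_p {N : ℕ} (f : ℕ → ℂ) :
    ∑ j ∈ range N, (f (j + 1) - f j) = f N - f 0 := Finset.sum_range_sub f N

private lemma A1_cr_sum_right (x : ℂ) (f : ℕ → ℂ) (s : Finset ℕ) :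
    cr x (∑ j ∈ s, f j) = ∑ j ∈ s, cr x (f j) := by
  classical
  induction s using Finset.induction_on with
  | empty => simp [cr_zero_right]
  | insert a s ha ih => rw [Finset.sum_insert ha, Finset.sum_insert ha, cr_add_right, ih]

private lemma A1_cr_sum_left (x : ℂ) (f : ℕ → ℂ) (s : Finset ℕ) :
    cr (∑ j ∈ s, f j) x = ∑ j ∈ s, cr (f j) x := by
  classical
  induction s using Finset.induction_on with
  | empty => simp [cr_zero_left]
  | insert a s ha ih => rw [Finset.sum_insert ha, Finset.sum_insert ha, cr_add_left, ih]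

private lemma A1_tel_right (x : ℂ) (f : ℕ → ℂ) (N : ℕ)
    (h : ∀ j < N, 0 ≤ cr x (f (j + 1) - f j)) : 0 ≤ cr x (f N - f 0) := by
  rw [← Finset.sum_range_sub f N, A1_cr_sum_right]
  exact Finset.sum_nonneg fun j hj => h j (Finset.mem_range.mp hj)

private lemma A1_tel_left (x : ℂ) (f : ℕ → ℂ) (N : ℕ)
    (h : ∀ j < N, 0 ≤ cr (f (j + 1) - f j) x) : 0 ≤ cr (f N - f 0) x := by
  rw [← Finset.sum_range_sub f N, A1_cr_sum_left]
  exact Finset.sum_nonneg fun j hj => h j (Finset.mem_range.mp hj)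

/-- telescoping on `[i, N]` -/
private lemma A1_tel_right' (x : ℂ) (f : ℕ → ℂ) (i N : ℕ) (hi : i ≤ N)
    (h : ∀ j, i ≤ j → j < N → 0 ≤ cr x (f (j + 1) - f j)) : 0 ≤ cr x (f N - f i) := by
  obtain ⟨k, rfl⟩ := Nat.exists_eq_add_of_le hi
  have := A1_tel_right x (fun j => f (i + j)) k (fun j hj => by
    have := h (i + j) (by omega) (by omega)
    simpa [add_assoc] using this)
  simpa using this

private lemma A1_sq_le {x : ℂ} {D : ℝ} (hD : 0 ≤ D) (h : x.re ^ 2 + x.im ^ 2 ≤ (2 * D) ^ 2) :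
    ‖x‖ ≤ 2 * D := by
  have h1 : ‖x‖ ^ 2 = x.re ^ 2 + x.im ^ 2 := by
    rw [← normSq_eq_norm_sq, normSq_apply]; ring
  nlinarith [norm_nonneg x]

private lemma A1_secp {x : ℂ} (h1 : 0 ≤ cr x (-1)) (h2 : 0 ≤ cr x (-ze)) :
    ‖x‖ ≤ 2 * dt x (ze - 1) := by
  simp only [cr, neg_re, neg_im, one_re, one_im, ze_re, ze_im] at h1 h2
  have e : dt x (ze - 1) = - x.re / 2 + s3 / 2 * x.im := by
    simp only [dt, sub_re, sub_im, one_re, one_im, ze_re, ze_im]; ring
  have h3 := s3_mul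
  have h4 := s3_gt
  have hb : 0 ≤ x.im := by linarith
  have hc : 0 ≤ x.im - s3 * x.re := by linarith
  apply A1_sq_le
  · rw [e]
    have : 0 ≤ s3 * (x.im - s3 * x.re) := mul_nonneg s3_pos.le hc
    nlinarith [mul_nonneg s3_pos.le hb]
  · rw [e]
    nlinarith [mul_nonneg hb hc]

private lemma A1_secq {x : ℂ} (h1 : 0 ≤ cr (ze - 1) x) (h2 : 0 ≤ cr x (-ze)) :
    ‖x‖ ≤ 2 * dt x (-1) := by
  simp only [cr, neg_re, neg_im, one_re, one_im, ze_re, ze_im, sub_re, sub_im] at h1 h2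
  have e : dt x (-1) = - x.re := by
    simp only [dt, neg_re, neg_im, one_re, one_im]; ring
  have h3 := s3_mul
  have h4 := s3_gt
  have hb : 0 ≤ - s3 * x.re - x.im := by linarith
  have hc : 0 ≤ - s3 * x.re + x.im := by linarith
  apply A1_sq_le
  · rw [e]
    nlinarith
  · rw [e]
    nlinarith [mul_nonneg hb hc]

private lemma A1_secr {x : ℂ} (h1 : 0 ≤ cr (ze - 1) x) (h2 : 0 ≤ cr (-1) x) :
    ‖x‖ ≤ 2 * dt x (-ze) := by
  simp only [cr, neg_re, neg_im, one_re, one_im, ze_re, ze_im, sub_re, sub_im] at h1 h2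
  have e : dt x (-ze) = - x.re / 2 - s3 / 2 * x.im := by
    simp only [dt, neg_re, neg_im, ze_re, ze_im]; ring
  have h3 := s3_mul
  have h4 := s3_gt
  have hb : 0 ≤ - x.im := by linarith
  have hc : 0 ≤ - s3 * x.re - x.im := by linarith
  apply A1_sq_le
  · rw [e]
    have : 0 ≤ s3 * (- s3 * x.re - x.im) := mul_nonneg s3_pos.le hc
    nlinarith [mul_nonneg s3_pos.le hb]
  · rw [e]
    nlinarith [mul_nonneg hb hc]

/-- the six sector conditions and the sum of the progress of the three points -/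
theorem Cfg.sector {N : ℕ} {p q : ℕ → ℂ} (hN : 0 < N) (h : Cfg N p q) (i : ℕ) (hi : i < N) :
    0 ≤ cr (p (i + 1) - p i) (-1) ∧ 0 ≤ cr (p (i + 1) - p i) (-ze) ∧
    0 ≤ cr (ze - 1) (q (i + 1) - q i) ∧ 0 ≤ cr (q (i + 1) - q i) (-ze) ∧
    0 ≤ cr (ze - 1) ((q (i + 1) - q i) - (p (i + 1) - p i)) ∧
    0 ≤ cr (-1) ((q (i + 1) - q i) - (p (i + 1) - p i)) ∧
    dt (p (i + 1) - p i) (ze - 1) + dt (q (i + 1) - q i) (-1)
      + dt ((q (i + 1) - q i) - (p (i + 1) - p i)) (-ze) = 3 / N := by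
  have eq0 : q N - q 0 = -1 := by rw [h.qN, h.q0]; ring
  have ep0 : p N - p 0 = ze - 1 := by rw [h.pN, h.p0]
  have er0 : (q N - p N) - (q 0 - p 0) = -ze := by rw [h.qN, h.q0, h.pN, h.p0]; ring
  have er : ∀ j, (q (j + 1) - q j) - (p (j + 1) - p j) = (q (j + 1) - p (j + 1)) - (q j - p j) := by
    intro j; ring
  refine ⟨?_, ?_, ?_, ?_, ?_, ?_, ?_⟩
  · rw [← eq0]
    exact A1_tel_right _ q N fun j hj => h.cpq i j hi hj
  · rw [← er0]
    refine A1_tel_right _ (fun j => q j - p j) N fun j hj => ?_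
    have := h.cpr i j hi hj
    rw [er] at this
    exact this
  · rw [← ep0]
    exact A1_tel_left _ p N fun j hj => h.cpq j i hj hi
  · rw [← er0]
    refine A1_tel_right _ (fun j => q j - p j) N fun j hj => ?_
    have := h.cqr i j hi hj
    rw [er] at this
    exact this
  · rw [← ep0]
    exact A1_tel_left _ p N fun j hj => h.cpr j i hj hi
  · rw [← eq0]
    exact A1_tel_left _ q N fun j hj => h.cqr j i hj hi
  · have h1 := h.prog i hi.le
    have h2 := h.prog (i + 1) hi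
    have hN' : (N : ℝ) ≠ 0 := by positivity
    have h3 : pr (p (i + 1)) (q (i + 1)) - pr (p i) (q i) = 1 / N := by
      rw [h1, h2]; push_cast; field_simp; ring
    have h4 : (3 : ℝ) / N = 3 * (1 / N) := by ring
    rw [h4, ← h3]
    simp only [pr, dt, sub_re, sub_im, neg_re, neg_im, one_re, one_im, ze_re, ze_im]
    ring

/-- steps are at most `6 / N` -/
theorem Cfg.step_le {N : ℕ} {p q : ℕ → ℂ} (hN : 0 < N) (h : Cfg N p q) (i : ℕ) (hi : i < N) :
    ‖p (i + 1) - p i‖ ≤ 6 / N ∧ ‖q (i + 1) - q i‖ ≤ 6 / N ∧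
    ‖(q (i + 1) - q i) - (p (i + 1) - p i)‖ ≤ 6 / N := by
  obtain ⟨h1, h2, h3, h4, h5, h6, h7⟩ := h.sector hN i hi
  have a := A1_secp h1 h2
  have b := A1_secq h3 h4
  have c := A1_secr h5 h6
  have ea := norm_nonneg (p (i + 1) - p i)
  have eb := norm_nonneg (q (i + 1) - q i)
  have ec := norm_nonneg ((q (i + 1) - q i) - (p (i + 1) - p i))
  have e6 : (6 : ℝ) / N = 2 * (3 / N) := by ring
  rw [e6, ← h7]
  refine ⟨?_, ?_, ?_⟩ <;> linarith

/-- all points of the configuration have norm at most `7` -/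
theorem Cfg.bound {N : ℕ} {p q : ℕ → ℂ} (hN : 0 < N) (h : Cfg N p q) (i : ℕ) (hi : i ≤ N) :
    ‖p i‖ ≤ 7 ∧ ‖q i‖ ≤ 7 ∧ ‖q i - p i‖ ≤ 7 := by
  have key : ∀ (f : ℕ → ℂ), ‖f 0‖ = 1 → (∀ j < N, ‖f (j + 1) - f j‖ ≤ 6 / N) → ‖f i‖ ≤ 7 := by
    intro f hf0 hf
    have h1 : ∀ k ≤ N, ‖f k‖ ≤ 1 + k * (6 / N) := by
      intro k
      induction k with
      | zero => intro _; simp [hf0]
      | succ k ih =>
        intro hk
        have a := ih (by omega)
        have b := hf k (by omega)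
        have c : ‖f (k + 1)‖ ≤ ‖f (k + 1) - f k‖ + ‖f k‖ := by
          calc ‖f (k + 1)‖ = ‖(f (k + 1) - f k) + f k‖ := by rw [sub_add_cancel]
            _ ≤ _ := norm_add_le _ _
        push_cast
        linarith
    have h2 := h1 i hi
    have hN' : (0 : ℝ) < N := by exact_mod_cast hN
    have h3 : (i : ℝ) ≤ N := by exact_mod_cast hi
    have h4 : (i : ℝ) * (6 / N) ≤ N * (6 / N) :=
      mul_le_mul_of_nonneg_right h3 (by positivity)
    have h5 : (N : ℝ) * (6 / N) = 6 := by field_simp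
    linarith
  have n1 : ‖ze - 1‖ = 1 := by rw [← ze_sq, norm_pow, norm_ze, one_pow]
  refine ⟨key p (by rw [h.p0]; simp) fun j hj => (h.step_le hN j hj).1,
    key q (by rw [h.q0]; exact norm_ze) fun j hj => (h.step_le hN j hj).2.1,
    key (fun j => q j - p j) (by simp only [h.q0, h.p0]; exact n1) fun j hj => ?_⟩
  have := (h.step_le hN j hj).2.2
  have e : q (j + 1) - p (j + 1) - (q j - p j) = (q (j + 1) - q j) - (p (j + 1) - p j) := by ring
  simp only [e]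
  exact this

/-- radial lower bounds.  `cr (p i) (Δp i) ≥ cr 1 (Δp i)` and `≥ cr ζ (Δp i)` since
`cr (Δp_i) (1 - p i) = ∑_{j<i} cr Δp_j Δp_i ≥ 0`, `cr (Δp_i) (ζ - p i) = ∑_{j≥i} cr Δp_i Δp_j ≥ 0`;
the mean of the two is `(√3/2) dt Δp_i (ζ-1) ≥ (√3/4) ‖Δp_i‖`.  Same for `q` (between `ζ` and
`ζ - 1`, `(√3/2) dt Δq (-1)`) and `r = q - p` (between `ζ - 1` and `-1`, `(√3/2) dt Δr (-ζ)`). -/
theorem Cfg.rad {N : ℕ} {p q : ℕ → ℂ} (hN : 0 < N) (h : Cfg N p q) (i : ℕ) (hi : i < N) :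
    ‖p (i + 1) - p i‖ ≤ 4 * cr (p i) (p (i + 1)) ∧ ‖q (i + 1) - q i‖ ≤ 4 * cr (q i) (q (i + 1)) ∧
    ‖(q (i + 1) - p (i + 1)) - (q i - p i)‖ ≤ 4 * cr (q i - p i) (q (i + 1) - p (i + 1)) ∧
    3 / (2 * N) ≤ cr (p i) (p (i + 1)) + cr (q i) (q (i + 1))
      + cr (q i - p i) (q (i + 1) - p (i + 1)) := by
  obtain ⟨h1, h2, h3, h4, h5, h6, h7⟩ := h.sector hN i hi
  have a := A1_secp h1 h2
  have b := A1_secq h3 h4
  have c := A1_secr h5 h6
  have ea := norm_nonneg (p (i + 1) - p i)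
  have eb := norm_nonneg (q (i + 1) - q i)
  have ec := norm_nonneg ((q (i + 1) - q i) - (p (i + 1) - p i))
  have key : ∀ (f : ℕ → ℂ), (∀ j k, j ≤ k → k < N → 0 ≤ cr (f (j + 1) - f j) (f (k + 1) - f k)) →
      cr (f 0) (f (i + 1) - f i) ≤ cr (f i) (f (i + 1)) ∧
      cr (f N) (f (i + 1) - f i) ≤ cr (f i) (f (i + 1)) := by
    intro f hf
    have e1 : cr (f i) (f (i + 1)) = cr (f i) (f (i + 1) - f i) := by
      rw [cr_sub_right, cr_self, sub_zero]
    constructor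
    · have := A1_tel_left (f (i + 1) - f i) f i fun j hj => hf j i hj.le hi
      rw [cr_sub_left] at this
      rw [e1]; linarith
    · have := A1_tel_right' (f (i + 1) - f i) f i N hi.le fun j hj hjN => hf i j hj hjN
      rw [cr_sub_right, cr_swap _ (f N), cr_swap _ (f i)] at this
      rw [e1]; linarith
  have kp := key p h.cpp
  have kq := key q h.cqq
  have kr := key (fun j => q j - p j) (fun j k hjk hk => by
    have := h.crr j k hjk hk
    have e : ∀ j, q (j + 1) - p (j + 1) - (q j - p j) = (q (j + 1) - q j) - (p (j + 1) - p j) := by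
      intro j; ring
    simp only [e]
    exact this)
  have er : q (i + 1) - p (i + 1) - (q i - p i) = (q (i + 1) - q i) - (p (i + 1) - p i) := by ring
  simp only [er, h.p0, h.q0, h.pN, h.qN] at kp kq kr
  rw [er]
  set x := p (i + 1) - p i with hx
  set y := q (i + 1) - q i with hy
  have hs := s3_mul
  have hs1 := s3_gt
  have fp : cr 1 x + cr ze x = s3 * dt x (ze - 1) := by
    simp only [cr, dt, sub_re, sub_im, one_re, one_im, ze_re, ze_im]
    linear_combination (-(x.im / 2)) * hs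
  have fq : cr ze y + cr (ze - 1) y = s3 * dt y (-1) := by
    simp only [cr, dt, sub_re, sub_im, one_re, one_im, ze_re, ze_im, neg_re, neg_im]
    ring
  have fr : cr (ze - 1) (y - x) + cr (ze - 1 - ze) (y - x) = s3 * dt (y - x) (-ze) := by
    simp only [cr, dt, sub_re, sub_im, one_re, one_im, ze_re, ze_im, neg_re, neg_im]
    linear_combination ((y.im - x.im) / 2) * hs
  have gp : 0 ≤ dt x (ze - 1) := by linarith
  have gq : 0 ≤ dt y (-1) := by linarith
  have gr : 0 ≤ dt (y - x) (-ze) := by linarith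
  have mp : dt x (ze - 1) ≤ s3 * dt x (ze - 1) := by nlinarith
  have mq : dt y (-1) ≤ s3 * dt y (-1) := by nlinarith
  have mr : dt (y - x) (-ze) ≤ s3 * dt (y - x) (-ze) := by nlinarith
  have e3 : (3 : ℝ) / (2 * N) = (3 / N) / 2 := by rw [div_div, mul_comm]
  refine ⟨by linarith [kp.1, kp.2], by linarith [kq.1, kq.2], by linarith [kr.1, kr.2], ?_⟩
  rw [e3, ← h7]
  linarith [kp.1, kp.2, kq.1, kq.2, kr.1, kr.2]

end Pool.H61.Rh
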