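import Pool.Agent.H61.Rh.B2a

/-! # B2b: support functionals and area of inscribed polygons, discrete version

Support: choose the smallest `m' ≥ m` with `e := g (m'+1) - g m' ≠ 0` (exists: otherwise
`g (m + 3N) = g m`, but it is `- g m ≠ 0`); `g m' = g m`; `κ = cr (g m') (g (m'+1)) = cr (g m') e > 0`
by `rad`; `n = e / κ`, `‖n‖ ≤ 4`.  For all `k`: `cr e (g k - g m') ≥ 0`: for
`m' < k ≤ m' + 3N` it is `∑_{m' ≤ l < k} cr e e_l`, for `m' - 3N ≤ k ≤ m'` it is
`∑_{k ≤ l < m'} cr e_l e`; `g` has period `6N`.  With `g (k + 3N) = - g k` this gives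
`|cr e (g k)| ≤ κ`.
Polygon: `cr (g m) (g n) ≤ ∑_{m ≤ k < n} cr (g k) (g (k+1))` for `m ≤ n ≤ m + 3N`
(difference `∑ cr (g k - g m) e_k ≥ 0`), and
`∑_{m ≤ k < m + 3N} cr (g k) (g (k+1)) = 3 S N` for every `m`. -/

set_option autoImplicit false

namespace Pool.H61.Rh

open Complex Finset

private theorem B2b_per {N : ℕ} {A : ℝ} {g : ℤ → ℂ} {S : ℤ → ℝ} (h : DC N A g S) (k j : ℤ) :
    g (k + j * (6 * N)) = g k := by
  have h1 : Function.Periodic g (6 * (N : ℤ)) := by
    intro x
    rw [show x + 6 * (N : ℤ) = x + 3 * N + 3 * N by ring, h.hex3, h.hex3, neg_neg]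
  exact h1.int_mul j k

private theorem B2b_ne {N : ℕ} {A : ℝ} {g : ℤ → ℂ} {S : ℤ → ℝ} (h : DC N A g S) (m : ℤ) :
    g m ≠ 0 := by
  intro h0
  have h1 := h.det m
  rw [h0, cr_zero_left] at h1
  have := s3_pos
  linarith

private theorem B2b_half {N : ℕ} {A : ℝ} {g : ℤ → ℂ} {S : ℤ → ℝ} (hN : 0 < N) (h : DC N A g S)
    (m k : ℤ) : 0 ≤ cr (g (m + 1) - g m) (g k - g m) := by
  have hN' : (0 : ℤ) < N := by exact_mod_cast hN
  have key : ∀ k : ℤ, m - 3 * N + 1 ≤ k → k ≤ m + 3 * N →
      0 ≤ cr (g (m + 1) - g m) (g k - g m) := by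
    intro k h1 h2
    rcases lt_or_ge m k with hk | hk
    · have h3 := h.conv4 m (m + 1) (m + 1) k (by omega) le_rfl (by omega) h2
      have h4 : g k - g m = (g k - g (m + 1)) + (g (m + 1) - g m) := by ring
      rw [h4, cr_add_right, cr_self, add_zero]
      exact h3
    · have h3 := h.conv4 k m m (m + 1) hk le_rfl (by omega) (by omega)
      have h4 : g k - g m = -(g m - g k) := by ring
      rw [h4, cr_neg_right, ← cr_swap]
      exact h3
  have h5 : 0 < 6 * (N : ℤ) := by omega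
  set c : ℤ := m - 3 * N + 1 with hc
  have h6 := Int.emod_nonneg (k - c) (b := 6 * (N : ℤ)) (by omega)
  have h7 := Int.emod_lt_of_pos (k - c) h5
  have h8 := Int.emod_add_ediv_mul (k - c) (6 * (N : ℤ))
  have h9 : g k = g (c + (k - c) % (6 * (N : ℤ))) := by
    rw [← B2b_per h (c + (k - c) % (6 * (N : ℤ))) ((k - c) / (6 * (N : ℤ)))]
    congr 1
    linarith
  rw [h9]
  apply key
  · omega
  · omega

theorem DC.supp {N : ℕ} {A : ℝ} {g : ℤ → ℂ} {S : ℤ → ℝ} (hN : 0 < N) (h : DC N A g S) (m : ℤ) :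
    ∃ n : ℂ, ‖n‖ ≤ 4 ∧ cr n (g m) = -1 ∧ ∀ k, |cr n (g k)| ≤ 1 := by
  classical
  have hex : ∃ a : ℕ, g (m + a + 1) - g (m + a) ≠ 0 := by
    by_contra hc
    push Not at hc
    have h1 : ∀ a : ℕ, g (m + a) = g m := by
      intro a
      induction a with
      | zero => simp
      | succ a ih =>
        have h2 := hc a
        rw [show m + ((a + 1 : ℕ) : ℤ) = m + a + 1 by push_cast; ring]
        rw [← ih]
        exact sub_eq_zero.1 h2
    have h3 := h1 (3 * N)
    have h4 := h.hex3 m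
    push_cast at h3
    rw [h3] at h4
    have h5 : g m = 0 := by
      have : (2 : ℂ) * g m = 0 := by linear_combination h4
      simpa using this
    exact B2b_ne h m h5
  set a := Nat.find hex with ha
  have hea : g (m + a + 1) - g (m + a) ≠ 0 := Nat.find_spec hex
  have hlt : ∀ b : ℕ, b < a → g (m + b + 1) - g (m + b) = 0 := by
    intro b hb
    by_contra hc
    exact Nat.find_min hex hb hc
  have hgm : ∀ b : ℕ, b ≤ a → g (m + b) = g m := by
    intro b
    induction b with
    | zero => simp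
    | succ b ih =>
      intro hb
      have h2 := hlt b (by omega)
      rw [show m + ((b + 1 : ℕ) : ℤ) = m + b + 1 by push_cast; ring]
      rw [← ih (by omega)]
      exact sub_eq_zero.1 h2
  have hga := hgm a le_rfl
  set m' : ℤ := m + a with hm'
  set e : ℂ := g (m' + 1) - g m' with he
  set κ : ℝ := cr (g m') (g (m' + 1)) with hκ
  have hκe : κ = cr (g m') e := by
    rw [hκ, he, cr_sub_right, cr_self, sub_zero]
  have hrad : ‖e‖ ≤ 4 * κ := h.rad m'
  have hepos : 0 < ‖e‖ := norm_pos_iff.2 hea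
  have hκ0 : 0 < κ := by linarith
  have hall : ∀ k, -κ ≤ cr e (g k) := by
    intro k
    have h1 := B2b_half hN h m' k
    rw [← he, cr_sub_right, cr_swap e (g m'), ← hκe] at h1
    linarith
  refine ⟨((1 / κ : ℝ) : ℂ) * e, ?_, ?_, ?_⟩
  · rw [norm_mul, Complex.norm_real, Real.norm_eq_abs, abs_of_pos (by positivity), one_div,
      inv_mul_le_iff₀ hκ0]
    linarith
  · rw [cr_smul_left, ← hga, cr_swap, ← hκe]
    field_simp
  · intro k
    rw [cr_smul_left, abs_mul, abs_of_pos (by positivity : (0 : ℝ) < 1 / κ), one_div,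
      inv_mul_le_iff₀ hκ0, mul_one, abs_le]
    refine ⟨hall k, ?_⟩
    have h1 := hall (k + 3 * N)
    rw [h.hex3, cr_neg_right] at h1
    linarith

/-- twice the area of the sector from `m` to `m + a` -/
private noncomputable def B2b_c (g : ℤ → ℂ) (m : ℤ) (a : ℕ) : ℝ :=
  ∑ k ∈ Finset.range a, cr (g (m + k)) (g (m + k + 1))

private theorem B2b_c_add (g : ℤ → ℂ) (m : ℤ) (a b : ℕ) :
    B2b_c g m (a + b) = B2b_c g m a + B2b_c g (m + a) b := by
  unfold B2b_c
  rw [Finset.sum_range_add]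
  congr 1
  apply Finset.sum_congr rfl
  intro k _
  push_cast
  rw [← add_assoc]

private theorem B2b_le {N : ℕ} {A : ℝ} {g : ℤ → ℂ} {S : ℤ → ℝ} (h : DC N A g S) (m : ℤ)
    (a : ℕ) (ha : a ≤ 3 * N) : cr (g m) (g (m + a)) ≤ B2b_c g m a := by
  induction a with
  | zero => simp [B2b_c, cr_self]
  | succ a ih =>
    have h1 := ih (by omega)
    have h2 := h.conv4 m (m + a) (m + a) (m + a + 1) (by omega) le_rfl (by omega) (by omega)
    rw [cr_sub_left, cr_sub_right, cr_sub_right, cr_self, sub_zero] at h2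
    have h3 : B2b_c g m (a + 1) = B2b_c g m a + cr (g (m + a)) (g (m + a + 1)) := by
      unfold B2b_c
      rw [Finset.sum_range_succ]
    rw [h3, show m + ((a + 1 : ℕ) : ℤ) = m + a + 1 by push_cast; ring]
    linarith

private theorem B2b_total {N : ℕ} {A : ℝ} {g : ℤ → ℂ} {S : ℤ → ℝ} (h : DC N A g S) (m : ℤ) :
    B2b_c g m (3 * N) = 3 * S N := by
  have h1 : B2b_c g m (3 * N) = B2b_c g m N + B2b_c g (m + N) N + B2b_c g (m + 2 * N) N := by
    rw [show 3 * N = N + N + N by ring, B2b_c_add, B2b_c_add]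
    push_cast
    rw [show m + ((N : ℤ) + N) = m + 2 * N by ring]
  have h2 : ∀ a : ℕ, B2b_c g m a + B2b_c g (m + N) a + B2b_c g (m + 2 * N) a =
      3 * (S (m + a) - S m) := by
    intro a
    induction a with
    | zero => simp [B2b_c]
    | succ a ih =>
      have h3 := h.Sst (m + a)
      unfold B2b_c at ih ⊢
      rw [Finset.sum_range_succ, Finset.sum_range_succ, Finset.sum_range_succ,
        show m + ((a + 1 : ℕ) : ℤ) = m + a + 1 by push_cast; ring,
        show m + (N : ℤ) + a = m + a + N by ring, show m + 2 * (N : ℤ) + a = m + a + 2 * N by ring]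
      linarith
  rw [h1, h2 N, h.Sper m]
  ring

theorem DC.poly {N : ℕ} {A : ℝ} {g : ℤ → ℂ} {S : ℤ → ℝ} (hN : 0 < N) (h : DC N A g S)
    (n : ℕ) (t : ℕ → ℤ) (ht : Monotone t) (htn : t n = t 0 + 3 * N) :
    ∑ i ∈ Finset.range n, cr (g (t i)) (g (t (i + 1))) ≤ 3 * S N := by
  have h1 : ∀ j : ℕ, j ≤ n → ∑ i ∈ Finset.range j, cr (g (t i)) (g (t (i + 1))) ≤
      B2b_c g (t 0) (t j - t 0).toNat := by
    intro j
    induction j with
    | zero => simp [B2b_c]
    | succ j ih =>
      intro hj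
      have h2 := ih (by omega)
      have h3 : t 0 ≤ t j := ht (by omega)
      have h4 : t j ≤ t (j + 1) := ht (by omega)
      have h5 : t (j + 1) ≤ t n := ht hj
      have h6 := B2b_le h (t j) (t (j + 1) - t j).toNat (by omega)
      rw [show t j + ((t (j + 1) - t j).toNat : ℤ) = t (j + 1) by omega] at h6
      have h7 : (t (j + 1) - t 0).toNat = (t j - t 0).toNat + (t (j + 1) - t j).toNat := by omega
      rw [Finset.sum_range_succ, h7, B2b_c_add,
        show t 0 + ((t j - t 0).toNat : ℤ) = t j by omega]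
      linarith
  have h8 := h1 n le_rfl
  rw [htn, show (t 0 + 3 * (N : ℤ) - t 0).toNat = 3 * N by omega, B2b_total h] at h8
  exact h8

end Pool.H61.Rh
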