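import Pool.Agent.H61.Rh.Dm

/-! # F4: the admissible derivatives are convex combinations of three vertices

`κ_j = (1-|y|²)(1+c_j) + cr u_j v + cr y v ≥ 0`, `d_j = 1 - 2c_j > 0`, `w = 1 - |y|² > 0`
(`dom_normSq`), `l_j = d_j κ_j / (3 w²)`.  Identities (`c_j = dt u_j y`):
`∑ u_j = 0`, `∑ c_j u_j = (3/2) y`, `∑ (cr u_j v) u_j = (3/2)(-i v)`, so
`∑ d_j κ_j = 3 w²` and `∑ κ_j u_j = (3/2)(w y - i v)`, hence `∑ l_j V_j = v`.
`normSq_V`, `cr_V`: with `h = 1/d_j`, `2 c_j h = h - 1`. -/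

set_option autoImplicit false

namespace Pool.H61.Rh

open Complex Finset

/-- the vertices -/
noncomputable def Vx (y : ℂ) (j : Fin 3) : ℂ :=
  I * ((1 - normSq y : ℝ) : ℂ) *
    (((2 * (1 - normSq y) / (1 - 2 * dt (uu j) y) : ℝ) : ℂ) * uu j - y)

private lemma F4_re0 : (uu 0).re = 1 := rfl
private lemma F4_im0 : (uu 0).im = 0 := rfl
private lemma F4_re1 : (uu 1).re = -1 / 2 := rfl
private lemma F4_im1 : (uu 1).im = s3 / 2 := rfl
private lemma F4_re2 : (uu 2).re = -1 / 2 := rfl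
private lemma F4_im2 : (uu 2).im = -(s3 / 2) := rfl

private lemma F4_normSq_uu (j : Fin 3) : normSq (uu j) = 1 := by
  have h := s3_mul
  fin_cases j
  · rw [normSq_apply]
    show (uu 0).re * (uu 0).re + (uu 0).im * (uu 0).im = 1
    rw [F4_re0, F4_im0]; norm_num
  · rw [normSq_apply]
    show (uu 1).re * (uu 1).re + (uu 1).im * (uu 1).im = 1
    rw [F4_re1, F4_im1]; linear_combination (1 / 4 : ℝ) * h
  · rw [normSq_apply]
    show (uu 2).re * (uu 2).re + (uu 2).im * (uu 2).im = 1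
    rw [F4_re2, F4_im2]; linear_combination (1 / 4 : ℝ) * h

private lemma F4_c0 (y : ℂ) : dt (uu 0) y = y.re := by
  simp only [dt, F4_re0, F4_im0]; ring
private lemma F4_c1 (y : ℂ) : dt (uu 1) y = -y.re / 2 + s3 * y.im / 2 := by
  simp only [dt, F4_re1, F4_im1]; ring
private lemma F4_c2 (y : ℂ) : dt (uu 2) y = -y.re / 2 - s3 * y.im / 2 := by
  simp only [dt, F4_re2, F4_im2]; ring
private lemma F4_r0 (v : ℂ) : cr (uu 0) v = v.im := by
  simp only [cr, F4_re0, F4_im0]; ring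
private lemma F4_r1 (v : ℂ) : cr (uu 1) v = -v.im / 2 - s3 * v.re / 2 := by
  simp only [cr, F4_re1, F4_im1]; ring
private lemma F4_r2 (v : ℂ) : cr (uu 2) v = -v.im / 2 + s3 * v.re / 2 := by
  simp only [cr, F4_re2, F4_im2]; ring

/-- `κ_j` -/
private noncomputable def F4_k (y v : ℂ) (j : Fin 3) : ℝ :=
  (1 - normSq y) * (1 + dt (uu j) y) + cr (uu j) v + cr y v

private lemma F4_sum (y v : ℂ) :
    ∑ j, (1 - 2 * dt (uu j) y) * F4_k y v j = 3 * (1 - normSq y) ^ 2 := by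
  have h := s3_mul
  rw [Fin.sum_univ_three]
  simp only [F4_k, F4_c0, F4_c1, F4_c2, F4_r0, F4_r1, F4_r2]
  have hn : normSq y = y.re * y.re + y.im * y.im := normSq_apply y
  have hc : cr y v = y.re * v.im - y.im * v.re := rfl
  rw [hn, hc]
  linear_combination (-(1 - (y.re * y.re + y.im * y.im)) * y.im * y.im + y.im * v.re) * h

private lemma F4_ksum (y v : ℂ) :
    ∑ j, ((F4_k y v j : ℝ) : ℂ) * uu j = 3 / 2 * (((1 - normSq y : ℝ) : ℂ) * y - I * v) := by
  have h := s3_mul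
  rw [Fin.sum_univ_three]
  apply Complex.ext
  · simp only [add_re, mul_re, ofReal_re, ofReal_im, sub_re, I_re, I_im, F4_re0, F4_im0, F4_re1,
      F4_im1, F4_re2, F4_im2, F4_k, F4_c0, F4_c1, F4_c2, F4_r0, F4_r1, F4_r2, sub_im, mul_im]
    have e1 : (3 / 2 : ℂ).re = 3 / 2 := by norm_num
    have e2 : (3 / 2 : ℂ).im = 0 := by norm_num
    rw [e1, e2]
    ring
  · simp only [add_im, mul_im, mul_re, ofReal_re, ofReal_im, sub_re, I_re, I_im, F4_re0, F4_im0,
      F4_re1, F4_im1, F4_re2, F4_im2, F4_k, F4_c0, F4_c1, F4_c2, F4_r0, F4_r1, F4_r2, sub_im]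
    have e1 : (3 / 2 : ℂ).re = 3 / 2 := by norm_num
    have e2 : (3 / 2 : ℂ).im = 0 := by norm_num
    rw [e1, e2]
    linear_combination ((1 - normSq y) * y.im / 2 - v.re / 2) * h

theorem kap_vertices (y v : ℂ) (hD : Dom y) (hK : Kap y v) :
    ∃ l : Fin 3 → ℝ, (∀ j, 0 ≤ l j) ∧ ∑ j, l j = 1 ∧ v = ∑ j, (l j : ℂ) * Vx y j := by
  have hw : 0 < 1 - normSq y := by have := dom_normSq hD; linarith
  have hd : ∀ j, 0 < 1 - 2 * dt (uu j) y := fun j => by have := (hD j).1; linarith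
  have hk : ∀ j, 0 ≤ F4_k y v j := fun j => hK j
  have hsum1 : ∑ j, (1 - 2 * dt (uu j) y) * F4_k y v j / (3 * (1 - normSq y) ^ 2) = 1 := by
    rw [← Finset.sum_div, F4_sum, div_self (by positivity)]
  refine ⟨fun j => (1 - 2 * dt (uu j) y) * F4_k y v j / (3 * (1 - normSq y) ^ 2), ?_, hsum1, ?_⟩
  · intro j
    have h1 := hd j
    have h2 := hk j
    positivity
  · have hj : ∀ j, (((1 - 2 * dt (uu j) y) * F4_k y v j / (3 * (1 - normSq y) ^ 2) : ℝ) : ℂ) *
        Vx y j = I * (2 / 3) * (((F4_k y v j : ℝ) : ℂ) * uu j) -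
        (((1 - 2 * dt (uu j) y) * F4_k y v j / (3 * (1 - normSq y) ^ 2) : ℝ) : ℂ) *
          (I * ((1 - normSq y : ℝ) : ℂ) * y) := by
      intro j
      have h1 := hd j
      have e : (1 - 2 * dt (uu j) y) * F4_k y v j / (3 * (1 - normSq y) ^ 2) *
          (1 - normSq y) * (2 * (1 - normSq y) / (1 - 2 * dt (uu j) y)) = 2 / 3 * F4_k y v j := by
        have h1' := h1.ne'
        have hw' := hw.ne'
        field_simp
      have e' := congrArg (fun t : ℝ => (t : ℂ)) e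
      simp only [ofReal_mul] at e'
      unfold Vx
      have e3 : (((2 / 3 : ℝ) : ℝ) : ℂ) = 2 / 3 := by push_cast; ring
      rw [e3] at e'
      linear_combination I * uu j * e'
    rw [Finset.sum_congr rfl fun j _ => hj j, Finset.sum_sub_distrib, ← Finset.mul_sum,
      ← Finset.sum_mul, F4_ksum, ← ofReal_sum, hsum1]
    have hI : I * I = -1 := I_mul_I
    push_cast
    linear_combination v * hI

theorem normSq_Vx (y : ℂ) (hD : Dom y) (j : Fin 3) :
    normSq (Vx y j) = 4 * (1 - normSq y) ^ 4 * (1 / (1 - 2 * dt (uu j) y)) ^ 2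
      - 2 * (1 - normSq y) ^ 3 * (1 / (1 - 2 * dt (uu j) y) - 1)
      + (1 - normSq y) ^ 2 * normSq y := by
  have hd : 0 < 1 - 2 * dt (uu j) y := by have := (hD j).1; linarith
  have hu := F4_normSq_uu j
  have h2 : 2 * dt (uu j) y * (1 / (1 - 2 * dt (uu j) y)) = 1 / (1 - 2 * dt (uu j) y) - 1 := by
    have hd' := hd.ne'
    field_simp
    ring
  unfold Vx
  rw [normSq_mul, normSq_mul, normSq_I, one_mul, normSq_ofReal]
  have e1 : 2 * (1 - normSq y) / (1 - 2 * dt (uu j) y) =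
      2 * (1 - normSq y) * (1 / (1 - 2 * dt (uu j) y)) := by ring
  rw [e1]
  generalize 1 / (1 - 2 * dt (uu j) y) = h at h2 ⊢
  generalize hw : 1 - normSq y = w
  have e2 : normSq (((2 * w * h : ℝ) : ℂ) * uu j - y) =
      4 * w ^ 2 * h ^ 2 * normSq (uu j) - 2 * (2 * w * h) * dt (uu j) y + normSq y := by
    simp only [normSq_apply, sub_re, sub_im, mul_re, mul_im, ofReal_re, ofReal_im, dt]
    ring
  rw [e2, hu]
  linear_combination (-2 * w ^ 3) * h2

theorem cr_Vx (y : ℂ) (hD : Dom y) (j : Fin 3) :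
    cr y (Vx y j) = (1 - normSq y) ^ 2 * (1 / (1 - 2 * dt (uu j) y) - 1)
      - (1 - normSq y) * normSq y := by
  have hd : 0 < 1 - 2 * dt (uu j) y := by have := (hD j).1; linarith
  have h2 : 2 * dt (uu j) y * (1 / (1 - 2 * dt (uu j) y)) = 1 / (1 - 2 * dt (uu j) y) - 1 := by
    have hd' := hd.ne'
    field_simp
    ring
  unfold Vx
  have e1 : 2 * (1 - normSq y) / (1 - 2 * dt (uu j) y) =
      2 * (1 - normSq y) * (1 / (1 - 2 * dt (uu j) y)) := by ring
  rw [e1]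
  generalize 1 / (1 - 2 * dt (uu j) y) = h at h2 ⊢
  have e2 : ∀ w : ℝ, cr y (I * ((w : ℝ) : ℂ) * (((2 * w * h : ℝ) : ℂ) * uu j - y)) =
      w * (2 * w * h * dt (uu j) y) - w * normSq y := by
    intro w
    simp only [cr, normSq_apply, sub_re, sub_im, mul_re, mul_im, ofReal_re, ofReal_im, dt, I_re,
      I_im]
    ring
  rw [e2]
  linear_combination (1 - normSq y) ^ 2 * h2

end Pool.H61.Rh
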