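import Pool.Agent.H61.Rh.A1

/-! # A2: existence of a minimiser

The set of all `x : ℕ → ℂ × ℂ` with `Cfg N (fun i => (x i).1) (fun i => (x i).2)` and `x i = 0`
for `i > N` is a closed subset of the compact set `∏ (closedBall 0 7 ×ˢ closedBall 0 7)`
(`isCompact_univ_pi`, `Cfg.bound`), `Fen` is continuous on it (finite sum), so the minimum is
attained; `Fen` and `Cfg` do not depend on the values at indices `> N`. -/

set_option autoImplicit false

namespace Pool.H61.Rh

open Complex Finset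

/-- area plus energy -/
noncomputable def Fen (N : ℕ) (p q : ℕ → ℂ) : ℝ :=
  Ws N p q + ∑ i ∈ Finset.range N, (‖p (i + 1) - p i‖ ^ 2 + ‖q (i + 1) - q i‖ ^ 2)

private theorem A2_iff (N : ℕ) (p q : ℕ → ℂ) : Cfg N p q ↔
    p 0 = 1 ∧ q 0 = ze ∧ p N = ze ∧ q N = ze - 1 ∧
    (∀ i, i ≤ N → pr (p i) (q i) = (i : ℝ) / N) ∧
    (∀ i j, i ≤ j → j < N → 0 ≤ cr (p (i + 1) - p i) (p (j + 1) - p j)) ∧
    (∀ i j, i ≤ j → j < N → 0 ≤ cr (q (i + 1) - q i) (q (j + 1) - q j)) ∧
    (∀ i j, i ≤ j → j < N →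
      0 ≤ cr ((q (i + 1) - q i) - (p (i + 1) - p i)) ((q (j + 1) - q j) - (p (j + 1) - p j))) ∧
    (∀ i j, i < N → j < N → 0 ≤ cr (p (i + 1) - p i) (q (j + 1) - q j)) ∧
    (∀ i j, i < N → j < N →
      0 ≤ cr (p (i + 1) - p i) ((q (j + 1) - q j) - (p (j + 1) - p j))) ∧
    (∀ i j, i < N → j < N →
      0 ≤ cr (q (i + 1) - q i) ((q (j + 1) - q j) - (p (j + 1) - p j))) ∧
    (∀ i, i ≤ N → s3 / 2 ≤ cr (p i) (q i)) :=
  ⟨fun h => ⟨h.p0, h.q0, h.pN, h.qN, h.prog, h.cpp, h.cqq, h.crr, h.cpq, h.cpr, h.cqr, h.det⟩,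
    fun ⟨h1, h2, h3, h4, h5, h6, h7, h8, h9, h10, h11, h12⟩ =>
      ⟨h1, h2, h3, h4, h5, h6, h7, h8, h9, h10, h11, h12⟩⟩

private theorem A2_congr {N : ℕ} {p q p' q' : ℕ → ℂ} (hp : ∀ i, i ≤ N → p' i = p i)
    (hq : ∀ i, i ≤ N → q' i = q i) (h : Cfg N p q) : Cfg N p' q' := by
  refine ⟨?_, ?_, ?_, ?_, ?_, ?_, ?_, ?_, ?_, ?_, ?_, ?_⟩
  · rw [hp 0 (Nat.zero_le _)]; exact h.p0
  · rw [hq 0 (Nat.zero_le _)]; exact h.q0
  · rw [hp N le_rfl]; exact h.pN
  · rw [hq N le_rfl]; exact h.qN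
  · intro i hi
    rw [hp i hi, hq i hi]; exact h.prog i hi
  · intro i j hij hj
    rw [hp (i + 1) (by omega), hp i (by omega), hp (j + 1) (by omega), hp j (by omega)]
    exact h.cpp i j hij hj
  · intro i j hij hj
    rw [hq (i + 1) (by omega), hq i (by omega), hq (j + 1) (by omega), hq j (by omega)]
    exact h.cqq i j hij hj
  · intro i j hij hj
    rw [hp (i + 1) (by omega), hp i (by omega), hp (j + 1) (by omega), hp j (by omega),
      hq (i + 1) (by omega), hq i (by omega), hq (j + 1) (by omega), hq j (by omega)]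
    exact h.crr i j hij hj
  · intro i j hi hj
    rw [hp (i + 1) (by omega), hp i (by omega), hq (j + 1) (by omega), hq j (by omega)]
    exact h.cpq i j hi hj
  · intro i j hi hj
    rw [hp (i + 1) (by omega), hp i (by omega), hq (j + 1) (by omega), hq j (by omega),
      hp (j + 1) (by omega), hp j (by omega)]
    exact h.cpr i j hi hj
  · intro i j hi hj
    rw [hq (i + 1) (by omega), hq i (by omega), hq (j + 1) (by omega), hq j (by omega),
      hp (j + 1) (by omega), hp j (by omega)]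
    exact h.cqr i j hi hj
  · intro i hi
    rw [hp i hi, hq i hi]; exact h.det i hi

private theorem A2_Fen {N : ℕ} {p q p' q' : ℕ → ℂ} (hp : ∀ i, i ≤ N → p' i = p i)
    (hq : ∀ i, i ≤ N → q' i = q i) : Fen N p' q' = Fen N p q := by
  unfold Fen Ws
  congr 1
  · refine Finset.sum_congr rfl fun i hi => ?_
    rw [Finset.mem_range] at hi
    rw [hp (i + 1) (by omega), hp i (by omega), hq (i + 1) (by omega), hq i (by omega)]
  · refine Finset.sum_congr rfl fun i hi => ?_
    rw [Finset.mem_range] at hi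
    rw [hp (i + 1) (by omega), hp i (by omega), hq (i + 1) (by omega), hq i (by omega)]

private theorem A2_cr {f g : (ℕ → ℂ × ℂ) → ℂ} (hf : Continuous f) (hg : Continuous g) :
    Continuous fun x => cr (f x) (g x) :=
  continuous_cr.comp (hf.prodMk hg)

private theorem A2_closed (N : ℕ) :
    IsClosed {x : ℕ → ℂ × ℂ | Cfg N (fun i => (x i).1) (fun i => (x i).2)} := by
  have c1 : ∀ i, Continuous fun x : ℕ → ℂ × ℂ => (x i).1 := fun i => by fun_prop
  have c2 : ∀ i, Continuous fun x : ℕ → ℂ × ℂ => (x i).2 := fun i => by fun_prop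
  have d1 : ∀ i, Continuous fun x : ℕ → ℂ × ℂ => (x (i + 1)).1 - (x i).1 := fun i => by fun_prop
  have d2 : ∀ i, Continuous fun x : ℕ → ℂ × ℂ => (x (i + 1)).2 - (x i).2 := fun i => by fun_prop
  have d3 : ∀ i, Continuous fun x : ℕ → ℂ × ℂ =>
      ((x (i + 1)).2 - (x i).2) - ((x (i + 1)).1 - (x i).1) := fun i => by fun_prop
  simp only [A2_iff, Set.ofPred_and, Set.ofPred_forall]
  refine (isClosed_eq (c1 0) continuous_const).inter ((isClosed_eq (c2 0) continuous_const).inter
    ((isClosed_eq (c1 N) continuous_const).inter ((isClosed_eq (c2 N) continuous_const).inter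
    (IsClosed.inter ?_ (IsClosed.inter ?_ (IsClosed.inter ?_ (IsClosed.inter ?_ (IsClosed.inter ?_
    (IsClosed.inter ?_ (IsClosed.inter ?_ ?_))))))))))
  · refine isClosed_iInter fun i => isClosed_iInter fun _ => isClosed_eq ?_ continuous_const
    unfold pr
    fun_prop
  · exact isClosed_iInter fun i => isClosed_iInter fun j => isClosed_iInter fun _ =>
      isClosed_iInter fun _ => isClosed_le continuous_const (A2_cr (d1 i) (d1 j))
  · exact isClosed_iInter fun i => isClosed_iInter fun j => isClosed_iInter fun _ =>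
      isClosed_iInter fun _ => isClosed_le continuous_const (A2_cr (d2 i) (d2 j))
  · exact isClosed_iInter fun i => isClosed_iInter fun j => isClosed_iInter fun _ =>
      isClosed_iInter fun _ => isClosed_le continuous_const (A2_cr (d3 i) (d3 j))
  · exact isClosed_iInter fun i => isClosed_iInter fun j => isClosed_iInter fun _ =>
      isClosed_iInter fun _ => isClosed_le continuous_const (A2_cr (d1 i) (d2 j))
  · exact isClosed_iInter fun i => isClosed_iInter fun j => isClosed_iInter fun _ =>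
      isClosed_iInter fun _ => isClosed_le continuous_const (A2_cr (d1 i) (d3 j))
  · exact isClosed_iInter fun i => isClosed_iInter fun j => isClosed_iInter fun _ =>
      isClosed_iInter fun _ => isClosed_le continuous_const (A2_cr (d2 i) (d3 j))
  · exact isClosed_iInter fun i => isClosed_iInter fun _ =>
      isClosed_le continuous_const (A2_cr (c1 i) (c2 i))

private theorem A2_cont (N : ℕ) :
    Continuous fun x : ℕ → ℂ × ℂ => Fen N (fun i => (x i).1) (fun i => (x i).2) := by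
  unfold Fen Ws
  refine Continuous.add ?_ ?_
  · refine continuous_finsetSum _ fun i _ => ?_
    exact ((A2_cr (by fun_prop) (by fun_prop)).add (A2_cr (by fun_prop) (by fun_prop))).add
      (A2_cr (by fun_prop) (by fun_prop))
  · refine continuous_finsetSum _ fun i _ => ?_
    fun_prop

theorem exists_min {N : ℕ} {p q : ℕ → ℂ} (hN : 0 < N) (h : Cfg N p q) :
    ∃ p' q' : ℕ → ℂ, Cfg N p' q' ∧ ∀ p'' q'' : ℕ → ℂ, Cfg N p'' q'' → Fen N p' q' ≤ Fen N p'' q'' := by
  have key : ∀ p q : ℕ → ℂ, Cfg N p q → ∃ x : ℕ → ℂ × ℂ,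
      x ∈ Set.univ.pi (fun _ : ℕ => Metric.closedBall (0 : ℂ × ℂ) 7) ∩
        {x : ℕ → ℂ × ℂ | Cfg N (fun i => (x i).1) (fun i => (x i).2)} ∧
      Fen N (fun i => (x i).1) (fun i => (x i).2) = Fen N p q := by
    intro p q h
    have e1 : ∀ i, i ≤ N → (if i ≤ N then (p i, q i) else (0 : ℂ × ℂ)).1 = p i := by
      intro i hi
      rw [if_pos hi]
    have e2 : ∀ i, i ≤ N → (if i ≤ N then (p i, q i) else (0 : ℂ × ℂ)).2 = q i := by
      intro i hi
      rw [if_pos hi]
    refine ⟨fun i => if i ≤ N then (p i, q i) else 0, ⟨?_, ?_⟩, ?_⟩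
    · intro i _
      change (if i ≤ N then (p i, q i) else (0 : ℂ × ℂ)) ∈ Metric.closedBall (0 : ℂ × ℂ) 7
      rw [mem_closedBall_zero_iff]
      split_ifs with hi
      · obtain ⟨h1, h2, -⟩ := h.bound hN i hi
        exact max_le h1 h2
      · rw [norm_zero]
        norm_num
    · exact A2_congr e1 e2 h
    · exact A2_Fen e1 e2
  have hK : IsCompact (Set.univ.pi (fun _ : ℕ => Metric.closedBall (0 : ℂ × ℂ) 7) ∩
      {x : ℕ → ℂ × ℂ | Cfg N (fun i => (x i).1) (fun i => (x i).2)}) :=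
    (isCompact_univ_pi fun _ => isCompact_closedBall _ _).inter_right (A2_closed N)
  obtain ⟨x0, hx0, -⟩ := key p q h
  obtain ⟨x, hx, hmin⟩ := hK.exists_isMinOn ⟨x0, hx0⟩ (A2_cont N).continuousOn
  refine ⟨fun i => (x i).1, fun i => (x i).2, hx.2, fun p'' q'' h'' => ?_⟩
  obtain ⟨y, hy, e⟩ := key p'' q'' h''
  rw [← e]
  exact hmin hy

end Pool.H61.Rh
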