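import Pool.Agent.H61.Rh.A2

/-! # A3b: at a minimiser, a hexagon of determinant `> √3/2` is the midpoint of its neighbours

Let `i + 1` be the index (`i + 1 < N`), `x = p (i+2) - p (i+1)`, `y = p (i+1) - p i`,
`m = (x - y)/2` (and the same for `q`).  For small `s ∈ (0,1]` replace `p (i+1)` by
`p (i+1) + s m_p`, `q (i+1)` by `q (i+1) + s m_q` (`Function.update`).  The new steps are
`y + s m = (1 - s/2) y + (s/2) x`, `x - s m = (s/2) y + (1 - s/2) x`, nonnegative combinations of
old steps, so all convexity conditions stay true (bilinearity; `cr y' x' = ((1-s/2)² - (s/2)²) cr y x`);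
`prog` is affine: `pr` of the midpoint is `(i + (i+2))/(2N) = (i+1)/N`; `det` stays `≥ √3/2` for
small `s` by continuity.  Change of `Ws` : `- s (cr y_p x_p + cr y_q x_q + cr y_r x_r) ≤ 0`
(since `cr (p i) P + cr P (p (i+2)) = cr P (p (i+2) - p i)` is linear in `P`, and
`cr m (x + y) = - cr y x`).  Change of the energy: `- 2 s (2 - s) (‖m_p‖² + ‖m_q‖²)`.
By minimality `m_p = m_q = 0`. -/

set_option autoImplicit false

namespace Pool.H61.Rh

open Complex Finset

/-- two sums differing at two consecutive places only -/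
private theorem A3b_sum {N : ℕ} (f g : ℕ → ℝ) (i : ℕ) (hi : i + 1 < N)
    (h : ∀ j, j ≠ i → j ≠ i + 1 → f j = g j) :
    ∑ j ∈ Finset.range N, f j = ∑ j ∈ Finset.range N, g j
      + ((f i - g i) + (f (i + 1) - g (i + 1))) := by
  have h1 : ∑ j ∈ Finset.range N, (f j - g j) = ∑ j ∈ ({i, i + 1} : Finset ℕ), (f j - g j) := by
    symm
    apply Finset.sum_subset
    · intro j hj
      simp only [Finset.mem_insert, Finset.mem_singleton] at hj
      rw [Finset.mem_range]
      omega
    · intro j _ hj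
      simp only [Finset.mem_insert, Finset.mem_singleton, not_or] at hj
      rw [h j hj.1 hj.2, sub_self]
  rw [Finset.sum_pair (by omega), Finset.sum_sub_distrib] at h1
  linarith

/-- change of the area term -/
private theorem A3b_cr (a b c : ℂ) (s : ℝ) :
    (cr a (b + s * ((c - b) - (b - a)) / 2) - cr a b)
      + (cr (b + s * ((c - b) - (b - a)) / 2) c - cr b c) = - (s * cr (b - a) (c - b)) := by
  have e : (b + s * ((c - b) - (b - a)) / 2 : ℂ) = b + ((s / 2 : ℝ) : ℂ) * ((c - b) - (b - a)) := by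
    push_cast
    ring
  rw [e]
  simp only [cr_add_left, cr_add_right, cr_smul_left, cr_smul_right, cr_sub_left, cr_sub_right,
    cr_self]
  ring

/-- change of the energy -/
private theorem A3b_sq (a b c : ℂ) (s : ℝ) :
    (‖b + s * ((c - b) - (b - a)) / 2 - a‖ ^ 2 - ‖b - a‖ ^ 2)
      + (‖c - (b + s * ((c - b) - (b - a)) / 2)‖ ^ 2 - ‖c - b‖ ^ 2)
      = - (s * (1 - s / 2)) * ‖(c - b) - (b - a)‖ ^ 2 := by
  have e : (b + s * ((c - b) - (b - a)) / 2 : ℂ) = b + ((s / 2 : ℝ) : ℂ) * ((c - b) - (b - a)) := by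
    push_cast
    ring
  rw [e]
  simp only [← normSq_eq_norm_sq, normSq_apply, sub_re, sub_im, add_re, add_im, mul_re, mul_im,
    ofReal_re, ofReal_im]
  ring

/-- decrease of the functional -/
theorem fen_modify {N : ℕ} {p q : ℕ → ℂ} (h : Cfg N p q) (i : ℕ) (hi : i + 1 < N)
    (s : ℝ) (hs : 0 < s) (hs1 : s ≤ 1) :
    Fen N (Function.update p (i + 1)
          (p (i + 1) + s * ((p (i + 2) - p (i + 1)) - (p (i + 1) - p i)) / 2))
        (Function.update q (i + 1)
          (q (i + 1) + s * ((q (i + 2) - q (i + 1)) - (q (i + 1) - q i)) / 2)) ≤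
      Fen N p q - s / 2 * (‖(p (i + 2) - p (i + 1)) - (p (i + 1) - p i)‖ ^ 2
        + ‖(q (i + 2) - q (i + 1)) - (q (i + 1) - q i)‖ ^ 2) := by
  set P : ℂ := p (i + 1) + s * ((p (i + 2) - p (i + 1)) - (p (i + 1) - p i)) / 2 with hP
  set Q : ℂ := q (i + 1) + s * ((q (i + 2) - q (i + 1)) - (q (i + 1) - q i)) / 2 with hQ
  set p' := Function.update p (i + 1) P with hp'
  set q' := Function.update q (i + 1) Q with hq'
  have pe : ∀ j, j ≠ i + 1 → p' j = p j := fun j hj => Function.update_of_ne hj _ _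
  have qe : ∀ j, j ≠ i + 1 → q' j = q j := fun j hj => Function.update_of_ne hj _ _
  have pi1 : p' (i + 1) = P := Function.update_self _ _ _
  have qi1 : q' (i + 1) = Q := Function.update_self _ _ _
  have pi0 : p' i = p i := pe i (by omega)
  have qi0 : q' i = q i := qe i (by omega)
  have pi2 : p' (i + 1 + 1) = p (i + 2) := pe (i + 2) (by omega)
  have qi2 : q' (i + 1 + 1) = q (i + 2) := qe (i + 2) (by omega)
  have key : ∀ u v : ℕ → ℂ, Fen N u v = ∑ j ∈ Finset.range N,
      ((cr (u j) (u (j + 1)) + cr (v j) (v (j + 1)) + cr (v j - u j) (v (j + 1) - u (j + 1)))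
        + (‖u (j + 1) - u j‖ ^ 2 + ‖v (j + 1) - v j‖ ^ 2)) := by
    intro u v
    unfold Fen Ws
    rw [← Finset.sum_add_distrib]
  rw [key p' q', key p q]
  rw [A3b_sum _ (fun j => ((cr (p j) (p (j + 1)) + cr (q j) (q (j + 1))
        + cr (q j - p j) (q (j + 1) - p (j + 1)))
        + (‖p (j + 1) - p j‖ ^ 2 + ‖q (j + 1) - q j‖ ^ 2))) i hi ?_]
  · have hR : Q - P = (q (i + 1) - p (i + 1)) + s * (((q (i + 2) - p (i + 2))
        - (q (i + 1) - p (i + 1))) - ((q (i + 1) - p (i + 1)) - (q i - p i))) / 2 := by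
      rw [hP, hQ]
      ring
    have c1 := A3b_cr (p i) (p (i + 1)) (p (i + 2)) s
    have c2 := A3b_cr (q i) (q (i + 1)) (q (i + 2)) s
    have c3 := A3b_cr (q i - p i) (q (i + 1) - p (i + 1)) (q (i + 2) - p (i + 2)) s
    have e1 := A3b_sq (p i) (p (i + 1)) (p (i + 2)) s
    have e2 := A3b_sq (q i) (q (i + 1)) (q (i + 2)) s
    rw [← hP] at c1 e1
    rw [← hQ] at c2 e2
    rw [← hR] at c3
    have n1 := h.cpp i (i + 1) (by omega) hi
    have n2 := h.cqq i (i + 1) (by omega) hi
    have n3 := h.crr i (i + 1) (by omega) hi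
    have n3' : 0 ≤ cr (q (i + 1) - p (i + 1) - (q i - p i))
        (q (i + 2) - p (i + 2) - (q (i + 1) - p (i + 1))) := by
      have : cr (q (i + 1) - p (i + 1) - (q i - p i))
          (q (i + 2) - p (i + 2) - (q (i + 1) - p (i + 1))) =
          cr ((q (i + 1) - q i) - (p (i + 1) - p i))
            ((q (i + 1 + 1) - q (i + 1)) - (p (i + 1 + 1) - p (i + 1))) := by
        congr 1 <;> ring
      rw [this]
      exact n3
    have m1 := mul_nonneg hs.le n1
    have m2 := mul_nonneg hs.le n2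
    have m3 := mul_nonneg hs.le n3'
    have w1 : s / 2 * ‖(p (i + 2) - p (i + 1)) - (p (i + 1) - p i)‖ ^ 2 ≤
        (s * (1 - s / 2)) * ‖(p (i + 2) - p (i + 1)) - (p (i + 1) - p i)‖ ^ 2 :=
      mul_le_mul_of_nonneg_right (by nlinarith) (sq_nonneg _)
    have w2 : s / 2 * ‖(q (i + 2) - q (i + 1)) - (q (i + 1) - q i)‖ ^ 2 ≤
        (s * (1 - s / 2)) * ‖(q (i + 2) - q (i + 1)) - (q (i + 1) - q i)‖ ^ 2 :=
      mul_le_mul_of_nonneg_right (by nlinarith) (sq_nonneg _)
    simp only [pi0, pi1, pi2, qi0, qi1, qi2] at *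
    linarith
  · intro j hj0 hj1
    have a1 : p' j = p j := pe j hj1
    have a2 : q' j = q j := qe j hj1
    have a3 : p' (j + 1) = p (j + 1) := pe _ (by omega)
    have a4 : q' (j + 1) = q (j + 1) := qe _ (by omega)
    simp only [a1, a2, a3, a4]

end Pool.H61.Rh
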