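import Pool.Agent.H61.Rh.A3a
import Pool.Agent.H61.Rh.A3b

/-! # A3: at a minimiser, a hexagon of determinant `> √3/2` is the midpoint of its neighbours

Let `i + 1` be the index (`i + 1 < N`), `x = p (i+2) - p (i+1)`, `y = p (i+1) - p i`,
`m = (x - y)/2` (and the same for `q`).  For small `s ∈ (0,1]` replace `p (i+1)` by
`p (i+1) + s m_p`, `q (i+1)` by `q (i+1) + s m_q` (`Function.update`).  The new steps are
`y + s m = (1 - s/2) y + (s/2) x`, `x - s m = (s/2) y + (1 - s/2) x`, nonnegative combinations of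
old steps, so all convexity conditions stay true (bilinearity; `cr y' x' = ((1-s/2)² - (s/2)²) cr y x`);
`prog` is affine: `pr` of the midpoint is `(i + (i+2))/(2N) = (i+1)/N`; `det` stays `≥ √3/2` for
small `s` by continuity.  Change of `Ws` : `- s (cr y_p x_p + cr y_q x_q + cr y_r x_r) ≤ 0`
(since `cr (p i) P + cr P (p (i+2)) = cr P (p (i+2) - p i)` is linear in `P`, and
`cr m (x + y) = - cr y x`).  Change of the energy: `- 2 s (2 - s) (‖m_p‖² + ‖m_q‖²)`.
By minimality `m_p = m_q = 0`. -/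

set_option autoImplicit false

namespace Pool.H61.Rh

open Complex Finset

private theorem A3_mid {a b c : ℂ} (h : (c - b) - (b - a) = 0) : b = (a + c) / 2 := by
  have h2 : (2 : ℂ) ≠ 0 := two_ne_zero
  rw [eq_div_iff h2]
  linear_combination -h

theorem mid_of_min {N : ℕ} {p q : ℕ → ℂ} (h : Cfg N p q)
    (hmin : ∀ p'' q'' : ℕ → ℂ, Cfg N p'' q'' → Fen N p q ≤ Fen N p'' q'')
    (i : ℕ) (hi : i + 1 < N) (hd : s3 / 2 < cr (p (i + 1)) (q (i + 1))) :
    p (i + 1) = (p i + p (i + 2)) / 2 ∧ q (i + 1) = (q i + q (i + 2)) / 2 := by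
  obtain ⟨s₀, hs₀, hmod⟩ := cfg_modify h i hi hd
  have hs : 0 < min s₀ 1 := lt_min hs₀ one_pos
  have h1 := hmin _ _ (hmod (min s₀ 1) hs (min_le_left _ _))
  have h2 := fen_modify h i hi (min s₀ 1) hs (min_le_right _ _)
  set A : ℝ := ‖(p (i + 2) - p (i + 1)) - (p (i + 1) - p i)‖ with hA
  set B : ℝ := ‖(q (i + 2) - q (i + 1)) - (q (i + 1) - q i)‖ with hB
  have h3 : min s₀ 1 / 2 * (A ^ 2 + B ^ 2) ≤ 0 := by linarith
  have h4 : A ^ 2 + B ^ 2 ≤ 0 := by
    by_contra hcon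
    push Not at hcon
    have : 0 < min s₀ 1 / 2 * (A ^ 2 + B ^ 2) := mul_pos (by linarith) hcon
    linarith
  have hA0 : A = 0 := by
    have : A ^ 2 = 0 := le_antisymm (by nlinarith [sq_nonneg B]) (sq_nonneg A)
    exact pow_eq_zero_iff two_ne_zero |>.mp this
  have hB0 : B = 0 := by
    have : B ^ 2 = 0 := le_antisymm (by nlinarith [sq_nonneg A]) (sq_nonneg B)
    exact pow_eq_zero_iff two_ne_zero |>.mp this
  rw [hA, norm_eq_zero] at hA0
  rw [hB, norm_eq_zero] at hB0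
  exact ⟨A3_mid hA0, A3_mid hB0⟩

end Pool.H61.Rh
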