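import Pool.Agent.H61.Rh.A2

/-! # A3a: at a minimiser, a hexagon of determinant `> √3/2` is the midpoint of its neighbours

Let `i + 1` be the index (`i + 1 < N`), `x = p (i+2) - p (i+1)`, `y = p (i+1) - p i`,
`m = (x - y)/2` (and the same for `q`).  For small `s ∈ (0,1]` replace `p (i+1)` by
`p (i+1) + s m_p`, `q (i+1)` by `q (i+1) + s m_q` (`Function.update`).  The new steps are
`y + s m = (1 - s/2) y + (s/2) x`, `x - s m = (s/2) y + (1 - s/2) x`, nonnegative combinations of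
old steps, so all convexity conditions stay true (bilinearity; `cr y' x' = ((1-s/2)² - (s/2)²) cr y x`);
`prog` is affine: `pr` of the midpoint is `(i + (i+2))/(2N) = (i+1)/N`; `det` stays `≥ √3/2` for
small `s` by continuity.  Change of `Ws` : `- s (cr y_p x_p + cr y_q x_q + cr y_r x_r) ≤ 0`
(since `cr (p i) P + cr P (p (i+2)) = cr P (p (i+2) - p i)` is linear in `P`, and
`cr m (x + y) = - cr y x`).  Change of the energy: `- 2 s (2 - s) (‖m_p‖² + ‖m_q‖²)`.
By minimality `m_p = m_q = 0`. -/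

set_option autoImplicit false

namespace Pool.H61.Rh

open Complex Finset

/-- mixing two neighbouring steps -/
private noncomputable def A3a_mix (t : ℝ) (i : ℕ) (u : ℕ → ℂ) (j : ℕ) : ℂ :=
  if j = i then ((1 - t : ℝ) : ℂ) * u i + (t : ℂ) * u (i + 1)
  else if j = i + 1 then (t : ℂ) * u i + ((1 - t : ℝ) : ℂ) * u (i + 1) else u j

private lemma A3a_mix_fst (t : ℝ) (i : ℕ) (u : ℕ → ℂ) :
    A3a_mix t i u i = ((1 - t : ℝ) : ℂ) * u i + (t : ℂ) * u (i + 1) := by
  unfold A3a_mix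
  rw [if_pos rfl]

private lemma A3a_mix_snd (t : ℝ) (i : ℕ) (u : ℕ → ℂ) :
    A3a_mix t i u (i + 1) = (t : ℂ) * u i + ((1 - t : ℝ) : ℂ) * u (i + 1) := by
  unfold A3a_mix
  rw [if_neg (by omega), if_pos rfl]

private lemma A3a_mix_other (t : ℝ) (i : ℕ) (u : ℕ → ℂ) {j : ℕ} (h1 : j ≠ i)
    (h2 : j ≠ i + 1) : A3a_mix t i u j = u j := by
  unfold A3a_mix
  rw [if_neg h1, if_neg h2]

private lemma A3a_mix_sub (t : ℝ) (i : ℕ) (u v : ℕ → ℂ) (j : ℕ) :
    A3a_mix t i v j - A3a_mix t i u j = A3a_mix t i (fun j => v j - u j) j := by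
  unfold A3a_mix
  split_ifs <;> ring

private lemma A3a_cr_left (c d : ℝ) (x y z : ℂ) :
    cr ((c : ℂ) * x + (d : ℂ) * y) z = c * cr x z + d * cr y z := by
  rw [cr_add_left, cr_smul_left, cr_smul_left]

private lemma A3a_cr_right (c d : ℝ) (x y z : ℂ) :
    cr z ((c : ℂ) * x + (d : ℂ) * y) = c * cr z x + d * cr z y := by
  rw [cr_add_right, cr_smul_right, cr_smul_right]

/-- one-sided nonnegativity passes to the mixed steps -/
private lemma A3a_left {t : ℝ} (ht0 : 0 ≤ t) (ht1 : t ≤ 1 / 2) {i : ℕ} {u : ℕ → ℂ} {z : ℂ}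
    {a : ℕ} (h : 0 ≤ cr (u a) z) (h1 : a = i ∨ a = i + 1 → 0 ≤ cr (u i) z ∧ 0 ≤ cr (u (i + 1)) z) :
    0 ≤ cr (A3a_mix t i u a) z := by
  by_cases e1 : a = i
  · obtain ⟨g1, g2⟩ := h1 (Or.inl e1)
    rw [e1, A3a_mix_fst, A3a_cr_left]
    have := mul_nonneg (by linarith : (0 : ℝ) ≤ 1 - t) g1
    have := mul_nonneg ht0 g2
    linarith
  · by_cases e2 : a = i + 1
    · obtain ⟨g1, g2⟩ := h1 (Or.inr e2)
      rw [e2, A3a_mix_snd, A3a_cr_left]
      have := mul_nonneg ht0 g1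
      have := mul_nonneg (by linarith : (0 : ℝ) ≤ 1 - t) g2
      linarith
    · rw [A3a_mix_other t i u e1 e2]
      exact h

private lemma A3a_right {t : ℝ} (ht0 : 0 ≤ t) (ht1 : t ≤ 1 / 2) {i : ℕ} {u : ℕ → ℂ} {z : ℂ}
    {a : ℕ} (h : 0 ≤ cr z (u a)) (h1 : a = i ∨ a = i + 1 → 0 ≤ cr z (u i) ∧ 0 ≤ cr z (u (i + 1))) :
    0 ≤ cr z (A3a_mix t i u a) := by
  by_cases e1 : a = i
  · obtain ⟨g1, g2⟩ := h1 (Or.inl e1)
    rw [e1, A3a_mix_fst, A3a_cr_right]
    have := mul_nonneg (by linarith : (0 : ℝ) ≤ 1 - t) g1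
    have := mul_nonneg ht0 g2
    linarith
  · by_cases e2 : a = i + 1
    · obtain ⟨g1, g2⟩ := h1 (Or.inr e2)
      rw [e2, A3a_mix_snd, A3a_cr_right]
      have := mul_nonneg ht0 g1
      have := mul_nonneg (by linarith : (0 : ℝ) ≤ 1 - t) g2
      linarith
    · rw [A3a_mix_other t i u e1 e2]
      exact h

private lemma A3a_mixed {t : ℝ} (ht0 : 0 ≤ t) (ht1 : t ≤ 1 / 2) {N i : ℕ} (hi : i + 1 < N)
    {u v : ℕ → ℂ} (h : ∀ a b, a < N → b < N → 0 ≤ cr (u a) (v b)) (a b : ℕ) (ha : a < N)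
    (hb : b < N) : 0 ≤ cr (A3a_mix t i u a) (A3a_mix t i v b) := by
  have hi' : i < N := by omega
  have key : ∀ c, c < N → 0 ≤ cr (A3a_mix t i u a) (v c) := fun c hc =>
    A3a_left ht0 ht1 (h a c ha hc) fun _ => ⟨h i c hi' hc, h (i + 1) c hi hc⟩
  exact A3a_right ht0 ht1 (key b hb) fun _ => ⟨key i hi', key (i + 1) hi⟩

private lemma A3a_same {t : ℝ} (ht0 : 0 ≤ t) (ht1 : t ≤ 1 / 2) {N i : ℕ} (hi : i + 1 < N)
    {u : ℕ → ℂ} (h : ∀ a b, a ≤ b → b < N → 0 ≤ cr (u a) (u b)) (a b : ℕ) (hab : a ≤ b)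
    (hb : b < N) : 0 ≤ cr (A3a_mix t i u a) (A3a_mix t i u b) := by
  by_cases e : a = b
  · rw [e, cr_self]
  · by_cases e1 : a = i
    · by_cases e2 : b = i + 1
      · have h1 := h i (i + 1) (by omega) hi
        rw [e1, e2, A3a_mix_fst, A3a_mix_snd, A3a_cr_left, A3a_cr_right, A3a_cr_right, cr_self,
          cr_self, cr_swap (u (i + 1)) (u i)]
        have h2 : 0 ≤ (1 - 2 * t) * cr (u i) (u (i + 1)) := mul_nonneg (by linarith) h1
        nlinarith
      · rw [A3a_mix_other t i u (j := b) (by omega) e2]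
        exact A3a_left ht0 ht1 (h a b hab hb) fun _ =>
          ⟨h i b (by omega) hb, h (i + 1) b (by omega) hb⟩
    · by_cases e2 : a = i + 1
      · rw [A3a_mix_other t i u (j := b) (by omega) (by omega)]
        exact A3a_left ht0 ht1 (h a b hab hb) fun _ =>
          ⟨h i b (by omega) hb, h (i + 1) b (by omega) hb⟩
      · rw [A3a_mix_other t i u e1 e2]
        refine A3a_right ht0 ht1 (h a b hab hb) fun hc => ?_
        exact ⟨h a i (by omega) (by omega), h a (i + 1) (by omega) hi⟩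

private lemma A3a_step (p : ℕ → ℂ) (i : ℕ) (s : ℝ) (j : ℕ) :
    Function.update p (i + 1) (p (i + 1) + s * ((p (i + 2) - p (i + 1)) - (p (i + 1) - p i)) / 2)
        (j + 1) -
      Function.update p (i + 1)
        (p (i + 1) + s * ((p (i + 2) - p (i + 1)) - (p (i + 1) - p i)) / 2) j =
      A3a_mix (s / 2) i (fun j => p (j + 1) - p j) j := by
  by_cases e1 : j = i
  · subst e1
    rw [A3a_mix_fst, Function.update_self, Function.update_of_ne (by omega)]
    push_cast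
    ring
  · by_cases e2 : j = i + 1
    · subst e2
      rw [A3a_mix_snd, Function.update_self, Function.update_of_ne (by omega)]
      push_cast
      ring
    · rw [A3a_mix_other _ i _ e1 e2, Function.update_of_ne (by omega),
        Function.update_of_ne (by omega)]

private lemma A3a_pr (a b c d x y : ℂ) (s t₀ t₁ t₂ : ℝ) (h0 : pr a b = t₀) (h1 : pr c d = t₁)
    (h2 : pr x y = t₂) (ht : t₀ + t₂ = 2 * t₁) :
    pr (c + s * ((x - c) - (c - a)) / 2) (d + s * ((y - d) - (d - b)) / 2) = t₁ := by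
  have e1 : ∀ z w v : ℂ, (z + (s : ℂ) * w / 2).re = z.re + s * w.re / 2 := by
    intro z w v
    rw [add_re, show (s : ℂ) * w / 2 = ((s / 2 : ℝ) : ℂ) * w by push_cast; ring, re_ofReal_mul]
    ring
  have e2 : ∀ z w v : ℂ, (z + (s : ℂ) * w / 2).im = z.im + s * w.im / 2 := by
    intro z w v
    rw [add_im, show (s : ℂ) * w / 2 = ((s / 2 : ℝ) : ℂ) * w by push_cast; ring, im_ofReal_mul]
    ring
  unfold pr at h0 h1 h2 ⊢
  rw [e1 _ _ 0, e2 _ _ 0, e2 _ _ 0]
  simp only [sub_re, sub_im]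
  linear_combination (1 - s) * h1 + s / 2 * h0 + s / 2 * h2 + s / 2 * ht

/-- the modified configuration is again a configuration for small `s` -/
theorem cfg_modify {N : ℕ} {p q : ℕ → ℂ} (h : Cfg N p q) (i : ℕ) (hi : i + 1 < N)
    (hd : s3 / 2 < cr (p (i + 1)) (q (i + 1))) :
    ∃ s₀ : ℝ, 0 < s₀ ∧ ∀ s : ℝ, 0 < s → s ≤ s₀ →
      Cfg N (Function.update p (i + 1)
          (p (i + 1) + s * ((p (i + 2) - p (i + 1)) - (p (i + 1) - p i)) / 2))
        (Function.update q (i + 1)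
          (q (i + 1) + s * ((q (i + 2) - q (i + 1)) - (q (i + 1) - q i)) / 2)) := by
  obtain ⟨mp, hmp⟩ : ∃ mp : ℂ, mp = ((p (i + 2) - p (i + 1)) - (p (i + 1) - p i)) / 2 := ⟨_, rfl⟩
  obtain ⟨mq, hmq⟩ : ∃ mq : ℂ, mq = ((q (i + 2) - q (i + 1)) - (q (i + 1) - q i)) / 2 := ⟨_, rfl⟩
  obtain ⟨c, hc⟩ : ∃ c : ℝ, c = cr (p (i + 1)) (q (i + 1)) - s3 / 2 := ⟨_, rfl⟩
  obtain ⟨L, hL⟩ : ∃ L : ℝ, L = cr mp (q (i + 1)) + cr (p (i + 1)) mq := ⟨_, rfl⟩
  obtain ⟨R, hR⟩ : ∃ R : ℝ, R = cr mp mq := ⟨_, rfl⟩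
  have hc0 : 0 < c := by rw [hc]; linarith
  have hK : 0 < |L| + |R| + 1 := by positivity
  refine ⟨min 1 (c / (|L| + |R| + 1)), lt_min one_pos (div_pos hc0 hK), fun s hs0 hs => ?_⟩
  have hs1 : s ≤ 1 := hs.trans (min_le_left _ _)
  have hs2 : s * (|L| + |R| + 1) ≤ c := by
    have := hs.trans (min_le_right _ _)
    rwa [le_div_iff₀ hK] at this
  have ht0 : 0 ≤ s / 2 := by linarith
  have ht1 : s / 2 ≤ 1 / 2 := by linarith
  have hdet : s3 / 2 ≤
      cr (p (i + 1) + s * ((p (i + 2) - p (i + 1)) - (p (i + 1) - p i)) / 2)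
        (q (i + 1) + s * ((q (i + 2) - q (i + 1)) - (q (i + 1) - q i)) / 2) := by
    have e1 : p (i + 1) + s * ((p (i + 2) - p (i + 1)) - (p (i + 1) - p i)) / 2 =
        p (i + 1) + (s : ℂ) * mp := by rw [hmp]; ring
    have e2 : q (i + 1) + s * ((q (i + 2) - q (i + 1)) - (q (i + 1) - q i)) / 2 =
        q (i + 1) + (s : ℂ) * mq := by rw [hmq]; ring
    rw [e1, e2, cr_add_left, cr_add_right, cr_add_right, cr_smul_left, cr_smul_right,
      cr_smul_left, cr_smul_right]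
    have h1 : -|L| ≤ L := neg_abs_le L
    have h2 : -|R| ≤ R := neg_abs_le R
    have h3 : s * (-|L|) ≤ s * L := mul_le_mul_of_nonneg_left h1 hs0.le
    have h4 : s * (s * |R|) ≤ s * |R| := by
      refine mul_le_mul_of_nonneg_left ?_ hs0.le
      have := mul_le_mul_of_nonneg_right hs1 (abs_nonneg R)
      linarith
    have h5 : s * (s * (-|R|)) ≤ s * (s * R) :=
      mul_le_mul_of_nonneg_left (mul_le_mul_of_nonneg_left h2 hs0.le) hs0.le
    have h6 : s * (cr mp (q (i + 1))) + s * cr (p (i + 1)) mq = s * L := by rw [hL]; ring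
    have h7 : s * (s * cr mp mq) = s * (s * R) := by rw [hR]
    have h8 : cr (p (i + 1)) (q (i + 1)) = c + s3 / 2 := by rw [hc]; ring
    nlinarith
  have hpp := A3a_step p i s
  have hqq := A3a_step q i s
  have hN0 : (0 : ℝ) < N := by exact_mod_cast (by omega : 0 < N)
  constructor
  · rw [Function.update_of_ne (by omega)]; exact h.p0
  · rw [Function.update_of_ne (by omega)]; exact h.q0
  · rw [Function.update_of_ne (by omega)]; exact h.pN
  · rw [Function.update_of_ne (by omega)]; exact h.qN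
  · intro j hj
    by_cases e : j = i + 1
    · subst e
      rw [Function.update_self, Function.update_self]
      refine A3a_pr (p i) (q i) (p (i + 1)) (q (i + 1)) (p (i + 2)) (q (i + 2)) s _ _ _
        (h.prog i (by omega)) (h.prog (i + 1) (by omega)) (h.prog (i + 2) (by omega)) ?_
      push_cast
      ring
    · rw [Function.update_of_ne e, Function.update_of_ne e]
      exact h.prog j hj
  · intro a b hab hb
    rw [hpp, hpp]
    exact A3a_same ht0 ht1 hi (fun a b => h.cpp a b) a b hab hb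
  · intro a b hab hb
    rw [hqq, hqq]
    exact A3a_same ht0 ht1 hi (fun a b => h.cqq a b) a b hab hb
  · intro a b hab hb
    rw [hpp, hpp, hqq, hqq, A3a_mix_sub, A3a_mix_sub]
    exact A3a_same ht0 ht1 hi (fun a b => h.crr a b) a b hab hb
  · intro a b ha hb
    rw [hpp, hqq]
    exact A3a_mixed ht0 ht1 hi (fun a b => h.cpq a b) a b ha hb
  · intro a b ha hb
    rw [hpp, hpp, hqq, A3a_mix_sub]
    exact A3a_mixed ht0 ht1 hi (v := fun j => (q (j + 1) - q j) - (p (j + 1) - p j))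
      (fun a b => h.cpr a b) a b ha hb
  · intro a b ha hb
    rw [hpp, hqq, hqq, A3a_mix_sub]
    exact A3a_mixed ht0 ht1 hi (v := fun j => (q (j + 1) - q j) - (p (j + 1) - p j))
      (fun a b => h.cqr a b) a b ha hb
  · intro j hj
    by_cases e : j = i + 1
    · subst e
      rw [Function.update_self, Function.update_self]
      exact hdet
    · rw [Function.update_of_ne e, Function.update_of_ne e]
      exact h.det j hj

end Pool.H61.Rh
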