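import Pool.Agent.H61.Rh.A3

/-! # A4: balanced configurations

Take the minimiser `(p', q')` of `Fen` (A2).  Let `M` be the maximum of `cr (p' i) (q' i)`,
`i ≤ N`, and suppose `M > √3/2`; let `i` be the smallest index with value `M`.
`i ≠ 0, N` because `cr 1 ζ = cr ζ (ζ-1) = √3/2`.  By A3 the hexagon `i` is the midpoint of its
neighbours, and `cr (p(i+1) - p(i-1)) (q(i+1) - q(i-1)) ≥ 0` (by `cpq`), so
`cr (p i) (q i) ≤ (cr (p(i-1)) (q(i-1)) + cr (p(i+1)) (q(i+1)))/2 < M`, contradiction.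
Finally `Ws p' q' ≤ Fen p' q' ≤ Fen p q ≤ Ws p q + N * (36/N² + 36/N²)`. -/

set_option autoImplicit false

namespace Pool.H61.Rh

open Complex Finset

private theorem A4_mid {a b a' b' : ℂ} (h : 0 ≤ cr (b - a) (b' - a')) :
    cr ((a + b) / 2) ((a' + b') / 2) ≤ (cr a a' + cr b b') / 2 := by
  have e1 : (a + b) / 2 = ((1 / 2 : ℝ) : ℂ) * (a + b) := by
    push_cast
    ring
  have e2 : (a' + b') / 2 = ((1 / 2 : ℝ) : ℂ) * (a' + b') := by
    push_cast
    ring
  rw [e1, e2, cr_smul_left, cr_smul_right, cr_add_left, cr_add_right, cr_add_right]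
  rw [cr_sub_left, cr_sub_right, cr_sub_right] at h
  linarith

theorem balanced {N : ℕ} {p q : ℕ → ℂ} (hN : 0 < N) (h : Cfg N p q) :
    ∃ p' q' : ℕ → ℂ, Cfg N p' q' ∧ (∀ i ≤ N, cr (p' i) (q' i) = s3 / 2) ∧
      Ws N p' q' ≤ Ws N p q + 72 / N := by
  classical
  obtain ⟨p', q', hc, hmin⟩ := exists_min hN h
  refine ⟨p', q', hc, ?_, ?_⟩
  · have hle : ∀ i ≤ N, cr (p' i) (q' i) ≤ s3 / 2 := by
      by_contra hcon
      push Not at hcon
      obtain ⟨i1, hi1, hi1'⟩ := hcon
      obtain ⟨j, hj, hjmax⟩ := exists_max_image (range (N + 1)) (fun i => cr (p' i) (q' i))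
        ⟨i1, mem_range.mpr (by omega)⟩
      have hex : ∃ i, i ≤ N ∧ cr (p' j) (q' j) ≤ cr (p' i) (q' i) :=
        ⟨j, by have := mem_range.mp hj; omega, le_rfl⟩
      obtain ⟨hiN, hij⟩ := Nat.find_spec hex
      have hmn := fun m (hm : m < Nat.find hex) => Nat.find_min hex hm
      set i := Nat.find hex with hidef
      have hbig : s3 / 2 < cr (p' i) (q' i) := by
        have h1 := hjmax i1 (mem_range.mpr (by omega))
        exact lt_of_lt_of_le hi1' (h1.trans hij)
      have hmax : ∀ k ≤ N, cr (p' k) (q' k) ≤ cr (p' i) (q' i) := fun k hk =>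
        (hjmax k (mem_range.mpr (by omega))).trans hij
      have hi0 : i ≠ 0 := by
        intro h0
        rw [h0, hc.p0, hc.q0, cr_one_ze] at hbig
        exact lt_irrefl _ hbig
      have hiN' : i ≠ N := by
        intro h0
        rw [h0, hc.pN, hc.qN, cr_sub_right, cr_self, cr_swap ze 1, cr_one_ze] at hbig
        linarith
      obtain ⟨k, hk⟩ := Nat.exists_eq_succ_of_ne_zero hi0
      rw [Nat.succ_eq_add_one] at hk
      have hk2 : k + 1 < N := by omega
      have hmid := mid_of_min hc hmin k hk2 (by rw [← hk]; exact hbig)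
      have hcr : 0 ≤ cr (p' (k + 2) - p' k) (q' (k + 2) - q' k) := by
        have e1 : p' (k + 2) - p' k = (p' (k + 1 + 1) - p' (k + 1)) + (p' (k + 1) - p' k) := by
          ring
        have e2 : q' (k + 2) - q' k = (q' (k + 1 + 1) - q' (k + 1)) + (q' (k + 1) - q' k) := by
          ring
        rw [e1, e2, cr_add_left, cr_add_right, cr_add_right]
        have a1 := hc.cpq (k + 1) (k + 1) hk2 hk2
        have a2 := hc.cpq (k + 1) k hk2 (by omega)
        have a3 := hc.cpq k (k + 1) (by omega) hk2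
        have a4 := hc.cpq k k (by omega) (by omega)
        linarith
      have h1 := A4_mid hcr
      rw [← hmid.1, ← hmid.2] at h1
      have h2 : cr (p' k) (q' k) < cr (p' (k + 1)) (q' (k + 1)) := by
        have := hmn k (by omega)
        rw [← hk]
        by_contra hcon
        push Not at hcon
        exact this ⟨by omega, hij.trans hcon⟩
      have h3 := hmax (k + 2) (by omega)
      rw [hk] at h3
      linarith
    intro i hi
    exact le_antisymm (hle i hi) (hc.det i hi)
  · have h1 := hmin p q h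
    have h2 : Ws N p' q' ≤ Fen N p' q' := by
      unfold Fen
      have : 0 ≤ ∑ i ∈ range N, (‖p' (i + 1) - p' i‖ ^ 2 + ‖q' (i + 1) - q' i‖ ^ 2) :=
        sum_nonneg fun i _ => by positivity
      linarith
    have hN' : (0 : ℝ) < N := Nat.cast_pos.mpr hN
    have h3 : ∑ i ∈ range N, (‖p (i + 1) - p i‖ ^ 2 + ‖q (i + 1) - q i‖ ^ 2) ≤ 72 / N := by
      have h4 : ∀ i ∈ range N, (‖p (i + 1) - p i‖ ^ 2 + ‖q (i + 1) - q i‖ ^ 2) ≤
          (6 / (N : ℝ)) ^ 2 + (6 / (N : ℝ)) ^ 2 := by
        intro i hi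
        obtain ⟨h5, h6, _⟩ := h.step_le hN i (mem_range.mp hi)
        exact add_le_add (pow_le_pow_left₀ (norm_nonneg _) h5 2)
          (pow_le_pow_left₀ (norm_nonneg _) h6 2)
      refine (sum_le_sum h4).trans (le_of_eq ?_)
      rw [sum_const, card_range, nsmul_eq_mul]
      field_simp
      norm_num
    unfold Fen at h1 h2
    linarith

end Pool.H61.Rh
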