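import Pool.Agent.H61.Rh.Basic

/-! # B2a: consequences for discrete curves: four point convexity, area relation, periodicity

`g l - g k = ∑_{k ≤ j < l} (g (j+1) - g j)`; then bilinearity and `conv`.
Area: `3 (S n - S m) - ∑_j cr (g (m+jN)) (g (n+jN)) = ∑_j ∑_{k=m}^{n-1} cr (g (k+jN) - g (m+jN)) (g (k+jN+1) - g (k+jN))`
and every term is at most `(6 (k-m)/N) (6/N)` in absolute value. -/

set_option autoImplicit false

namespace Pool.H61.Rh

open Complex Finset

theorem DC.hex3 {N : ℕ} {A : ℝ} {g : ℤ → ℂ} {S : ℤ → ℝ} (h : DC N A g S) (m : ℤ) :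
    g (m + 3 * N) = - g m := by
  have h1 := h.hex (m + N)
  have h2 := h.hex m
  rw [show m + N + 2 * N = m + 3 * N by ring, show m + N + N = m + 2 * N by ring, h2] at h1
  rw [h1]
  ring

private theorem B2a_conv {N : ℕ} {A : ℝ} {g : ℤ → ℂ} {S : ℤ → ℝ} (h : DC N A g S) (m n : ℤ)
    (h1 : m ≤ n) (h2 : n ≤ m + 3 * N) :
    0 ≤ cr (g (m + 1) - g m) (g (n + 1) - g n) := by
  rcases Nat.eq_zero_or_pos N with hN | hN
  · have h3 : n = m := by
      rw [hN] at h2
      push_cast at h2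
      omega
    rw [h3, cr_self]
  · have hper : Function.Periodic g (6 * (N : ℤ)) := by
      intro x
      rw [show x + 6 * (N : ℤ) = x + 3 * N + 3 * N by ring, h.hex3, h.hex3, neg_neg]
    have hp := hper.int_mul (m.natAbs : ℤ)
    have h4 : 0 ≤ m + (m.natAbs : ℤ) * (6 * N) := by
      have h5 : (1 : ℤ) ≤ 6 * N := by omega
      have h6 : (m.natAbs : ℤ) * 1 ≤ (m.natAbs : ℤ) * (6 * N) :=
        mul_le_mul_of_nonneg_left h5 (by omega)
      omega
    obtain ⟨M, hM⟩ := Int.eq_ofNat_of_zero_le h4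
    obtain ⟨M', hM'⟩ := Int.eq_ofNat_of_zero_le
      (show 0 ≤ n + (m.natAbs : ℤ) * (6 * N) by linarith)
    have h7 := h.conv M M' (by
      have : (M : ℤ) ≤ M' := by rw [← hM, ← hM']; linarith
      exact_mod_cast this) (by
      have : (M' : ℤ) ≤ M + 3 * N := by rw [← hM, ← hM']; linarith
      exact_mod_cast this)
    have e1 : g (M : ℤ) = g m := by rw [← hM]; exact hp m
    have e2 : g ((M : ℤ) + 1) = g (m + 1) := by
      rw [← hM, show m + (m.natAbs : ℤ) * (6 * N) + 1 = m + 1 + (m.natAbs : ℤ) * (6 * N) by ring]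
      exact hp (m + 1)
    have e3 : g (M' : ℤ) = g n := by rw [← hM']; exact hp n
    have e4 : g ((M' : ℤ) + 1) = g (n + 1) := by
      rw [← hM', show n + (m.natAbs : ℤ) * (6 * N) + 1 = n + 1 + (m.natAbs : ℤ) * (6 * N) by ring]
      exact hp (n + 1)
    rw [e1, e2, e3, e4] at h7
    exact h7

private theorem B2a_one {N : ℕ} {A : ℝ} {g : ℤ → ℂ} {S : ℤ → ℝ} (h : DC N A g S) (k u : ℤ)
    (h1 : k ≤ u) (b : ℕ) (h2 : u + b ≤ k + 3 * N + 1) :
    0 ≤ cr (g (k + 1) - g k) (g (u + b) - g u) := by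
  induction b with
  | zero => simp [cr_zero_right]
  | succ b ih =>
    have h3 := ih (by push_cast at h2; linarith)
    have h4 := B2a_conv h k (u + b) (by omega) (by push_cast at h2; linarith)
    have h5 : g (u + (b + 1 : ℕ)) - g u = (g (u + b) - g u) + (g (u + b + 1) - g (u + b)) := by
      rw [show u + ((b + 1 : ℕ) : ℤ) = u + b + 1 by push_cast; ring]
      ring
    rw [h5, cr_add_right]
    linarith

private theorem B2a_two {N : ℕ} {A : ℝ} {g : ℤ → ℂ} {S : ℤ → ℝ} (h : DC N A g S) (s u v : ℤ)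
    (a : ℕ) (h1 : s + a ≤ u) (h3 : u ≤ v) (h4 : v ≤ s + 3 * N) :
    0 ≤ cr (g (s + a) - g s) (g v - g u) := by
  induction a with
  | zero => simp [cr_zero_left]
  | succ a ih =>
    have h5 := ih (by push_cast at h1; linarith)
    obtain ⟨b, hb⟩ := Int.eq_ofNat_of_zero_le (sub_nonneg.2 h3)
    have hv : v = u + b := by linarith
    have h6 := B2a_one h (s + a) u (by push_cast at h1; linarith) b (by
      rw [← hv]
      have : (0 : ℤ) ≤ a := Int.natCast_nonneg a
      linarith)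
    rw [← hv] at h6
    have h7 : g (s + (a + 1 : ℕ)) - g s = (g (s + a) - g s) + (g (s + a + 1) - g (s + a)) := by
      rw [show s + ((a + 1 : ℕ) : ℤ) = s + a + 1 by push_cast; ring]
      ring
    rw [h7, cr_add_left]
    linarith

theorem DC.conv4 {N : ℕ} {A : ℝ} {g : ℤ → ℂ} {S : ℤ → ℝ} (h : DC N A g S) (s t u v : ℤ)
    (h1 : s ≤ t) (h2 : t ≤ u) (h3 : u ≤ v) (h4 : v ≤ s + 3 * N) :
    0 ≤ cr (g t - g s) (g v - g u) := by
  obtain ⟨a, ha⟩ := Int.eq_ofNat_of_zero_le (sub_nonneg.2 h1)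
  have ht : t = s + a := by linarith
  rw [ht]
  exact B2a_two h s u v a (by linarith) h3 h4

private theorem B2a_dist {N : ℕ} {A : ℝ} {g : ℤ → ℂ} {S : ℤ → ℝ} (h : DC N A g S) (m : ℤ)
    (a : ℕ) : ‖g (m + a) - g m‖ ≤ 6 / N * a := by
  induction a with
  | zero => simp
  | succ a ih =>
    have h1 := h.step (m + a)
    have h7 : g (m + (a + 1 : ℕ)) - g m = (g (m + a) - g m) + (g (m + a + 1) - g (m + a)) := by
      rw [show m + ((a + 1 : ℕ) : ℤ) = m + a + 1 by push_cast; ring]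
      ring
    rw [h7]
    refine (norm_add_le _ _).trans ?_
    push_cast
    linarith

theorem DC.dist {N : ℕ} {A : ℝ} {g : ℤ → ℂ} {S : ℤ → ℝ} (h : DC N A g S) (m n : ℤ) :
    ‖g m - g n‖ ≤ 6 / N * |(m : ℝ) - n| := by
  rcases le_total n m with hmn | hmn
  · obtain ⟨a, ha⟩ := Int.eq_ofNat_of_zero_le (sub_nonneg.2 hmn)
    have ht : m = n + a := by linarith
    have h1 := B2a_dist h n a
    rw [ht]
    push_cast
    rw [add_sub_cancel_left, abs_of_nonneg (Nat.cast_nonneg a)]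
    exact h1
  · obtain ⟨a, ha⟩ := Int.eq_ofNat_of_zero_le (sub_nonneg.2 hmn)
    have ht : n = m + a := by linarith
    have h1 := B2a_dist h m a
    rw [ht, norm_sub_rev]
    push_cast
    rw [sub_add_cancel_left, abs_neg, abs_of_nonneg (Nat.cast_nonneg a)]
    exact h1

private theorem B2a_area {N : ℕ} {A : ℝ} {g : ℤ → ℂ} {S : ℤ → ℝ} (hN : 0 < N) (h : DC N A g S)
    (m : ℤ) (a : ℕ) :
    |cr (g m) (g (m + a)) + cr (g (m + N)) (g (m + a + N)) +
      cr (g (m + 2 * N)) (g (m + a + 2 * N)) - 3 * (S (m + a) - S m)| ≤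
        108 * ((a : ℝ) / N) ^ 2 := by
  have hN' : (0 : ℝ) < N := by exact_mod_cast hN
  induction a with
  | zero => simp [cr_self]
  | succ a ih =>
    have key : ∀ c : ℤ, |cr (g (m + a + c) - g (m + c)) (g (m + a + c + 1) - g (m + a + c))| ≤
        36 * a / N ^ 2 := by
      intro c
      refine (abs_cr_le _ _).trans ?_
      have h1 := B2a_dist h (m + c) a
      rw [show m + c + (a : ℤ) = m + a + c by ring] at h1
      have h2 := h.step (m + a + c)
      calc ‖g (m + a + c) - g (m + c)‖ * ‖g (m + a + c + 1) - g (m + a + c)‖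
          ≤ (6 / N * a) * (6 / N) := mul_le_mul h1 h2 (norm_nonneg _) (by positivity)
        _ = 36 * a / N ^ 2 := by
          field_simp
          ring
    have k0 := key 0
    have k1 := key N
    have k2 := key (2 * N)
    simp only [add_zero] at k0
    have hS := h.Sst (m + a)
    have e : cr (g m) (g (m + (a + 1 : ℕ))) + cr (g (m + N)) (g (m + (a + 1 : ℕ) + N)) +
        cr (g (m + 2 * N)) (g (m + (a + 1 : ℕ) + 2 * N)) - 3 * (S (m + (a + 1 : ℕ)) - S m) =
        (cr (g m) (g (m + a)) + cr (g (m + N)) (g (m + a + N)) +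
          cr (g (m + 2 * N)) (g (m + a + 2 * N)) - 3 * (S (m + a) - S m)) -
        (cr (g (m + a) - g m) (g (m + a + 1) - g (m + a)) +
          cr (g (m + a + N) - g (m + N)) (g (m + a + N + 1) - g (m + a + N)) +
          cr (g (m + a + 2 * N) - g (m + 2 * N))
            (g (m + a + 2 * N + 1) - g (m + a + 2 * N))) := by
      rw [show m + ((a + 1 : ℕ) : ℤ) = m + a + 1 by push_cast; ring,
        show m + a + 1 + (N : ℤ) = m + a + N + 1 by ring,
        show m + a + 1 + 2 * (N : ℤ) = m + a + 2 * N + 1 by ring]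
      simp only [cr_sub_left, cr_sub_right, cr_self]
      linarith
    rw [e]
    refine (abs_sub _ _).trans ?_
    have h3 : |cr (g (m + a) - g m) (g (m + a + 1) - g (m + a)) +
          cr (g (m + a + N) - g (m + N)) (g (m + a + N + 1) - g (m + a + N)) +
          cr (g (m + a + 2 * N) - g (m + 2 * N))
            (g (m + a + 2 * N + 1) - g (m + a + 2 * N))| ≤ 108 * a / N ^ 2 := by
      refine (abs_add_three _ _ _).trans ?_
      calc _ ≤ 36 * a / (N : ℝ) ^ 2 + 36 * a / (N : ℝ) ^ 2 + 36 * a / (N : ℝ) ^ 2 := by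
            linarith
        _ = 108 * a / N ^ 2 := by ring
    have h4 : 108 * ((a : ℝ) / N) ^ 2 + 108 * a / N ^ 2 ≤ 108 * (((a + 1 : ℕ) : ℝ) / N) ^ 2 := by
      rw [div_pow, div_pow, mul_div_assoc', ← add_div, mul_div_assoc']
      push_cast
      apply div_le_div_of_nonneg_right _ (by positivity)
      have : (0 : ℝ) ≤ a := Nat.cast_nonneg a
      nlinarith
    linarith

theorem DC.area {N : ℕ} {A : ℝ} {g : ℤ → ℂ} {S : ℤ → ℝ} (hN : 0 < N) (h : DC N A g S)
    (m n : ℤ) (hmn : m ≤ n) :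
    |cr (g m) (g n) + cr (g (m + N)) (g (n + N)) + cr (g (m + 2 * N)) (g (n + 2 * N))
      - 3 * (S n - S m)| ≤ 108 * (((n : ℝ) - m) / N) ^ 2 := by
  obtain ⟨a, ha⟩ := Int.eq_ofNat_of_zero_le (sub_nonneg.2 hmn)
  have ht : n = m + a := by linarith
  rw [ht]
  push_cast
  rw [add_sub_cancel_left]
  exact B2a_area hN h m a

private theorem B2a_inc {N : ℕ} {A : ℝ} {g : ℤ → ℂ} {S : ℤ → ℝ} (h : DC N A g S) (m : ℤ) :
    S (m + N + 1) - S (m + N) = S (m + 1) - S m := by
  have h1 := h.Sst m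
  have h2 := h.Sst (m + N)
  have h3 := h.hex3 m
  have h4 := h.hex3 (m + 1)
  rw [show m + N + (N : ℤ) = m + 2 * N by ring, show m + N + 2 * (N : ℤ) = m + 3 * N by ring,
    h3, show m + 3 * (N : ℤ) + 1 = m + 1 + 3 * N by ring, h4, cr_neg_left, cr_neg_right] at h2
  linarith

theorem DC.Sper {N : ℕ} {A : ℝ} {g : ℤ → ℂ} {S : ℤ → ℝ} (h : DC N A g S) (m : ℤ) :
    S (m + N) = S m + S N := by
  induction m using Int.induction_on with
  | zero =>
    rw [zero_add, h.S0, zero_add]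
  | succ i ih =>
    have h1 := B2a_inc h i
    rw [show (i : ℤ) + 1 + N = i + N + 1 by ring]
    linarith
  | pred i ih =>
    have h1 := B2a_inc h (-i - 1)
    rw [show -(i : ℤ) - 1 + N + 1 = -i + N by ring, show -(i : ℤ) - 1 + 1 = -i by ring] at h1
    linarith

private theorem B2a_low {N : ℕ} {A : ℝ} {g : ℤ → ℂ} {S : ℤ → ℝ} (h : DC N A g S)
    (m : ℤ) (a : ℕ) : 1 / 2 * ((a : ℝ) / N) ≤ S (m + a) - S m := by
  induction a with
  | zero => simp
  | succ a ih =>
    have h1 := h.Slow (m + a)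
    rw [show m + ((a + 1 : ℕ) : ℤ) = m + a + 1 by push_cast; ring]
    have h2 : 1 / 2 * (((a + 1 : ℕ) : ℝ) / N) = 1 / 2 * ((a : ℝ) / N) + 1 / (2 * N) := by
      push_cast
      rw [add_div, mul_add, one_div, one_div, one_div, mul_inv]
    rw [h2]
    linarith

theorem DC.Slow' {N : ℕ} {A : ℝ} {g : ℤ → ℂ} {S : ℤ → ℝ} (hN : 0 < N) (h : DC N A g S) (m n : ℤ)
    (hmn : m ≤ n) : 1 / 2 * (((n : ℝ) - m) / N) ≤ S n - S m := by
  obtain ⟨a, ha⟩ := Int.eq_ofNat_of_zero_le (sub_nonneg.2 hmn)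
  have ht : n = m + a := by linarith
  rw [ht]
  push_cast
  rw [add_sub_cancel_left]
  exact B2a_low h m a

private theorem B2a_up {N : ℕ} {A : ℝ} {g : ℤ → ℂ} {S : ℤ → ℝ} (hN : 0 < N) (h : DC N A g S)
    (m : ℤ) (a : ℕ) : S (m + a) - S m ≤ 50 * ((a : ℝ) / N) := by
  have hN' : (0 : ℝ) < N := by exact_mod_cast hN
  induction a with
  | zero => simp
  | succ a ih =>
    have h1 := h.Sst (m + a)
    have key : ∀ c : ℤ, cr (g c) (g (c + 1)) ≤ 42 / N := by
      intro c
      have h2 : cr (g c) (g (c + 1)) = cr (g c) (g (c + 1) - g c) := by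
        rw [cr_sub_right, cr_self, sub_zero]
      rw [h2]
      calc cr (g c) (g (c + 1) - g c) ≤ |cr (g c) (g (c + 1) - g c)| := le_abs_self _
        _ ≤ ‖g c‖ * ‖g (c + 1) - g c‖ := abs_cr_le _ _
        _ ≤ 7 * (6 / N) := mul_le_mul (h.bdd c) (h.step c) (norm_nonneg _) (by norm_num)
        _ = 42 / N := by ring
    have k0 := key (m + a)
    have k1 := key (m + a + N)
    have k2 := key (m + a + 2 * N)
    rw [show m + ((a + 1 : ℕ) : ℤ) = m + a + 1 by push_cast; ring]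
    have h3 : 50 * (((a + 1 : ℕ) : ℝ) / N) = 50 * ((a : ℝ) / N) + 42 / N + 8 / N := by
      push_cast
      ring
    have h4 : (0 : ℝ) ≤ 8 / N := by positivity
    rw [h3]
    linarith

theorem DC.Sup' {N : ℕ} {A : ℝ} {g : ℤ → ℂ} {S : ℤ → ℝ} (hN : 0 < N) (h : DC N A g S) (m n : ℤ)
    (hmn : m ≤ n) : S n - S m ≤ 50 * (((n : ℝ) - m) / N) := by
  obtain ⟨a, ha⟩ := Int.eq_ofNat_of_zero_le (sub_nonneg.2 hmn)
  have ht : n = m + a := by linarith
  rw [ht]
  push_cast
  rw [add_sub_cancel_left]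
  exact B2a_up hN h m a

end Pool.H61.Rh
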