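import Mathlib

/-!
# Reinhardt's problem (MP_8c99c3_co): basic definitions

Notation.  `cr z w` is the cross product of two vectors of the plane `ℂ`, `dt z w` the dot
product, `ze = e^{iπ/3}`.  A linear map of the plane is written `z ↦ a z + b z̄` (`hx a b z`).
An affinely regular hexagon centred at `0` has the vertices `p, q, q - p, -p, -q, p - q`.
-/

set_option autoImplicit false

namespace Pool.H61.Rh

open Complex

/-- cross product -/
def cr (z w : ℂ) : ℝ := z.re * w.im - z.im * w.re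

/-- dot product -/
def dt (z w : ℂ) : ℝ := z.re * w.re + z.im * w.im

/-- `√3` -/
noncomputable def s3 : ℝ := Real.sqrt 3

/-- `e^{iπ/3}` -/
noncomputable def ze : ℂ := ⟨1 / 2, s3 / 2⟩

/-- the three cube roots of unity -/
noncomputable def uu : Fin 3 → ℂ := ![1, ⟨-1 / 2, s3 / 2⟩, ⟨-1 / 2, -(s3 / 2)⟩]

/-- the linear map `z ↦ a z + b z̄` -/
noncomputable def hx (a b z : ℂ) : ℂ := a * z + b * (starRingEnd ℂ) z

/-- progress functional of a hexagon `(p, q, q - p)` : `0` for `(1, ζ)`, `1` for `(ζ, ζ²)` -/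
noncomputable def pr (p q : ℂ) : ℝ := 1 / 2 - q.re / 2 + s3 / 6 * (2 * p.im - q.im)

/-- configuration of `N + 1` hexagons in convex position -/
structure Cfg (N : ℕ) (p q : ℕ → ℂ) : Prop where
  p0 : p 0 = 1
  q0 : q 0 = ze
  pN : p N = ze
  qN : q N = ze - 1
  prog : ∀ i ≤ N, pr (p i) (q i) = (i : ℝ) / N
  cpp : ∀ i j, i ≤ j → j < N → 0 ≤ cr (p (i + 1) - p i) (p (j + 1) - p j)
  cqq : ∀ i j, i ≤ j → j < N → 0 ≤ cr (q (i + 1) - q i) (q (j + 1) - q j)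
  crr : ∀ i j, i ≤ j → j < N →
    0 ≤ cr ((q (i + 1) - q i) - (p (i + 1) - p i)) ((q (j + 1) - q j) - (p (j + 1) - p j))
  cpq : ∀ i j, i < N → j < N → 0 ≤ cr (p (i + 1) - p i) (q (j + 1) - q j)
  cpr : ∀ i j, i < N → j < N →
    0 ≤ cr (p (i + 1) - p i) ((q (j + 1) - q j) - (p (j + 1) - p j))
  cqr : ∀ i j, i < N → j < N →
    0 ≤ cr (q (i + 1) - q i) ((q (j + 1) - q j) - (p (j + 1) - p j))
  det : ∀ i ≤ N, s3 / 2 ≤ cr (p i) (q i)

/-- area of the polygon of a configuration -/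
noncomputable def Ws (N : ℕ) (p q : ℕ → ℂ) : ℝ :=
  ∑ i ∈ Finset.range N, (cr (p i) (p (i + 1)) + cr (q i) (q (i + 1))
    + cr (q i - p i) (q (i + 1) - p (i + 1)))

/-- discrete closed curve of hexagons: `g m, g (m + N), g (m + 2N)` is the hexagon number `m`;
`S` is (one third of) the area swept -/
structure DC (N : ℕ) (A : ℝ) (g : ℤ → ℂ) (S : ℤ → ℝ) : Prop where
  hex : ∀ m, g (m + 2 * N) = g (m + N) - g m
  g0 : g 0 = 1
  gN : g N = ze
  det : ∀ m, cr (g m) (g (m + N)) = s3 / 2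
  step : ∀ m, ‖g (m + 1) - g m‖ ≤ 6 / N
  bdd : ∀ m, ‖g m‖ ≤ 7
  conv : ∀ m n, m ≤ n → n ≤ m + 3 * N → 0 ≤ cr (g (m + 1) - g m) (g (n + 1) - g n)
  rad : ∀ m, ‖g (m + 1) - g m‖ ≤ 4 * cr (g m) (g (m + 1))
  S0 : S 0 = 0
  Sst : ∀ m, 3 * (S (m + 1) - S m) = cr (g m) (g (m + 1)) + cr (g (m + N)) (g (m + N + 1))
    + cr (g (m + 2 * N)) (g (m + 2 * N + 1))
  Slow : ∀ m, 1 / (2 * N) ≤ S (m + 1) - S m
  SN : 3 * S N ≤ A

/-- continuous closed curve of hexagons, with a Lipschitz parameter -/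
structure PC (A : ℝ) (γ : ℝ → ℂ) (S : ℝ → ℝ) : Prop where
  hex : ∀ u, γ (u + 2) = γ (u + 1) - γ u
  g0 : γ 0 = 1
  g1 : γ 1 = ze
  det : ∀ u, cr (γ u) (γ (u + 1)) = s3 / 2
  lip : ∀ u v, ‖γ u - γ v‖ ≤ 6 * |u - v|
  conv : ∀ s t u v, s ≤ t → t ≤ u → u ≤ v → v ≤ s + 3 → 0 ≤ cr (γ t - γ s) (γ v - γ u)
  supp : ∀ u, ∃ n : ℂ, ‖n‖ ≤ 4 ∧ cr n (γ u) = -1 ∧ ∀ v, |cr n (γ v)| ≤ 1
  poly : ∀ (n : ℕ) (t : ℕ → ℝ), Monotone t → t n = t 0 + 3 →
    ∑ i ∈ Finset.range n, cr (γ (t i)) (γ (t (i + 1))) ≤ 3 * S 1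
  S0 : S 0 = 0
  Sper : ∀ u, S (u + 1) = S u + S 1
  SA : 3 * S 1 ≤ A
  Slow : ∀ u v, u ≤ v → 1 / 2 * (v - u) ≤ S v - S u
  Sup : ∀ u v, u ≤ v → S v - S u ≤ 50 * (v - u)
  area : ∀ u v, u ≤ v → |cr (γ u) (γ v) + cr (γ (u + 1)) (γ (v + 1))
    + cr (γ (u + 2)) (γ (v + 2)) - 3 * (S v - S u)| ≤ 108 * (v - u) ^ 2

/-- closed curve of hexagons, parametrised by area; period of the hexagons `T`, `3T` is the
area enclosed by the curve -/
structure AC (T : ℝ) (γ : ℝ → ℂ) : Prop where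
  Tpos : 0 < T
  hex : ∀ τ, γ (τ + 2 * T) = γ (τ + T) - γ τ
  g0 : γ 0 = 1
  gT : γ T = ze
  det : ∀ τ, cr (γ τ) (γ (τ + T)) = s3 / 2
  lip : ∃ C : NNReal, LipschitzWith C γ
  conv : ∀ s t u v, s ≤ t → t ≤ u → u ≤ v → v ≤ s + 3 * T → 0 ≤ cr (γ t - γ s) (γ v - γ u)
  supp : ∀ τ, ∃ n : ℂ, cr n (γ τ) = -1 ∧ ∀ x, |cr n (γ x)| ≤ 1
  poly : ∀ (n : ℕ) (t : ℕ → ℝ), Monotone t → t n = t 0 + 3 * T →
    ∑ i ∈ Finset.range n, cr (γ (t i)) (γ (t (i + 1))) ≤ 3 * T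
  area : ∃ C : ℝ, ∀ s t, s ≤ t → |cr (γ s) (γ t) + cr (γ (s + T)) (γ (t + T))
    + cr (γ (s + 2 * T)) (γ (t + 2 * T)) - 3 * (t - s)| ≤ C * (t - s) ^ 2

/-- the a priori domain of the shape parameter `y` -/
def Dom (y : ℂ) : Prop :=
  ∀ j : Fin 3, 1 / 30 ≤ 1 - 2 * dt (uu j) y ∧
    59 / 1000 * (1 - normSq y) ≤ (1 - 2 * dt (uu j) y) ^ 2

/-- convexity of the three arcs, in terms of `y` and its derivative `v` -/
def Kap (y v : ℂ) : Prop :=
  ∀ j : Fin 3, 0 ≤ (1 - normSq y) * (1 + dt (uu j) y) + cr (uu j) v + cr y v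

/-- the differential system (without the initial condition): `γ (τ + jT) = a ζ^j + b ζ^{-j}` -/
structure RS (T : ℝ) (a b y : ℝ → ℂ) : Prop where
  Tpos : 0 < T
  Tlow : s3 / 2 ≤ T
  ha : ∀ τ, HasDerivAt a (I * (a τ - (starRingEnd ℂ) (y τ) * b τ)) τ
  hb : ∀ τ, HasDerivAt b (I * (y τ * a τ - b τ)) τ
  hn : ∀ τ, normSq (a τ) - normSq (b τ) = 1
  pa : ∀ τ, a (τ + T) = ze * a τ
  pb : ∀ τ, b (τ + T) = (starRingEnd ℂ) ze * b τ
  py : ∀ τ, y (τ + T) = (starRingEnd ℂ) ze ^ 2 * y τ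
  ylip : ∃ C : NNReal, LipschitzWith C y
  dom : ∀ τ, Dom (y τ)
  kap : ∀ᵐ τ : ℝ, Kap (y τ) (deriv y τ)

/-- strictly convex norm of the plane -/
structure SN (ν : ℂ → ℝ) : Prop where
  pos : ∀ x, x ≠ 0 → 0 < ν x
  hom : ∀ (t : ℝ) (x : ℂ), ν (t * x) = |t| * ν x
  tri : ∀ x y, ν (x + y) ≤ ν x + ν y
  strict : ∀ x y, cr x y ≠ 0 → ν (x + y) < ν x + ν y

/-! ### elementary lemmas -/

lemma s3_sq : s3 ^ 2 = 3 := by
  unfold s3; exact Real.sq_sqrt (by norm_num)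

lemma s3_mul : s3 * s3 = 3 := by
  have := s3_sq; nlinarith

lemma s3_pos : 0 < s3 := by
  unfold s3; exact Real.sqrt_pos.mpr (by norm_num)

lemma s3_gt : (17320508 / 10000000 : ℝ) < s3 := by
  unfold s3; rw [Real.lt_sqrt (by norm_num)]; norm_num

lemma s3_lt : s3 < (17320509 / 10000000 : ℝ) := by
  unfold s3; rw [Real.sqrt_lt' (by norm_num)]; norm_num

lemma cr_add_left (x y z : ℂ) : cr (x + y) z = cr x z + cr y z := by
  simp only [cr, add_re, add_im]; ring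

lemma cr_add_right (x y z : ℂ) : cr x (y + z) = cr x y + cr x z := by
  simp only [cr, add_re, add_im]; ring

lemma cr_sub_left (x y z : ℂ) : cr (x - y) z = cr x z - cr y z := by
  simp only [cr, sub_re, sub_im]; ring

lemma cr_sub_right (x y z : ℂ) : cr x (y - z) = cr x y - cr x z := by
  simp only [cr, sub_re, sub_im]; ring

lemma cr_neg_left (x y : ℂ) : cr (-x) y = - cr x y := by
  simp only [cr, neg_re, neg_im]; ring

lemma cr_neg_right (x y : ℂ) : cr x (-y) = - cr x y := by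
  simp only [cr, neg_re, neg_im]; ring

lemma cr_self (x : ℂ) : cr x x = 0 := by
  simp only [cr]; ring

lemma cr_swap (x y : ℂ) : cr x y = - cr y x := by
  simp only [cr]; ring

lemma cr_smul_left (t : ℝ) (x y : ℂ) : cr (t * x) y = t * cr x y := by
  simp only [cr, mul_re, mul_im, ofReal_re, ofReal_im]; ring

lemma cr_smul_right (t : ℝ) (x y : ℂ) : cr x (t * y) = t * cr x y := by
  simp only [cr, mul_re, mul_im, ofReal_re, ofReal_im]; ring

lemma cr_zero_left (x : ℂ) : cr 0 x = 0 := by simp [cr]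

lemma cr_zero_right (x : ℂ) : cr x 0 = 0 := by simp [cr]

lemma cr_eq_im (x y : ℂ) : cr x y = ((starRingEnd ℂ) x * y).im := by
  simp only [cr, mul_im, conj_re, conj_im]; ring

lemma dt_eq_re (x y : ℂ) : dt x y = ((starRingEnd ℂ) x * y).re := by
  simp only [dt, mul_re, conj_re, conj_im]; ring

lemma abs_cr_le (x y : ℂ) : |cr x y| ≤ ‖x‖ * ‖y‖ := by
  rw [cr_eq_im]
  calc |((starRingEnd ℂ) x * y).im| ≤ ‖(starRingEnd ℂ) x * y‖ := abs_im_le_norm _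
    _ = ‖x‖ * ‖y‖ := by rw [norm_mul, RCLike.norm_conj]

/-- Plücker identity -/
lemma cr_plucker (n m z w : ℂ) : cr n z * cr m w - cr m z * cr n w = cr n m * cr z w := by
  simp only [cr]; ring

lemma cr_hx (a b v w : ℂ) : cr (hx a b v) (hx a b w) = (normSq a - normSq b) * cr v w := by
  simp only [cr, hx, add_re, add_im, mul_re, mul_im, conj_re, conj_im, normSq_apply]; ring

lemma ze_re : ze.re = 1 / 2 := rfl

lemma ze_im : ze.im = s3 / 2 := rfl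

lemma ze_sq : ze ^ 2 = ze - 1 := by
  have h := s3_mul
  apply Complex.ext
  · simp only [pow_two, mul_re, ze_re, ze_im, sub_re, one_re]; nlinarith
  · simp only [pow_two, mul_im, ze_re, ze_im, sub_im, one_im]; ring

lemma ze_cube : ze ^ 3 = -1 := by
  have : ze ^ 3 = ze ^ 2 * ze := by ring
  rw [this, ze_sq]
  have h2 : (ze - 1) * ze = ze ^ 2 - ze := by ring
  rw [h2, ze_sq]; ring

lemma conj_ze : (starRingEnd ℂ) ze = 1 - ze := by
  apply Complex.ext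
  · simp only [conj_re, ze_re, sub_re, one_re]; norm_num
  · simp only [conj_im, ze_im, sub_im, one_im]; ring

lemma ze_mul_conj : ze * (starRingEnd ℂ) ze = 1 := by
  rw [conj_ze]
  have : ze * (1 - ze) = ze - ze ^ 2 := by ring
  rw [this, ze_sq]; ring

lemma normSq_ze : normSq ze = 1 := by
  have h := s3_mul
  rw [normSq_apply, ze_re, ze_im]; nlinarith

lemma norm_ze : ‖ze‖ = 1 := by
  have := normSq_ze
  rw [normSq_eq_norm_sq] at this
  nlinarith [norm_nonneg ze]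

lemma ze_eq_exp : ze = exp (((Real.pi / 3 : ℝ) : ℂ) * I) := by
  rw [exp_mul_I]
  apply Complex.ext
  · rw [← ofReal_cos, ← ofReal_sin]
    simp [ze_re, Real.cos_pi_div_three]
  · rw [← ofReal_cos, ← ofReal_sin]
    simp [ze_im, Real.sin_pi_div_three, s3]

lemma uu_zero : uu 0 = 1 := rfl

lemma uu_one : uu 1 = ze ^ 2 := by
  rw [ze_sq]
  apply Complex.ext
  · simp only [uu, sub_re, ze_re, one_re]; norm_num
  · simp only [uu, sub_im, ze_im, one_im]; norm_num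

lemma uu_two : uu 2 = -ze := by
  apply Complex.ext
  · rw [neg_re, ze_re]
    show (-1 / 2 : ℝ) = -(1 / 2)
    norm_num
  · rw [neg_im, ze_im]
    rfl

lemma cr_one_ze : cr 1 ze = s3 / 2 := by
  simp only [cr, one_re, one_im, ze_re, ze_im]; ring

lemma continuous_cr : Continuous (fun x : ℂ × ℂ => cr x.1 x.2) := by
  unfold cr
  fun_prop

end Pool.H61.Rh
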