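import Pool.Agent.H61.Rh.Basic

/-! # E1a: directions of the curve

`γ (τ + 3T) = - γ τ` (twice `hex`).  `2 cr (γ s) (γ t) = cr (γ t - γ s) (γ (s+3T) - γ t) ≥ 0`
for `s ≤ t ≤ s + 3T` (`conv`).  `γ τ ≠ 0` by `det`.
`dir`: the continuous function `x ↦ cr (γ x) v` changes sign on `[0, 3T]`, so it has a zero `x`;
`γ x = lam * v` with `lam ≠ 0`; if `lam < 0` take `x + 3T`.
`dirs`: take `t 0` from `dir` for `v 0`; for `0 < i < n` take the point of direction `v i`
in `[t 0, t 0 + 6T)`; since `cr (v 0) (v i) > 0` it is in `(t 0, t 0 + 3T)`; the order follows from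
`cr (γ (t i)) (γ (t j)) > 0`; `t i = t 0 + 3T` for `i ≥ n`. -/

set_option autoImplicit false

namespace Pool.H61.Rh

open Complex Finset

theorem AC.hex3 {T : ℝ} {γ : ℝ → ℂ} (h : AC T γ) (τ : ℝ) : γ (τ + 3 * T) = - γ τ := by
  have h1 := h.hex (τ + T)
  have h2 := h.hex τ
  have e1 : τ + T + 2 * T = τ + 3 * T := by ring
  have e2 : τ + T + T = τ + 2 * T := by ring
  rw [e1, e2, h2] at h1
  rw [h1]
  ring

theorem AC.cr_nonneg {T : ℝ} {γ : ℝ → ℂ} (h : AC T γ) (s t : ℝ) (h1 : s ≤ t)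
    (h2 : t ≤ s + 3 * T) : 0 ≤ cr (γ s) (γ t) := by
  have h3 := h.conv s t t (s + 3 * T) h1 le_rfl h2 le_rfl
  rw [h.hex3, cr_sub_left, cr_sub_right, cr_sub_right, cr_neg_right, cr_neg_right, cr_self,
    cr_self, cr_swap (γ t) (γ s)] at h3
  linarith

theorem AC.ne_zero {T : ℝ} {γ : ℝ → ℂ} (h : AC T γ) (τ : ℝ) : γ τ ≠ 0 := by
  intro h0
  have h1 := h.det τ
  rw [h0, cr_zero_left] at h1
  have := s3_pos
  linarith

private theorem E1a_par {z v : ℂ} (hv : v ≠ 0) (h : cr z v = 0) : ∃ lam : ℝ, z = lam * v := by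
  have h1 : 0 < v.re * v.re + v.im * v.im := by
    have := normSq_pos.mpr hv
    rwa [normSq_apply] at this
  have h2 : z.re * v.im = z.im * v.re := by
    unfold cr at h
    linarith
  refine ⟨(z.re * v.re + z.im * v.im) / (v.re * v.re + v.im * v.im), ?_⟩
  apply Complex.ext
  · simp only [mul_re, ofReal_re, ofReal_im, zero_mul, sub_zero]
    rw [div_mul_eq_mul_div, eq_div_iff h1.ne']
    linear_combination v.im * h2
  · simp only [mul_im, ofReal_re, ofReal_im, zero_mul, add_zero]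
    rw [div_mul_eq_mul_div, eq_div_iff h1.ne']
    linear_combination (-v.re) * h2

private theorem E1a_cr_mul (a b : ℝ) (z w : ℂ) : cr (a * z) (b * w) = a * b * cr z w := by
  rw [cr_smul_left, cr_smul_right]
  ring

theorem AC.dir {T : ℝ} {γ : ℝ → ℂ} (h : AC T γ) (v : ℂ) (hv : v ≠ 0) :
    ∃ t lam : ℝ, 0 < lam ∧ γ t = lam * v := by
  obtain ⟨C, hC⟩ := h.lip
  have hc : Continuous fun x => cr (γ x) v :=
    continuous_cr.comp (hC.continuous.prodMk continuous_const)
  have h3 : cr (γ (0 + 3 * T)) v = - cr (γ 0) v := by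
    rw [h.hex3, cr_neg_left]
  have h0 : (0 : ℝ) ∈ Set.range fun x => cr (γ x) v := by
    rcases le_total (cr (γ 0) v) 0 with h1 | h1
    · refine mem_range_of_exists_le_of_exists_ge hc ⟨0, h1⟩ ⟨0 + 3 * T, ?_⟩
      change 0 ≤ cr (γ (0 + 3 * T)) v
      rw [h3]
      linarith
    · refine mem_range_of_exists_le_of_exists_ge hc ⟨0 + 3 * T, ?_⟩ ⟨0, h1⟩
      change cr (γ (0 + 3 * T)) v ≤ 0
      rw [h3]
      linarith
  obtain ⟨x, hx⟩ := h0
  obtain ⟨lam, hl⟩ := E1a_par hv hx
  have hl0 : lam ≠ 0 := by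
    rintro rfl
    apply h.ne_zero x
    rw [hl]
    simp
  rcases lt_or_gt_of_ne hl0 with hneg | hpos
  · refine ⟨x + 3 * T, -lam, by linarith, ?_⟩
    rw [h.hex3, hl]
    push_cast
    ring
  · exact ⟨x, lam, hpos, hl⟩

theorem AC.dirs {T : ℝ} {γ : ℝ → ℂ} (h : AC T γ) (n : ℕ) (hn : 0 < n) (v : ℕ → ℂ)
    (hv0 : v 0 ≠ 0) (hvn : v n = - v 0) (hv : ∀ i j, i < j → j < n → 0 < cr (v i) (v j)) :
    ∃ t lam : ℕ → ℝ, Monotone t ∧ t n = t 0 + 3 * T ∧
      ∀ i ≤ n, 0 < lam i ∧ γ (t i) = lam i * v i := by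
  obtain ⟨t0, l0, hl0, ht0⟩ := h.dir (v 0) hv0
  have hT := h.Tpos
  have hper : Function.Periodic γ (6 * T) := by
    intro x
    have e : x + 6 * T = x + 3 * T + 3 * T := by ring
    rw [e, h.hex3, h.hex3, neg_neg]
  have key : ∀ i, ∃ y lam : ℝ, 0 < i → i < n →
      t0 ≤ y ∧ y ≤ t0 + 3 * T ∧ 0 < lam ∧ γ y = lam * v i := by
    intro i
    by_cases hi : 0 < i ∧ i < n
    · have hcr := hv 0 i hi.1 hi.2
      have hvi : v i ≠ 0 := by
        intro h0
        rw [h0, cr_zero_right] at hcr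
        exact lt_irrefl _ hcr
      obtain ⟨t, lam, hlam, ht⟩ := h.dir (v i) hvi
      obtain ⟨y, hy, hty⟩ := hper.exists_mem_Ico (by linarith : (0 : ℝ) < 6 * T) t t0
      rw [ht] at hty
      refine ⟨y, lam, fun _ _ => ⟨hy.1, ?_, hlam, hty.symm⟩⟩
      by_contra hcon
      push Not at hcon
      have h1 := h.cr_nonneg t0 (y - 3 * T) (by linarith) (by linarith [hy.2])
      have h2 := h.hex3 (y - 3 * T)
      rw [sub_add_cancel, ← hty] at h2
      have h3 : γ (y - 3 * T) = ((-lam : ℝ) : ℂ) * v i := by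
        have h4 : γ (y - 3 * T) = -(lam * v i) := by rw [h2, neg_neg]
        rw [h4]
        push_cast
        ring
      rw [h3, ht0, E1a_cr_mul] at h1
      have h4 : 0 < l0 * lam * cr (v 0) (v i) := by positivity
      nlinarith
    · exact ⟨0, 0, fun h1 h2 => absurd ⟨h1, h2⟩ hi⟩
  choose y lam hy using key
  have hord : ∀ i j, 0 < i → i < j → j < n → y i ≤ y j := by
    intro i j hi hij hj
    obtain ⟨h1, h2, h3, h4⟩ := hy i hi (by omega)
    obtain ⟨h5, h6, h7, h8⟩ := hy j (by omega) hj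
    by_contra hcon
    push Not at hcon
    have h9 := h.cr_nonneg (y j) (y i) hcon.le (by linarith)
    rw [h4, h8, E1a_cr_mul, cr_swap] at h9
    have h10 := hv i j hij hj
    have h11 : 0 < lam j * lam i * cr (v i) (v j) := by positivity
    nlinarith
  refine ⟨fun i => if i = 0 then t0 else if i < n then y i else t0 + 3 * T,
    fun i => if i = 0 then l0 else if i < n then lam i else l0, ?_, ?_, ?_⟩
  · intro i j hij
    change (if i = 0 then t0 else if i < n then y i else t0 + 3 * T) ≤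
      (if j = 0 then t0 else if j < n then y j else t0 + 3 * T)
    rcases Nat.eq_zero_or_pos i with rfl | hi
    · rw [if_pos rfl]
      rcases Nat.eq_zero_or_pos j with rfl | hj
      · rw [if_pos rfl]
      · rw [if_neg hj.ne']
        split_ifs with h1
        · exact (hy j hj h1).1
        · linarith
    · rw [if_neg hi.ne', if_neg (by omega : j ≠ 0)]
      split_ifs with h1 h2 h2
      · rcases Nat.eq_or_lt_of_le hij with rfl | hlt
        · exact le_rfl
        · exact hord i j hi hlt h2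
      · exact (hy i hi h1).2.1
      · omega
      · exact le_rfl
  · change (if n = 0 then t0 else if n < n then y n else t0 + 3 * T) =
      (if (0 : ℕ) = 0 then t0 else if 0 < n then y 0 else t0 + 3 * T) + 3 * T
    rw [if_neg hn.ne', if_neg (lt_irrefl n), if_pos rfl]
  · intro i hi
    change 0 < (if i = 0 then l0 else if i < n then lam i else l0) ∧
      γ (if i = 0 then t0 else if i < n then y i else t0 + 3 * T) =
        ((if i = 0 then l0 else if i < n then lam i else l0 : ℝ) : ℂ) * v i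
    rcases Nat.eq_zero_or_pos i with rfl | hi0
    · rw [if_pos rfl, if_pos rfl]
      exact ⟨hl0, ht0⟩
    · rw [if_neg hi0.ne', if_neg hi0.ne']
      rcases Nat.eq_or_lt_of_le hi with rfl | hlt
      · rw [if_neg (lt_irrefl _), if_neg (lt_irrefl _)]
        refine ⟨hl0, ?_⟩
        rw [h.hex3, ht0, hvn]
        ring
      · rw [if_pos hlt, if_pos hlt]
        exact (hy i hi0 hlt).2.2

/-- the inscribed regular hexagon gives `T ≥ √3/2` (`poly` with `n = 3`, `t i = i T`) -/
theorem AC.Tlow {T : ℝ} {γ : ℝ → ℂ} (h : AC T γ) : s3 / 2 ≤ T := by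
  have hT := h.Tpos
  have h1 := h.poly 3 (fun i => (i : ℝ) * T) (by
    intro i j hij
    have : (i : ℝ) ≤ j := by exact_mod_cast hij
    exact mul_le_mul_of_nonneg_right this hT.le) (by
    push_cast
    ring)
  have h2 : ∀ i : ℕ, cr (γ ((i : ℝ) * T)) (γ (((i + 1 : ℕ) : ℝ) * T)) = s3 / 2 := by
    intro i
    have e : ((i + 1 : ℕ) : ℝ) * T = (i : ℝ) * T + T := by
      push_cast
      ring
    rw [e]
    exact h.det _
  rw [Finset.sum_congr rfl fun i _ => h2 i] at h1
  rw [Finset.sum_const, Finset.card_range, nsmul_eq_mul] at h1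
  push_cast at h1
  linarith

end Pool.H61.Rh
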