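import Pool.Agent.H61.Rh.E1a

/-! # E1b: hexagons in a parallelogram (pure algebra)

`(p1, p2)`, `(x, y)`, `(x - p1, y - p2)` in the diamond `|·| + |·| ≤ 1`.  If `|x| ≤ y` then
`p1 y - p2 x = (y-x)/2 (p1 + p2) + (y+x)/2 (p1 - p2)`, `p1 + p2 ≤ 1`,
`p1 - p2 ≤ 1 - y + x` (from `-(x - p1) + (y - p2) ≤ 1`), hence the bound
`(2y - y² + x²)/2`.  If `|y| ≤ x`:
`p1 y - p2 x = (x+y)/2 (p1 - p2) + (x-y)/2 (-(p1 + p2))`, `p1 - p2 ≤ 1`,
`-(p1+p2) ≤ 1 - x - y`. -/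

set_option autoImplicit false

namespace Pool.H61.Rh

open Complex Finset

theorem E1b_top_aux (p1 p2 x y : ℝ) (h1 : p1 + p2 ≤ 1) (h2 : p1 - p2 ≤ 1 - y + x)
    (h3 : x ≤ y) (h4 : -x ≤ y) : 2 * (p1 * y - p2 * x) ≤ 2 * y - y ^ 2 + x ^ 2 := by
  have e1 : (y - x) * (p1 + p2) ≤ (y - x) * 1 := mul_le_mul_of_nonneg_left h1 (by linarith)
  have e2 : (y + x) * (p1 - p2) ≤ (y + x) * (1 - y + x) :=
    mul_le_mul_of_nonneg_left h2 (by linarith)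
  nlinarith

theorem E1b_right_aux (p1 p2 x y : ℝ) (h1 : p1 - p2 ≤ 1) (h2 : x + y - 1 ≤ p1 + p2)
    (h3 : y ≤ x) (h4 : -y ≤ x) : 2 * (p1 * y - p2 * x) ≤ 2 * x - x ^ 2 + y ^ 2 := by
  have e1 : (x + y) * (p1 - p2) ≤ (x + y) * 1 := mul_le_mul_of_nonneg_left h1 (by linarith)
  have e2 : (x - y) * (-(p1 + p2)) ≤ (x - y) * (1 - x - y) :=
    mul_le_mul_of_nonneg_left (by linarith) (by linarith)
  nlinarith

theorem diamond_top (p1 p2 x y : ℝ) (h1 : |p1| + |p2| ≤ 1) (h2 : |x - p1| + |y - p2| ≤ 1)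
    (hxy : |x| ≤ |y|) : 2 * (p1 * y - p2 * x) ≤ 2 * |y| - y ^ 2 + x ^ 2 := by
  have a1 := le_abs_self p1
  have a2 := neg_abs_le p1
  have a3 := le_abs_self p2
  have a4 := neg_abs_le p2
  have b1 := le_abs_self (x - p1)
  have b2 := neg_abs_le (x - p1)
  have b3 := le_abs_self (y - p2)
  have b4 := neg_abs_le (y - p2)
  rcases le_total 0 y with hy | hy
  · rw [abs_of_nonneg hy] at hxy ⊢
    rw [abs_le] at hxy
    exact E1b_top_aux p1 p2 x y (by linarith) (by linarith) hxy.2 (by linarith [hxy.1])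
  · rw [abs_of_nonpos hy] at hxy ⊢
    rw [abs_le] at hxy
    have := E1b_top_aux (-p1) (-p2) (-x) (-y) (by linarith) (by linarith) (by linarith [hxy.1])
      (by linarith [hxy.2])
    nlinarith

theorem diamond_right (p1 p2 x y : ℝ) (h1 : |p1| + |p2| ≤ 1) (h2 : |x - p1| + |y - p2| ≤ 1)
    (hxy : |y| ≤ |x|) : 2 * (p1 * y - p2 * x) ≤ 2 * |x| - x ^ 2 + y ^ 2 := by
  have a1 := le_abs_self p1
  have a2 := neg_abs_le p1
  have a3 := le_abs_self p2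
  have a4 := neg_abs_le p2
  have b1 := le_abs_self (x - p1)
  have b2 := neg_abs_le (x - p1)
  have b3 := le_abs_self (y - p2)
  have b4 := neg_abs_le (y - p2)
  rcases le_total 0 x with hx | hx
  · rw [abs_of_nonneg hx] at hxy ⊢
    rw [abs_le] at hxy
    exact E1b_right_aux p1 p2 x y (by linarith) (by linarith) hxy.2 (by linarith [hxy.1])
  · rw [abs_of_nonpos hx] at hxy ⊢
    rw [abs_le] at hxy
    have := E1b_right_aux (-p1) (-p2) (-x) (-y) (by linarith) (by linarith) (by linarith [hxy.1])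
      (by linarith [hxy.2])
    nlinarith

theorem E1b_abs (N M : ℝ) (hN : |N| ≤ 1) (hM : |M| ≤ 1) : |(N - M) / 2| + |(N + M) / 2| ≤ 1 := by
  rw [abs_le] at hN hM
  rcases abs_cases ((N - M) / 2) with ⟨h1, -⟩ | ⟨h1, -⟩ <;>
    rcases abs_cases ((N + M) / 2) with ⟨h2, -⟩ | ⟨h2, -⟩ <;> rw [h1, h2] <;> linarith [hN.1, hN.2, hM.1, hM.2]

/-- Coordinates `x = (cr n z - cr m z)/2`, `y = (cr n z + cr m z)/2` of the points `z` of the
curve; `|x| + |y| = max |cr n z| |cr m z| ≤ 1`; determinant in these coordinates is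
`cr n m / 2` times `cr` (`cr_plucker`); `p = γ (τ - T)`, `q = γ τ`, `q - p = γ (τ + T)`,
`cr p q = √3/2`. -/
theorem AC.hyper {T : ℝ} {γ : ℝ → ℂ} (h : AC T γ) (n m : ℂ) (hn : ∀ x, |cr n (γ x)| ≤ 1)
    (hm : ∀ x, |cr m (γ x)| ≤ 1) (τ : ℝ) :
    (|cr n (γ τ) - cr m (γ τ)| ≤ |cr n (γ τ) + cr m (γ τ)| →
      (1 - |cr n (γ τ) + cr m (γ τ)| / 2) ^ 2 ≤
        1 - s3 * (cr n m / 2) + ((cr n (γ τ) - cr m (γ τ)) / 2) ^ 2) ∧
    (|cr n (γ τ) + cr m (γ τ)| ≤ |cr n (γ τ) - cr m (γ τ)| →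
      (1 - |cr n (γ τ) - cr m (γ τ)| / 2) ^ 2 ≤
        1 - s3 * (cr n m / 2) + ((cr n (γ τ) + cr m (γ τ)) / 2) ^ 2) := by
  have hq : γ (τ + T) = γ τ - γ (τ - T) := by
    have h1 := h.hex (τ - T)
    have e1 : τ - T + 2 * T = τ + T := by ring
    have e2 : τ - T + T = τ := by ring
    rw [e1, e2] at h1
    exact h1
  have hdet : cr (γ (τ - T)) (γ τ) = s3 / 2 := by
    have h1 := h.det (τ - T)
    have e2 : τ - T + T = τ := by ring
    rw [e2] at h1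
    exact h1
  have hpl := cr_plucker n m (γ (τ - T)) (γ τ)
  rw [hdet] at hpl
  have hp := E1b_abs _ _ (hn (τ - T)) (hm (τ - T))
  have hr := E1b_abs _ _ (hn (τ + T)) (hm (τ + T))
  rw [hq, cr_sub_right, cr_sub_right] at hr
  set Np := cr n (γ (τ - T)) with hNp
  set Mp := cr m (γ (τ - T)) with hMp
  set Nq := cr n (γ τ) with hNq
  set Mq := cr m (γ τ) with hMq
  have hr' : |(Nq - Mq) / 2 - (Np - Mp) / 2| + |(Nq + Mq) / 2 - (Np + Mp) / 2| ≤ 1 := by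
    have e1 : (Nq - Mq) / 2 - (Np - Mp) / 2 = (Nq - Np - (Mq - Mp)) / 2 := by ring
    have e2 : (Nq + Mq) / 2 - (Np + Mp) / 2 = (Nq - Np + (Mq - Mp)) / 2 := by ring
    rw [e1, e2]
    exact hr
  have hk : 2 * ((Np - Mp) / 2 * ((Nq + Mq) / 2) - (Np + Mp) / 2 * ((Nq - Mq) / 2)) =
      s3 * (cr n m / 2) := by
    linear_combination hpl
  have ha : |(Nq + Mq) / 2| = |Nq + Mq| / 2 := by
    rw [abs_div, abs_of_pos (by norm_num : (0 : ℝ) < 2)]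
  have hb : |(Nq - Mq) / 2| = |Nq - Mq| / 2 := by
    rw [abs_div, abs_of_pos (by norm_num : (0 : ℝ) < 2)]
  constructor
  · intro hle
    have h1 := diamond_top _ _ ((Nq - Mq) / 2) ((Nq + Mq) / 2) hp hr' (by rw [ha, hb]; linarith)
    rw [hk, ha] at h1
    have h2 : (|Nq + Mq| / 2) ^ 2 = ((Nq + Mq) / 2) ^ 2 := by rw [← ha, sq_abs]
    nlinarith
  · intro hle
    have h1 := diamond_right _ _ ((Nq - Mq) / 2) ((Nq + Mq) / 2) hp hr' (by rw [ha, hb]; linarith)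
    rw [hk, hb] at h1
    have h2 : (|Nq - Mq| / 2) ^ 2 = ((Nq - Mq) / 2) ^ 2 := by rw [← hb, sq_abs]
    nlinarith

end Pool.H61.Rh
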