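import Pool.Agent.H61.Rh.E1b

/-! # E1c: two strips containing the curve: lower bound for the area of the parallelogram

Assume `cr n m > 0` (otherwise exchange `n, m`; if `cr n m = 0` nothing to prove) and
`cr n m > 2/√3 (1 - 0.14²)`.  Put `κ = cr n m / 2`, `δ = √(1 - √3 κ)` (`√3 κ ≤ 1` by `hyper`
for the point of direction with `x = 0`, i.e. from `0 ≤ (1-|y|)² ≤ 1 - √3κ`), so `0 ≤ δ < 0.14`;
Let `δ' = max δ (1/100)` (so `0 < δ' ≤ 0.14`, `δ ≤ δ'`), and from now on write `δ` for `δ'` in the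
polygon below (all bounds from `hyper` stay true with `δ'`), `e = √2 δ`, `M = (1 - δ²)/2`.
Directions (coordinates `x = (cr n z - cr m z)/2`, `y = (cr n z + cr m z)/2`), `i = 0..8`:
`(1-δ, 0), (1-e, δ), (M, M), (δ, 1-e), (0, 1-δ), (-δ, 1-e), (-M, M), (-(1-e), δ), (-(1-δ), 0)`.
The linear map `z ↦ (x, y)` is bijective (`cr n m ≠ 0`), so these are `φ (v i)` for vectors
`v i`, `cr (v i) (v j) = (x_i y_j - y_i x_j)/κ`; apply `AC.dirs` with `n = 8`.
By `AC.hyper` the multiples satisfy `lam i ≥ 1` (e.g. for `(δ, 1-e)`: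
`(1 - lam (1-e))² ≤ δ² + lam² δ²` fails for `0 < lam < 1`; for `(M, M)`: `1 - 2 lam M ≤ δ²`;
for `(0, 1-δ)`: `(1 - lam(1-δ))² ≤ δ²`).
Then `3T ≥ ∑ cr (γ t_i) (γ t_{i+1}) ≥ ∑ cr (v i) (v (i+1)) = (4/κ) [(1-δ) δ + M (1 - e - δ)]`
and, if `δ' = δ`, `κ = (1-δ²)/√3`, so `3T ≥ 2√3 [2δ/(1+δ) + 1 - (1+√2) δ] > 2√3 · 0.902` for
`0 ≤ δ ≤ 0.14` (the bracket is decreasing, value `0.9076` at `0.14`).  If `δ' = 1/100` use
`κ ≤ 1/√3`: `3T ≥ 4√3 [(1-δ') δ' + M (1 - e - δ')] ≥ 2√3 · 0.99`. -/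

set_option autoImplicit false

namespace Pool.H61.Rh

open Complex Finset

/-- the vector with given coordinates -/
noncomputable def E1c_phi (n m : ℂ) (X Y : ℝ) : ℂ :=
  (((X - Y) / cr n m : ℝ) : ℂ) * n + (((X + Y) / cr n m : ℝ) : ℂ) * m

/-- first coordinates -/
noncomputable def E1c_X (d e M : ℝ) : ℕ → ℝ
  | 0 => 1 - d
  | 1 => 1 - e
  | 2 => M
  | 3 => d
  | 4 => 0
  | 5 => -d
  | 6 => -M
  | 7 => -(1 - e)
  | _ => -(1 - d)

/-- second coordinates -/
noncomputable def E1c_Y (d e M : ℝ) : ℕ → ℝ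
  | 0 => 0
  | 1 => d
  | 2 => M
  | 3 => 1 - e
  | 4 => 1 - d
  | 5 => 1 - e
  | 6 => M
  | 7 => d
  | _ => 0

private lemma cr_n_phi (n m : ℂ) (X Y : ℝ) (h : cr n m ≠ 0) : cr n (E1c_phi n m X Y) = X + Y := by
  rw [E1c_phi, cr_add_right, cr_smul_right, cr_smul_right, cr_self]
  field_simp
  ring

private lemma cr_m_phi (n m : ℂ) (X Y : ℝ) (h : cr n m ≠ 0) : cr m (E1c_phi n m X Y) = Y - X := by
  rw [E1c_phi, cr_add_right, cr_smul_right, cr_smul_right, cr_self, cr_swap m n]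
  field_simp
  ring

private lemma cr_phi (n m : ℂ) (X Y X' Y' : ℝ) (h : cr n m ≠ 0) :
    cr (E1c_phi n m X Y) (E1c_phi n m X' Y') = (X * Y' - Y * X') / (cr n m / 2) := by
  rw [E1c_phi, cr_add_left, cr_smul_left, cr_smul_left, cr_n_phi n m X' Y' h, cr_m_phi n m X' Y' h]
  field_simp
  ring

private lemma phi_neg (n m : ℂ) (X Y : ℝ) : E1c_phi n m (-X) (-Y) = - E1c_phi n m X Y := by
  unfold E1c_phi
  have h1 : (-X - -Y) / cr n m = -((X - Y) / cr n m) := by ring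
  have h2 : (-X + -Y) / cr n m = -((X + Y) / cr n m) := by ring
  rw [h1, h2]
  push_cast
  ring

/-- all the multiples are at least `1` -/
private lemma lam_ge {T : ℝ} {γ : ℝ → ℂ} (h : AC T γ) (n m : ℂ) (hn : ∀ x, |cr n (γ x)| ≤ 1)
    (hm : ∀ x, |cr m (γ x)| ≤ 1) (h0 : cr n m ≠ 0) (d e M : ℝ) (hd0 : 0 < d) (hd1 : d ≤ 14 / 100)
    (he : 0 < e) (he1 : e ≤ 2 / 10) (he2 : e ^ 2 = 2 * d ^ 2) (hM : M = (1 - d ^ 2) / 2)
    (hk : 1 - s3 * (cr n m / 2) ≤ d ^ 2) (i : ℕ) (t lam : ℝ) (hl : 0 < lam)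
    (hg : γ t = lam * E1c_phi n m (E1c_X d e M i) (E1c_Y d e M i)) : 1 ≤ lam := by
  obtain ⟨H1, H2⟩ := h.hyper n m hn hm t
  rw [hg, cr_smul_right, cr_smul_right, cr_n_phi n m _ _ h0, cr_m_phi n m _ _ h0] at H1 H2
  set X := E1c_X d e M i with hX
  set Y := E1c_Y d e M i with hY
  have e1 : lam * (X + Y) - lam * (Y - X) = 2 * (lam * X) := by ring
  have e2 : lam * (X + Y) + lam * (Y - X) = 2 * (lam * Y) := by ring
  rw [e1, e2] at H1 H2
  have e3 : |2 * (lam * Y)| = 2 * (lam * |Y|) := by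
    rw [abs_mul, abs_mul, abs_of_pos hl, abs_of_pos (by norm_num : (0:ℝ) < 2)]
  have e4 : |2 * (lam * X)| = 2 * (lam * |X|) := by
    rw [abs_mul, abs_mul, abs_of_pos hl, abs_of_pos (by norm_num : (0:ℝ) < 2)]
  rw [e3, e4] at H1 H2
  have H1' : |X| ≤ |Y| → (1 - lam * |Y|) ^ 2 ≤ d ^ 2 + lam ^ 2 * X ^ 2 := by
    intro hh
    have := H1 (by nlinarith)
    have e5 : 2 * (lam * |Y|) / 2 = lam * |Y| := by ring
    have e6 : (2 * (lam * X) / 2) ^ 2 = lam ^ 2 * X ^ 2 := by ring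
    rw [e5, e6] at this
    linarith
  have H2' : |Y| ≤ |X| → (1 - lam * |X|) ^ 2 ≤ d ^ 2 + lam ^ 2 * Y ^ 2 := by
    intro hh
    have := H2 (by nlinarith)
    have e5 : 2 * (lam * |X|) / 2 = lam * |X| := by ring
    have e6 : (2 * (lam * Y) / 2) ^ 2 = lam ^ 2 * Y ^ 2 := by ring
    rw [e5, e6] at this
    linarith
  clear H1 H2
  by_contra hlt
  push Not at hlt
  have hM0 : 0 < M := by rw [hM]; nlinarith
  -- the three types
  have A : (1 - lam * (1 - d)) ^ 2 ≤ d ^ 2 → False := by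
    intro hh
    have : d < 1 - lam * (1 - d) := by nlinarith
    nlinarith
  have B : (1 - lam * (1 - e)) ^ 2 ≤ d ^ 2 + lam ^ 2 * d ^ 2 → False := by
    intro hh
    have h1 : e < 1 - lam * (1 - e) := by nlinarith
    have h2 : e ^ 2 < (1 - lam * (1 - e)) ^ 2 := by nlinarith
    have h3 : lam ^ 2 ≤ 1 := by nlinarith
    have h4 : lam ^ 2 * d ^ 2 ≤ d ^ 2 := by nlinarith [sq_nonneg d]
    linarith
  have C : (1 - lam * M) ^ 2 ≤ d ^ 2 + lam ^ 2 * M ^ 2 → False := by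
    intro hh
    have h1 : 1 - 2 * lam * M ≤ d ^ 2 := by nlinarith
    rw [hM] at h1
    nlinarith
  have hdd : |1 - d| = 1 - d := abs_of_pos (by linarith)
  have hee : |1 - e| = 1 - e := abs_of_pos (by linarith)
  have hd' : |d| = d := abs_of_pos hd0
  have hM' : |M| = M := abs_of_pos hM0
  match i, hX, hY with
  | 0, hX, hY =>
    simp only [E1c_X, E1c_Y] at hX hY
    rw [hX, hY, abs_zero, hdd] at H2'
    have := H2' (by linarith)
    exact A (by nlinarith)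
  | 1, hX, hY =>
    simp only [E1c_X, E1c_Y] at hX hY
    rw [hX, hY, hd', hee] at H2'
    exact B (H2' (by linarith))
  | 2, hX, hY =>
    simp only [E1c_X, E1c_Y] at hX hY
    rw [hX, hY, hM'] at H2'
    exact C (H2' (by linarith))
  | 3, hX, hY =>
    simp only [E1c_X, E1c_Y] at hX hY
    rw [hX, hY, hd', hee] at H1'
    exact B (H1' (by linarith))
  | 4, hX, hY =>
    simp only [E1c_X, E1c_Y] at hX hY
    rw [hX, hY, abs_zero, hdd] at H1'
    have := H1' (by linarith)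
    exact A (by nlinarith)
  | 5, hX, hY =>
    simp only [E1c_X, E1c_Y] at hX hY
    rw [hX, hY, abs_neg, hd', hee, neg_sq] at H1'
    exact B (H1' (by linarith))
  | 6, hX, hY =>
    simp only [E1c_X, E1c_Y] at hX hY
    rw [hX, hY, abs_neg, hM'] at H2'
    exact C (H2' (by linarith))
  | 7, hX, hY =>
    simp only [E1c_X, E1c_Y] at hX hY
    rw [hX, hY, abs_neg, hd', hee] at H2'
    exact B (H2' (by linarith))
  | (k + 8), hX, hY =>
    simp only [E1c_X, E1c_Y] at hX hY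
    rw [hX, hY, abs_neg, abs_zero, hdd] at H2'
    have := H2' (by linarith)
    exact A (by nlinarith)

private lemma cross_pos (d e M : ℝ) (hd0 : 0 < d) (p1 : 0 < 1 - d) (p2 : 0 < 1 - e)
    (p3 : 0 < 1 - e - d) (hM0 : 0 < M) (i j : ℕ) (hij : i < j) (hj : j < 8) :
    0 < E1c_X d e M i * E1c_Y d e M j - E1c_Y d e M i * E1c_X d e M j := by
  have r1 : 0 < (1 - e) * M := mul_pos p2 hM0
  have r2 : 0 < (1 - e) * d := mul_pos p2 hd0
  have r3 : 0 < (1 - e) * (1 - d) := mul_pos p2 p1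
  have r4 : 0 < (1 - d) * M := mul_pos p1 hM0
  have r5 : 0 < M * d := mul_pos hM0 hd0
  have r6 : 0 < M * M := mul_pos hM0 hM0
  have r7 : 0 < (1 - e - d) * (1 - e) := mul_pos p3 p2
  have r8 : 0 < (1 - e - d) * d := mul_pos p3 hd0
  have r9 : 0 < d * d := mul_pos hd0 hd0
  have r10 : 0 < (1 - e) * (1 - e) := mul_pos p2 p2
  have r11 : 0 < (1 - d) * d := mul_pos p1 hd0
  have r12 : 0 < (1 - e - d) * M := mul_pos p3 hM0
  have r13 : 0 < (1 - d) * (1 - d) := mul_pos p1 p1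
  interval_cases j <;> interval_cases i <;> simp only [E1c_X, E1c_Y] <;> linarith

private lemma cross_next (d e M : ℝ) (hd0 : 0 < d) (p1 : 0 < 1 - d) (p2 : 0 < 1 - e)
    (p3 : 0 < 1 - e - d) (hM0 : 0 < M) (i : ℕ) (hi : i < 8) :
    0 < E1c_X d e M i * E1c_Y d e M (i + 1) - E1c_Y d e M i * E1c_X d e M (i + 1) := by
  rcases Nat.lt_or_ge i 7 with h | h
  · exact cross_pos d e M hd0 p1 p2 p3 hM0 i (i + 1) (by omega) (by omega)
  · have : i = 7 := by omega
    subst this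
    have r11 : 0 < (1 - d) * d := mul_pos p1 hd0
    simp only [E1c_X, E1c_Y]
    linarith

private lemma fin1 (k d e : ℝ) (hdd : d ^ 2 = 1 - k) (hdp : 0 < d) (hdl : d ≤ 14 / 100)
    (he : e ≤ 141422 / 100000 * d) :
    2 * (9025 / 10000) * k < 4 * ((1 - d) * d + (1 - d ^ 2) / 2 * (1 - e - d)) := by
  have hk' : k = 1 - d ^ 2 := by linarith
  rw [hk']
  have h1 : (1 - d ^ 2) / 2 * (1 - 141422 / 100000 * d - d) ≤
      (1 - d ^ 2) / 2 * (1 - e - d) := by
    apply mul_le_mul_of_nonneg_left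
    · linarith
    · nlinarith
  have h2 : 0 < (1 - d) * (98 / 1000 - 31622 / 100000 * d - 241422 / 100000 * d ^ 2) := by
    apply mul_pos
    · linarith
    · nlinarith
  nlinarith

private lemma fin2 (k e : ℝ) (hk : k ≤ 1) (he : e ≤ 141422 / 100000 * (1 / 100)) :
    2 * (9025 / 10000) * k < 4 * ((1 - 1 / 100) * (1 / 100) +
      (1 - (1 / 100 : ℝ) ^ 2) / 2 * (1 - e - 1 / 100)) := by
  norm_num at he ⊢
  linarith

theorem AC.area_low {T : ℝ} {γ : ℝ → ℂ} (h : AC T γ) (n m : ℂ) (hn : ∀ x, |cr n (γ x)| ≤ 1)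
    (hm : ∀ x, |cr m (γ x)| ≤ 1) (hpos : 2 / s3 * (1 - (14 / 100) ^ 2) < cr n m) :
    2 * s3 * (9025 / 10000) < 3 * T := by
  have hs := s3_pos
  have hss := s3_mul
  have hk0 : 1 - (14 / 100) ^ 2 < s3 * (cr n m / 2) := by
    have h1 : s3 * (2 / s3 * (1 - (14 / 100) ^ 2)) < s3 * cr n m :=
      mul_lt_mul_of_pos_left hpos hs
    have h2 : s3 * (2 / s3 * (1 - (14 / 100) ^ 2)) = 2 * (1 - (14 / 100) ^ 2 : ℝ) := by
      field_simp
    rw [h2] at h1
    linarith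
  have hkp : 0 < cr n m / 2 := by
    by_contra hc
    push Not at hc
    nlinarith
  have h0 : cr n m ≠ 0 := by
    intro hc
    rw [hc] at hkp
    norm_num at hkp
  -- `s3 κ ≤ 1`
  have hk1 : s3 * (cr n m / 2) ≤ 1 := by
    have hv : E1c_phi n m 0 1 ≠ 0 := by
      intro hc
      have := cr_n_phi n m 0 1 h0
      rw [hc, cr_zero_right] at this
      norm_num at this
    obtain ⟨t, lam, hl, hg⟩ := h.dir _ hv
    obtain ⟨H1, -⟩ := h.hyper n m hn hm t
    rw [hg, cr_smul_right, cr_smul_right, cr_n_phi n m _ _ h0, cr_m_phi n m _ _ h0] at H1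
    have e1 : lam * ((0:ℝ) + 1) - lam * (1 - 0) = 0 := by ring
    rw [e1, abs_zero] at H1
    have := H1 (abs_nonneg _)
    have h2 := sq_nonneg (1 - |lam * ((0:ℝ) + 1) + lam * (1 - 0)| / 2)
    norm_num at this h2 ⊢
    linarith
  -- the parameter
  obtain ⟨d, hd0, hd1, hdk, hfin⟩ : ∃ d : ℝ, 0 < d ∧ d ≤ 14 / 100 ∧
      1 - s3 * (cr n m / 2) ≤ d ^ 2 ∧
      (∀ e : ℝ, e ≤ 141422 / 100000 * d →
        2 * (9025 / 10000) * (s3 * (cr n m / 2)) <
          4 * ((1 - d) * d + (1 - d ^ 2) / 2 * (1 - e - d))) := by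
    rcases le_total (1 / 10000) (1 - s3 * (cr n m / 2)) with hc | hc
    · refine ⟨Real.sqrt (1 - s3 * (cr n m / 2)), Real.sqrt_pos.mpr (by linarith), ?_, ?_, ?_⟩
      · rw [Real.sqrt_le_left (by norm_num)]
        linarith
      · rw [Real.sq_sqrt (by linarith)]
      · intro e he
        exact fin1 _ _ e (Real.sq_sqrt (by linarith)) (Real.sqrt_pos.mpr (by linarith))
          (by rw [Real.sqrt_le_left (by norm_num)]; linarith) he
    · exact ⟨1 / 100, by norm_num, by norm_num, by linarith, fun e he => fin2 _ e hk1 he⟩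
  have hs2 : Real.sqrt 2 ^ 2 = 2 := Real.sq_sqrt (by norm_num)
  have hs2p : 0 < Real.sqrt 2 := Real.sqrt_pos.mpr (by norm_num)
  have hs2l : Real.sqrt 2 ≤ 141422 / 100000 := by
    rw [Real.sqrt_le_left (by norm_num)]
    norm_num
  set e : ℝ := Real.sqrt 2 * d with he
  have he0 : 0 < e := mul_pos hs2p hd0
  have he1 : e ≤ 141422 / 100000 * d := by
    rw [he]
    exact mul_le_mul_of_nonneg_right hs2l hd0.le
  have he2 : e ≤ 2 / 10 := by nlinarith
  have he3 : e ^ 2 = 2 * d ^ 2 := by rw [he, mul_pow, hs2]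
  obtain ⟨M, hM⟩ : ∃ M : ℝ, M = (1 - d ^ 2) / 2 := ⟨_, rfl⟩
  have hM0 : 0 < M := by rw [hM]; nlinarith
  have hfin' := hfin e he1
  rw [← hM] at hfin'
  have p1 : 0 < 1 - d := by linarith
  have p2 : 0 < 1 - e := by linarith
  have p3 : 0 < 1 - e - d := by linarith
  have q1 : 0 < (1 - d) * d := mul_pos p1 hd0
  have q2 : 0 < M * (1 - e - d) := mul_pos hM0 p3
  -- the directions
  obtain ⟨t, lam, hmon, ht, hl⟩ := h.dirs 8 (by norm_num)
    (fun i => E1c_phi n m (E1c_X d e M i) (E1c_Y d e M i))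
    (by
      intro hc
      have := cr_n_phi n m (E1c_X d e M 0) (E1c_Y d e M 0) h0
      rw [hc, cr_zero_right] at this
      simp only [E1c_X, E1c_Y] at this
      linarith)
    (by
      have := phi_neg n m (E1c_X d e M 0) (E1c_Y d e M 0)
      simp only [E1c_X, E1c_Y, neg_zero] at this ⊢
      exact this)
    (by
      intro i j hij hj
      rw [cr_phi n m _ _ _ _ h0]
      exact div_pos (cross_pos d e M hd0 p1 p2 p3 hM0 i j hij hj) hkp)
  have hlam : ∀ i ≤ 8, 1 ≤ lam i := fun i hi =>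
    lam_ge h n m hn hm h0 d e M hd0 hd1 he0 he2 he3 hM hdk i (t i) (lam i) (hl i hi).1 (hl i hi).2
  have hpoly := h.poly 8 t hmon ht
  have hterm : ∀ i < 8, (E1c_X d e M i * E1c_Y d e M (i + 1) - E1c_Y d e M i * E1c_X d e M (i + 1))
      / (cr n m / 2) ≤ cr (γ (t i)) (γ (t (i + 1))) := by
    intro i hi
    rw [(hl i (by omega)).2, (hl (i + 1) (by omega)).2, cr_smul_left, cr_smul_right,
      cr_phi n m _ _ _ _ h0]
    have a1 := hlam i (by omega)
    have a2 := hlam (i + 1) (by omega)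
    have a3 : 0 ≤ (E1c_X d e M i * E1c_Y d e M (i + 1) - E1c_Y d e M i * E1c_X d e M (i + 1))
        / (cr n m / 2) := by
      exact div_nonneg (cross_next d e M hd0 p1 p2 p3 hM0 i hi).le hkp.le
    have a4 : 1 ≤ lam i * lam (i + 1) := one_le_mul_of_one_le_of_one_le a1 a2
    have a5 := le_mul_of_one_le_left a3 a4
    rw [mul_assoc] at a5
    exact a5
  have hsum : ∑ i ∈ Finset.range 8,
      (E1c_X d e M i * E1c_Y d e M (i + 1) - E1c_Y d e M i * E1c_X d e M (i + 1))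
      / (cr n m / 2) ≤ 3 * T := by
    refine le_trans (Finset.sum_le_sum fun i hi => hterm i (Finset.mem_range.mp hi)) hpoly
  rw [← Finset.sum_div] at hsum
  have hS : ∑ i ∈ Finset.range 8,
      (E1c_X d e M i * E1c_Y d e M (i + 1) - E1c_Y d e M i * E1c_X d e M (i + 1)) =
      4 * ((1 - d) * d + M * (1 - e - d)) := by
    simp only [Finset.sum_range_succ, Finset.sum_range_zero, E1c_X, E1c_Y]
    ring
  rw [hS, div_le_iff₀ hkp] at hsum
  have f1 : 2 * (9025 / 10000) * (s3 * (cr n m / 2)) < 3 * T * (cr n m / 2) :=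
    lt_of_lt_of_le hfin' hsum
  have f2 : (2 * (9025 / 10000) * s3) * (cr n m / 2) < 3 * T * (cr n m / 2) := by
    linarith
  have f3 := lt_of_mul_lt_mul_right f2 hkp.le
  linarith

theorem AC.paral {T : ℝ} {γ : ℝ → ℂ} (h : AC T γ) (hT : 3 * T < 2 * s3 * (9025 / 10000))
    (n m : ℂ) (hn : ∀ x, |cr n (γ x)| ≤ 1) (hm : ∀ x, |cr m (γ x)| ≤ 1) :
    |cr n m| ≤ 2 / s3 * (1 - (14 / 100) ^ 2) := by
  by_contra hcon
  push Not at hcon
  rcases le_or_gt 0 (cr n m) with h0 | h0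
  · rw [abs_of_nonneg h0] at hcon
    exact absurd (h.area_low n m hn hm hcon) (by linarith)
  · rw [abs_of_neg h0, ← cr_swap] at hcon
    exact absurd (h.area_low m n hm hn hcon) (by linarith)

end Pool.H61.Rh
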