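import Pool.Agent.H61.Rh.E1a

/-! # E2a: the coordinates `a, b` of the hexagons -/

set_option autoImplicit false

namespace Pool.H61.Rh

open Complex Finset

/-- `γ (τ + jT) = a ζ^j + b ζ^{-j}` -/
noncomputable def av (T : ℝ) (γ : ℝ → ℂ) (τ : ℝ) : ℂ :=
  (γ (τ + T) - (starRingEnd ℂ) ze * γ τ) / (I * s3)

noncomputable def bv (T : ℝ) (γ : ℝ → ℂ) (τ : ℝ) : ℂ := (ze * γ τ - γ (τ + T)) / (I * s3)

private theorem E2a_ne : (I * (s3 : ℂ)) ≠ 0 := by
  have h : (s3 : ℂ) ≠ 0 := by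
    rw [Ne, ofReal_eq_zero]
    exact s3_pos.ne'
  exact mul_ne_zero I_ne_zero h

private theorem E2a_sub : ze - (starRingEnd ℂ) ze = I * s3 := by
  apply Complex.ext
  · simp [ze_re]
  · simp only [sub_im, conj_im, ze_im, mul_im, I_re, I_im, ofReal_re, ofReal_im]
    ring

private theorem E2a_add (T : ℝ) (γ : ℝ → ℂ) (τ : ℝ) : av T γ τ + bv T γ τ = γ τ := by
  unfold av bv
  rw [← add_div, div_eq_iff E2a_ne, ← E2a_sub]
  ring

private theorem E2a_ze (T : ℝ) (γ : ℝ → ℂ) (τ : ℝ) :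
    av T γ τ * ze + bv T γ τ * (starRingEnd ℂ) ze = γ (τ + T) := by
  unfold av bv
  rw [div_mul_eq_mul_div, div_mul_eq_mul_div, ← add_div, div_eq_iff E2a_ne, ← E2a_sub]
  ring

theorem AC.g_eq {T : ℝ} {γ : ℝ → ℂ} (h : AC T γ) (τ : ℝ) :
    γ τ = hx (av T γ τ) (bv T γ τ) 1 ∧ γ (τ + T) = hx (av T γ τ) (bv T γ τ) ze ∧
    γ (τ + 2 * T) = hx (av T γ τ) (bv T γ τ) (ze - 1) := by
  have h1 := E2a_add T γ τ
  have h2 := E2a_ze T γ τ
  have h3 := h.hex τ
  refine ⟨?_, ?_, ?_⟩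
  · unfold hx
    rw [map_one, mul_one, mul_one, h1]
  · unfold hx
    rw [h2]
  · unfold hx
    rw [map_sub, map_one, h3]
    linear_combination h1 - h2

theorem AC.ab_qp {T : ℝ} {γ : ℝ → ℂ} (h : AC T γ) (τ : ℝ) :
    av T γ (τ + T) = ze * av T γ τ ∧ bv T γ (τ + T) = (starRingEnd ℂ) ze * bv T γ τ := by
  have h3 := h.hex τ
  have e : τ + T + T = τ + 2 * T := by ring
  have hz := ze_sq
  have hc := conj_ze
  constructor
  · unfold av
    rw [e, h3, ← mul_div_assoc, hc]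
    congr 1
    linear_combination (-γ τ) * hz
  · unfold bv
    rw [e, h3, ← mul_div_assoc, hc]
    congr 1
    linear_combination (γ τ) * hz

theorem AC.ab_norm {T : ℝ} {γ : ℝ → ℂ} (h : AC T γ) (τ : ℝ) :
    normSq (av T γ τ) - normSq (bv T γ τ) = 1 := by
  obtain ⟨h1, h2, -⟩ := h.g_eq τ
  have h4 : cr (hx (av T γ τ) (bv T γ τ) 1) (hx (av T γ τ) (bv T γ τ) ze) = s3 / 2 := by
    rw [← h1, ← h2]
    exact h.det τ
  rw [cr_hx, cr_one_ze] at h4
  have h5 := s3_pos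
  have h6 : (normSq (av T γ τ) - normSq (bv T γ τ) - 1) * (s3 / 2) = 0 := by linarith
  rcases mul_eq_zero.mp h6 with h7 | h7
  · linarith
  · linarith

theorem AC.ab_init {T : ℝ} {γ : ℝ → ℂ} (h : AC T γ) : av T γ 0 = 1 ∧ bv T γ 0 = 0 := by
  unfold av bv
  rw [zero_add, h.g0, h.gT, mul_one, mul_one, E2a_sub, div_self E2a_ne, sub_self, zero_div]
  exact ⟨rfl, rfl⟩

private theorem E2a_norm : 1 ≤ ‖(I * (s3 : ℂ))‖ := by
  rw [norm_mul, norm_I, one_mul, norm_real, Real.norm_eq_abs, abs_of_pos s3_pos]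
  have := s3_gt
  linarith

theorem AC.ab_lip {T : ℝ} {γ : ℝ → ℂ} (h : AC T γ) :
    ∃ C : NNReal, LipschitzWith C (av T γ) ∧ LipschitzWith C (bv T γ) := by
  obtain ⟨C, hC⟩ := h.lip
  have h1 : ∀ x y : ℝ, ‖γ x - γ y‖ ≤ C * |x - y| := by
    intro x y
    have := hC.dist_le_mul x y
    rwa [dist_eq_norm, Real.dist_eq] at this
  have h2 : ∀ x y : ℝ, ‖γ (x + T) - γ (y + T)‖ ≤ C * |x - y| := by
    intro x y
    have := h1 (x + T) (y + T)
    rwa [add_sub_add_right_eq_sub] at this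
  have h3 : ∀ z : ℂ, ‖z / (I * s3)‖ ≤ ‖z‖ := by
    intro z
    rw [norm_div]
    exact div_le_self (norm_nonneg _) E2a_norm
  refine ⟨2 * C, LipschitzWith.of_dist_le_mul fun x y => ?_,
    LipschitzWith.of_dist_le_mul fun x y => ?_⟩
  · rw [dist_eq_norm, Real.dist_eq]
    have e : av T γ x - av T γ y = ((γ (x + T) - γ (y + T)) -
        (starRingEnd ℂ) ze * (γ x - γ y)) / (I * s3) := by
      unfold av
      rw [← sub_div]
      congr 1
      ring
    rw [e]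
    refine (h3 _).trans ((norm_sub_le _ _).trans ?_)
    rw [norm_mul, RCLike.norm_conj, norm_ze, one_mul]
    have := h1 x y
    have := h2 x y
    push_cast
    linarith
  · rw [dist_eq_norm, Real.dist_eq]
    have e : bv T γ x - bv T γ y = (ze * (γ x - γ y) - (γ (x + T) - γ (y + T))) / (I * s3) := by
      unfold bv
      rw [← sub_div]
      congr 1
      ring
    rw [e]
    refine (h3 _).trans ((norm_sub_le _ _).trans ?_)
    rw [norm_mul, norm_ze, one_mul]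
    have := h1 x y
    have := h2 x y
    push_cast
    linarith

private theorem E2a_sum (a b c d : ℂ) :
    cr (hx a b 1) (hx c d 1) + cr (hx a b ze) (hx c d ze)
      + cr (hx a b (ze - 1)) (hx c d (ze - 1)) = 3 * (cr a c + cr b d) := by
  have h := s3_mul
  simp only [cr, hx, add_re, add_im, mul_re, mul_im, conj_re, conj_im, sub_re, sub_im, one_re,
    one_im, ze_re, ze_im]
  linear_combination (1 / 2 * ((a.re * c.im - a.im * c.re) + (b.re * d.im - b.im * d.re)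
    - (a.re * d.im - a.im * d.re) - (b.re * c.im - b.im * c.re))) * h

/-- the sum of the three cross products is `3 (cr a_s a_t + cr b_s b_t)` -/
theorem AC.ab_area {T : ℝ} {γ : ℝ → ℂ} (h : AC T γ) :
    ∃ C : ℝ, ∀ s t, s ≤ t →
      |cr (av T γ s) (av T γ t) + cr (bv T γ s) (bv T γ t) - (t - s)| ≤ C * (t - s) ^ 2 := by
  obtain ⟨C, hC⟩ := h.area
  refine ⟨C / 3, fun s t hst => ?_⟩
  have h1 := hC s t hst
  obtain ⟨a1, a2, a3⟩ := h.g_eq s
  obtain ⟨b1, b2, b3⟩ := h.g_eq t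
  have h2 : cr (γ s) (γ t) + cr (γ (s + T)) (γ (t + T)) + cr (γ (s + 2 * T)) (γ (t + 2 * T)) =
      3 * (cr (av T γ s) (av T γ t) + cr (bv T γ s) (bv T γ t)) := by
    rw [← E2a_sum, ← a1, ← a2, ← a3, ← b1, ← b2, ← b3]
  rw [h2, ← mul_sub, abs_mul, abs_of_pos (by norm_num : (0 : ℝ) < 3)] at h1
  linarith

end Pool.H61.Rh
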