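import Pool.Agent.H61.Rh.Basic

/-! # E2b: the a priori bound, algebra

Write `m j = ζ^j (x_j + i)` (`cr (m j) (ζ^j) = -1` gives imaginary part `1`), `t_j = √3 x_j`;
`|cr (m j) (ζ^k)| ≤ 1` gives `|t_j| ≤ 1`.  Put `c_j = dt (uu j) y`, `e_j = cr (uu j) y`,
`d_j = 1 - 2 c_j`, `d_0 + d_1 + d_2 = 3`.  The tangency condition is
`x_j (1 + c_j) = - e_j`, i.e. `t_0 (d_1 + d_2) = d_1 - d_2`, `t_1 (d_2 + d_0) = d_2 - d_0`,
`t_2 (d_0 + d_1) = d_0 - d_1`.  The conditions `cr (m 0) (m 1)`, `cr (m 1) (m 2)`,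
`cr (m 0) (m 2)` give `(1 - t_i)(1 + t_j) ≥ 4·0.14²` for `(i,j) = (0,1), (1,2), (2,0)`
(`cr (m 0) (m 1) = (4 - (1 - t_0)(1 + t_1))/(2√3)` etc.; note `ζ³ = -1` for the pair `(2,0)`).
If `d_1 + d_2 = 0` then `d_1 = d_2 = 0`, `t_1 = -1`: contradiction; same for the other pairs.
Otherwise `|t_j| ≤ 1` shows that all `d_j` have the same sign, so `d_j ≥ 0`, and
`(1 - t_0)(1 + t_1) = 4 d_2² / ((d_1+d_2)(d_2+d_0))` gives
`d_2² ≥ δ² (d_1+d_2)(d_2+d_0) = δ² (d_2² + 3 (1 - |y|²))`,  `δ = 0.14`,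
(`d_0 d_1 + d_1 d_2 + d_2 d_0 = 3 (1 - |y|²)`), so `d_2² ≥ 0.05997 (1 - |y|²)`, and for the
smallest `d`, say `d_2`: `d_2² ≥ δ² (d_1+d_2)(d_2+d_0) ≥ δ² · d_1...` ; more precisely
`d_2² ≥ 0.01999 (d_0 (d_1 + d_2) + d_1 d_2) ≥ 0.01999 · 1 · 2 d_2` when `d_0` is the largest
(`≥ 1`), so `d_2 ≥ 0.0399 > 1/30` (and `d_2 = 0` would force `d_1 = 0`, excluded above). -/

set_option autoImplicit false

namespace Pool.H61.Rh

open Complex Finset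

/-- `ζ^j` -/
noncomputable def zj : Fin 3 → ℂ := ![1, ze, ze - 1]

theorem E2b_core (a b c s t : ℝ) (ha : 0 ≤ a) (hb : 0 ≤ b) (hc : 0 ≤ c) (hsum : a + b + c = 3)
    (hs : s * (b + c) = b - c) (ht : t * (c + a) = c - a)
    (hst : 4 * (14 / 100) ^ 2 ≤ (1 - s) * (1 + t)) :
    1 / 30 ≤ c ∧ 59 / 1000 * ((a * b + b * c + c * a) / 3) ≤ c ^ 2 := by
  have hab : 0 ≤ a * b := mul_nonneg ha hb
  have hbc : 0 ≤ b * c := mul_nonneg hb hc
  have hca : 0 ≤ c * a := mul_nonneg hc ha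
  have h1 : (1 - s) * (1 + t) * ((b + c) * (c + a)) = 4 * c ^ 2 := by
    have e1 : (1 - s) * (b + c) = 2 * c := by linear_combination -hs
    have e2 : (1 + t) * (c + a) = 2 * c := by linear_combination ht
    calc (1 - s) * (1 + t) * ((b + c) * (c + a)) = ((1 - s) * (b + c)) * ((1 + t) * (c + a)) := by
          ring
      _ = 4 * c ^ 2 := by rw [e1, e2]; ring
  have h2 : 0 ≤ (b + c) * (c + a) := mul_nonneg (by linarith) (by linarith)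
  have h3 := mul_le_mul_of_nonneg_right hst h2
  rw [h1] at h3
  have h4 : (14 / 100) ^ 2 * (c ^ 2 + (a * b + b * c + c * a)) ≤ c ^ 2 := by
    nlinarith
  refine ⟨?_, by nlinarith⟩
  rcases hc.eq_or_lt with h0 | h0
  · exfalso
    subst h0
    have h5 : a * b = 0 := by nlinarith
    rcases mul_eq_zero.1 h5 with h6 | h6
    · subst h6
      have hb3 : b = 3 := by linarith
      subst hb3
      have hs1 : s = 1 := by linarith
      rw [hs1] at hst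
      norm_num at hst
    · subst h6
      have ha3 : a = 3 := by linarith
      subst ha3
      have ht1 : t = -1 := by linarith
      rw [ht1] at hst
      norm_num at hst
  · by_contra hcon
    push Not at hcon
    have h7 : a + b = 3 - c := by linarith
    have h8 : b * c + c * a = c * (3 - c) := by rw [← h7]; ring
    nlinarith [mul_pos h0 h0]

theorem E2b_sgn (a b t : ℝ) (h : t * (a + b) = a - b) (ht1 : -1 ≤ t) (ht2 : t ≤ 1) :
    0 ≤ a * b := by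
  have h1 : (a - b) ^ 2 ≤ (a + b) ^ 2 := by
    rw [← h, mul_pow]
    have h2 : t ^ 2 ≤ 1 := by nlinarith
    nlinarith [sq_nonneg (a + b)]
  nlinarith

theorem E2b_nonneg (a b c : ℝ) (hab : 0 ≤ a * b) (hca : 0 ≤ c * a)
    (hsum : a + b + c = 3) : 0 ≤ a := by
  by_contra hcon
  push Not at hcon
  have hb : b ≤ 0 := by
    by_contra h
    push Not at h
    nlinarith
  have hc : c ≤ 0 := by
    by_contra h
    push Not at h
    nlinarith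
  linarith

theorem E2b_real (d0 d1 d2 t0 t1 t2 : ℝ) (hsum : d0 + d1 + d2 = 3)
    (h0 : t0 * (d1 + d2) = d1 - d2) (h1 : t1 * (d2 + d0) = d2 - d0)
    (h2 : t2 * (d0 + d1) = d0 - d1) (a0 : -1 ≤ t0) (b0 : t0 ≤ 1) (a1 : -1 ≤ t1) (b1 : t1 ≤ 1)
    (a2 : -1 ≤ t2) (b2 : t2 ≤ 1) (c01 : 4 * (14 / 100) ^ 2 ≤ (1 - t0) * (1 + t1))
    (c12 : 4 * (14 / 100) ^ 2 ≤ (1 - t1) * (1 + t2))
    (c20 : 4 * (14 / 100) ^ 2 ≤ (1 - t2) * (1 + t0)) :
    (1 / 30 ≤ d0 ∧ 59 / 1000 * ((d0 * d1 + d1 * d2 + d2 * d0) / 3) ≤ d0 ^ 2) ∧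
    (1 / 30 ≤ d1 ∧ 59 / 1000 * ((d0 * d1 + d1 * d2 + d2 * d0) / 3) ≤ d1 ^ 2) ∧
    (1 / 30 ≤ d2 ∧ 59 / 1000 * ((d0 * d1 + d1 * d2 + d2 * d0) / 3) ≤ d2 ^ 2) := by
  have s12 := E2b_sgn d1 d2 t0 h0 a0 b0
  have s20 := E2b_sgn d2 d0 t1 h1 a1 b1
  have s01 := E2b_sgn d0 d1 t2 h2 a2 b2
  have p0 := E2b_nonneg d0 d1 d2 s01 s20 hsum
  have p1 := E2b_nonneg d1 d2 d0 s12 s01 (by linarith)
  have p2 := E2b_nonneg d2 d0 d1 s20 s12 (by linarith)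
  have r0 := E2b_core d1 d2 d0 t1 t2 p1 p2 p0 (by linarith) h1 h2 c12
  have r1 := E2b_core d2 d0 d1 t2 t0 p2 p0 p1 (by linarith) h2 h0 c20
  have r2 := E2b_core d0 d1 d2 t0 t1 p0 p1 p2 (by linarith) h0 h1 c01
  refine ⟨⟨r0.1, ?_⟩, ⟨r1.1, ?_⟩, r2⟩
  · have e : d0 * d1 + d1 * d2 + d2 * d0 = d1 * d2 + d2 * d0 + d0 * d1 := by ring
    rw [e]; exact r0.2
  · have e : d0 * d1 + d1 * d2 + d2 * d0 = d2 * d0 + d0 * d1 + d1 * d2 := by ring
    rw [e]; exact r1.2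

theorem E2b_pair (t t' K : ℝ) (h : K = (4 - (1 - t) * (1 + t')) / (2 * s3))
    (hK : |K| ≤ 2 / s3 * (1 - (14 / 100) ^ 2)) : 4 * (14 / 100) ^ 2 ≤ (1 - t) * (1 + t') := by
  have hs := s3_pos
  have h1 := (le_abs_self K).trans hK
  rw [h, div_le_iff₀ (by linarith)] at h1
  have h2 : 2 / s3 * (1 - (14 / 100) ^ 2) * (2 * s3) = 4 * (1 - (14 / 100) ^ 2) := by
    field_simp
    ring
  rw [h2] at h1
  linarith

theorem dom_of_support (y : ℂ) (m : Fin 3 → ℂ) (h1 : ∀ j, cr (m j) (zj j) = -1)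
    (h2 : ∀ j k, |cr (m j) (zj k)| ≤ 1)
    (h3 : ∀ j, cr (m j) (I * (zj j + y * (starRingEnd ℂ) (zj j))) = 0)
    (h4 : ∀ j k, |cr (m j) (m k)| ≤ 2 / s3 * (1 - (14 / 100) ^ 2)) : Dom y := by
  have hs := s3_mul
  have hsp := s3_pos
  have z0r : (zj 0).re = 1 := rfl
  have z0i : (zj 0).im = 0 := rfl
  have z1r : (zj 1).re = 1 / 2 := rfl
  have z1i : (zj 1).im = s3 / 2 := rfl
  have z2r : (zj 2).re = -1 / 2 := by
    show (ze - 1).re = -1 / 2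
    rw [sub_re, ze_re, one_re]; norm_num
  have z2i : (zj 2).im = s3 / 2 := by
    show (ze - 1).im = s3 / 2
    rw [sub_im, ze_im, one_im]; ring
  obtain ⟨y1, y2⟩ := y
  -- the normals
  have a0 := h1 0
  have a1 := h1 1
  have a2 := h1 2
  simp only [cr, z0r, z0i, z1r, z1i, z2r, z2i] at a0 a1 a2
  set x0 : ℝ := (m 0).re with hx0
  have m0i : (m 0).im = 1 := by linarith
  set x1 : ℝ := (m 1).re / 2 + (m 1).im * s3 / 2 with hx1
  have m1i' : (m 1).im = (m 1).re * s3 + 2 := by linarith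
  have m1r : (m 1).re = x1 / 2 - s3 / 2 := by
    rw [hx1, m1i']
    linear_combination (-(m 1).re / 4) * hs
  have m1i : (m 1).im = s3 * x1 / 2 + 1 / 2 := by
    rw [m1i', m1r]
    linear_combination (-1 / 2) * hs
  set x2 : ℝ := -(m 2).re / 2 + (m 2).im * s3 / 2 with hx2
  have m2i' : (m 2).im = -(m 2).re * s3 - 2 := by linarith
  have m2r : (m 2).re = -x2 / 2 - s3 / 2 := by
    rw [hx2, m2i']
    linear_combination (-(m 2).re / 4) * hs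
  have m2i : (m 2).im = s3 * x2 / 2 - 1 / 2 := by
    rw [m2i', m2r]
    linear_combination (1 / 2) * hs
  clear_value x1 x2
  -- the bounds of the t's
  have b01 := (abs_le.1 (h2 0 1)).1
  have b02 := (abs_le.1 (h2 0 2)).2
  have b10 := (abs_le.1 (h2 1 0)).1
  have b12 := (abs_le.1 (h2 1 2)).1
  have b20 := (abs_le.1 (h2 2 0)).2
  have b21 := (abs_le.1 (h2 2 1)).1
  simp only [cr, z0r, z0i, z1r, z1i, z2r, z2i, ← hx0, m0i, m1r, m1i, m2r, m2i] at b01 b02 b10 b12 b20 b21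
  -- the tangency conditions
  have g0 := h3 0
  have g1 := h3 1
  have g2 := h3 2
  simp only [cr, mul_re, mul_im, add_re, add_im, conj_re, conj_im, I_re, I_im, z0r, z0i, z1r, z1i,
    z2r, z2i, ← hx0, m0i, m1r, m1i, m2r, m2i] at g0 g1 g2
  -- the areas
  have k01 : cr (m 0) (m 1) = (4 - (1 - s3 * x0) * (1 + s3 * x1)) / (2 * s3) := by
    rw [eq_div_iff (by linarith)]
    simp only [cr, ← hx0, m0i, m1r, m1i]
    linear_combination (1 : ℝ) * hs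
  have k12 : cr (m 1) (m 2) = (4 - (1 - s3 * x1) * (1 + s3 * x2)) / (2 * s3) := by
    rw [eq_div_iff (by linarith)]
    simp only [cr, m1r, m1i, m2r, m2i]
    linear_combination (1 + s3 * x1 / 2 - s3 * x2 / 2) * hs
  have k02 : cr (m 0) (m 2) = (4 - (1 - s3 * x2) * (1 + s3 * x0)) / (2 * s3) := by
    rw [eq_div_iff (by linarith)]
    simp only [cr, ← hx0, m0i, m2r, m2i]
    linear_combination (1 : ℝ) * hs
  have c01 := E2b_pair _ _ _ k01 (h4 0 1)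
  have c12 := E2b_pair _ _ _ k12 (h4 1 2)
  have c20 := E2b_pair _ _ _ k02 (h4 0 2)
  have key := E2b_real (1 - 2 * y1) (1 + y1 - s3 * y2) (1 + y1 + s3 * y2) (s3 * x0) (s3 * x1)
    (s3 * x2) (by ring) (by linear_combination (2 * s3) * g0)
    (by linear_combination (2 * s3) * g1 + (y1 + (-s3 * x1 + s3 * x1 * y1 + s3 * y2) / 2) * hs)
    (by linear_combination (2 * s3) * g2 + (-y1 + (-s3 * x2 + s3 * x2 * y1 + s3 * y2) / 2) * hs)
    (by linarith) (by linarith) (by nlinarith) (by nlinarith) (by nlinarith) (by nlinarith)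
    c01 c12 c20
  have hQ : ((1 - 2 * y1) * (1 + y1 - s3 * y2) + (1 + y1 - s3 * y2) * (1 + y1 + s3 * y2)
      + (1 + y1 + s3 * y2) * (1 - 2 * y1)) / 3 = 1 - normSq (⟨y1, y2⟩ : ℂ) := by
    rw [normSq_mk]
    linear_combination (-(y2 ^ 2) / 3) * hs
  rw [hQ] at key
  intro j
  fin_cases j
  · have e : 1 - 2 * dt (uu 0) ⟨y1, y2⟩ = 1 - 2 * y1 := by
      simp [dt, uu]
    show 1 / 30 ≤ 1 - 2 * dt (uu 0) ⟨y1, y2⟩ ∧ 59 / 1000 * (1 - normSq ⟨y1, y2⟩) ≤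
      (1 - 2 * dt (uu 0) ⟨y1, y2⟩) ^ 2
    rw [e]; exact key.1
  · have e : 1 - 2 * dt (uu 1) ⟨y1, y2⟩ = 1 + y1 - s3 * y2 := by
      simp [dt, uu]; ring
    show 1 / 30 ≤ 1 - 2 * dt (uu 1) ⟨y1, y2⟩ ∧ 59 / 1000 * (1 - normSq ⟨y1, y2⟩) ≤
      (1 - 2 * dt (uu 1) ⟨y1, y2⟩) ^ 2
    rw [e]; exact key.2.1
  · have e : 1 - 2 * dt (uu 2) ⟨y1, y2⟩ = 1 + y1 + s3 * y2 := by
      simp [dt, uu]; ring
    show 1 / 30 ≤ 1 - 2 * dt (uu 2) ⟨y1, y2⟩ ∧ 59 / 1000 * (1 - normSq ⟨y1, y2⟩) ≤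
      (1 - 2 * dt (uu 2) ⟨y1, y2⟩) ^ 2
    rw [e]; exact key.2.2

end Pool.H61.Rh
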