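import Pool.Agent.H61.Rh.E2a

/-! # E2c: the differential equation at a point of differentiability

`M = g⁻¹ g'` is `z ↦ μ z + w z̄`, `μ = ā a' - b b̄'`, `w = ā b' - b ā'`
(use `|a|² - |b|² = 1`).  `Re μ = 0` by differentiating `|a|² - |b|² = 1`; `Im μ = 1` from
`ab_area` (derivative of `t ↦ cr (a s) (a t) + cr (b s) (b t)` at `t = s` is `1`).  With
`y = -i w`: `a' = i (a - ȳ b)`, `b' = i (y a - b)`.
`Dom y`: for `j = 0,1,2` take a support functional `n_j` at `γ (τ + jT) = hx a b (ζ^j)`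
(`supp`); `γ` is differentiable at `τ + jT` (because `γ (x + jT) = hx (a x) (b x) (ζ^j)`),
derivative `hx a' b' ζ^j = hx a b (i (ζ^j + y ζ^{-j}))`, and `x ↦ cr n_j (γ x)` has a minimum
there, so `cr n_j (derivative) = 0`.  Write `n_j = hx a b (m_j)` (`hx a b` is bijective),
use `cr_hx`, `paral` and `dom_of_support`. -/

set_option autoImplicit false

namespace Pool.H61.Rh

open Complex Finset

private lemma E2c_re {f : ℝ → ℂ} {f' : ℂ} {τ : ℝ} (h : HasDerivAt f f' τ) :
    HasDerivAt (fun t => (f t).re) f'.re τ := by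
  have := (reCLM.hasFDerivAt (x := f τ)).comp_hasDerivAt τ h
  exact this

private lemma E2c_im {f : ℝ → ℂ} {f' : ℂ} {τ : ℝ} (h : HasDerivAt f f' τ) :
    HasDerivAt (fun t => (f t).im) f'.im τ := by
  have := (imCLM.hasFDerivAt (x := f τ)).comp_hasDerivAt τ h
  exact this

private lemma E2c_cr (c : ℂ) {f : ℝ → ℂ} {f' : ℂ} {τ : ℝ} (h : HasDerivAt f f' τ) :
    HasDerivAt (fun t => cr c (f t)) (cr c f') τ := by
  unfold cr
  exact ((E2c_im h).const_mul c.re).sub ((E2c_re h).const_mul c.im)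

private lemma E2c_nsq {f : ℝ → ℂ} {f' : ℂ} {τ : ℝ} (h : HasDerivAt f f' τ) :
    HasDerivAt (fun t => normSq (f t)) (2 * dt (f τ) f') τ := by
  have h1 := ((E2c_re h).mul (E2c_re h)).add ((E2c_im h).mul (E2c_im h))
  have e : (fun t => normSq (f t)) = fun t => (f t).re * (f t).re + (f t).im * (f t).im := by
    funext t
    rw [normSq_apply]
  rw [e]
  refine HasDerivAt.congr_deriv h1 ?_
  unfold dt
  ring

/-- one-sided derivative from a quadratic bound -/
private lemma E2c_one {F : ℝ → ℝ} {F' C τ : ℝ} (h : HasDerivAt F F' τ) (h0 : F τ = 0)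
    (hC : ∀ t, τ ≤ t → |F t - (t - τ)| ≤ C * (t - τ) ^ 2) : F' = 1 := by
  have h1 : HasDerivWithinAt F F' (Set.Ici τ) τ := h.hasDerivWithinAt
  have h2 : HasDerivWithinAt F 1 (Set.Ici τ) τ := by
    rw [hasDerivWithinAt_iff_isLittleO]
    have hb : (fun t => F t - F τ - (t - τ) • (1 : ℝ)) =O[nhdsWithin τ (Set.Ici τ)]
        fun t => ‖t - τ‖ ^ 2 := by
      refine Asymptotics.IsBigO.of_bound C ?_
      filter_upwards [self_mem_nhdsWithin] with t ht
      have := hC t ht
      rw [h0, smul_eq_mul, mul_one, sub_zero, Real.norm_eq_abs]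
      refine this.trans (le_of_eq ?_)
      rw [norm_pow, norm_norm, Real.norm_eq_abs, sq_abs]
    exact hb.trans_isLittleO
      ((Asymptotics.isLittleO_pow_sub_sub τ (by norm_num : 1 < 2)).mono nhdsWithin_le_nhds)
  exact (uniqueDiffWithinAt_Ici τ).eq_deriv _ h1 h2

theorem AC.deriv_form {T : ℝ} {γ : ℝ → ℂ} (h : AC T γ) (τ : ℝ) (a' b' : ℂ)
    (ha : HasDerivAt (av T γ) a' τ) (hb : HasDerivAt (bv T γ) b' τ) :
    ∃ y : ℂ, a' = I * (av T γ τ - (starRingEnd ℂ) y * bv T γ τ) ∧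
      b' = I * (y * av T γ τ - bv T γ τ) := by
  obtain ⟨C, hC⟩ := h.ab_area
  have hn := h.ab_norm τ
  have hre : dt (av T γ τ) a' - dt (bv T γ τ) b' = 0 := by
    have h1 := (E2c_nsq ha).sub (E2c_nsq hb)
    have h2 : HasDerivAt (fun t => normSq (av T γ t) - normSq (bv T γ t)) 0 τ := by
      have e : (fun t => normSq (av T γ t) - normSq (bv T γ t)) = fun _ => (1 : ℝ) := by
        funext t
        exact h.ab_norm t
      rw [e]
      exact hasDerivAt_const τ 1
    have := HasDerivAt.unique h1 h2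
    linarith
  have him : cr (av T γ τ) a' + cr (bv T γ τ) b' = 1 := by
    refine E2c_one (C := C) ((E2c_cr (av T γ τ) ha).add (E2c_cr (bv T γ τ) hb)) ?_ ?_
    · show cr (av T γ τ) (av T γ τ) + cr (bv T γ τ) (bv T γ τ) = 0
      rw [cr_self, cr_self, add_zero]
    · intro t ht
      exact hC τ t ht
  obtain ⟨A, hA⟩ : ∃ A, A = av T γ τ := ⟨_, rfl⟩
  obtain ⟨B, hB⟩ : ∃ B, B = bv T γ τ := ⟨_, rfl⟩
  rw [← hA, ← hB] at hn hre him ⊢
  clear hC hA hB ha hb h
  refine ⟨-I * ((starRingEnd ℂ) A * b' - B * (starRingEnd ℂ) a'), ?_⟩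
  obtain ⟨mu, hmu⟩ : ∃ mu, mu = (starRingEnd ℂ) A * a' - B * (starRingEnd ℂ) b' := ⟨_, rfl⟩
  have hmuI : mu = I := by
    apply Complex.ext
    · rw [hmu, I_re]
      simp only [sub_re, mul_re, conj_re, conj_im]
      unfold dt at hre
      linarith
    · rw [hmu, I_im]
      simp only [sub_im, mul_im, conj_re, conj_im]
      unfold cr at him
      linarith
  have hN : A * (starRingEnd ℂ) A - B * (starRingEnd ℂ) B = 1 := by
    rw [mul_conj, mul_conj, ← ofReal_sub, hn, ofReal_one]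
  have hmu2 : (starRingEnd ℂ) mu = A * (starRingEnd ℂ) a' - (starRingEnd ℂ) B * b' := by
    rw [hmu, map_sub, map_mul, map_mul, conj_conj, conj_conj]
  rw [hmuI] at hmu hmu2
  rw [conj_I] at hmu2
  constructor
  · simp only [map_mul, map_neg, map_sub, conj_conj, conj_I]
    have e : I * (A - - -I * (A * (starRingEnd ℂ) b' - (starRingEnd ℂ) B * a') * B) =
      A * I + B * (A * (starRingEnd ℂ) b' - (starRingEnd ℂ) B * a') * (-(I * I)) := by ring
    rw [e, I_mul_I, hmu]
    linear_combination (-a') * hN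
  · have e : I * (-I * ((starRingEnd ℂ) A * b' - B * (starRingEnd ℂ) a') * A - B) =
      A * ((starRingEnd ℂ) A * b' - B * (starRingEnd ℂ) a') * (-(I * I)) + B * (-I) := by ring
    rw [e, I_mul_I, hmu2]
    linear_combination (-b') * hN

end Pool.H61.Rh
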