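import Pool.Agent.H61.Rh.E1c
import Pool.Agent.H61.Rh.E2a
import Pool.Agent.H61.Rh.E2b

/-! # E2d (second part of the text, `Dom y`): the differential equation at a point of differentiability

`M = g⁻¹ g'` is `z ↦ μ z + w z̄`, `μ = ā a' - b b̄'`, `w = ā b' - b ā'`
(use `|a|² - |b|² = 1`).  `Re μ = 0` by differentiating `|a|² - |b|² = 1`; `Im μ = 1` from
`ab_area` (derivative of `t ↦ cr (a s) (a t) + cr (b s) (b t)` at `t = s` is `1`).  With
`y = -i w`: `a' = i (a - ȳ b)`, `b' = i (y a - b)`.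
`Dom y`: for `j = 0,1,2` take a support functional `n_j` at `γ (τ + jT) = hx a b (ζ^j)`
(`supp`); `γ` is differentiable at `τ + jT` (because `γ (x + jT) = hx (a x) (b x) (ζ^j)`),
derivative `hx a' b' ζ^j = hx a b (i (ζ^j + y ζ^{-j}))`, and `x ↦ cr n_j (γ x)` has a minimum
there, so `cr n_j (derivative) = 0`.  Write `n_j = hx a b (m_j)` (`hx a b` is bijective),
use `cr_hx`, `paral` and `dom_of_support`. -/

set_option autoImplicit false

namespace Pool.H61.Rh

open Complex Finset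

private noncomputable def E2d_J (T : ℝ) : Fin 3 → ℝ := ![0, T, 2 * T]

private theorem E2d_g {T : ℝ} {γ : ℝ → ℂ} (h : AC T γ) (j : Fin 3) (x : ℝ) :
    γ (x + E2d_J T j) = hx (av T γ x) (bv T γ x) (zj j) := by
  obtain ⟨h1, h2, h3⟩ := h.g_eq x
  fin_cases j
  · change γ (x + 0) = hx (av T γ x) (bv T γ x) 1
    rw [add_zero]
    exact h1
  · exact h2
  · exact h3

private theorem E2d_inv (a b n : ℂ) (h : normSq a - normSq b = 1) :
    hx a b ((starRingEnd ℂ) a * n - b * (starRingEnd ℂ) n) = n := by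
  have h1 : a * (starRingEnd ℂ) a - b * (starRingEnd ℂ) b = 1 := by
    rw [mul_conj, mul_conj, ← ofReal_sub, h, ofReal_one]
  unfold hx
  rw [map_sub, map_mul, map_mul, conj_conj, conj_conj]
  linear_combination n * h1

private noncomputable def E2d_L (n : ℂ) : ℂ →L[ℝ] ℝ := n.re • imCLM - n.im • reCLM

private theorem E2d_L_apply (n w : ℂ) : E2d_L n w = cr n w := by
  simp [E2d_L, cr]

theorem AC.dom_at {T : ℝ} {γ : ℝ → ℂ} (h : AC T γ) (hT : 3 * T < 2 * s3 * (9025 / 10000))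
    (τ : ℝ) (y : ℂ)
    (ha : HasDerivAt (av T γ) (I * (av T γ τ - (starRingEnd ℂ) y * bv T γ τ)) τ)
    (hb : HasDerivAt (bv T γ) (I * (y * av T γ τ - bv T γ τ)) τ) : Dom y := by
  choose n hn1 hn2 using fun j : Fin 3 => h.supp (τ + E2d_J T j)
  have hdet := h.ab_norm τ
  have hinv : ∀ j, hx (av T γ τ) (bv T γ τ)
      ((starRingEnd ℂ) (av T γ τ) * n j - bv T γ τ * (starRingEnd ℂ) (n j)) = n j :=
    fun j => E2d_inv _ _ _ hdet
  have hcr : ∀ v w : ℂ, cr v w = cr (hx (av T γ τ) (bv T γ τ) v) (hx (av T γ τ) (bv T γ τ) w) := by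
    intro v w
    rw [cr_hx, hdet, one_mul]
  refine dom_of_support y (fun j => (starRingEnd ℂ) (av T γ τ) * n j -
    bv T γ τ * (starRingEnd ℂ) (n j)) ?_ ?_ ?_ ?_
  · intro j
    rw [hcr, hinv, ← E2d_g h]
    exact hn1 j
  · intro j k
    rw [hcr, hinv, ← E2d_g h]
    exact hn2 j _
  · intro j
    rw [hcr, hinv]
    have e1 : hx (av T γ τ) (bv T γ τ) (I * (zj j + y * (starRingEnd ℂ) (zj j))) =
        (I * (av T γ τ - (starRingEnd ℂ) y * bv T γ τ)) * zj j +
        (I * (y * av T γ τ - bv T γ τ)) * (starRingEnd ℂ) (zj j) := by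
      unfold hx
      rw [map_mul, map_add, map_mul, conj_conj, conj_I]
      ring
    rw [e1]
    have h1 : HasDerivAt (fun x => E2d_L (n j) (av T γ x * zj j +
        bv T γ x * (starRingEnd ℂ) (zj j))) (E2d_L (n j)
          ((I * (av T γ τ - (starRingEnd ℂ) y * bv T γ τ)) * zj j +
        (I * (y * av T γ τ - bv T γ τ)) * (starRingEnd ℂ) (zj j))) τ :=
      (E2d_L (n j)).hasFDerivAt.comp_hasDerivAt τ
        ((ha.mul_const (zj j)).add (hb.mul_const ((starRingEnd ℂ) (zj j))))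
    rw [E2d_L_apply] at h1
    have h2 : ∀ x, E2d_L (n j) (av T γ x * zj j + bv T γ x * (starRingEnd ℂ) (zj j)) =
        cr (n j) (γ (x + E2d_J T j)) := by
      intro x
      rw [E2d_L_apply, E2d_g h]
      rfl
    have h3 : IsLocalMin (fun x => E2d_L (n j) (av T γ x * zj j +
        bv T γ x * (starRingEnd ℂ) (zj j))) τ := by
      refine Filter.Eventually.of_forall fun x => ?_
      change E2d_L (n j) (av T γ τ * zj j + bv T γ τ * (starRingEnd ℂ) (zj j)) ≤
        E2d_L (n j) (av T γ x * zj j + bv T γ x * (starRingEnd ℂ) (zj j))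
      rw [h2, h2, hn1 j]
      exact (abs_le.mp (hn2 j _)).1
    exact h3.hasDerivAt_eq_zero h1
  · intro j k
    rw [hcr, hinv, hinv]
    exact h.paral hT _ _ (hn2 j) (hn2 k)

end Pool.H61.Rh
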