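import Pool.Agent.H61.Rh.E2a
import Pool.Agent.H61.Rh.Dm

/-! # E3: the shape parameter is Lipschitz

`Dom y` implies `‖y‖ ≤ 1` (`dom_normSq`).
For `τ1 < τ2 < τ1 + 3T`: `conv` for `(τ1, τ1 + ε, τ2, τ2 + ε)` shifted by `jT`, divided by
`ε² → 0`, gives `0 ≤ cr (g1 v1) (g2 v2)` where `g_i v = hx a_i b_i v`,
`v_i = i (ζ^j + y_i ζ^{-j})`.  `g2 v2 = g1 v2 + O(C |τ2-τ1|)`, so
`cr v1 v2 ≥ - C' (τ2 - τ1)` (`cr_hx`, `|a|²-|b|²=1`; `a, b` are bounded), and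
`cr v1 v2 = cr (u_j + y1) Δ` with `Δ = y2 - y1`.  Put `x_j = cr (u_j + y1) Δ`.
`∑ d_j (u_j + y1) = 0` (`d_j = 1 - 2 dt u_j y1`), so `∑ d_j x_j = 0`, and since `d_j ≥ 1/30`,
`d_j ≤ 3`: `|x_j| ≤ 180 C' (τ2-τ1)`.  The differences `x_i - x_j = cr (u_i - u_j) Δ` bound `‖Δ‖`.
For `|τ2 - τ1| ≥ 3T` use `‖y_i‖ ≤ 1`. -/

set_option autoImplicit false

namespace Pool.H61.Rh

open Complex Finset

private lemma E3_conv_deriv {T : ℝ} {γ : ℝ → ℂ} (h : AC T γ) {τ1 τ2 : ℝ} (h12 : τ1 < τ2)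
    (h3 : τ2 < τ1 + 3 * T) (s : ℝ) (g1 g2 : ℂ)
    (d1 : HasDerivAt (fun τ => γ (τ + s)) g1 τ1) (d2 : HasDerivAt (fun τ => γ (τ + s)) g2 τ2) :
    0 ≤ cr g1 g2 := by
  have t1 := d1.tendsto_slope_zero_right
  have t2 := d2.tendsto_slope_zero_right
  have t3 := (continuous_cr.tendsto (g1, g2)).comp (t1.prodMk_nhds t2)
  refine ge_of_tendsto t3 ?_
  have hpos : 0 < min (τ2 - τ1) (τ1 + 3 * T - τ2) := lt_min (by linarith) (by linarith)
  have hev : ∀ᶠ t in nhdsWithin (0 : ℝ) (Set.Ioi 0), t ∈ Set.Ioo (0 : ℝ)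
      (min (τ2 - τ1) (τ1 + 3 * T - τ2)) := Ioo_mem_nhdsGT hpos
  filter_upwards [hev] with t ht
  have ht0 : 0 < t := ht.1
  have hta : t < τ2 - τ1 := ht.2.trans_le (min_le_left _ _)
  have htb : t < τ1 + 3 * T - τ2 := ht.2.trans_le (min_le_right _ _)
  have hc := h.conv (τ1 + s) (τ1 + t + s) (τ2 + s) (τ2 + t + s) (by linarith) (by linarith)
    (by linarith) (by linarith)
  show 0 ≤ cr (t⁻¹ • (γ (τ1 + t + s) - γ (τ1 + s))) (t⁻¹ • (γ (τ2 + t + s) - γ (τ2 + s)))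
  rw [real_smul, real_smul, cr_smul_left, cr_smul_right]
  have hi : 0 ≤ t⁻¹ := inv_nonneg.mpr ht0.le
  exact mul_nonneg hi (mul_nonneg hi hc)

private lemma E3_normhx (a b v : ℂ) : ‖hx a b v‖ ≤ (‖a‖ + ‖b‖) * ‖v‖ := by
  unfold hx
  calc ‖a * v + b * (starRingEnd ℂ) v‖ ≤ ‖a * v‖ + ‖b * (starRingEnd ℂ) v‖ := norm_add_le _ _
    _ = (‖a‖ + ‖b‖) * ‖v‖ := by rw [norm_mul, norm_mul, RCLike.norm_conj]; ring

private lemma E3_deriv (a b : ℝ → ℂ) (y z : ℂ) (τ : ℝ)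
    (ha : HasDerivAt a (I * (a τ - (starRingEnd ℂ) y * b τ)) τ)
    (hb : HasDerivAt b (I * (y * a τ - b τ)) τ) :
    HasDerivAt (fun x => hx (a x) (b x) z)
      (hx (a τ) (b τ) (I * (z + y * (starRingEnd ℂ) z))) τ := by
  have h := (ha.mul_const z).add (hb.mul_const ((starRingEnd ℂ) z))
  have e : I * (a τ - (starRingEnd ℂ) y * b τ) * z + I * (y * a τ - b τ) * (starRingEnd ℂ) z =
      hx (a τ) (b τ) (I * (z + y * (starRingEnd ℂ) z)) := by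
    unfold hx
    simp only [map_mul, map_add, conj_I, conj_conj]
    ring
  rw [e] at h
  exact h

private lemma E3_cr (z y1 y2 : ℂ) (hz : normSq z = 1) :
    cr (I * (z + y1 * (starRingEnd ℂ) z)) (I * (z + y2 * (starRingEnd ℂ) z)) =
      cr (z ^ 2 + y1) (y2 - y1) := by
  have h : z.re * z.re + z.im * z.im = 1 := by rw [← normSq_apply]; exact hz
  simp only [cr, mul_re, mul_im, I_re, I_im, add_re, add_im, conj_re, conj_im, pow_two,
    sub_re, sub_im]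
  linear_combination (y1.re * y2.im - y1.im * y2.re) * h

private lemma E3_real (D : ℝ) (hD : 0 ≤ D) (y1 Δ : ℂ) (hy : Dom y1)
    (hx : ∀ j : Fin 3, -D ≤ cr (uu j + y1) Δ) : ‖Δ‖ ≤ 300 * D := by
  have h0 := hx 0
  have h1 := hx 1
  have h2 := hx 2
  have k0 := (hy 0).1
  have k1 := (hy 1).1
  have k2 := (hy 2).1
  have u0r : (uu 0).re = 1 := by rw [uu_zero, one_re]
  have u0i : (uu 0).im = 0 := by rw [uu_zero, one_im]
  have u1r : (uu 1).re = -1 / 2 := rfl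
  have u1i : (uu 1).im = s3 / 2 := rfl
  have u2r : (uu 2).re = -1 / 2 := rfl
  have u2i : (uu 2).im = -(s3 / 2) := rfl
  have hs := s3_mul
  have hs1 := s3_gt
  have hs2 := s3_lt
  simp only [dt, u0r, u0i, u1r, u1i, u2r, u2i] at k0 k1 k2
  simp only [cr, add_re, add_im, u0r, u0i, u1r, u1i, u2r, u2i] at h0 h1 h2
  set p := y1.re
  set q := y1.im
  set r := Δ.re
  set t := Δ.im
  set d0 := 1 - 2 * (1 * p + 0 * q) with hd0
  set d1 := 1 - 2 * (-1 / 2 * p + s3 / 2 * q) with hd1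
  set d2 := 1 - 2 * (-1 / 2 * p + -(s3 / 2) * q) with hd2
  set x0 := (1 + p) * t - (0 + q) * r with hx0
  set x1 := (-1 / 2 + p) * t - (s3 / 2 + q) * r with hx1
  set x2 := (-1 / 2 + p) * t - (-(s3 / 2) + q) * r with hx2
  have hsum : d0 * x0 + d1 * x1 + d2 * x2 = 0 := by
    rw [hd0, hd1, hd2, hx0, hx1, hx2]
    linear_combination (q * r) * hs
  have hdsum : d0 + d1 + d2 = 3 := by rw [hd0, hd1, hd2]; ring
  have aux : ∀ a b c x y z : ℝ, 1 / 30 ≤ a → 1 / 30 ≤ b → 1 / 30 ≤ c → -D ≤ y → -D ≤ z →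
      a * x + b * y + c * z = 0 → a + b + c = 3 → x ≤ 90 * D := by
    intro a b c x y z ha hb hc hy hz he hf
    have e1 : b * (-D) ≤ b * y := mul_le_mul_of_nonneg_left hy (by linarith)
    have e2 : c * (-D) ≤ c * z := mul_le_mul_of_nonneg_left hz (by linarith)
    by_contra hcon
    push Not at hcon
    have e3 : a * (90 * D) ≤ a * x := mul_le_mul_of_nonneg_left hcon.le (by linarith)
    have e4 : (1 / 30) * (x - 90 * D) ≤ a * (x - 90 * D) :=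
      mul_le_mul_of_nonneg_right ha (by linarith)
    have e5 : (1 / 30) * D ≤ a * D := mul_le_mul_of_nonneg_right ha hD
    have e6 : c = 3 - a - b := by linarith
    rw [e6] at e2 he
    linarith
  have b0 : x0 ≤ 90 * D := aux d0 d1 d2 x0 x1 x2 k0 k1 k2 h1 h2 hsum hdsum
  have b1 : x1 ≤ 90 * D := aux d1 d0 d2 x1 x0 x2 k1 k0 k2 h0 h2 (by linarith) (by linarith)
  have b2 : x2 ≤ 90 * D := aux d2 d0 d1 x2 x0 x1 k2 k0 k1 h0 h1 (by linarith) (by linarith)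
  have e12 : x1 - x2 = -(s3 * r) := by rw [hx1, hx2]; ring
  have e01 : x0 - x1 = 3 / 2 * t + s3 / 2 * r := by rw [hx0, hx1]; ring
  have hr1 : s3 * r ≤ 91 * D := by linarith
  have hr2 : -(91 * D) ≤ s3 * r := by linarith
  have hr : |r| ≤ 91 * D := by
    rw [abs_le]
    constructor
    · by_contra hcon
      push Not at hcon
      have w1 : s3 * r < s3 * (-(91 * D)) := mul_lt_mul_of_pos_left hcon (by linarith)
      have w2 : 17 / 10 * (91 * D) ≤ s3 * (91 * D) :=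
        mul_le_mul_of_nonneg_right (by linarith) (by linarith)
      linarith
    · by_contra hcon
      push Not at hcon
      have w1 : s3 * (91 * D) < s3 * r := mul_lt_mul_of_pos_left hcon (by linarith)
      have w2 : 17 / 10 * (91 * D) ≤ s3 * (91 * D) :=
        mul_le_mul_of_nonneg_right (by linarith) (by linarith)
      linarith
  have ht : |t| ≤ 100 * D := by
    rw [abs_le]
    constructor <;> linarith
  calc ‖Δ‖ ≤ |Δ.re| + |Δ.im| := Complex.norm_le_abs_re_add_abs_im Δ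
    _ ≤ 91 * D + 100 * D := add_le_add hr ht
    _ ≤ 300 * D := by linarith

private lemma E3_normy {y : ℂ} (h : Dom y) : ‖y‖ ≤ 1 := by
  have h1 := dom_normSq h
  rw [normSq_eq_norm_sq] at h1
  nlinarith [norm_nonneg y]

private lemma E3_core {T : ℝ} {γ : ℝ → ℂ} (h : AC T γ) (M : ℝ) (hM0 : 0 ≤ M) (C : NNReal)
    (hMa : ∀ τ, ‖av T γ τ‖ ≤ M) (hMb : ∀ τ, ‖bv T γ τ‖ ≤ M)
    (hCa : LipschitzWith C (av T γ)) (hCb : LipschitzWith C (bv T γ))
    (τ1 τ2 : ℝ) (y1 y2 : ℂ) (hy1 : Dom y1) (hy2 : Dom y2)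
    (a1 : HasDerivAt (av T γ) (I * (av T γ τ1 - (starRingEnd ℂ) y1 * bv T γ τ1)) τ1)
    (b1 : HasDerivAt (bv T γ) (I * (y1 * av T γ τ1 - bv T γ τ1)) τ1)
    (a2 : HasDerivAt (av T γ) (I * (av T γ τ2 - (starRingEnd ℂ) y2 * bv T γ τ2)) τ2)
    (b2 : HasDerivAt (bv T γ) (I * (y2 * av T γ τ2 - bv T γ τ2)) τ2)
    (h12 : τ1 < τ2) (h3 : τ2 < τ1 + 3 * T) :
    ‖y2 - y1‖ ≤ 300 * (16 * M * C * (τ2 - τ1)) := by
  have hδ : 0 < τ2 - τ1 := by linarith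
  have hC0 : (0 : ℝ) ≤ C := C.2
  have key : ∀ (z : ℂ) (s : ℝ), normSq z = 1 → (∀ τ, γ (τ + s) = hx (av T γ τ) (bv T γ τ) z) →
      -(16 * M * C * (τ2 - τ1)) ≤ cr (z ^ 2 + y1) (y2 - y1) := by
    intro z s hz hG
    have hfun : (fun τ => γ (τ + s)) = fun x => hx (av T γ x) (bv T γ x) z := by
      funext x; exact hG x
    have d1 := E3_deriv (av T γ) (bv T γ) y1 z τ1 a1 b1
    have d2 := E3_deriv (av T γ) (bv T γ) y2 z τ2 a2 b2
    rw [← hfun] at d1 d2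
    have hc := E3_conv_deriv h h12 h3 s _ _ d1 d2
    set v1 := I * (z + y1 * (starRingEnd ℂ) z) with hv1
    set v2 := I * (z + y2 * (starRingEnd ℂ) z) with hv2
    have hzn : ‖z‖ = 1 := by
      rw [normSq_eq_norm_sq] at hz
      nlinarith [norm_nonneg z]
    have nv : ∀ y : ℂ, ‖y‖ ≤ 1 → ‖I * (z + y * (starRingEnd ℂ) z)‖ ≤ 2 := by
      intro y hy
      rw [norm_mul, norm_I, one_mul]
      calc ‖z + y * (starRingEnd ℂ) z‖ ≤ ‖z‖ + ‖y * (starRingEnd ℂ) z‖ := norm_add_le _ _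
        _ = 1 + ‖y‖ := by rw [norm_mul, RCLike.norm_conj, hzn, mul_one]
        _ ≤ 2 := by linarith
    have nv1 : ‖v1‖ ≤ 2 := nv y1 (E3_normy hy1)
    have nv2 : ‖v2‖ ≤ 2 := nv y2 (E3_normy hy2)
    have hdec : hx (av T γ τ2) (bv T γ τ2) v2 = hx (av T γ τ1) (bv T γ τ1) v2 +
        hx (av T γ τ2 - av T γ τ1) (bv T γ τ2 - bv T γ τ1) v2 := by
      unfold hx; ring
    rw [hdec, cr_add_right, cr_hx, h.ab_norm, one_mul] at hc
    have hda : ‖av T γ τ2 - av T γ τ1‖ ≤ C * (τ2 - τ1) := by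
      have := hCa.dist_le_mul τ2 τ1
      rw [dist_eq_norm, Real.dist_eq, abs_of_pos hδ] at this
      exact this
    have hdb : ‖bv T γ τ2 - bv T γ τ1‖ ≤ C * (τ2 - τ1) := by
      have := hCb.dist_le_mul τ2 τ1
      rw [dist_eq_norm, Real.dist_eq, abs_of_pos hδ] at this
      exact this
    have n1 : ‖hx (av T γ τ1) (bv T γ τ1) v1‖ ≤ (M + M) * 2 := by
      refine (E3_normhx _ _ _).trans ?_
      exact mul_le_mul (add_le_add (hMa _) (hMb _)) nv1 (norm_nonneg _) (by linarith)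
    have n2 : ‖hx (av T γ τ2 - av T γ τ1) (bv T γ τ2 - bv T γ τ1) v2‖ ≤
        (C * (τ2 - τ1) + C * (τ2 - τ1)) * 2 := by
      refine (E3_normhx _ _ _).trans ?_
      exact mul_le_mul (add_le_add hda hdb) nv2 (norm_nonneg _) (by positivity)
    have n3 := abs_cr_le (hx (av T γ τ1) (bv T γ τ1) v1)
      (hx (av T γ τ2 - av T γ τ1) (bv T γ τ2 - bv T γ τ1) v2)
    have n4 : |cr (hx (av T γ τ1) (bv T γ τ1) v1)
        (hx (av T γ τ2 - av T γ τ1) (bv T γ τ2 - bv T γ τ1) v2)| ≤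
        ((M + M) * 2) * ((C * (τ2 - τ1) + C * (τ2 - τ1)) * 2) :=
      n3.trans (mul_le_mul n1 n2 (norm_nonneg _) (by positivity))
    have n5 := (abs_le.mp n4).2
    have e := E3_cr z y1 y2 hz
    rw [← hv1, ← hv2] at e
    rw [← e]
    nlinarith
  apply E3_real (16 * M * C * (τ2 - τ1)) (by positivity) y1 (y2 - y1) hy1
  intro j
  fin_cases j
  · have := key 1 0 (by simp) (fun τ => by rw [add_zero]; exact (h.g_eq τ).1)
    rw [one_pow, ← uu_zero] at this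
    exact this
  · have := key ze T normSq_ze (fun τ => (h.g_eq τ).2.1)
    rw [← uu_one] at this
    exact this
  · have hz2 : ze - 1 = ze ^ 2 := ze_sq.symm
    have := key (ze - 1) (2 * T) (by rw [hz2, map_pow, normSq_ze, one_pow])
      (fun τ => (h.g_eq τ).2.2)
    have e2 : (ze - 1) ^ 2 = uu 2 := by
      rw [uu_two, hz2]
      have : (ze ^ 2) ^ 2 = ze ^ 3 * ze := by ring
      rw [this, ze_cube]; ring
    rw [e2] at this
    exact this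

theorem AC.y_lip {T : ℝ} {γ : ℝ → ℂ} (h : AC T γ) :
    ∃ C : NNReal, ∀ (τ1 τ2 : ℝ) (y1 y2 : ℂ), Dom y1 → Dom y2 →
      HasDerivAt (av T γ) (I * (av T γ τ1 - (starRingEnd ℂ) y1 * bv T γ τ1)) τ1 →
      HasDerivAt (bv T γ) (I * (y1 * av T γ τ1 - bv T γ τ1)) τ1 →
      HasDerivAt (av T γ) (I * (av T γ τ2 - (starRingEnd ℂ) y2 * bv T γ τ2)) τ2 →
      HasDerivAt (bv T γ) (I * (y2 * av T γ τ2 - bv T γ τ2)) τ2 →
      ‖y1 - y2‖ ≤ C * |τ1 - τ2| := by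
  obtain ⟨C, hCa, hCb⟩ := h.ab_lip
  have hT := h.Tpos
  -- boundedness
  have bound : ∀ (g : ℝ → ℂ) (w : ℂ), ‖w‖ = 1 → Continuous g → (∀ τ, g (τ + T) = w * g τ) →
      ∃ B, 0 ≤ B ∧ ∀ τ, ‖g τ‖ ≤ B := by
    intro g w hw hg hq
    have hper : Function.Periodic (fun τ => ‖g τ‖) T := by
      intro τ
      show ‖g (τ + T)‖ = ‖g τ‖
      rw [hq, norm_mul, hw, one_mul]
    obtain ⟨B, hB⟩ := (isCompact_Icc (a := (0 : ℝ)) (b := T)).exists_bound_of_continuousOn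
      hg.continuousOn
    refine ⟨B, (norm_nonneg _).trans (hB 0 ⟨le_refl _, hT.le⟩), fun τ => ?_⟩
    obtain ⟨y, hy, hy2⟩ := hper.exists_mem_Ico₀ hT τ
    have hy3 : ‖g τ‖ = ‖g y‖ := hy2
    rw [hy3]
    exact hB y ⟨hy.1, hy.2.le⟩
  obtain ⟨Ba, hBa0, hBa⟩ := bound (av T γ) ze norm_ze hCa.continuous (fun τ => (h.ab_qp τ).1)
  obtain ⟨Bb, hBb0, hBb⟩ := bound (bv T γ) ((starRingEnd ℂ) ze)
    (by rw [RCLike.norm_conj, norm_ze]) hCb.continuous (fun τ => (h.ab_qp τ).2)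
  set M := max Ba Bb with hM
  have hM0 : 0 ≤ M := hBa0.trans (le_max_left _ _)
  have hMa : ∀ τ, ‖av T γ τ‖ ≤ M := fun τ => (hBa τ).trans (le_max_left _ _)
  have hMb : ∀ τ, ‖bv T γ τ‖ ≤ M := fun τ => (hBb τ).trans (le_max_right _ _)
  have hC0 : (0 : ℝ) ≤ C := C.2
  set K : ℝ := 300 * (16 * M * C) + 2 / (3 * T) with hK
  have hK0 : 0 ≤ K := by positivity
  have main : ∀ (τ1 τ2 : ℝ) (y1 y2 : ℂ), Dom y1 → Dom y2 →
      HasDerivAt (av T γ) (I * (av T γ τ1 - (starRingEnd ℂ) y1 * bv T γ τ1)) τ1 →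
      HasDerivAt (bv T γ) (I * (y1 * av T γ τ1 - bv T γ τ1)) τ1 →
      HasDerivAt (av T γ) (I * (av T γ τ2 - (starRingEnd ℂ) y2 * bv T γ τ2)) τ2 →
      HasDerivAt (bv T γ) (I * (y2 * av T γ τ2 - bv T γ τ2)) τ2 → τ1 < τ2 →
      ‖y2 - y1‖ ≤ K * (τ2 - τ1) := by
    intro τ1 τ2 y1 y2 hy1 hy2 a1 b1 a2 b2 hlt
    have hδ : 0 < τ2 - τ1 := by linarith
    by_cases h3 : τ2 < τ1 + 3 * T
    · have := E3_core h M hM0 C hMa hMb hCa hCb τ1 τ2 y1 y2 hy1 hy2 a1 b1 a2 b2 hlt h3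
      have h2 : 0 ≤ 2 / (3 * T) * (τ2 - τ1) := by positivity
      rw [hK, add_mul]
      linarith
    · push Not at h3
      have n : ‖y2 - y1‖ ≤ 2 := by
        calc ‖y2 - y1‖ ≤ ‖y2‖ + ‖y1‖ := norm_sub_le _ _
          _ ≤ 1 + 1 := add_le_add (E3_normy hy2) (E3_normy hy1)
          _ = 2 := by norm_num
      have h2 : 2 ≤ 2 / (3 * T) * (τ2 - τ1) := by
        rw [div_mul_eq_mul_div, le_div_iff₀ (by positivity)]
        nlinarith
      have h4 : 0 ≤ 300 * (16 * M * C) * (τ2 - τ1) := by positivity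
      rw [hK, add_mul]
      linarith
  refine ⟨⟨K, hK0⟩, ?_⟩
  intro τ1 τ2 y1 y2 hy1 hy2 a1 b1 a2 b2
  show ‖y1 - y2‖ ≤ K * |τ1 - τ2|
  rcases lt_trichotomy τ1 τ2 with hlt | heq | hgt
  · rw [abs_sub_comm, abs_of_pos (by linarith : 0 < τ2 - τ1), norm_sub_rev]
    exact main τ1 τ2 y1 y2 hy1 hy2 a1 b1 a2 b2 hlt
  · subst heq
    have e := b1.unique b2
    have e2 : y1 * av T γ τ1 = y2 * av T γ τ1 := by
      have := mul_left_cancel₀ I_ne_zero e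
      exact sub_left_inj.mp this
    have ha0 : av T γ τ1 ≠ 0 := by
      intro h0
      have hn := h.ab_norm τ1
      rw [h0, map_zero] at hn
      have := normSq_nonneg (bv T γ τ1)
      linarith
    have e3 := mul_right_cancel₀ ha0 e2
    rw [e3, sub_self, norm_zero]
    positivity
  · rw [abs_of_pos (by linarith : 0 < τ1 - τ2)]
    exact main τ2 τ1 y2 y1 hy2 hy1 a2 b2 a1 b1 hgt

end Pool.H61.Rh
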