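import Pool.Agent.H61.Rh.E2c
import Pool.Agent.H61.Rh.E2d
import Pool.Agent.H61.Rh.E3

/-! # E4: the differential system holds everywhere, with a Lipschitz `y`

`a, b` are Lipschitz, so the set `E` where both are differentiable has full measure
(`LipschitzWith.ae_differentiableAt_real`) and is dense; on `E` there is `y` (`deriv_form`,
`dom_at`), Lipschitz on `E` (`y_lip`); extend the real and imaginary part
(`LipschitzOnWith.extend_real`).  `Dom` is closed, so `Dom (y τ)` for all `τ`.  The function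
`τ ↦ a τ - ∫_0^τ i (a - ȳ b)` is Lipschitz with a.e. derivative `0`, hence constant
(`AbsolutelyContinuousOnInterval.const_of_ae_hasDerivAt_zero`); the integrand is continuous,
so `HasDerivAt a (i (a - ȳ b))` everywhere; same for `b`.
`y (τ + T) = conj ze ^ 2 * y τ` : from uniqueness, `y = -i (ā b' - b ā')`. -/

set_option autoImplicit false

namespace Pool.H61.Rh

open Complex Finset MeasureTheory

/-- a Lipschitz function whose a.e. derivative is a continuous function is `C¹` -/
private lemma E4_ftc {f F : ℝ → ℂ} {C : NNReal} (hf : LipschitzWith C f) (hF : Continuous F)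
    (h : ∀ᵐ x : ℝ, HasDerivAt f (F x) x) (x : ℝ) : HasDerivAt f (F x) x := by
  have hG : ∀ x, HasDerivAt (fun u => ∫ t in (0 : ℝ)..u, F t) (F x) x := fun x =>
    intervalIntegral.integral_hasDerivAt_right (hF.intervalIntegrable _ _)
      (hF.stronglyMeasurableAtFilter _ _) hF.continuousAt
  obtain ⟨M, hM⟩ := (isCompact_uIcc (a := x - 1) (b := x + 1)).exists_bound_of_continuousOn
    hF.continuousOn
  have hM0 : 0 ≤ M := le_trans (norm_nonneg _) (hM x (by
    rw [Set.uIcc_of_le (by linarith)]; constructor <;> linarith))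
  have hInt : LipschitzOnWith ⟨M, hM0⟩ (fun u => ∫ t in (0 : ℝ)..u, F t)
      (Set.uIcc (x - 1) (x + 1)) := by
    refine LipschitzOnWith.of_dist_le_mul ?_
    intro u hu v hv
    rw [dist_eq_norm, Real.dist_eq]
    have e : (∫ t in (0 : ℝ)..u, F t) - (∫ t in (0 : ℝ)..v, F t) = ∫ t in v..u, F t :=
      intervalIntegral.integral_interval_sub_left (hF.intervalIntegrable _ _)
        (hF.intervalIntegrable _ _)
    rw [e]
    refine intervalIntegral.norm_integral_le_of_norm_le_const ?_
    intro t ht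
    exact hM t (Set.uIcc_subset_uIcc hv hu (Set.uIoc_subset_uIcc ht))
  have hL := ((hf.lipschitzOnWith (s := Set.uIcc (x - 1) (x + 1))).sub
    hInt).absolutelyContinuousOnInterval
  obtain ⟨c, hc⟩ := hL.const_of_ae_hasDerivAt_zero (by
    filter_upwards [h] with z hz _
    have := hz.sub (hG z)
    rw [sub_self] at this
    exact this)
  have hev : f =ᶠ[nhds x] fun u => c + ∫ t in (0 : ℝ)..u, F t := by
    have hmem : Set.Ioo (x - 1) (x + 1) ∈ nhds x := Ioo_mem_nhds (by linarith) (by linarith)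
    filter_upwards [hmem] with z hz
    have h1 := hc z (by
      rw [Set.uIcc_of_le (by linarith)]
      exact ⟨hz.1.le, hz.2.le⟩)
    rw [← h1]
    simp
  exact ((hG x).const_add c).congr_of_eventuallyEq hev

theorem AC.exists_y {T : ℝ} {γ : ℝ → ℂ} (h : AC T γ) (hT : 3 * T < 2 * s3 * (9025 / 10000)) :
    ∃ y : ℝ → ℂ, (∃ C : NNReal, LipschitzWith C y) ∧ (∀ τ, Dom (y τ)) ∧
      (∀ τ, HasDerivAt (av T γ) (I * (av T γ τ - (starRingEnd ℂ) (y τ) * bv T γ τ)) τ) ∧
      (∀ τ, HasDerivAt (bv T γ) (I * (y τ * av T γ τ - bv T γ τ)) τ) ∧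
      (∀ τ, y (τ + T) = (starRingEnd ℂ) ze ^ 2 * y τ) := by
  obtain ⟨C0, hCa, hCb⟩ := h.ab_lip
  obtain ⟨C1, hC1⟩ := h.y_lip
  have hae : ∀ᵐ τ : ℝ, DifferentiableAt ℝ (av T γ) τ ∧ DifferentiableAt ℝ (bv T γ) τ := by
    filter_upwards [hCa.ae_differentiableAt_real, hCb.ae_differentiableAt_real] with τ h1 h2
    exact ⟨h1, h2⟩
  have hE : Dense {τ : ℝ | DifferentiableAt ℝ (av T γ) τ ∧ DifferentiableAt ℝ (bv T γ) τ} :=
    Measure.dense_of_ae hae
  set E : Set ℝ := {τ : ℝ | DifferentiableAt ℝ (av T γ) τ ∧ DifferentiableAt ℝ (bv T γ) τ}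
    with hEdef
  have hex : ∀ τ : ℝ, τ ∈ E → ∃ y : ℂ,
      HasDerivAt (av T γ) (I * (av T γ τ - (starRingEnd ℂ) y * bv T γ τ)) τ ∧
      HasDerivAt (bv T γ) (I * (y * av T γ τ - bv T γ τ)) τ ∧ Dom y := by
    intro τ hτ
    obtain ⟨y, h1, h2⟩ := h.deriv_form τ _ _ hτ.1.hasDerivAt hτ.2.hasDerivAt
    have h3 : HasDerivAt (av T γ) (I * (av T γ τ - (starRingEnd ℂ) y * bv T γ τ)) τ := by
      rw [← h1]; exact hτ.1.hasDerivAt
    have h4 : HasDerivAt (bv T γ) (I * (y * av T γ τ - bv T γ τ)) τ := by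
      rw [← h2]; exact hτ.2.hasDerivAt
    exact ⟨y, h3, h4, h.dom_at hT τ y h3 h4⟩
  choose! y0 hya hyb hyd using hex
  have hlip : ∀ s ∈ E, ∀ t ∈ E, ‖y0 s - y0 t‖ ≤ C1 * |s - t| := fun s hs t ht =>
    hC1 s t (y0 s) (y0 t) (hyd s hs) (hyd t ht) (hya s hs) (hyb s hs) (hya t ht) (hyb t ht)
  have L1 : LipschitzOnWith C1 (fun τ => (y0 τ).re) E := by
    refine LipschitzOnWith.of_dist_le_mul ?_
    intro s hs t ht
    rw [Real.dist_eq, Real.dist_eq, ← Complex.sub_re]
    exact le_trans (Complex.abs_re_le_norm _) (hlip s hs t ht)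
  have L2 : LipschitzOnWith C1 (fun τ => (y0 τ).im) E := by
    refine LipschitzOnWith.of_dist_le_mul ?_
    intro s hs t ht
    rw [Real.dist_eq, Real.dist_eq, ← Complex.sub_im]
    exact le_trans (Complex.abs_im_le_norm _) (hlip s hs t ht)
  obtain ⟨r, hr, hrE⟩ := L1.extend_real
  obtain ⟨i, hi, hiE⟩ := L2.extend_real
  set y : ℝ → ℂ := fun τ => ⟨r τ, i τ⟩ with hy
  have hyE : ∀ τ ∈ E, y τ = y0 τ := by
    intro τ hτ
    apply Complex.ext
    · exact (hrE hτ).symm
    · exact (hiE hτ).symm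
  have hylip : LipschitzWith (C1 + C1) y := by
    refine LipschitzWith.of_dist_le_mul ?_
    intro s t
    rw [dist_eq_norm]
    have h1 := hr.dist_le_mul s t
    have h2 := hi.dist_le_mul s t
    rw [Real.dist_eq] at h1 h2
    calc ‖y s - y t‖ ≤ |(y s - y t).re| + |(y s - y t).im| :=
          Complex.norm_le_abs_re_add_abs_im _
      _ = |r s - r t| + |i s - i t| := by rw [Complex.sub_re, Complex.sub_im]
      _ ≤ C1 * dist s t + C1 * dist s t := add_le_add h1 h2
      _ = ((C1 + C1 : NNReal) : ℝ) * dist s t := by push_cast; ring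
  have hyc : Continuous y := hylip.continuous
  have hdom : ∀ τ, Dom (y τ) := by
    have hcl : IsClosed {τ : ℝ | Dom (y τ)} := by
      have e : {τ : ℝ | Dom (y τ)} = ⋂ j : Fin 3, ({τ : ℝ | 1 / 30 ≤ 1 - 2 * dt (uu j) (y τ)} ∩
          {τ : ℝ | 59 / 1000 * (1 - normSq (y τ)) ≤ (1 - 2 * dt (uu j) (y τ)) ^ 2}) := by
        ext τ
        simp only [Dom, Set.mem_ofPred_eq, Set.mem_iInter, Set.mem_inter_iff]
      rw [e]
      have hdt : ∀ j : Fin 3, Continuous fun τ => dt (uu j) (y τ) := by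
        intro j
        unfold dt
        exact (continuous_const.mul (Complex.continuous_re.comp hyc)).add
          (continuous_const.mul (Complex.continuous_im.comp hyc))
      have hns : Continuous fun τ => normSq (y τ) := Complex.continuous_normSq.comp hyc
      refine isClosed_iInter fun j => IsClosed.inter ?_ ?_
      · exact isClosed_le continuous_const (continuous_const.sub (continuous_const.mul (hdt j)))
      · exact isClosed_le (continuous_const.mul (continuous_const.sub hns))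
          ((continuous_const.sub (continuous_const.mul (hdt j))).pow 2)
    have hsub : E ⊆ {τ : ℝ | Dom (y τ)} := by
      intro τ hτ
      show Dom (y τ)
      rw [hyE τ hτ]
      exact hyd τ hτ
    intro τ
    have h1 : closure E ⊆ {τ : ℝ | Dom (y τ)} := closure_minimal hsub hcl
    rw [hE.closure_eq] at h1
    exact h1 (Set.mem_univ τ)
  have hconj : Continuous fun τ => (starRingEnd ℂ) (y τ) := Complex.continuous_conj.comp hyc
  have hA : ∀ τ, HasDerivAt (av T γ)
      (I * (av T γ τ - (starRingEnd ℂ) (y τ) * bv T γ τ)) τ := by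
    refine E4_ftc hCa (continuous_const.mul (hCa.continuous.sub
      (hconj.mul hCb.continuous))) ?_
    filter_upwards [hae] with τ hτ
    have := hya τ hτ
    rwa [← hyE τ hτ] at this
  have hB : ∀ τ, HasDerivAt (bv T γ) (I * (y τ * av T γ τ - bv T γ τ)) τ := by
    refine E4_ftc hCb (continuous_const.mul ((hyc.mul hCa.continuous).sub
      hCb.continuous)) ?_
    filter_upwards [hae] with τ hτ
    have := hyb τ hτ
    rwa [← hyE τ hτ] at this
  refine ⟨y, ⟨C1 + C1, hylip⟩, hdom, hA, hB, ?_⟩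
  intro τ
  have h1 : HasDerivAt (fun x => bv T γ (x + T))
      (I * (y (τ + T) * av T γ (τ + T) - bv T γ (τ + T))) τ :=
    (hB (τ + T)).comp_add_const τ T
  have h2 : HasDerivAt (fun x => bv T γ (x + T))
      ((starRingEnd ℂ) ze * (I * (y τ * av T γ τ - bv T γ τ))) τ := by
    have e : (fun x => bv T γ (x + T)) = fun x => (starRingEnd ℂ) ze * bv T γ x := by
      funext x
      exact (h.ab_qp x).2
    rw [e]
    exact (hB τ).const_mul _
  have h3 := h1.unique h2
  rw [(h.ab_qp τ).1, (h.ab_qp τ).2] at h3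
  have h4 : av T γ τ ≠ 0 := by
    intro h0
    have := h.ab_norm τ
    rw [h0, map_zero] at this
    have := Complex.normSq_nonneg (bv T γ τ)
    linarith
  have h5 : y (τ + T) * ze = (starRingEnd ℂ) ze * y τ := by
    apply mul_right_cancel₀ h4
    apply mul_left_cancel₀ I_ne_zero
    linear_combination h3
  have hz := ze_mul_conj
  calc y (τ + T) = y (τ + T) * (ze * (starRingEnd ℂ) ze) := by rw [hz, mul_one]
    _ = (y (τ + T) * ze) * (starRingEnd ℂ) ze := by ring
    _ = ((starRingEnd ℂ) ze * y τ) * (starRingEnd ℂ) ze := by rw [h5]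
    _ = (starRingEnd ℂ) ze ^ 2 * y τ := by ring

end Pool.H61.Rh
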