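import Pool.Agent.H61.Rh.Basic

/-! # F1a: Fourier coefficients of quasi-periodic functions, Parseval

`ω = π/(3T)`; the functions `e_k(τ) = exp (i ω (6k+1) τ)`, `k ∈ ℤ`, are `e^{iωτ}` times the
Fourier basis of `[0, T]` (`6 ω k = 2π k / T`), so an orthonormal basis of `L²([0,T], dτ/T)`.
`ck T k f = (1/T) ∫_0^T e^{-iω(6k+1)τ} f`.
Parseval: from `tsum_sq_fourierCoeffOn` / `hasSum_sq_fourierCoeffOn` (or the Hilbert basis
`fourierBasis`) applied to `e^{-iωτ} f`. -/

set_option autoImplicit false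

namespace Pool.H61.Rh

open Complex Finset MeasureTheory

noncomputable def ck (T : ℝ) (k : ℤ) (f : ℝ → ℂ) : ℂ :=
  1 / T * ∫ τ in (0 : ℝ)..T, exp (-(I * ((Real.pi / (3 * T) * (6 * k + 1) * τ : ℝ) : ℂ))) * f τ

/-- Parseval for bounded measurable functions -/
theorem parseval {T : ℝ} (hT : 0 < T) (f : ℝ → ℂ) (hm : Measurable f) (C : ℝ)
    (hC : ∀ τ, ‖f τ‖ ≤ C) :
    HasSum (fun k : ℤ => normSq (ck T k f)) (1 / T * ∫ τ in (0 : ℝ)..T, normSq (f τ)) := by
  let g : ℝ → ℂ := fun τ => exp (-(I * ((Real.pi / (3 * T) * τ : ℝ) : ℂ))) * f τ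
  have hgn : ∀ τ, ‖g τ‖ = ‖f τ‖ := by
    intro τ
    have : ‖exp (-(I * ((Real.pi / (3 * T) * τ : ℝ) : ℂ)))‖ = 1 := by
      have e : -(I * ((Real.pi / (3 * T) * τ : ℝ) : ℂ))
          = ((-(Real.pi / (3 * T) * τ) : ℝ) : ℂ) * I := by push_cast; ring
      rw [e, Complex.norm_exp_ofReal_mul_I]
    simp only [g, norm_mul, this, one_mul]
  have hgm : Measurable g := by
    apply Measurable.mul _ hm
    apply Continuous.measurable
    fun_prop
  have hL2 : MemLp g 2 (volume.restrict (Set.Ioc 0 T)) := by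
    apply MemLp.of_bound hgm.aestronglyMeasurable C
    exact Filter.Eventually.of_forall (fun τ => by rw [hgn]; exact hC τ)
  have h := hasSum_sq_fourierCoeffOn hT hL2
  have e1 : ∀ k : ℤ, fourierCoeffOn hT g k = ck T k f := by
    intro k
    rw [fourierCoeffOn_eq_integral, ck, sub_zero]
    rw [Complex.real_smul]
    congr 1
    · push_cast; ring
    · apply intervalIntegral.integral_congr
      intro x _
      simp only [g, smul_eq_mul]
      rw [fourier_coe_apply, ← mul_assoc, ← Complex.exp_add]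
      congr 2
      have hT' : (T : ℂ) ≠ 0 := by exact_mod_cast hT.ne'
      push_cast
      field_simp
      ring
  have e2 : ∀ k : ℤ, ‖fourierCoeffOn hT g k‖ ^ 2 = normSq (ck T k f) := by
    intro k
    rw [e1, normSq_eq_norm_sq]
  simp only [e2] at h
  convert h using 1
  rw [sub_zero, smul_eq_mul, one_div]
  congr 1
  apply intervalIntegral.integral_congr
  intro x _
  simp only [hgn, normSq_eq_norm_sq]

end Pool.H61.Rh
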