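import Pool.Agent.H61.Rh.F1a

/-! # F1b: Fourier coefficients of derivatives

Integration by parts on `[0, T]`; `e^{-iω(6k+1)τ} f(τ)` takes the same value at `0` and `T`
because `f (τ + T) = ζ f τ` and `e^{-iω(6k+1)T} = e^{-iπ(6k+1)/3} = conj ζ`.
For `ck_deriv2` the function `f1` is Lipschitz, use absolute continuity
(`LipschitzOnWith.absolutelyContinuousOnInterval`, `AbsolutelyContinuousOnInterval.integral_mul_deriv_eq_deriv_mul`
or `integral_deriv_eq_sub`, for real and imaginary parts). -/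

set_option autoImplicit false

namespace Pool.H61.Rh

open Complex Finset MeasureTheory

/-- the exponential -/
private noncomputable def F1b_e (T : ℝ) (k : ℤ) (τ : ℝ) : ℂ :=
  exp (-(I * ((Real.pi / (3 * T) * (6 * k + 1) * τ : ℝ) : ℂ)))

private lemma F1b_e_deriv (T : ℝ) (k : ℤ) (τ : ℝ) :
    HasDerivAt (F1b_e T k)
      (-(I * ((Real.pi / (3 * T) * (6 * k + 1) : ℝ) : ℂ)) * F1b_e T k τ) τ := by
  have h1 : HasDerivAt (fun t : ℝ => (((Real.pi / (3 * T) * (6 * k + 1)) * t : ℝ) : ℂ))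
      (((Real.pi / (3 * T) * (6 * k + 1)) * 1 : ℝ) : ℂ) τ :=
    ((hasDerivAt_id τ).const_mul _).ofReal_comp
  have h2 := ((h1.const_mul I).neg).cexp
  refine h2.congr_deriv ?_
  simp only [F1b_e, mul_one, Pi.neg_apply]
  ring

private lemma F1b_e_cont (T : ℝ) (k : ℤ) : Continuous (F1b_e T k) :=
  continuous_iff_continuousAt.mpr (fun t => (F1b_e_deriv T k t).continuousAt)

private lemma F1b_e_norm (T : ℝ) (k : ℤ) (τ : ℝ) : ‖F1b_e T k τ‖ = 1 := by
  have e : -(I * ((Real.pi / (3 * T) * (6 * k + 1) * τ : ℝ) : ℂ))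
      = ((-(Real.pi / (3 * T) * (6 * k + 1) * τ) : ℝ) : ℂ) * I := by push_cast; ring
  rw [F1b_e, e, Complex.norm_exp_ofReal_mul_I]

private lemma F1b_e_zero (T : ℝ) (k : ℤ) : F1b_e T k 0 = 1 := by simp [F1b_e]

private lemma F1b_e_T {T : ℝ} (hT : 0 < T) (k : ℤ) : F1b_e T k T * ze = 1 := by
  rw [F1b_e, ze_eq_exp, ← Complex.exp_add]
  have hT' : (T : ℂ) ≠ 0 := by exact_mod_cast hT.ne'
  have e : -(I * ((Real.pi / (3 * T) * (6 * k + 1) * T : ℝ) : ℂ)) + ((Real.pi / 3 : ℝ) : ℂ) * I
      = ((-k : ℤ) : ℂ) * (2 * Real.pi * I) := by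
    push_cast
    field_simp
    ring
  rw [e, Complex.exp_int_mul_two_pi_mul_I]

private lemma F1b_ck (T : ℝ) (k : ℤ) (f : ℝ → ℂ) :
    ck T k f = 1 / T * ∫ τ in (0 : ℝ)..T, F1b_e T k τ * f τ := rfl

theorem ck_deriv1 {T : ℝ} (hT : 0 < T) (f f1 : ℝ → ℂ) (hf : ∀ τ, HasDerivAt f (f1 τ) τ)
    (hc : Continuous f1) (qp : ∀ τ, f (τ + T) = ze * f τ) (k : ℤ) :
    ck T k f1 = I * ((Real.pi / (3 * T) * (6 * k + 1) : ℝ) : ℂ) * ck T k f := by
  have hfc : Continuous f := continuous_iff_continuousAt.mpr (fun t => (hf t).continuousAt)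
  have hec := F1b_e_cont T k
  have h1 : ∀ τ ∈ Set.uIcc 0 T, HasDerivAt (fun t => F1b_e T k t * f t)
      (-(I * ((Real.pi / (3 * T) * (6 * k + 1) : ℝ) : ℂ)) * F1b_e T k τ * f τ
        + F1b_e T k τ * f1 τ) τ := fun τ _ => (F1b_e_deriv T k τ).mul (hf τ)
  have h2 := intervalIntegral.integral_eq_sub_of_hasDerivAt h1
    (by apply Continuous.intervalIntegrable; fun_prop)
  have h3 : F1b_e T k T * f T - F1b_e T k 0 * f 0 = 0 := by
    have : f T = ze * f 0 := by have := qp 0; rwa [zero_add] at this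
    rw [this, F1b_e_zero, ← mul_assoc, F1b_e_T hT]
    ring
  rw [h3, intervalIntegral.integral_add (by apply Continuous.intervalIntegrable; fun_prop)
    (by apply Continuous.intervalIntegrable; fun_prop)] at h2
  have h4 : ∫ τ in (0 : ℝ)..T, -(I * ((Real.pi / (3 * T) * (6 * k + 1) : ℝ) : ℂ)) * F1b_e T k τ * f τ
      = -(I * ((Real.pi / (3 * T) * (6 * k + 1) : ℝ) : ℂ)) * ∫ τ in (0 : ℝ)..T, F1b_e T k τ * f τ := by
    rw [← intervalIntegral.integral_const_mul]
    apply intervalIntegral.integral_congr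
    intro x _
    simp only [mul_assoc]
  rw [h4] at h2
  rw [F1b_ck, F1b_ck]
  linear_combination (1 / (T : ℂ)) * h2

/-- fundamental theorem of calculus for Lipschitz complex valued functions -/
private lemma F1b_ftc {F : ℝ → ℂ} {a b : ℝ} {K : NNReal} (hF : LipschitzOnWith K F (Set.uIcc a b))
    (hd : ∀ᵐ x : ℝ, DifferentiableAt ℝ F x) : ∫ x in a..b, deriv F x = F b - F a := by
  have hre : LipschitzOnWith K (fun x => (F x).re) (Set.uIcc a b) := by
    apply LipschitzOnWith.of_dist_le_mul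
    intro x hx z hz
    have h := hF.dist_le_mul x hx z hz
    rw [dist_eq_norm] at h
    rw [Real.dist_eq, ← sub_re]
    exact (Complex.abs_re_le_norm _).trans h
  have him : LipschitzOnWith K (fun x => (F x).im) (Set.uIcc a b) := by
    apply LipschitzOnWith.of_dist_le_mul
    intro x hx z hz
    have h := hF.dist_le_mul x hx z hz
    rw [dist_eq_norm] at h
    rw [Real.dist_eq, ← sub_im]
    exact (Complex.abs_im_le_norm _).trans h
  have are := hre.absolutelyContinuousOnInterval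
  have aim := him.absolutelyContinuousOnInterval
  have e1 := are.integral_deriv_eq_sub
  have e2 := aim.integral_deriv_eq_sub
  have e3 : ∫ x in a..b, deriv F x = ∫ x in a..b, (((deriv (fun x => (F x).re) x : ℝ) : ℂ)
      + ((deriv (fun x => (F x).im) x : ℝ) : ℂ) * I) := by
    apply intervalIntegral.integral_congr_ae
    filter_upwards [hd] with x hx _
    have h1 : HasDerivAt (fun x => (F x).re) (deriv F x).re x :=
      Complex.reCLM.hasFDerivAt.comp_hasDerivAt x hx.hasDerivAt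
    have h2 : HasDerivAt (fun x => (F x).im) (deriv F x).im x :=
      Complex.imCLM.hasFDerivAt.comp_hasDerivAt x hx.hasDerivAt
    rw [h1.deriv, h2.deriv, re_add_im]
  have i1 : IntervalIntegrable (fun x => ((deriv (fun x => (F x).re) x : ℝ) : ℂ)) volume a b :=
    ⟨are.intervalIntegrable_deriv.1.ofReal, are.intervalIntegrable_deriv.2.ofReal⟩
  have i2 : IntervalIntegrable (fun x => ((deriv (fun x => (F x).im) x : ℝ) : ℂ)) volume a b :=
    ⟨aim.intervalIntegrable_deriv.1.ofReal, aim.intervalIntegrable_deriv.2.ofReal⟩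
  rw [e3, intervalIntegral.integral_add i1 (i2.mul_const _), intervalIntegral.integral_mul_const,
    intervalIntegral.integral_ofReal, intervalIntegral.integral_ofReal, e1, e2]
  apply Complex.ext <;> simp

theorem ck_deriv2 {T : ℝ} (hT : 0 < T) (f1 : ℝ → ℂ) (C : NNReal) (hC : LipschitzWith C f1)
    (qp : ∀ τ, f1 (τ + T) = ze * f1 τ) (k : ℤ) :
    ck T k (deriv f1) = I * ((Real.pi / (3 * T) * (6 * k + 1) : ℝ) : ℂ) * ck T k f1 := by
  have hfc : Continuous f1 := hC.continuous
  have hec := F1b_e_cont T k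
  set W : ℂ := I * ((Real.pi / (3 * T) * (6 * k + 1) : ℝ) : ℂ) with hW
  have hdiff : ∀ᵐ x : ℝ, DifferentiableAt ℝ f1 x := hC.ae_differentiableAt_real
  -- the product is Lipschitz on `[0, T]`
  have heL : LipschitzWith ‖W‖₊ (F1b_e T k) := by
    apply lipschitzWith_of_nnnorm_deriv_le (fun t => (F1b_e_deriv T k t).differentiableAt)
    intro t
    rw [(F1b_e_deriv T k t).deriv, ← hW, ← NNReal.coe_le_coe, coe_nnnorm, coe_nnnorm, norm_mul,
      norm_neg, F1b_e_norm, mul_one]
  have hB : ∀ t ∈ Set.uIcc 0 T, ‖f1 t‖ ≤ ‖f1 0‖ + C * T := by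
    intro t ht
    rw [Set.uIcc_of_le hT.le] at ht
    have h := hC.dist_le_mul t 0
    rw [dist_eq_norm, Real.dist_eq, sub_zero, abs_of_nonneg ht.1] at h
    have h2 : ‖f1 t‖ ≤ ‖f1 t - f1 0‖ + ‖f1 0‖ := by
      have := norm_add_le (f1 t - f1 0) (f1 0)
      rwa [sub_add_cancel] at this
    have h3 : (C : ℝ) * t ≤ C * T := mul_le_mul_of_nonneg_left ht.2 C.2
    linarith
  have hFL : LipschitzOnWith (⟨‖W‖ * (‖f1 0‖ + C * T) + C, by positivity⟩ : NNReal)
      (fun t => F1b_e T k t * f1 t) (Set.uIcc 0 T) := by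
    apply LipschitzOnWith.of_dist_le_mul
    intro s hs t ht
    have h1 := heL.dist_le_mul s t
    have h2 := hC.dist_le_mul s t
    rw [dist_eq_norm] at h1 h2 ⊢
    have e : F1b_e T k s * f1 s - F1b_e T k t * f1 t
        = (F1b_e T k s - F1b_e T k t) * f1 s + F1b_e T k t * (f1 s - f1 t) := by ring
    rw [e]
    calc ‖(F1b_e T k s - F1b_e T k t) * f1 s + F1b_e T k t * (f1 s - f1 t)‖
        ≤ ‖F1b_e T k s - F1b_e T k t‖ * ‖f1 s‖ + ‖F1b_e T k t‖ * ‖f1 s - f1 t‖ := by
          refine (norm_add_le _ _).trans ?_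
          rw [norm_mul, norm_mul]
      _ ≤ (‖W‖ * dist s t) * (‖f1 0‖ + C * T) + 1 * (C * dist s t) := by
          rw [F1b_e_norm]
          have := hB s hs
          gcongr
          exact h1
      _ = (‖W‖ * (‖f1 0‖ + C * T) + C) * dist s t := by ring
  have hFd : ∀ᵐ x : ℝ, DifferentiableAt ℝ (fun t => F1b_e T k t * f1 t) x := by
    filter_upwards [hdiff] with x hx
    exact (F1b_e_deriv T k x).differentiableAt.mul hx
  have h2 := F1b_ftc hFL hFd
  have h3 : F1b_e T k T * f1 T - F1b_e T k 0 * f1 0 = 0 := by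
    have : f1 T = ze * f1 0 := by have := qp 0; rwa [zero_add] at this
    rw [this, F1b_e_zero, ← mul_assoc, F1b_e_T hT]
    ring
  have h5 : ∫ x in (0 : ℝ)..T, deriv (fun t => F1b_e T k t * f1 t) x
      = ∫ x in (0 : ℝ)..T, (-W * F1b_e T k x * f1 x + F1b_e T k x * deriv f1 x) := by
    apply intervalIntegral.integral_congr_ae
    filter_upwards [hdiff] with x hx _
    exact ((F1b_e_deriv T k x).mul hx.hasDerivAt).deriv
  have hi : IntervalIntegrable (fun x => F1b_e T k x * deriv f1 x) volume 0 T := by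
    rw [intervalIntegrable_iff]
    apply MeasureTheory.Measure.integrableOn_of_bounded (M := (C : ℝ))
    · rw [Set.uIoc_of_le hT.le]; simp
    · exact (hec.measurable.mul (measurable_deriv f1)).aestronglyMeasurable
    · apply Filter.Eventually.of_forall
      intro x
      rw [norm_mul, F1b_e_norm, one_mul]
      exact norm_deriv_le_of_lipschitz hC
  rw [h3, h5, intervalIntegral.integral_add (by apply Continuous.intervalIntegrable; fun_prop) hi] at h2
  have h4 : ∫ τ in (0 : ℝ)..T, -W * F1b_e T k τ * f1 τ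
      = -W * ∫ τ in (0 : ℝ)..T, F1b_e T k τ * f1 τ := by
    rw [← intervalIntegral.integral_const_mul]
    apply intervalIntegral.integral_congr
    intro x _
    simp only [mul_assoc]
  rw [h4] at h2
  rw [F1b_ck, F1b_ck]
  linear_combination (1 / (T : ℂ)) * h2

end Pool.H61.Rh
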