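import Pool.Agent.H61.Rh.F1b

/-! # F1c: Wirtinger inequality with a quartic symbol

By Parseval and polarisation (`cr f g = Im (conj f g)`, `dt f g = Re (conj f g)`; apply
`parseval` to `f + g`, `f + i g`, with `ck` linear), with `X_k = π/(3T) (6k+1)`:
`(1/T) ∫ normSq f = ∑ |c_k|²`, `(1/T) ∫ cr f f1 = ∑ X_k |c_k|²`, `(1/T) ∫ normSq f1 = ∑ X_k² |c_k|²`,
`(1/T) ∫ dt f (deriv f1) = - ∑ X_k² |c_k|²`, `(1/T) ∫ cr f1 (deriv f1) = ∑ X_k³ |c_k|²`,
`(1/T) ∫ normSq (deriv f1) = ∑ X_k⁴ |c_k|²`.  Hence `(1/T) ∫ form = ∑ sym(X_k) |c_k|²`,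
and all terms with `k ≠ 0` are `≥ 0`. -/

set_option autoImplicit false

namespace Pool.H61.Rh

open Complex Finset MeasureTheory

/-- the quadratic form -/
noncomputable def form (q0 q1 q2 q2' q3 q4 : ℝ) (f f1 f2 : ℂ) : ℝ :=
  q0 * normSq f + q1 * cr f f1 + q2 * normSq f1 - q2' * dt f f2 + q3 * cr f1 f2 + q4 * normSq f2

/-- its symbol -/
noncomputable def sym (q0 q1 q2 q2' q3 q4 X : ℝ) : ℝ :=
  q0 + q1 * X + (q2 + q2') * X ^ 2 + q3 * X ^ 3 + q4 * X ^ 4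

private lemma F1c_int (g : ℝ → ℂ) (hm : Measurable g) (C : ℝ) (hC : ∀ τ, ‖g τ‖ ≤ C) (a b : ℝ) :
    IntervalIntegrable g volume a b := by
  refine (intervalIntegrable_const (c := C)).mono_fun hm.aestronglyMeasurable ?_
  filter_upwards with x
  rw [Real.norm_eq_abs]
  exact (hC x).trans (le_abs_self C)

private lemma F1c_intR (g : ℝ → ℝ) (hm : Measurable g) (C : ℝ) (hC : ∀ τ, |g τ| ≤ C) (a b : ℝ) :
    IntervalIntegrable g volume a b := by
  refine (intervalIntegrable_const (c := C)).mono_fun hm.aestronglyMeasurable ?_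
  filter_upwards with x
  rw [Real.norm_eq_abs, Real.norm_eq_abs]
  exact (hC x).trans (le_abs_self C)

private lemma F1c_ker (T : ℝ) (k : ℤ) (τ : ℝ) :
    ‖exp (-(I * ((Real.pi / (3 * T) * (6 * k + 1) * τ : ℝ) : ℂ)))‖ = 1 := by
  rw [Complex.norm_exp]
  have h : (-(I * ((Real.pi / (3 * T) * (6 * k + 1) * τ : ℝ) : ℂ))).re = 0 := by
    rw [neg_re, mul_re, I_re, I_im, ofReal_re, ofReal_im]
    ring
  rw [h, Real.exp_zero]

private lemma F1c_kerm (T : ℝ) (k : ℤ) :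
    Measurable (fun τ : ℝ => exp (-(I * ((Real.pi / (3 * T) * (6 * k + 1) * τ : ℝ) : ℂ)))) := by
  apply Continuous.measurable
  fun_prop

private lemma F1c_ck_add (T : ℝ) (k : ℤ) (f g : ℝ → ℂ) (hf : Measurable f) (hg : Measurable g)
    (C D : ℝ) (hC : ∀ τ, ‖f τ‖ ≤ C) (hD : ∀ τ, ‖g τ‖ ≤ D) :
    ck T k (fun τ => f τ + g τ) = ck T k f + ck T k g := by
  unfold ck
  rw [← mul_add, ← intervalIntegral.integral_add]
  · congr 1
    apply intervalIntegral.integral_congr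
    intro τ _
    simp only
    ring
  · apply F1c_int _ ((F1c_kerm T k).mul hf) C
    intro τ
    rw [Pi.mul_apply, norm_mul, F1c_ker, one_mul]
    exact hC τ
  · apply F1c_int _ ((F1c_kerm T k).mul hg) D
    intro τ
    rw [Pi.mul_apply, norm_mul, F1c_ker, one_mul]
    exact hD τ

private lemma F1c_ck_I (T : ℝ) (k : ℤ) (f : ℝ → ℂ) :
    ck T k (fun τ => I * f τ) = I * ck T k f := by
  have h : (∫ τ in (0 : ℝ)..T,
      exp (-(I * ((Real.pi / (3 * T) * (6 * k + 1) * τ : ℝ) : ℂ))) * (I * f τ)) =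
      I * ∫ τ in (0 : ℝ)..T,
        exp (-(I * ((Real.pi / (3 * T) * (6 * k + 1) * τ : ℝ) : ℂ))) * f τ := by
    rw [← intervalIntegral.integral_const_mul]
    apply intervalIntegral.integral_congr
    intro τ _
    simp only
    ring
  unfold ck
  rw [h]
  ring

private lemma F1c_dt_abs (z w : ℂ) : |dt z w| ≤ ‖z‖ * ‖w‖ := by
  rw [dt_eq_re]
  calc |((starRingEnd ℂ) z * w).re| ≤ ‖(starRingEnd ℂ) z * w‖ := abs_re_le_norm _
    _ = ‖z‖ * ‖w‖ := by rw [norm_mul, RCLike.norm_conj]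

private lemma F1c_dt_meas (f g : ℝ → ℂ) (hf : Measurable f) (hg : Measurable g) :
    Measurable (fun τ => dt (f τ) (g τ)) := by
  unfold dt
  fun_prop

private lemma F1c_dt {T : ℝ} (hT : 0 < T) (f g : ℝ → ℂ) (hf : Measurable f) (hg : Measurable g)
    (C D : ℝ) (hC : ∀ τ, ‖f τ‖ ≤ C) (hD : ∀ τ, ‖g τ‖ ≤ D) :
    HasSum (fun k : ℤ => dt (ck T k f) (ck T k g))
      (1 / T * ∫ τ in (0 : ℝ)..T, dt (f τ) (g τ)) := by
  have h1 := parseval hT f hf C hC
  have h2 := parseval hT g hg D hD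
  have h3 := parseval hT (fun τ => f τ + g τ) (hf.add hg) (C + D)
    (fun τ => (norm_add_le _ _).trans (add_le_add (hC τ) (hD τ)))
  have h4 := ((h3.sub h1).sub h2).mul_left (1 / 2)
  have hnn : ∀ z : ℂ, dt z z = normSq z := by
    intro z; simp only [dt, normSq_apply]
  have hC0 : 0 ≤ C := (norm_nonneg _).trans (hC 0)
  have hD0 : 0 ≤ D := (norm_nonneg _).trans (hD 0)
  have bd : ∀ (u v : ℝ → ℂ) (A B : ℝ), (∀ τ, ‖u τ‖ ≤ A) → (∀ τ, ‖v τ‖ ≤ B) → 0 ≤ A →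
      ∀ τ, |dt (u τ) (v τ)| ≤ A * B := by
    intro u v A B hA hB hA0 τ
    exact (F1c_dt_abs _ _).trans (mul_le_mul (hA τ) (hB τ) (norm_nonneg _) hA0)
  have ef : (fun τ => normSq (f τ)) = fun τ => dt (f τ) (f τ) := by
    funext τ; rw [hnn]
  have eg : (fun τ => normSq (g τ)) = fun τ => dt (g τ) (g τ) := by
    funext τ; rw [hnn]
  have ifg : IntervalIntegrable (fun τ => dt (f τ) (g τ)) volume 0 T :=
    F1c_intR _ (F1c_dt_meas f g hf hg) _ (bd f g C D hC hD hC0) _ _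
  have iff' : IntervalIntegrable (fun τ => dt (f τ) (f τ)) volume 0 T :=
    F1c_intR _ (F1c_dt_meas f f hf hf) _ (bd f f C C hC hC hC0) _ _
  have igg : IntervalIntegrable (fun τ => dt (g τ) (g τ)) volume 0 T :=
    F1c_intR _ (F1c_dt_meas g g hg hg) _ (bd g g D D hD hD hD0) _ _
  have x1 : (fun k : ℤ => dt (ck T k f) (ck T k g)) = fun i : ℤ => 1 / 2 *
      (normSq (ck T i fun τ => f τ + g τ) - normSq (ck T i f) - normSq (ck T i g)) := by
    funext k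
    rw [F1c_ck_add T k f g hf hg C D hC hD]
    simp only [dt, normSq_apply, add_re, add_im]
    ring
  have x2 : (1 / T * ∫ τ in (0 : ℝ)..T, dt (f τ) (g τ)) = 1 / 2 *
      (((1 / T * ∫ (τ : ℝ) in (0 : ℝ)..T, normSq (f τ + g τ)) -
        1 / T * ∫ (τ : ℝ) in (0 : ℝ)..T, normSq (f τ)) -
        1 / T * ∫ (τ : ℝ) in (0 : ℝ)..T, normSq (g τ)) := by
    rw [ef, eg]
    have e3 : (∫ τ in (0 : ℝ)..T, normSq (f τ + g τ)) =
        (∫ τ in (0 : ℝ)..T, dt (f τ) (f τ)) + 2 * (∫ τ in (0 : ℝ)..T, dt (f τ) (g τ)) +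
          (∫ τ in (0 : ℝ)..T, dt (g τ) (g τ)) := by
      rw [← intervalIntegral.integral_const_mul, ← intervalIntegral.integral_add iff'
        (ifg.const_mul 2), ← intervalIntegral.integral_add (iff'.add (ifg.const_mul 2)) igg]
      apply intervalIntegral.integral_congr
      intro τ _
      simp only [dt, normSq_apply, add_re, add_im]
      ring
    rw [e3]
    ring
  rw [x1, x2]
  exact h4

private lemma F1c_cr {T : ℝ} (hT : 0 < T) (f g : ℝ → ℂ) (hf : Measurable f) (hg : Measurable g)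
    (C D : ℝ) (hC : ∀ τ, ‖f τ‖ ≤ C) (hD : ∀ τ, ‖g τ‖ ≤ D) :
    HasSum (fun k : ℤ => cr (ck T k f) (ck T k g))
      (1 / T * ∫ τ in (0 : ℝ)..T, cr (f τ) (g τ)) := by
  have e : ∀ z w : ℂ, cr z w = dt (I * z) w := by
    intro z w
    simp only [cr, dt, mul_re, mul_im, I_re, I_im]
    ring
  have h := F1c_dt hT (fun τ => I * f τ) g (hf.const_mul I) hg C D
    (fun τ => by rw [norm_mul, norm_I, one_mul]; exact hC τ) hD
  simp only [F1c_ck_I, ← e] at h
  exact h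

theorem wirt {T : ℝ} (hT : 0 < T) (f f1 : ℝ → ℂ) (hf : ∀ τ, HasDerivAt f (f1 τ) τ)
    (hf1 : ∃ C : NNReal, LipschitzWith C f1) (qp : ∀ τ, f (τ + T) = ze * f τ)
    (q0 q1 q2 q2' q3 q4 : ℝ)
    (hpos : ∀ k : ℤ, k ≠ 0 → 0 ≤ sym q0 q1 q2 q2' q3 q4 (Real.pi / (3 * T) * (6 * k + 1))) :
    T * (sym q0 q1 q2 q2' q3 q4 (Real.pi / (3 * T)) * normSq (ck T 0 f)) ≤
      ∫ τ in (0 : ℝ)..T, form q0 q1 q2 q2' q3 q4 (f τ) (f1 τ) (deriv f1 τ) := by
  obtain ⟨C, hC⟩ := hf1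
  have hfc : Continuous f := continuous_iff_continuousAt.mpr (fun τ => (hf τ).continuousAt)
  have hf1c : Continuous f1 := hC.continuous
  -- quasi-periodicity of the derivative
  have qp1 : ∀ τ, f1 (τ + T) = ze * f1 τ := by
    intro τ
    have h1 : HasDerivAt (fun x => f (x + T)) (f1 (τ + T)) τ := (hf (τ + T)).comp_add_const τ T
    have h2 : HasDerivAt (fun x => ze * f x) (ze * f1 τ) τ := (hf τ).const_mul ze
    have h3 : (fun x => f (x + T)) = fun x => ze * f x := by funext x; exact qp x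
    rw [h3] at h1
    exact h1.unique h2
  -- bounds
  have bound : ∀ g : ℝ → ℂ, Continuous g → (∀ τ, g (τ + T) = ze * g τ) → ∃ B, ∀ τ, ‖g τ‖ ≤ B := by
    intro g hg hq
    have hper : Function.Periodic (fun τ => ‖g τ‖) T := by
      intro τ
      show ‖g (τ + T)‖ = ‖g τ‖
      rw [hq, norm_mul, norm_ze, one_mul]
    obtain ⟨B, hB⟩ := (isCompact_Icc (a := (0 : ℝ)) (b := T)).exists_bound_of_continuousOn
      hg.continuousOn
    refine ⟨B, fun τ => ?_⟩
    obtain ⟨y, hy, hy2⟩ := hper.exists_mem_Ico₀ hT τ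
    have hy3 : ‖g τ‖ = ‖g y‖ := hy2
    rw [hy3]
    exact hB y ⟨hy.1, hy.2.le⟩
  obtain ⟨B0, hB0⟩ := bound f hfc qp
  obtain ⟨B1, hB1⟩ := bound f1 hf1c qp1
  have hB2 : ∀ τ, ‖deriv f1 τ‖ ≤ (C : ℝ) := fun τ => norm_deriv_le_of_lipschitz hC
  have m0 : Measurable f := hfc.measurable
  have m1 : Measurable f1 := hf1c.measurable
  have m2 : Measurable (deriv f1) := measurable_deriv f1
  set X : ℤ → ℝ := fun k => Real.pi / (3 * T) * (6 * k + 1) with hX
  have c1 : ∀ k, ck T k f1 = I * (X k : ℂ) * ck T k f := fun k => ck_deriv1 hT f f1 hf hf1c qp k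
  have c2 : ∀ k, ck T k (deriv f1) = I * (X k : ℂ) * (I * (X k : ℂ) * ck T k f) := by
    intro k
    rw [← c1]
    exact ck_deriv2 hT f1 C hC qp1 k
  have s0 := F1c_dt hT f f m0 m0 B0 B0 hB0 hB0
  have s1 := F1c_cr hT f f1 m0 m1 B0 B1 hB0 hB1
  have s2 := F1c_dt hT f1 f1 m1 m1 B1 B1 hB1 hB1
  have s2' := F1c_dt hT f (deriv f1) m0 m2 B0 C hB0 hB2
  have s3' := F1c_cr hT f1 (deriv f1) m1 m2 B1 C hB1 hB2
  have s4 := F1c_dt hT (deriv f1) (deriv f1) m2 m2 C C hB2 hB2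
  have hs := (((((s0.mul_left q0).add (s1.mul_left q1)).add (s2.mul_left q2)).sub
    (s2'.mul_left q2')).add (s3'.mul_left q3)).add (s4.mul_left q4)
  have hsum : HasSum (fun k : ℤ => sym q0 q1 q2 q2' q3 q4 (X k) * normSq (ck T k f))
      (1 / T * ∫ τ in (0 : ℝ)..T, form q0 q1 q2 q2' q3 q4 (f τ) (f1 τ) (deriv f1 τ)) := by
    have x1 : (fun k : ℤ => sym q0 q1 q2 q2' q3 q4 (X k) * normSq (ck T k f)) = fun b : ℤ =>
        q0 * dt (ck T b f) (ck T b f) + q1 * cr (ck T b f) (ck T b f1) +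
          q2 * dt (ck T b f1) (ck T b f1) - q2' * dt (ck T b f) (ck T b (deriv f1)) +
          q3 * cr (ck T b f1) (ck T b (deriv f1)) +
          q4 * dt (ck T b (deriv f1)) (ck T b (deriv f1)) := by
      funext k
      rw [c1, c2]
      simp only [sym, dt, cr, normSq_apply, mul_re, mul_im, I_re, I_im, ofReal_re, ofReal_im]
      ring
    have x2 : (1 / T * ∫ τ in (0 : ℝ)..T, form q0 q1 q2 q2' q3 q4 (f τ) (f1 τ) (deriv f1 τ)) =
        q0 * (1 / T * ∫ (τ : ℝ) in (0 : ℝ)..T, dt (f τ) (f τ)) +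
        q1 * (1 / T * ∫ (τ : ℝ) in (0 : ℝ)..T, cr (f τ) (f1 τ)) +
        q2 * (1 / T * ∫ (τ : ℝ) in (0 : ℝ)..T, dt (f1 τ) (f1 τ)) -
        q2' * (1 / T * ∫ (τ : ℝ) in (0 : ℝ)..T, dt (f τ) (deriv f1 τ)) +
        q3 * (1 / T * ∫ (τ : ℝ) in (0 : ℝ)..T, cr (f1 τ) (deriv f1 τ)) +
        q4 * (1 / T * ∫ (τ : ℝ) in (0 : ℝ)..T, dt (deriv f1 τ) (deriv f1 τ)) := by
      have p0 : 0 ≤ B0 := (norm_nonneg _).trans (hB0 0)
      have p1 : 0 ≤ B1 := (norm_nonneg _).trans (hB1 0)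
      have bdd : ∀ (u v : ℝ → ℂ) (A B : ℝ), (∀ τ, ‖u τ‖ ≤ A) → (∀ τ, ‖v τ‖ ≤ B) → 0 ≤ A →
          ∀ τ, |dt (u τ) (v τ)| ≤ A * B := by
        intro u v A B hA hB hA0 τ
        exact (F1c_dt_abs _ _).trans (mul_le_mul (hA τ) (hB τ) (norm_nonneg _) hA0)
      have bdc : ∀ (u v : ℝ → ℂ) (A B : ℝ), (∀ τ, ‖u τ‖ ≤ A) → (∀ τ, ‖v τ‖ ≤ B) → 0 ≤ A →
          ∀ τ, |cr (u τ) (v τ)| ≤ A * B := by
        intro u v A B hA hB hA0 τ
        exact (abs_cr_le _ _).trans (mul_le_mul (hA τ) (hB τ) (norm_nonneg _) hA0)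
      have mcr : ∀ (u v : ℝ → ℂ), Measurable u → Measurable v →
          Measurable (fun τ => cr (u τ) (v τ)) := by
        intro u v hu hv
        unfold cr
        fun_prop
      have j0 : IntervalIntegrable (fun τ => dt (f τ) (f τ)) volume 0 T :=
        F1c_intR _ (F1c_dt_meas _ _ m0 m0) _ (bdd f f B0 B0 hB0 hB0 p0) _ _
      have j1 : IntervalIntegrable (fun τ => cr (f τ) (f1 τ)) volume 0 T :=
        F1c_intR _ (mcr _ _ m0 m1) _ (bdc f f1 B0 B1 hB0 hB1 p0) _ _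
      have j2 : IntervalIntegrable (fun τ => dt (f1 τ) (f1 τ)) volume 0 T :=
        F1c_intR _ (F1c_dt_meas _ _ m1 m1) _ (bdd f1 f1 B1 B1 hB1 hB1 p1) _ _
      have j2' : IntervalIntegrable (fun τ => dt (f τ) (deriv f1 τ)) volume 0 T :=
        F1c_intR _ (F1c_dt_meas _ _ m0 m2) _ (bdd f (deriv f1) B0 C hB0 hB2 p0) _ _
      have j3 : IntervalIntegrable (fun τ => cr (f1 τ) (deriv f1 τ)) volume 0 T :=
        F1c_intR _ (mcr _ _ m1 m2) _ (bdc f1 (deriv f1) B1 C hB1 hB2 p1) _ _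
      have j4 : IntervalIntegrable (fun τ => dt (deriv f1 τ) (deriv f1 τ)) volume 0 T :=
        F1c_intR _ (F1c_dt_meas _ _ m2 m2) _ (bdd (deriv f1) (deriv f1) C C hB2 hB2 C.2) _ _
      have e : (∫ τ in (0 : ℝ)..T, form q0 q1 q2 q2' q3 q4 (f τ) (f1 τ) (deriv f1 τ)) =
          q0 * (∫ τ in (0 : ℝ)..T, dt (f τ) (f τ)) + q1 * (∫ τ in (0 : ℝ)..T, cr (f τ) (f1 τ)) +
          q2 * (∫ τ in (0 : ℝ)..T, dt (f1 τ) (f1 τ)) -
          q2' * (∫ τ in (0 : ℝ)..T, dt (f τ) (deriv f1 τ)) +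
          q3 * (∫ τ in (0 : ℝ)..T, cr (f1 τ) (deriv f1 τ)) +
          q4 * (∫ τ in (0 : ℝ)..T, dt (deriv f1 τ) (deriv f1 τ)) := by
        rw [← intervalIntegral.integral_const_mul, ← intervalIntegral.integral_const_mul,
          ← intervalIntegral.integral_const_mul, ← intervalIntegral.integral_const_mul,
          ← intervalIntegral.integral_const_mul, ← intervalIntegral.integral_const_mul,
          ← intervalIntegral.integral_add (j0.const_mul q0) (j1.const_mul q1),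
          ← intervalIntegral.integral_add ((j0.const_mul q0).add (j1.const_mul q1))
            (j2.const_mul q2),
          ← intervalIntegral.integral_sub (((j0.const_mul q0).add (j1.const_mul q1)).add
            (j2.const_mul q2)) (j2'.const_mul q2'),
          ← intervalIntegral.integral_add ((((j0.const_mul q0).add (j1.const_mul q1)).add
            (j2.const_mul q2)).sub (j2'.const_mul q2')) (j3.const_mul q3),
          ← intervalIntegral.integral_add (((((j0.const_mul q0).add (j1.const_mul q1)).add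
            (j2.const_mul q2)).sub (j2'.const_mul q2')).add (j3.const_mul q3)) (j4.const_mul q4)]
        apply intervalIntegral.integral_congr
        intro τ _
        simp only [form, dt, cr, normSq_apply]
      rw [e]
      ring
    rw [x1, x2]
    exact hs
  have hle := sum_le_hasSum {(0 : ℤ)} (f := fun k : ℤ => sym q0 q1 q2 q2' q3 q4 (X k) *
    normSq (ck T k f)) (fun k hk => mul_nonneg (hpos k (by simpa using hk)) (normSq_nonneg _)) hsum
  rw [Finset.sum_singleton] at hle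
  have hX0 : X 0 = Real.pi / (3 * T) := by
    simp [hX]
  rw [hX0] at hle
  calc T * (sym q0 q1 q2 q2' q3 q4 (Real.pi / (3 * T)) * normSq (ck T 0 f))
      ≤ T * (1 / T * ∫ τ in (0 : ℝ)..T, form q0 q1 q2 q2' q3 q4 (f τ) (f1 τ) (deriv f1 τ)) :=
        mul_le_mul_of_nonneg_left hle hT.le
    _ = _ := by field_simp

end Pool.H61.Rh
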