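import Pool.Agent.H61.Rh.Dm
import Pool.Agent.H61.Rh.F1c

/-! # F2a: crude bound of `b`, and the zeroth Fourier coefficients

`b_crude`: `φ = 1 + 2|b|²` satisfies `φ' = 4 Re (conj b · i y a) ≤ 4 |y||a||b| ≤ 2 (|a|²+|b|²) = 2 φ`
(`|y| ≤ 1`, `|a|² = 1 + |b|²`), `φ 0 = 1`; so on `[0, T]`, `φ ≤ e^{2T} ≤ e^{2.1} ≤ 8.2`, `|b|² ≤ 3.6`;
`|b|` is `T`-periodic.
`hat_lt`: `q(X) = (X - 7ω)(X + 5ω) = X² - 2ωX - 35ω²` is `≥ 0` at `X_k = ω(6k+1)`, `k ≠ 0`, and
`-36 ω²` at `ω`.  `wirt` for `f = a`: `(1/T)∫ (|a'|² - 2ω cr a a' - 35 ω² |a|²) ≥ -36 ω² |â|²`.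
For `b̄`: `(1/T)∫ (|b'|² + 2ω cr b b' - 35ω²|b|²) = (1/T)∫ |conj b' - iω conj b|² - 36 ω² (1/T)∫|b|²
≤ (1/T)∫ |conj b' - iω conj b|² - 36ω² |b̂|²` (`|b̂|² ≤ (1/T)∫|b|²`, Cauchy-Schwarz or Parseval).
Difference, with `|a'|² - |b'|² = 1 - |y|²`, `cr a a' + cr b b' = 1`, `|a|² - |b|² = 1`:
`1 - avg|y|² - 2ω - 35 ω² ≥ -36ω² |â|² - avg |conj b' - iω conj b|² + 36 ω² |b̂|²`, and
`conj b' - iω conj b = -i ȳ ā + i (1-ω) b̄`, so its square is at most
`(√4.6 + 0.21·√3.6)² ≤ 6.6 < 36 - 1` (`1 ≤ ω ≤ 1.21`, because `√3/2 ≤ T ≤ π/3`). -/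

set_option autoImplicit false

namespace Pool.H61.Rh

open Complex Finset MeasureTheory

/-- derivative of `normSq ∘ f` -/
private lemma F2a_deriv_normSq {f : ℝ → ℂ} {f' : ℂ} {τ : ℝ} (h : HasDerivAt f f' τ) :
    HasDerivAt (fun t => normSq (f t)) (2 * dt (f τ) f') τ := by
  have hre : HasDerivAt (fun t => (f t).re) f'.re τ :=
    Complex.reCLM.hasFDerivAt.comp_hasDerivAt τ h
  have him : HasDerivAt (fun t => (f t).im) f'.im τ :=
    Complex.imCLM.hasFDerivAt.comp_hasDerivAt τ h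
  have := (hre.mul hre).add (him.mul him)
  refine (this.congr_of_eventuallyEq ?_).congr_deriv ?_
  · exact Filter.Eventually.of_forall (fun t => by simp [normSq_apply])
  · simp only [dt]; ring

private lemma F2a_exp : Real.exp (21 / 10) ≤ 82 / 10 := by
  have h1 := Real.exp_one_lt_d9
  have h2 : Real.exp (1 / 20) ≤ 10525 / 10000 := by
    have := Real.abs_exp_sub_one_sub_id_le (x := 1 / 20) (by norm_num [abs_of_pos])
    have := (abs_le.mp this).2
    norm_num at this ⊢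
    linarith
  have h3 : Real.exp (21 / 10) = Real.exp 1 ^ 2 * Real.exp (1 / 20) ^ 2 := by
    rw [← Real.exp_nat_mul, ← Real.exp_nat_mul, ← Real.exp_add]
    norm_num
  rw [h3]
  have e1 := Real.exp_pos 1
  have e2 := Real.exp_pos (1 / 20)
  have a1 : Real.exp 1 ^ 2 ≤ 73891 / 10000 := by
    calc Real.exp 1 ^ 2 ≤ (2.7182818286 : ℝ) ^ 2 := by
          apply pow_le_pow_left₀ e1.le h1.le
      _ ≤ _ := by norm_num
  have a2 : Real.exp (1 / 20) ^ 2 ≤ (10525 / 10000 : ℝ) ^ 2 := pow_le_pow_left₀ e2.le h2 2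
  calc Real.exp 1 ^ 2 * Real.exp (1 / 20) ^ 2 ≤ 73891 / 10000 * (10525 / 10000 : ℝ) ^ 2 := by
        apply mul_le_mul a1 a2 (by positivity) (by norm_num)
    _ ≤ _ := by norm_num

theorem RS.b_crude {T : ℝ} {a b y : ℝ → ℂ} (h : RS T a b y) (hb0 : b 0 = 0)
    (hT : T ≤ 105 / 100) (τ : ℝ) : normSq (b τ) ≤ 36 / 10 := by
  -- periodicity
  have hper : Function.Periodic (fun t => normSq (b t)) T := by
    intro t
    simp only [h.pb t, normSq_mul, normSq_conj, normSq_ze, one_mul]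
  obtain ⟨t, ⟨ht0, htT⟩, hteq⟩ := hper.exists_mem_Ico₀ h.Tpos τ
  have hteq' : normSq (b τ) = normSq (b t) := hteq
  rw [hteq']
  -- the function `ψ = (1 + 2|b|²) e^{-2τ}` is antitone
  let ψ : ℝ → ℝ := fun t => (1 + 2 * normSq (b t)) * Real.exp (-2 * t)
  have hψ : ∀ t, HasDerivAt ψ ((2 * (2 * dt (b t) (I * (y t * a t - b t)))) * Real.exp (-2 * t)
      + (1 + 2 * normSq (b t)) * (Real.exp (-2 * t) * (-2 * 1))) t := by
    intro t
    have h1 := ((F2a_deriv_normSq (h.hb t)).const_mul 2).const_add 1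
    have h2 : HasDerivAt (fun t : ℝ => Real.exp (-2 * t)) (Real.exp (-2 * t) * (-2 * 1)) t :=
      ((hasDerivAt_id t).const_mul (-2)).exp
    exact h1.mul h2
  have hanti : Antitone ψ := by
    apply antitone_of_deriv_nonpos (fun t => (hψ t).differentiableAt)
    intro t
    rw [(hψ t).deriv]
    have hn := h.hn t
    have hy := dom_normSq (h.dom t)
    have key : 2 * dt (b t) (I * (y t * a t - b t)) ≤ 1 + 2 * normSq (b t) := by
      have e1 : dt (b t) (I * (y t * a t - b t)) = ((starRingEnd ℂ) (b t) * (I * (y t * a t))).re := by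
        simp only [dt, mul_re, mul_im, sub_re, sub_im, I_re, I_im, conj_re, conj_im]; ring
      have e2 : ((starRingEnd ℂ) (b t) * (I * (y t * a t))).re ≤ ‖b t‖ * ‖a t‖ := by
        calc ((starRingEnd ℂ) (b t) * (I * (y t * a t))).re
            ≤ ‖(starRingEnd ℂ) (b t) * (I * (y t * a t))‖ := Complex.re_le_norm _
          _ = ‖b t‖ * (‖y t‖ * ‖a t‖) := by
              rw [norm_mul, norm_mul, norm_mul, RCLike.norm_conj, norm_I, one_mul]
          _ ≤ ‖b t‖ * (1 * ‖a t‖) := by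
              have : ‖y t‖ ≤ 1 := by
                rw [normSq_eq_norm_sq] at hy
                nlinarith [norm_nonneg (y t)]
              gcongr
          _ = _ := by ring
      have e3 : 2 * (‖b t‖ * ‖a t‖) ≤ 1 + 2 * normSq (b t) := by
        rw [normSq_eq_norm_sq, normSq_eq_norm_sq] at hn
        rw [normSq_eq_norm_sq]
        nlinarith [sq_nonneg (‖a t‖ - ‖b t‖)]
      rw [e1]; linarith
    have hE := Real.exp_pos (-2 * t)
    nlinarith
  have h1 : ψ t ≤ ψ 0 := hanti ht0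
  have h0 : ψ 0 = 1 := by simp [ψ, hb0]
  have h2 : (1 + 2 * normSq (b t)) * Real.exp (-2 * t) ≤ 1 := h1.trans h0.le
  have h3 : 1 + 2 * normSq (b t) ≤ Real.exp (2 * t) := by
    have : Real.exp (-2 * t) = (Real.exp (2 * t))⁻¹ := by
      rw [← Real.exp_neg]; ring_nf
    rw [this] at h2
    have hp := Real.exp_pos (2 * t)
    rw [← div_eq_mul_inv, div_le_one hp] at h2
    exact h2
  have h4 : Real.exp (2 * t) ≤ Real.exp (21 / 10) := Real.exp_le_exp.mpr (by linarith)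
  have h5 := F2a_exp
  linarith

private lemma F2a_normSq_add (x z : ℂ) : normSq (x + z) ≤ 2 * normSq x + 2 * normSq z := by
  simp only [normSq_apply, add_re, add_im]
  nlinarith [sq_nonneg (x.re - z.re), sq_nonneg (x.im - z.im)]

private lemma F2a_lip_mul {u v : ℝ → ℂ} {Cu Cv : NNReal} {Bu Bv : ℝ} (hu : LipschitzWith Cu u)
    (hv : LipschitzWith Cv v) (bu : ∀ t, ‖u t‖ ≤ Bu) (bv : ∀ t, ‖v t‖ ≤ Bv) :
    ∃ C : NNReal, LipschitzWith C (fun t => u t * v t) := by
  have hBu : 0 ≤ Bu := (norm_nonneg _).trans (bu 0)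
  have hBv : 0 ≤ Bv := (norm_nonneg _).trans (bv 0)
  refine ⟨⟨Bu * Cv + Cu * Bv, by positivity⟩, ?_⟩
  apply LipschitzWith.of_dist_le_mul
  intro s t
  have h1 := hu.dist_le_mul s t
  have h2 := hv.dist_le_mul s t
  rw [dist_eq_norm] at h1 h2 ⊢
  have e : u s * v s - u t * v t = u s * (v s - v t) + (u s - u t) * v t := by ring
  rw [e]
  calc ‖u s * (v s - v t) + (u s - u t) * v t‖ ≤ ‖u s‖ * ‖v s - v t‖ + ‖u s - u t‖ * ‖v t‖ := by
        refine (norm_add_le _ _).trans ?_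
        rw [norm_mul, norm_mul]
    _ ≤ Bu * (Cv * dist s t) + (Cu * dist s t) * Bv := by
        have := bu s
        have := bv t
        gcongr
    _ = (Bu * Cv + Cu * Bv) * dist s t := by ring
    _ = _ := rfl

theorem RS.hat_lt {T : ℝ} {a b y : ℝ → ℂ} (h : RS T a b y) (hb : ∀ τ, normSq (b τ) ≤ 36 / 10)
    (hT : 3 * T < 2 * s3 * (9025 / 10000)) :
    normSq (ck T 0 (fun τ => (starRingEnd ℂ) (b τ))) < normSq (ck T 0 a) := by
  have hTp := h.Tpos
  have hs1 := s3_lt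
  have hs2 := s3_gt
  have hpi := Real.pi_gt_d2
  have hpi2 := Real.pi_lt_d2
  set ω : ℝ := Real.pi / (3 * T) with hω
  have hω1 : 1 ≤ ω := by
    rw [hω, le_div_iff₀ (by positivity)]
    norm_num at hpi
    nlinarith
  have hω2 : ω ≤ 125 / 100 := by
    rw [hω, div_le_iff₀ (by positivity)]
    have := h.Tlow
    norm_num at hpi2
    nlinarith
  -- bounds
  have hbn : ∀ τ, ‖b τ‖ ≤ 2 := by
    intro τ
    have := hb τ
    rw [normSq_eq_norm_sq] at this
    nlinarith [norm_nonneg (b τ)]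
  have han : ∀ τ, ‖a τ‖ ≤ 3 := by
    intro τ
    have h1 := hb τ
    have h2 := h.hn τ
    rw [normSq_eq_norm_sq] at h1 h2
    rw [normSq_eq_norm_sq] at h2
    nlinarith [norm_nonneg (a τ)]
  have hyn : ∀ τ, ‖y τ‖ ≤ 1 := by
    intro τ
    have := dom_normSq (h.dom τ)
    rw [normSq_eq_norm_sq] at this
    nlinarith [norm_nonneg (y τ)]
  have hac : Continuous a := continuous_iff_continuousAt.mpr (fun t => (h.ha t).continuousAt)
  have hbc : Continuous b := continuous_iff_continuousAt.mpr (fun t => (h.hb t).continuousAt)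
  obtain ⟨Cy, hCy⟩ := h.ylip
  have hyc : Continuous y := hCy.continuous
  have hda : ∀ τ, ‖I * (a τ - (starRingEnd ℂ) (y τ) * b τ)‖ ≤ 5 := by
    intro τ
    rw [norm_mul, norm_I, one_mul]
    calc ‖a τ - (starRingEnd ℂ) (y τ) * b τ‖ ≤ ‖a τ‖ + ‖y τ‖ * ‖b τ‖ := by
          refine (norm_sub_le _ _).trans ?_
          rw [norm_mul, RCLike.norm_conj]
      _ ≤ 3 + 1 * 2 := by
          have := han τ; have := hyn τ; have := hbn τ
          gcongr
      _ = 5 := by norm_num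
  have hdb : ∀ τ, ‖I * (y τ * a τ - b τ)‖ ≤ 5 := by
    intro τ
    rw [norm_mul, norm_I, one_mul]
    calc ‖y τ * a τ - b τ‖ ≤ ‖y τ‖ * ‖a τ‖ + ‖b τ‖ := by
          refine (norm_sub_le _ _).trans ?_
          rw [norm_mul]
      _ ≤ 1 * 3 + 2 := by
          have := han τ; have := hyn τ; have := hbn τ
          gcongr
      _ = 5 := by norm_num
  have haL : LipschitzWith 5 a := by
    apply lipschitzWith_of_nnnorm_deriv_le (fun t => (h.ha t).differentiableAt)
    intro t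
    rw [(h.ha t).deriv, ← NNReal.coe_le_coe]
    exact_mod_cast hda t
  have hbL : LipschitzWith 5 b := by
    apply lipschitzWith_of_nnnorm_deriv_le (fun t => (h.hb t).differentiableAt)
    intro t
    rw [(h.hb t).deriv, ← NNReal.coe_le_coe]
    exact_mod_cast hdb t
  have hycL : LipschitzWith Cy (fun t => (starRingEnd ℂ) (y t)) := by
    apply LipschitzWith.of_dist_le_mul
    intro s t
    have := hCy.dist_le_mul s t
    rw [dist_eq_norm] at this ⊢
    rw [← map_sub, RCLike.norm_conj]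
    exact this
  have hf1L : ∃ C : NNReal, LipschitzWith C (fun τ => I * (a τ - (starRingEnd ℂ) (y τ) * b τ)) := by
    obtain ⟨C1, hC1⟩ := F2a_lip_mul (u := fun t => (starRingEnd ℂ) (y t)) (v := b) hycL hbL
      (Bu := 1) (Bv := 2) (fun t => by rw [RCLike.norm_conj]; exact hyn t) hbn
    have h2 := haL.sub hC1
    refine ⟨5 + C1, ?_⟩
    apply LipschitzWith.of_dist_le_mul
    intro s t
    have := h2.dist_le_mul s t
    rw [dist_eq_norm] at this ⊢
    rw [← mul_sub, norm_mul, norm_I, one_mul]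
    exact this
  -- Wirtinger
  have hW := wirt hTp a (fun τ => I * (a τ - (starRingEnd ℂ) (y τ) * b τ)) h.ha hf1L h.pa
    (-(35 * ω ^ 2)) (-(2 * ω)) 1 0 0 0 (by
      intro k hk
      have e : sym (-(35 * ω ^ 2)) (-(2 * ω)) 1 0 0 0 (Real.pi / (3 * T) * (6 * k + 1))
          = 36 * ω ^ 2 * ((k : ℝ) ^ 2 - 1) := by
        rw [← hω]; simp only [sym]; ring
      rw [e]
      have hk1 : (1 : ℝ) ≤ (k : ℝ) ^ 2 := by
        have : 1 ≤ k ^ 2 := by
          have := sq_nonneg k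
          have h2 : k ^ 2 ≠ 0 := pow_ne_zero 2 hk
          omega
        exact_mod_cast this
      have : 0 ≤ (k : ℝ) ^ 2 - 1 := by linarith
      positivity)
  have hs0 : sym (-(35 * ω ^ 2)) (-(2 * ω)) 1 0 0 0 (Real.pi / (3 * T)) = -(36 * ω ^ 2) := by
    rw [← hω]; simp only [sym]; ring
  rw [hs0] at hW
  -- Parseval for `conj b`
  have hP := parseval hTp (fun τ => (starRingEnd ℂ) (b τ))
    ((Complex.continuous_conj.comp hbc).measurable) 2
    (fun τ => by rw [RCLike.norm_conj]; exact hbn τ)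
  have hP0 : normSq (ck T 0 (fun τ => (starRingEnd ℂ) (b τ))) ≤
      1 / T * ∫ τ in (0 : ℝ)..T, normSq ((starRingEnd ℂ) (b τ)) := by
    have := hP.summable.tsum_eq_add_tsum_ite (0 : ℤ)
    exact le_hasSum hP 0 (fun j _ => normSq_nonneg _)
  set A := normSq (ck T 0 a) with hA
  set B := normSq (ck T 0 (fun τ => (starRingEnd ℂ) (b τ))) with hB
  -- pointwise inequality
  have hpt : ∀ τ, form (-(35 * ω ^ 2)) (-(2 * ω)) 1 0 0 0 (a τ)
      (I * (a τ - (starRingEnd ℂ) (y τ) * b τ))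
      (deriv (fun τ => I * (a τ - (starRingEnd ℂ) (y τ) * b τ)) τ)
      ≤ (1 - 2 * ω - 35 * ω ^ 2) + 10 - 36 * ω ^ 2 * normSq ((starRingEnd ℂ) (b τ)) := by
    intro τ
    have hn := h.hn τ
    have hbτ := hb τ
    have hy := dom_normSq (h.dom τ)
    have e1 : form (-(35 * ω ^ 2)) (-(2 * ω)) 1 0 0 0 (a τ)
      (I * (a τ - (starRingEnd ℂ) (y τ) * b τ))
      (deriv (fun τ => I * (a τ - (starRingEnd ℂ) (y τ) * b τ)) τ)
      = ((1 - normSq (y τ)) - 2 * ω) * (normSq (a τ) - normSq (b τ)) - 35 * ω ^ 2 *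
        (normSq (a τ) - normSq (b τ)) + normSq (-(I * ((starRingEnd ℂ) (y τ) * (starRingEnd ℂ) (a τ)))
          + I * ((1 - ω : ℝ) : ℂ) * (starRingEnd ℂ) (b τ))
        - 36 * ω ^ 2 * normSq ((starRingEnd ℂ) (b τ)) := by
      simp only [form, cr, normSq_apply, add_re, add_im, sub_re, sub_im, mul_re, mul_im, neg_re, neg_im,
        I_re, I_im, conj_re, conj_im, ofReal_re, ofReal_im]
      ring
    rw [e1, hn]
    have e2 := F2a_normSq_add (-(I * ((starRingEnd ℂ) (y τ) * (starRingEnd ℂ) (a τ))))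
      (I * ((1 - ω : ℝ) : ℂ) * (starRingEnd ℂ) (b τ))
    have e3 : normSq (-(I * ((starRingEnd ℂ) (y τ) * (starRingEnd ℂ) (a τ))))
        = normSq (y τ) * normSq (a τ) := by
      rw [normSq_neg, normSq_mul, normSq_mul, normSq_I, one_mul, normSq_conj, normSq_conj]
    have e4 : normSq (I * ((1 - ω : ℝ) : ℂ) * (starRingEnd ℂ) (b τ))
        = (1 - ω) ^ 2 * normSq (b τ) := by
      rw [normSq_mul, normSq_mul, normSq_I, one_mul, normSq_conj, normSq_ofReal]; ring
    rw [e3, e4] at e2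
    have f1 : normSq (y τ) * normSq (a τ) ≤ 1 * (46 / 10) := by
      apply mul_le_mul hy.le (by linarith) (normSq_nonneg _) (by norm_num)
    have f2 : (1 - ω) ^ 2 * normSq (b τ) ≤ (1 / 16) * (36 / 10) := by
      apply mul_le_mul _ hbτ (normSq_nonneg _) (by norm_num)
      nlinarith
    have f3 := normSq_nonneg (y τ)
    nlinarith
  have hint1 : IntervalIntegrable (fun τ => form (-(35 * ω ^ 2)) (-(2 * ω)) 1 0 0 0 (a τ)
      (I * (a τ - (starRingEnd ℂ) (y τ) * b τ))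
      (deriv (fun τ => I * (a τ - (starRingEnd ℂ) (y τ) * b τ)) τ)) volume 0 T := by
    have e : (fun τ => form (-(35 * ω ^ 2)) (-(2 * ω)) 1 0 0 0 (a τ)
      (I * (a τ - (starRingEnd ℂ) (y τ) * b τ))
      (deriv (fun τ => I * (a τ - (starRingEnd ℂ) (y τ) * b τ)) τ))
      = (fun τ => form (-(35 * ω ^ 2)) (-(2 * ω)) 1 0 0 0 (a τ)
      (I * (a τ - (starRingEnd ℂ) (y τ) * b τ)) 0) := by
      funext τ
      simp only [form]; ring
    rw [e]
    apply Continuous.intervalIntegrable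
    unfold form cr dt
    simp only [normSq_apply]
    fun_prop
  have hint2 : IntervalIntegrable (fun τ => (1 - 2 * ω - 35 * ω ^ 2) + 10
      - 36 * ω ^ 2 * normSq ((starRingEnd ℂ) (b τ))) volume 0 T := by
    apply Continuous.intervalIntegrable
    simp only [normSq_apply]
    fun_prop
  have hI := intervalIntegral.integral_mono_on hTp.le hint1 hint2 (fun τ _ => hpt τ)
  have hint3 : IntervalIntegrable (fun τ => 36 * ω ^ 2 * normSq ((starRingEnd ℂ) (b τ))) volume 0 T := by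
    apply Continuous.intervalIntegrable
    simp only [normSq_apply]
    fun_prop
  rw [intervalIntegral.integral_sub (by simp) hint3, intervalIntegral.integral_const,
    intervalIntegral.integral_const_mul] at hI
  simp only [sub_zero, smul_eq_mul] at hI
  have h5 := hW.trans hI
  have h6 : T * B ≤ ∫ τ in (0 : ℝ)..T, normSq ((starRingEnd ℂ) (b τ)) := by
    have := mul_le_mul_of_nonneg_left hP0 hTp.le
    rw [← mul_assoc, mul_one_div_cancel hTp.ne', one_mul] at this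
    exact this
  have h7 : 36 * ω ^ 2 * (T * B) ≤ 36 * ω ^ 2 * ∫ τ in (0 : ℝ)..T, normSq ((starRingEnd ℂ) (b τ)) :=
    mul_le_mul_of_nonneg_left h6 (by positivity)
  have h8 : T * (-(36 * ω ^ 2) * A) ≤ T * ((1 - 2 * ω - 35 * ω ^ 2) + 10) - 36 * ω ^ 2 * (T * B) := by
    linarith
  have h9 : 36 * ω ^ 2 * B ≤ 36 * ω ^ 2 * A + ((1 - 2 * ω - 35 * ω ^ 2) + 10) := by
    have : T * (36 * ω ^ 2 * B) ≤ T * (36 * ω ^ 2 * A + ((1 - 2 * ω - 35 * ω ^ 2) + 10)) := by
      linarith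
    exact le_of_mul_le_mul_left this hTp
  have h10 : (1 - 2 * ω - 35 * ω ^ 2) + 10 < 0 := by nlinarith
  have h11 : 36 * ω ^ 2 * B < 36 * ω ^ 2 * A := by linarith
  exact lt_of_mul_lt_mul_left h11 (by positivity)

end Pool.H61.Rh
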