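import Pool.Agent.H61.Rh.F2a

/-! # F2b: change of frame

`c = ck T 0 (conj b) / ck T 0 a`, `|c| < 1`, `α = 1/√(1-|c|²)` (real), `β = -α c̄`.
`a' = α a + β conj b`, `b' = α b + β conj a`.  Then `conj b' = α conj b + β̄ a`, so
`ck T 0 (conj b') = α b̂ + β̄ â = α (b̂ - c â) = 0`.  The other properties of `RS` are checked
directly (the system is real-linear in this sense: the map `z ↦ α z + β z̄` is applied to
`g = hx a b`). -/

set_option autoImplicit false

namespace Pool.H61.Rh

open Complex Finset MeasureTheory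

/-- the Fourier coefficient is linear on continuous functions -/
private lemma F2b_ck_lin {T : ℝ} (f g : ℝ → ℂ) (hf : Continuous f) (hg : Continuous g)
    (u v : ℂ) :
    ck T 0 (fun τ => u * f τ + v * g τ) = u * ck T 0 f + v * ck T 0 g := by
  unfold ck
  have e1 : Continuous (fun τ : ℝ =>
      exp (-(I * ((Real.pi / (3 * T) * (6 * ((0 : ℤ) : ℝ) + 1) * τ : ℝ) : ℂ)))) := by
    fun_prop
  have h1 : IntervalIntegrable (fun τ : ℝ => u *
      (exp (-(I * ((Real.pi / (3 * T) * (6 * ((0 : ℤ) : ℝ) + 1) * τ : ℝ) : ℂ))) * f τ))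
      volume 0 T := (continuous_const.mul (e1.mul hf)).intervalIntegrable _ _
  have h2 : IntervalIntegrable (fun τ : ℝ => v *
      (exp (-(I * ((Real.pi / (3 * T) * (6 * ((0 : ℤ) : ℝ) + 1) * τ : ℝ) : ℂ))) * g τ))
      volume 0 T := (continuous_const.mul (e1.mul hg)).intervalIntegrable _ _
  have e2 : (fun τ : ℝ =>
      exp (-(I * ((Real.pi / (3 * T) * (6 * ((0 : ℤ) : ℝ) + 1) * τ : ℝ) : ℂ))) *
        (u * f τ + v * g τ)) = fun τ : ℝ => u *
      (exp (-(I * ((Real.pi / (3 * T) * (6 * ((0 : ℤ) : ℝ) + 1) * τ : ℝ) : ℂ))) * f τ) + v *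
      (exp (-(I * ((Real.pi / (3 * T) * (6 * ((0 : ℤ) : ℝ) + 1) * τ : ℝ) : ℂ))) * g τ) := by
    funext τ; ring
  rw [e2, intervalIntegral.integral_add h1 h2, intervalIntegral.integral_const_mul,
    intervalIntegral.integral_const_mul]
  ring

/-- applying a real-linear map of determinant one -/
private lemma F2b_frame {T : ℝ} {a b y : ℝ → ℂ} (h : RS T a b y) (α β : ℂ)
    (hαβ : normSq α - normSq β = 1) :
    RS T (fun τ => α * a τ + β * (starRingEnd ℂ) (b τ))
      (fun τ => α * b τ + β * (starRingEnd ℂ) (a τ)) y where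
  Tpos := h.Tpos
  Tlow := h.Tlow
  ha := by
    intro τ
    have h1 := (h.ha τ).const_mul α
    have h2 : HasDerivAt (fun τ => (starRingEnd ℂ) (b τ))
        ((starRingEnd ℂ) (I * (y τ * a τ - b τ))) τ := by
      have := (h.hb τ).star
      simpa using this
    refine (h1.add (h2.const_mul β)).congr_deriv ?_
    simp only [map_mul, map_sub, conj_I]
    ring
  hb := by
    intro τ
    have h1 := (h.hb τ).const_mul α
    have h2 : HasDerivAt (fun τ => (starRingEnd ℂ) (a τ))
        ((starRingEnd ℂ) (I * (a τ - (starRingEnd ℂ) (y τ) * b τ))) τ := by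
      have := (h.ha τ).star
      simpa using this
    refine (h1.add (h2.const_mul β)).congr_deriv ?_
    simp only [map_mul, map_sub, conj_I, Complex.conj_conj]
    ring
  hn := by
    intro τ
    have h1 := h.hn τ
    have h2 : normSq (α * a τ + β * (starRingEnd ℂ) (b τ))
        - normSq (α * b τ + β * (starRingEnd ℂ) (a τ))
        = (normSq α - normSq β) * (normSq (a τ) - normSq (b τ)) := by
      simp only [normSq_apply, add_re, add_im, mul_re, mul_im, conj_re, conj_im]
      ring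
    rw [h2, hαβ, h1, one_mul]
  pa := by
    intro τ
    simp only [h.pa τ, h.pb τ, map_mul, Complex.conj_conj]
    ring
  pb := by
    intro τ
    simp only [h.pa τ, h.pb τ, map_mul]
    ring
  py := h.py
  ylip := h.ylip
  dom := h.dom
  kap := h.kap

theorem RS.frame {T : ℝ} {a b y : ℝ → ℂ} (h : RS T a b y)
    (hlt : normSq (ck T 0 (fun τ => (starRingEnd ℂ) (b τ))) < normSq (ck T 0 a)) :
    ∃ a' b' : ℝ → ℂ, RS T a' b' y ∧ ck T 0 (fun τ => (starRingEnd ℂ) (b' τ)) = 0 := by
  have hca : Continuous a := continuous_iff_continuousAt.2 fun τ => (h.ha τ).continuousAt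
  have hcb : Continuous b := continuous_iff_continuousAt.2 fun τ => (h.hb τ).continuousAt
  have hcb' : Continuous (fun τ => (starRingEnd ℂ) (b τ)) := continuous_conj.comp hcb
  set A : ℂ := ck T 0 a with hA
  set B : ℂ := ck T 0 (fun τ => (starRingEnd ℂ) (b τ)) with hB
  have hA0 : 0 < normSq A := lt_of_le_of_lt (normSq_nonneg _) hlt
  have hA1 : A ≠ 0 := by
    intro h0
    rw [h0, map_zero] at hA0
    exact lt_irrefl _ hA0
  set c : ℂ := B / A with hc
  have hc1 : normSq c < 1 := by
    rw [hc, normSq_div, div_lt_one hA0]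
    exact hlt
  have hs : 0 < 1 - normSq c := by linarith
  set r : ℝ := 1 / Real.sqrt (1 - normSq c) with hr
  have hr2 : r * r * (1 - normSq c) = 1 := by
    have h1 : Real.sqrt (1 - normSq c) * Real.sqrt (1 - normSq c) = 1 - normSq c :=
      Real.mul_self_sqrt hs.le
    have h2 : Real.sqrt (1 - normSq c) ≠ 0 := (Real.sqrt_pos.mpr hs).ne'
    rw [hr]
    field_simp
    nlinarith
  have hαβ : normSq (r : ℂ) - normSq (-(r : ℂ) * (starRingEnd ℂ) c) = 1 := by
    rw [normSq_mul, normSq_neg, normSq_conj, normSq_ofReal]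
    linarith
  refine ⟨_, _, F2b_frame h (r : ℂ) (-(r : ℂ) * (starRingEnd ℂ) c) hαβ, ?_⟩
  have e1 : (fun τ => (starRingEnd ℂ) ((r : ℂ) * b τ + -(r : ℂ) * (starRingEnd ℂ) c *
      (starRingEnd ℂ) (a τ))) = fun τ => (r : ℂ) * (starRingEnd ℂ) (b τ) + (-(r : ℂ) * c) * a τ := by
    funext τ
    simp only [map_add, map_mul, map_neg, Complex.conj_conj, conj_ofReal]
  rw [e1, F2b_ck_lin _ _ hcb' hca, ← hA, ← hB, hc]
  field_simp
  ring

end Pool.H61.Rh
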