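import Pool.Agent.H61.Rh.Dm
import Pool.Agent.H61.Rh.F1a

/-! # F2c: sup bound of `b` in the good frame

`F(τ) = e^{-iωτ} conj (b τ)` is `T`-periodic with integral `0` over a period, and
`‖F'‖ = ‖-iȳā + i(1-ω) b̄‖ ≤ 0.8887 ‖a‖ + (ω-1) ‖b‖` (`ω ≥ 1`).  Let `B = max ‖b‖` (periodic,
continuous), `L = 0.8887 √(1+B²) + (ω-1) B`.  `‖F τ₀‖ = ‖(1/T) ∫_{-T/2}^{T/2} (F τ₀ - F (τ₀+σ)) dσ‖
≤ (1/T) ∫ L |σ| dσ = L T / 4`.  So `B ≤ (T/4) (0.8887 √(1+B²)) + (π/12 - T/4) B`, and with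
`√3/2 ≤ T`, `3T ≤ 2√3·0.902` (`T/4 ≤ 0.26013`): `B ≤ 0.2317 √(1+B²)`, `B ≤ 0.24`. -/

set_option autoImplicit false

namespace Pool.H61.Rh

open Complex Finset MeasureTheory

/-- a periodic Lipschitz function with mean zero is small -/
private lemma F2c_mean {T L : ℝ} (hT : 0 < T) (F : ℝ → ℂ) (hc : Continuous F)
    (hper : Function.Periodic F T) (hint : ∫ τ in (0 : ℝ)..T, F τ = 0)
    (hL : ∀ s t, ‖F s - F t‖ ≤ L * |s - t|) (τ₀ : ℝ) : ‖F τ₀‖ ≤ L * T / 4 := by
  have h1 : ∫ s in (τ₀ - T / 2)..(τ₀ + T / 2), F s = 0 := by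
    have := hper.intervalIntegral_add_eq (τ₀ - T / 2) 0
    rw [zero_add, hint] at this
    rw [← this]
    congr 1
    ring
  have h2 : ∫ s in (τ₀ - T / 2)..(τ₀ + T / 2), (F τ₀ - F s) = (T : ℂ) * F τ₀ := by
    rw [intervalIntegral.integral_sub (by simp) (hc.intervalIntegrable _ _), h1,
      intervalIntegral.integral_const, sub_zero]
    rw [show τ₀ + T / 2 - (τ₀ - T / 2) = T by ring, real_smul]
  have hcg : Continuous (fun s => F τ₀ - F s) := continuous_const.sub hc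
  have h3 : ∫ s in (τ₀ - T / 2)..(τ₀ + T / 2), (F τ₀ - F s)
      = (∫ s in (τ₀ - T / 2)..τ₀, (F τ₀ - F s)) + ∫ s in τ₀..(τ₀ + T / 2), (F τ₀ - F s) := by
    rw [intervalIntegral.integral_add_adjacent_intervals (hcg.intervalIntegrable _ _)
      (hcg.intervalIntegrable _ _)]
  have h4 : ‖∫ s in (τ₀ - T / 2)..τ₀, (F τ₀ - F s)‖ ≤ L * T ^ 2 / 8 := by
    have hb : ‖∫ s in (τ₀ - T / 2)..τ₀, (F τ₀ - F s)‖
        ≤ ∫ s in (τ₀ - T / 2)..τ₀, L * (τ₀ - s) := by
      refine intervalIntegral.norm_integral_le_of_norm_le (by linarith) ?_ ?_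
      · refine Filter.Eventually.of_forall (fun s hs => ?_)
        have := hL τ₀ s
        rwa [abs_of_nonneg (by linarith [hs.2])] at this
      · exact (by fun_prop : Continuous fun s : ℝ => L * (τ₀ - s)).intervalIntegrable _ _
    refine hb.trans (le_of_eq ?_)
    rw [intervalIntegral.integral_const_mul, intervalIntegral.integral_sub (by simp) (by simp),
      intervalIntegral.integral_const, integral_id, smul_eq_mul]
    ring
  have h5 : ‖∫ s in τ₀..(τ₀ + T / 2), (F τ₀ - F s)‖ ≤ L * T ^ 2 / 8 := by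
    have hb : ‖∫ s in τ₀..(τ₀ + T / 2), (F τ₀ - F s)‖
        ≤ ∫ s in τ₀..(τ₀ + T / 2), L * (s - τ₀) := by
      refine intervalIntegral.norm_integral_le_of_norm_le (by linarith) ?_ ?_
      · refine Filter.Eventually.of_forall (fun s hs => ?_)
        have := hL τ₀ s
        rwa [abs_sub_comm, abs_of_nonneg (by linarith [hs.1])] at this
      · exact (by fun_prop : Continuous fun s : ℝ => L * (s - τ₀)).intervalIntegrable _ _
    refine hb.trans (le_of_eq ?_)
    rw [intervalIntegral.integral_const_mul, intervalIntegral.integral_sub (by simp) (by simp),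
      intervalIntegral.integral_const, integral_id, smul_eq_mul]
    ring
  have h6 : T * ‖F τ₀‖ ≤ L * T ^ 2 / 4 := by
    have : T * ‖F τ₀‖ = ‖(T : ℂ) * F τ₀‖ := by
      rw [norm_mul, norm_real, Real.norm_of_nonneg hT.le]
    rw [this, ← h2, h3]
    refine (norm_add_le _ _).trans ?_
    linarith
  have h7 : T * ‖F τ₀‖ ≤ T * (L * T / 4) := by
    refine h6.trans (le_of_eq ?_); ring
  exact le_of_mul_le_mul_left h7 hT

private lemma F2c_real {T B A : ℝ} (hT0 : 0 < T)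
    (hT : 3 * T < 2 * s3 * (9025 / 10000)) (hB : 0 ≤ B) (hA : 0 ≤ A) (hAB : A ^ 2 = 1 + B ^ 2)
    (h : B ≤ (8887 / 10000 * A + (Real.pi / (3 * T) - 1) * B) * T / 4) : B ≤ 13 / 50 := by
  have hpi := Real.pi_lt_d4
  have hs := s3_lt
  have h1 : (8887 / 10000 * A + (Real.pi / (3 * T) - 1) * B) * T / 4
      = T / 4 * (8887 / 10000 * A - B) + Real.pi / 12 * B := by
    field_simp
    ring
  rw [h1] at h
  have hx : T / 4 ≤ 2606 / 10000 := by linarith
  have h2 : B * (7382 / 10000) ≤ T / 4 * (8887 / 10000 * A - B) := by nlinarith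
  have h3 : 0 ≤ 8887 / 10000 * A - B := by
    by_contra hneg
    push Not at hneg
    have : T / 4 * (8887 / 10000 * A - B) < 0 := mul_neg_of_pos_of_neg (by linarith) hneg
    nlinarith
  have h4 : B * (7382 / 10000) ≤ 2606 / 10000 * (8887 / 10000 * A - B) :=
    h2.trans (mul_le_mul_of_nonneg_right hx h3)
  have h5 : B ≤ 2320 / 10000 * A := by linarith
  have h6 : B ^ 2 ≤ (2320 / 10000) ^ 2 * (1 + B ^ 2) := by
    rw [← hAB, ← mul_pow]
    exact pow_le_pow_left₀ hB h5 2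
  nlinarith

theorem RS.b_small {T : ℝ} {a b y : ℝ → ℂ} (h : RS T a b y)
    (hz : ck T 0 (fun τ => (starRingEnd ℂ) (b τ)) = 0)
    (hT : 3 * T < 2 * s3 * (9025 / 10000)) (τ : ℝ) : ‖b τ‖ ≤ 13 / 50 := by
  have hT0 := h.Tpos
  have hpi := Real.pi_pos
  have hs3 := s3_lt
  set ω : ℝ := Real.pi / (3 * T) with hω
  have hω1 : 1 ≤ ω := by
    rw [hω, le_div_iff₀ (by linarith)]
    have := Real.pi_gt_d4
    linarith
  have hbc : Continuous b := continuous_iff_continuousAt.mpr (fun τ => (h.hb τ).continuousAt)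
  have hac : Continuous a := continuous_iff_continuousAt.mpr (fun τ => (h.ha τ).continuousAt)
  have hnper : Function.Periodic (fun τ => ‖b τ‖) T := by
    intro τ
    show ‖b (τ + T)‖ = ‖b τ‖
    rw [h.pb, norm_mul, RCLike.norm_conj, norm_ze, one_mul]
  -- the maximum
  obtain ⟨τ₀, -, hmax⟩ := (isCompact_Icc (a := (0 : ℝ)) (b := T)).exists_isMaxOn
    ⟨0, by constructor <;> linarith⟩ (hbc.norm.continuousOn)
  have hmax' : ∀ τ, ‖b τ‖ ≤ ‖b τ₀‖ := by
    intro τ
    obtain ⟨s, hs, hs'⟩ := hnper.exists_mem_Ico₀ hT0 τ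
    have hs'' : ‖b τ‖ = ‖b s‖ := hs'
    rw [hs'']
    exact hmax (Set.Ico_subset_Icc_self hs)
  set B : ℝ := ‖b τ₀‖ with hB
  have hB0 : 0 ≤ B := norm_nonneg _
  refine (hmax' τ).trans ?_
  set A : ℝ := Real.sqrt (1 + B ^ 2) with hA
  have hA0 : 0 ≤ A := Real.sqrt_nonneg _
  have hA2 : A ^ 2 = 1 + B ^ 2 := Real.sq_sqrt (by positivity)
  have haA : ∀ τ, ‖a τ‖ ≤ A := by
    intro τ
    rw [hA]
    apply Real.le_sqrt_of_sq_le
    have h1 := h.hn τ
    rw [normSq_eq_norm_sq, normSq_eq_norm_sq] at h1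
    have h2 := pow_le_pow_left₀ (norm_nonneg _) (hmax' τ) 2
    linarith
  -- the periodic function
  set F : ℝ → ℂ := fun τ => exp (-(I * ((ω * τ : ℝ) : ℂ))) * (starRingEnd ℂ) (b τ) with hF
  have hE : ∀ τ : ℝ, ‖exp (-(I * ((ω * τ : ℝ) : ℂ)))‖ = 1 := by
    intro τ
    have : -(I * ((ω * τ : ℝ) : ℂ)) = ((-(ω * τ) : ℝ) : ℂ) * I := by push_cast; ring
    rw [this, norm_exp_ofReal_mul_I]
  have hEd : ∀ τ : ℝ, HasDerivAt (fun τ : ℝ => exp (-(I * ((ω * τ : ℝ) : ℂ))))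
      (exp (-(I * ((ω * τ : ℝ) : ℂ))) * (-(I * ω))) τ := by
    intro τ
    have h1 : HasDerivAt (fun τ : ℝ => ((ω * τ : ℝ) : ℂ)) (ω : ℂ) τ := by
      have := ((hasDerivAt_id τ).const_mul ω).ofReal_comp
      simpa using this
    exact ((h1.const_mul I).neg).cexp
  have hFd : ∀ τ, HasDerivAt F (exp (-(I * ((ω * τ : ℝ) : ℂ))) *
      (-I * (starRingEnd ℂ) (y τ) * (starRingEnd ℂ) (a τ)
        + I * ((1 - ω : ℝ) : ℂ) * (starRingEnd ℂ) (b τ))) τ := by
    intro τ
    have h1 : HasDerivAt (fun τ => (starRingEnd ℂ) (b τ))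
        ((starRingEnd ℂ) (I * (y τ * a τ - b τ))) τ := (h.hb τ).star
    have h2 := (hEd τ).mul h1
    refine h2.congr_deriv ?_
    simp only [map_mul, map_sub, conj_I]
    push_cast
    ring
  have hFc : Continuous F := continuous_iff_continuousAt.mpr (fun τ => (hFd τ).continuousAt)
  set L : ℝ := 8887 / 10000 * A + (ω - 1) * B with hL
  have hFL : ∀ s t, ‖F s - F t‖ ≤ L * |s - t| := by
    intro s t
    have := Convex.norm_image_sub_le_of_norm_hasDerivWithin_le (f := F) (C := L) (s := Set.univ)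
      (x := t) (y := s) (fun x _ => (hFd x).hasDerivWithinAt) (fun x _ => ?_) convex_univ
      (Set.mem_univ _) (Set.mem_univ _)
    · simpa [Real.norm_eq_abs] using this
    · rw [norm_mul, hE, one_mul]
      refine (norm_add_le _ _).trans ?_
      rw [norm_mul, norm_mul, norm_mul, norm_mul, norm_neg, norm_I, one_mul, one_mul,
        RCLike.norm_conj, RCLike.norm_conj, RCLike.norm_conj, norm_real, Real.norm_eq_abs,
        abs_sub_comm, abs_of_nonneg (by linarith : (0 : ℝ) ≤ ω - 1), hL]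
      have h1 := dom_norm (h.dom x)
      have h2 := haA x
      have h3 := hmax' x
      have h4 := mul_le_mul h1 h2 (norm_nonneg _) (by norm_num)
      have h5 := mul_le_mul_of_nonneg_left h3 (by linarith : (0 : ℝ) ≤ ω - 1)
      linarith
  have hET : exp (-(I * ((ω * T : ℝ) : ℂ))) = (starRingEnd ℂ) ze := by
    rw [ze_eq_exp, ← exp_conj, map_mul, conj_I, conj_ofReal]
    congr 1
    have : ω * T = Real.pi / 3 := by
      rw [hω]; field_simp
    rw [this]; ring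
  have hFper : Function.Periodic F T := by
    intro τ
    show exp (-(I * ((ω * (τ + T) : ℝ) : ℂ))) * (starRingEnd ℂ) (b (τ + T))
      = exp (-(I * ((ω * τ : ℝ) : ℂ))) * (starRingEnd ℂ) (b τ)
    rw [h.pb, map_mul, conj_conj]
    have : -(I * ((ω * (τ + T) : ℝ) : ℂ))
        = -(I * ((ω * τ : ℝ) : ℂ)) + -(I * ((ω * T : ℝ) : ℂ)) := by push_cast; ring
    rw [this, exp_add, hET]
    have hz := ze_mul_conj
    linear_combination (exp (-(I * ((ω * τ : ℝ) : ℂ))) * (starRingEnd ℂ) (b τ)) * hz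
  have hFint : ∫ τ in (0 : ℝ)..T, F τ = 0 := by
    unfold ck at hz
    have h1 : (1 / (T : ℂ)) ≠ 0 := by
      have : (T : ℂ) ≠ 0 := by exact_mod_cast hT0.ne'
      exact one_div_ne_zero this
    have h2 := (mul_eq_zero.mp hz).resolve_left h1
    rw [← h2]
    refine intervalIntegral.integral_congr (fun τ _ => ?_)
    simp only [hF, hω]
    congr 4
    push_cast
    ring
  have hmain := F2c_mean hT0 F hFc hFper hFint hFL τ₀
  have hF0 : ‖F τ₀‖ = B := by
    rw [hF]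
    show ‖exp (-(I * ((ω * τ₀ : ℝ) : ℂ))) * (starRingEnd ℂ) (b τ₀)‖ = B
    rw [norm_mul, hE, one_mul, RCLike.norm_conj]
  rw [hF0] at hmain
  exact F2c_real hT0 hT hB0 hA0 hA2 hmain

end Pool.H61.Rh
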