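import Pool.Agent.H61.Rh.Basic

/-! # F3: quadratic identities (pure algebra; `Complex.ext_iff`, `normSq_apply`, `ring` / `linear_combination`) -/

set_option autoImplicit false

namespace Pool.H61.Rh

open Complex Finset

theorem idents (a b y v a1 b1 a2 b2 : ℂ) (hn : normSq a - normSq b = 1)
    (ha1 : a1 = I * (a - (starRingEnd ℂ) y * b)) (hb1 : b1 = I * (y * a - b))
    (ha2 : a2 = I * (a1 - ((starRingEnd ℂ) v * b + (starRingEnd ℂ) y * b1)))
    (hb2 : b2 = I * ((v * a + y * a1) - b1)) :
    cr a a1 + cr b b1 = 1 ∧ normSq a1 - normSq b1 = 1 - normSq y ∧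
    cr a1 a2 + cr b1 b2 = (1 - normSq y) + cr y v ∧
    normSq a2 - normSq b2 = (1 - normSq y) ^ 2 - normSq v ∧
    a2 + a = normSq y * a - I * (starRingEnd ℂ) v * b := by
  have hy : y * (starRingEnd ℂ) y = (normSq y : ℂ) := mul_conj y
  have e2 : a2 = ((normSq y : ℂ) - 1) * a - I * (starRingEnd ℂ) v * b := by
    rw [ha2, hb1, ha1, ← hy]
    linear_combination (a - (starRingEnd ℂ) y * (y * a)) * I_mul_I
  have f2 : b2 = ((normSq y : ℂ) - 1) * b + I * v * a := by
    rw [hb2, hb1, ha1, ← hy]
    linear_combination (b - y * ((starRingEnd ℂ) y * b)) * I_mul_I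
  have hn' : a.re * a.re + a.im * a.im - (b.re * b.re + b.im * b.im) = 1 := by
    rw [normSq_apply, normSq_apply] at hn
    exact hn
  have a1r : a1.re = -(a.im - (y.re * b.im - y.im * b.re)) := by
    rw [ha1]
    simp only [mul_re, mul_im, sub_re, sub_im, conj_re, conj_im, I_re, I_im]
    ring
  have a1i : a1.im = a.re - (y.re * b.re + y.im * b.im) := by
    rw [ha1]
    simp only [mul_re, mul_im, sub_re, sub_im, conj_re, conj_im, I_re, I_im]
    ring
  have b1r : b1.re = -(y.re * a.im + y.im * a.re - b.im) := by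
    rw [hb1]
    simp only [mul_re, mul_im, sub_re, sub_im, I_re, I_im]
    ring
  have b1i : b1.im = y.re * a.re - y.im * a.im - b.re := by
    rw [hb1]
    simp only [mul_re, mul_im, sub_re, sub_im, I_re, I_im]
    ring
  have a2r : a2.re = (y.re * y.re + y.im * y.im - 1) * a.re + (v.re * b.im - v.im * b.re) := by
    rw [e2]
    simp only [mul_re, mul_im, sub_re, sub_im, conj_re, conj_im, I_re, I_im, ofReal_re,
      ofReal_im, one_re, one_im, normSq_apply]
    ring
  have a2i : a2.im = (y.re * y.re + y.im * y.im - 1) * a.im - (v.re * b.re + v.im * b.im) := by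
    rw [e2]
    simp only [mul_re, mul_im, sub_re, sub_im, conj_re, conj_im, I_re, I_im, ofReal_re,
      ofReal_im, one_re, one_im, normSq_apply]
    ring
  have b2r : b2.re = (y.re * y.re + y.im * y.im - 1) * b.re - (v.re * a.im + v.im * a.re) := by
    rw [f2]
    simp only [mul_re, mul_im, add_re, sub_re, sub_im, I_re, I_im, ofReal_re,
      ofReal_im, one_re, one_im, normSq_apply]
    ring
  have b2i : b2.im = (y.re * y.re + y.im * y.im - 1) * b.im + (v.re * a.re - v.im * a.im) := by
    rw [f2]
    simp only [mul_re, mul_im, add_im, sub_re, sub_im, I_re, I_im, ofReal_re,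
      ofReal_im, one_re, one_im, normSq_apply]
    ring
  refine ⟨?_, ?_, ?_, ?_, ?_⟩
  · unfold cr
    rw [a1r, a1i, b1r, b1i]
    linear_combination hn'
  · simp only [normSq_apply]
    rw [a1r, a1i, b1r, b1i]
    linear_combination (1 - (y.re * y.re + y.im * y.im)) * hn'
  · unfold cr
    simp only [normSq_apply]
    rw [a1r, a1i, b1r, b1i, a2r, a2i, b2r, b2i]
    linear_combination (1 - (y.re * y.re + y.im * y.im) + (y.re * v.im - y.im * v.re)) * hn'
  · simp only [normSq_apply]
    rw [a2r, a2i, b2r, b2i]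
    linear_combination ((1 - (y.re * y.re + y.im * y.im)) ^ 2 - (v.re * v.re + v.im * v.im)) * hn'
  · rw [e2]
    ring

end Pool.H61.Rh
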