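import Mathlib

/-! # F5: the certificate, positivity of the symbols at the integers `6k+1`

`q(x) = 107/100000 x² + 1818/100000 x - 124/10000`, `P(x) = (x-1)² q(x) - (x-1)`.
Both inequalities are strict with small margins for `k = 1, -2` (first) and `k = -1, 3` (second);
for large `|k|` they are clear (leading coefficients `36·0.00107·36 k⁴`, and
`0.0015 ≥ 0.00107`).  `k = m` or `k = -m`, small values by `norm_num`, the rest by `nlinarith`. -/

set_option autoImplicit false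

namespace Pool.H61.Rh

theorem cert1 (k : ℤ) (hk : k ≠ 0) :
    (2 / 100 : ℝ) ≤ (6 * (k : ℝ)) ^ 2 * (107 / 100000 * (6 * (k : ℝ) + 1) ^ 2
      + 1818 / 100000 * (6 * (k : ℝ) + 1) - 124 / 10000) - 6 * (k : ℝ) := by
  have hcases : k ≤ -3 ∨ k = -2 ∨ k = -1 ∨ k = 1 ∨ 2 ≤ k := by omega
  rcases hcases with h | h | h | h | h
  · have h1 : (k : ℝ) ≤ -3 := by exact_mod_cast h
    obtain ⟨m, hm⟩ : ∃ m : ℝ, m = -3 - (k : ℝ) := ⟨_, rfl⟩
    have hm0 : 0 ≤ m := by linarith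
    have hk' : (k : ℝ) = -3 - m := by linarith
    rw [hk']
    nlinarith [pow_nonneg hm0 2, pow_nonneg hm0 3, pow_nonneg hm0 4]
  · subst h; norm_num
  · subst h; norm_num
  · subst h; norm_num
  · have h1 : (2 : ℝ) ≤ (k : ℝ) := by exact_mod_cast h
    obtain ⟨m, hm⟩ : ∃ m : ℝ, m = (k : ℝ) - 2 := ⟨_, rfl⟩
    have hm0 : 0 ≤ m := by linarith
    have hk' : (k : ℝ) = m + 2 := by linarith
    rw [hk']
    nlinarith [pow_nonneg hm0 2, pow_nonneg hm0 3, pow_nonneg hm0 4]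

theorem cert2 (k : ℤ) :
    (6 * (k : ℝ)) ^ 2 * (107 / 100000 * (6 * (k : ℝ) + 1) ^ 2
      + 1818 / 100000 * (6 * (k : ℝ) + 1) - 124 / 10000) - 6 * (k : ℝ) ≤
    67 / 1000 * (6 * (k : ℝ)) ^ 2 + 15 / 10000 * ((6 * (k : ℝ) + 1) ^ 2 - 1) ^ 2 := by
  have hcases : k ≤ -2 ∨ k = -1 ∨ k = 0 ∨ k = 1 ∨ k = 2 ∨ k = 3 ∨ 4 ≤ k := by omega
  rcases hcases with h | h | h | h | h | h | h
  · have h1 : (k : ℝ) ≤ -2 := by exact_mod_cast h
    obtain ⟨m, hm⟩ : ∃ m : ℝ, m = -2 - (k : ℝ) := ⟨_, rfl⟩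
    have hm0 : 0 ≤ m := by linarith
    have hk' : (k : ℝ) = -2 - m := by linarith
    rw [hk']
    nlinarith [pow_nonneg hm0 2, pow_nonneg hm0 3, pow_nonneg hm0 4]
  · subst h; norm_num
  · subst h; norm_num
  · subst h; norm_num
  · subst h; norm_num
  · subst h; norm_num
  · have h1 : (4 : ℝ) ≤ (k : ℝ) := by exact_mod_cast h
    obtain ⟨m, hm⟩ : ∃ m : ℝ, m = (k : ℝ) - 4 := ⟨_, rfl⟩
    have hm0 : 0 ≤ m := by linarith
    have hk' : (k : ℝ) = m + 4 := by linarith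
    rw [hk']
    nlinarith [pow_nonneg hm0 2, pow_nonneg hm0 3, pow_nonneg hm0 4]

end Pool.H61.Rh
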