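import Mathlib

/-! # F6a: the pointwise inequality in real variables

`w = 1 - ρ`, `ny = 4w⁴h² - 2w³(h-1) + w²ρ`, `im = w²(h-1) - wρ`.
`Psi` is affine in `B`, convex in `s` and convex in `h`, so it is enough to check the corners;
there the inequality is a polynomial inequality in `r`, proved by its Bernstein expansion. -/

set_option autoImplicit false

namespace Pool.H61.Rh

noncomputable def Psi (s ρ h B : ℝ) : ℝ :=
  67 / 1000 * (3 * (1 - s) ^ 2 * (1 + B) + 2 * ρ * B)
  + 15 / 10000 * (2 * ρ ^ 2 * (1 + B)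
      + 2 * (4 * (1 - ρ) ^ 4 * h ^ 2 - 2 * (1 - ρ) ^ 3 * (h - 1) + (1 - ρ) ^ 2 * ρ) * B)
  - 2 / 100 * B
  + (-(4769 / 100000) + 1604 / 100000 * s + 2 * (107 / 100000) * s ^ 2) * ρ
  - 107 / 100000 * s ^ 2 * ρ ^ 2
  + 107 / 100000 * s ^ 2 * (4 * (1 - ρ) ^ 4 * h ^ 2 - 2 * (1 - ρ) ^ 3 * (h - 1) + (1 - ρ) ^ 2 * ρ)
  - 1604 / 100000 * s * ((1 - ρ) ^ 2 * (h - 1) - (1 - ρ) * ρ)
  - (1 - s)

/-- coefficient of `h ^ 0` -/
noncomputable def F6a_al (s B r : ℝ) : ℝ :=
  67 / 1000 * (3 * (1 - s) ^ 2 * (1 + B) + 2 * r ^ 2 * B) + 15 / 10000 * (2 * (r ^ 2) ^ 2 * (1 + B))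
  - 2 / 100 * B
  + (-(4769 / 100000) + 1604 / 100000 * s + 2 * (107 / 100000) * s ^ 2) * r ^ 2
  - 107 / 100000 * s ^ 2 * (r ^ 2) ^ 2 - (1 - s) + 3 / 10000
  + (3 / 1000 * B + 107 / 100000 * s ^ 2) * (2 * (1 - r ^ 2) ^ 3 + (1 - r ^ 2) ^ 2 * r ^ 2)
  + 1604 / 100000 * s * ((1 - r ^ 2) ^ 2 + (1 - r ^ 2) * r ^ 2)

/-- coefficient of `h ^ 1` -/
noncomputable def F6a_be (s B r : ℝ) : ℝ :=
  -(2 * (3 / 1000 * B + 107 / 100000 * s ^ 2) * (1 - r ^ 2) ^ 3)
  - 1604 / 100000 * s * (1 - r ^ 2) ^ 2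

/-- coefficient of `h ^ 2` -/
noncomputable def F6a_ga (s B r : ℝ) : ℝ :=
  4 * (3 / 1000 * B + 107 / 100000 * s ^ 2) * (1 - r ^ 2) ^ 4

theorem F6a_psi (s B r h : ℝ) : Psi s (r ^ 2) h B + 3 / 10000 =
    F6a_al s B r + F6a_be s B r * h + F6a_ga s B r * h ^ 2 := by
  unfold Psi F6a_al F6a_be F6a_ga
  ring

/-- a convex quadratic polynomial is at most `0` between two such points -/
theorem F6a_conv {a b c x x1 x2 : ℝ} (ha : 0 ≤ a) (h1 : x1 ≤ x) (h2 : x ≤ x2)
    (e1 : c + b * x1 + a * x1 ^ 2 ≤ 0) (e2 : c + b * x2 + a * x2 ^ 2 ≤ 0) :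
    c + b * x + a * x ^ 2 ≤ 0 := by
  rcases eq_or_lt_of_le (h1.trans h2) with h | h
  · have hx : x = x1 := le_antisymm (by linarith) h1
    rw [hx]
    exact e1
  · have hd : 0 < x2 - x1 := by linarith
    have k1 : 0 ≤ x2 - x := by linarith
    have k2 : 0 ≤ x - x1 := by linarith
    have key : (c + b * x + a * x ^ 2) * (x2 - x1) =
        (c + b * x1 + a * x1 ^ 2) * (x2 - x) + (c + b * x2 + a * x2 ^ 2) * (x - x1)
          - a * ((x2 - x) * (x - x1) * (x2 - x1)) := by ring
    have t1 : (c + b * x1 + a * x1 ^ 2) * (x2 - x) ≤ 0 := mul_nonpos_of_nonpos_of_nonneg e1 k1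
    have t2 : (c + b * x2 + a * x2 ^ 2) * (x - x1) ≤ 0 := mul_nonpos_of_nonpos_of_nonneg e2 k2
    have t3 : 0 ≤ a * ((x2 - x) * (x - x1) * (x2 - x1)) := by positivity
    have t4 : (c + b * x + a * x ^ 2) * (x2 - x1) ≤ 0 := by rw [key]; linarith
    by_contra hc
    push Not at hc
    have := mul_pos hc hd
    linarith

theorem F6a_p1_00_0 (r : ℝ) (h1 : 0 ≤ r) (h2 : r ≤ (89/100)) :
    F6a_al (41/50) 0 r * (1 + 2 * r) ^ 2 + F6a_be (41/50) 0 r * (1 + 2 * r) + F6a_ga (41/50) 0 r ≤ 0 := by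
  have e1 : 0 ≤ r - 0 := by linarith
  have e2 : 0 ≤ (89/100) - r := by linarith
  have key : F6a_al (41/50) 0 r * (1 + 2 * r) ^ 2 + F6a_be (41/50) 0 r * (1 + 2 * r) + F6a_ga (41/50) 0 r =
    -((1703097280000000/3936588805702081) * ((r - 0) ^ 0 * ((89/100) - r) ^ 8) +
      (19530523899200000/3936588805702081) * ((r - 0) ^ 1 * ((89/100) - r) ^ 7) +
      (94295366420140000/3936588805702081) * ((r - 0) ^ 2 * ((89/100) - r) ^ 6) +
      (251978550531512000/3936588805702081) * ((r - 0) ^ 3 * ((89/100) - r) ^ 5) +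
      (2055168641140177354/19682944028510405) * ((r - 0) ^ 4 * ((89/100) - r) ^ 4) +
      (2110708652643377488/19682944028510405) * ((r - 0) ^ 5 * ((89/100) - r) ^ 3) +
      (6699579959579542546561/98414720142552025000) * ((r - 0) ^ 6 * ((89/100) - r) ^ 2) +
      (1205833436266984926561/49207360071276012500) * ((r - 0) ^ 7 * ((89/100) - r) ^ 1) +
      (377552238734727976561/98414720142552025000) * ((r - 0) ^ 8 * ((89/100) - r) ^ 0)) := by
    unfold F6a_al F6a_be F6a_ga
    ring
  rw [key]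
  have : 0 ≤ (1703097280000000/3936588805702081) * ((r - 0) ^ 0 * ((89/100) - r) ^ 8) +
      (19530523899200000/3936588805702081) * ((r - 0) ^ 1 * ((89/100) - r) ^ 7) +
      (94295366420140000/3936588805702081) * ((r - 0) ^ 2 * ((89/100) - r) ^ 6) +
      (251978550531512000/3936588805702081) * ((r - 0) ^ 3 * ((89/100) - r) ^ 5) +
      (2055168641140177354/19682944028510405) * ((r - 0) ^ 4 * ((89/100) - r) ^ 4) +
      (2110708652643377488/19682944028510405) * ((r - 0) ^ 5 * ((89/100) - r) ^ 3) +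
      (6699579959579542546561/98414720142552025000) * ((r - 0) ^ 6 * ((89/100) - r) ^ 2) +
      (1205833436266984926561/49207360071276012500) * ((r - 0) ^ 7 * ((89/100) - r) ^ 1) +
      (377552238734727976561/98414720142552025000) * ((r - 0) ^ 8 * ((89/100) - r) ^ 0) := by positivity
  linarith

theorem F6a_p1_00 (r : ℝ) (h1 : 0 ≤ r) (h2 : r ≤ (89/100)) :
    F6a_al (41/50) 0 r * (1 + 2 * r) ^ 2 + F6a_be (41/50) 0 r * (1 + 2 * r) + F6a_ga (41/50) 0 r ≤ 0 := by
  exact F6a_p1_00_0 r h1 h2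

theorem F6a_p2_00_0 (r : ℝ) (h1 : 0 ≤ r) (h2 : r ≤ (39/100)) :
    F6a_al (41/50) 0 r * (1 - 2 * r) ^ 2 + F6a_be (41/50) 0 r * (1 - 2 * r) + F6a_ga (41/50) 0 r ≤ 0 := by
  have e1 : 0 ≤ r - 0 := by linarith
  have e2 : 0 ≤ (39/100) - r := by linarith
  have key : F6a_al (41/50) 0 r * (1 - 2 * r) ^ 2 + F6a_be (41/50) 0 r * (1 - 2 * r) + F6a_ga (41/50) 0 r =
    -((1703097280000000/5352009260481) * ((r - 0) ^ 0 * ((39/100) - r) ^ 8) +
      (11036867220800000/5352009260481) * ((r - 0) ^ 1 * ((39/100) - r) ^ 7) +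
      (30582995655340000/5352009260481) * ((r - 0) ^ 2 * ((39/100) - r) ^ 6) +
      (47015261488568000/5352009260481) * ((r - 0) ^ 3 * ((39/100) - r) ^ 5) +
      (217249488647710154/26760046302405) * ((r - 0) ^ 4 * ((39/100) - r) ^ 4) +
      (121943466899934544/26760046302405) * ((r - 0) ^ 5 * ((39/100) - r) ^ 3) +
      (199037882863582719361/133800231512025000) * ((r - 0) ^ 6 * ((39/100) - r) ^ 2) +
      (16811444886175179361/66900115756012500) * ((r - 0) ^ 7 * ((39/100) - r) ^ 1) +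
      (2205792520589589361/133800231512025000) * ((r - 0) ^ 8 * ((39/100) - r) ^ 0)) := by
    unfold F6a_al F6a_be F6a_ga
    ring
  rw [key]
  have : 0 ≤ (1703097280000000/5352009260481) * ((r - 0) ^ 0 * ((39/100) - r) ^ 8) +
      (11036867220800000/5352009260481) * ((r - 0) ^ 1 * ((39/100) - r) ^ 7) +
      (30582995655340000/5352009260481) * ((r - 0) ^ 2 * ((39/100) - r) ^ 6) +
      (47015261488568000/5352009260481) * ((r - 0) ^ 3 * ((39/100) - r) ^ 5) +
      (217249488647710154/26760046302405) * ((r - 0) ^ 4 * ((39/100) - r) ^ 4) +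
      (121943466899934544/26760046302405) * ((r - 0) ^ 5 * ((39/100) - r) ^ 3) +
      (199037882863582719361/133800231512025000) * ((r - 0) ^ 6 * ((39/100) - r) ^ 2) +
      (16811444886175179361/66900115756012500) * ((r - 0) ^ 7 * ((39/100) - r) ^ 1) +
      (2205792520589589361/133800231512025000) * ((r - 0) ^ 8 * ((39/100) - r) ^ 0) := by positivity
  linarith

theorem F6a_p2_00 (r : ℝ) (h1 : 0 ≤ r) (h2 : r ≤ (39/100)) :
    F6a_al (41/50) 0 r * (1 - 2 * r) ^ 2 + F6a_be (41/50) 0 r * (1 - 2 * r) + F6a_ga (41/50) 0 r ≤ 0 := by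
  exact F6a_p2_00_0 r h1 h2

theorem F6a_p3_00_0 (r : ℝ) (h1 : (97/250) ≤ r) (h2 : r ≤ (89/100)) :
    (179867/3687500) * (1 - r ^ 2) ^ 3 + 446 / 100 * F6a_be (41/50) 0 r + F6a_al (41/50) 0 r ≤ 0 := by
  have e1 : 0 ≤ r - (97/250) := by linarith
  have e2 : 0 ≤ (89/100) - r := by linarith
  have key : (179867/3687500) * (1 - r ^ 2) ^ 3 + 446 / 100 * F6a_be (41/50) 0 r + F6a_al (41/50) 0 r =
    -((8208205847371907807175937/720384547077688427734375) * ((r - (97/250)) ^ 0 * ((89/100) - r) ^ 6) +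
      (9991463554464028327546007/144076909415537685546875) * ((r - (97/250)) ^ 1 * ((89/100) - r) ^ 5) +
      (4056060092939916146590759/23052305506486029687500) * ((r - (97/250)) ^ 2 * ((89/100) - r) ^ 4) +
      (547951285522348392611361/2305230550648602968750) * ((r - (97/250)) ^ 3 * ((89/100) - r) ^ 3) +
      (664119870714384929478571/3688368881037764750000) * ((r - (97/250)) ^ 4 * ((89/100) - r) ^ 2) +
      (267937634505856724758127/3688368881037764750000) * ((r - (97/250)) ^ 5 * ((89/100) - r) ^ 1) +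
      (36387640944343041405733/2950695104830211800000) * ((r - (97/250)) ^ 6 * ((89/100) - r) ^ 0)) := by
    unfold F6a_al F6a_be
    ring
  rw [key]
  have : 0 ≤ (8208205847371907807175937/720384547077688427734375) * ((r - (97/250)) ^ 0 * ((89/100) - r) ^ 6) +
      (9991463554464028327546007/144076909415537685546875) * ((r - (97/250)) ^ 1 * ((89/100) - r) ^ 5) +
      (4056060092939916146590759/23052305506486029687500) * ((r - (97/250)) ^ 2 * ((89/100) - r) ^ 4) +
      (547951285522348392611361/2305230550648602968750) * ((r - (97/250)) ^ 3 * ((89/100) - r) ^ 3) +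
      (664119870714384929478571/3688368881037764750000) * ((r - (97/250)) ^ 4 * ((89/100) - r) ^ 2) +
      (267937634505856724758127/3688368881037764750000) * ((r - (97/250)) ^ 5 * ((89/100) - r) ^ 1) +
      (36387640944343041405733/2950695104830211800000) * ((r - (97/250)) ^ 6 * ((89/100) - r) ^ 0) := by positivity
  linarith

theorem F6a_p3_00 (r : ℝ) (h1 : (97/250) ≤ r) (h2 : r ≤ (89/100)) :
    (179867/3687500) * (1 - r ^ 2) ^ 3 + 446 / 100 * F6a_be (41/50) 0 r + F6a_al (41/50) 0 r ≤ 0 := by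
  exact F6a_p3_00_0 r h1 h2

theorem F6a_p1_01_0 (r : ℝ) (h1 : 0 ≤ r) (h2 : r ≤ (89/100)) :
    F6a_al (41/50) (169/2500) r * (1 + 2 * r) ^ 2 + F6a_be (41/50) (169/2500) r * (1 + 2 * r) + F6a_ga (41/50) (169/2500) r ≤ 0 := by
  have e1 : 0 ≤ r - 0 := by linarith
  have e2 : 0 ≤ (89/100) - r := by linarith
  have key : F6a_al (41/50) (169/2500) r * (1 + 2 * r) ^ 2 + F6a_be (41/50) (169/2500) r * (1 + 2 * r) + F6a_ga (41/50) (169/2500) r =
    -((1704102897600000/3936588805702081) * ((r - 0) ^ 0 * ((89/100) - r) ^ 8) +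
      (19563807878656000/3936588805702081) * ((r - 0) ^ 1 * ((89/100) - r) ^ 7) +
      (94468578308335840/3936588805702081) * ((r - 0) ^ 2 * ((89/100) - r) ^ 6) +
      (252131174647183040/3936588805702081) * ((r - 0) ^ 3 * ((89/100) - r) ^ 5) +
      (2050310307840604354/19682944028510405) * ((r - 0) ^ 4 * ((89/100) - r) ^ 4) +
      (419075376222813440/3936588805702081) * ((r - 0) ^ 5 * ((89/100) - r) ^ 3) +
      (6605199128608539613061/98414720142552025000) * ((r - 0) ^ 6 * ((89/100) - r) ^ 2) +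
      (1178497656712927153061/49207360071276012500) * ((r - 0) ^ 7 * ((89/100) - r) ^ 1) +
      (365186584182208923061/98414720142552025000) * ((r - 0) ^ 8 * ((89/100) - r) ^ 0)) := by
    unfold F6a_al F6a_be F6a_ga
    ring
  rw [key]
  have : 0 ≤ (1704102897600000/3936588805702081) * ((r - 0) ^ 0 * ((89/100) - r) ^ 8) +
      (19563807878656000/3936588805702081) * ((r - 0) ^ 1 * ((89/100) - r) ^ 7) +
      (94468578308335840/3936588805702081) * ((r - 0) ^ 2 * ((89/100) - r) ^ 6) +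
      (252131174647183040/3936588805702081) * ((r - 0) ^ 3 * ((89/100) - r) ^ 5) +
      (2050310307840604354/19682944028510405) * ((r - 0) ^ 4 * ((89/100) - r) ^ 4) +
      (419075376222813440/3936588805702081) * ((r - 0) ^ 5 * ((89/100) - r) ^ 3) +
      (6605199128608539613061/98414720142552025000) * ((r - 0) ^ 6 * ((89/100) - r) ^ 2) +
      (1178497656712927153061/49207360071276012500) * ((r - 0) ^ 7 * ((89/100) - r) ^ 1) +
      (365186584182208923061/98414720142552025000) * ((r - 0) ^ 8 * ((89/100) - r) ^ 0) := by positivity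
  linarith

theorem F6a_p1_01 (r : ℝ) (h1 : 0 ≤ r) (h2 : r ≤ (89/100)) :
    F6a_al (41/50) (169/2500) r * (1 + 2 * r) ^ 2 + F6a_be (41/50) (169/2500) r * (1 + 2 * r) + F6a_ga (41/50) (169/2500) r ≤ 0 := by
  exact F6a_p1_01_0 r h1 h2

theorem F6a_p2_01_0 (r : ℝ) (h1 : 0 ≤ r) (h2 : r ≤ (39/100)) :
    F6a_al (41/50) (169/2500) r * (1 - 2 * r) ^ 2 + F6a_be (41/50) (169/2500) r * (1 - 2 * r) + F6a_ga (41/50) (169/2500) r ≤ 0 := by
  have e1 : 0 ≤ r - 0 := by linarith
  have e2 : 0 ≤ (39/100) - r := by linarith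
  have key : F6a_al (41/50) (169/2500) r * (1 - 2 * r) ^ 2 + F6a_be (41/50) (169/2500) r * (1 - 2 * r) + F6a_ga (41/50) (169/2500) r =
    -((189344766400000/594667695609) * ((r - 0) ^ 0 * ((39/100) - r) ^ 8) +
      (3677950786048000/1784003086827) * ((r - 0) ^ 1 * ((39/100) - r) ^ 7) +
      (10175887622565280/1784003086827) * ((r - 0) ^ 2 * ((39/100) - r) ^ 6) +
      (578066944219840/66074188401) * ((r - 0) ^ 3 * ((39/100) - r) ^ 5) +
      (71893763176845718/8920015434135) * ((r - 0) ^ 4 * ((39/100) - r) ^ 4) +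
      (40179749265458944/8920015434135) * ((r - 0) ^ 5 * ((39/100) - r) ^ 3) +
      (21724776253975958429/14866692390225000) * ((r - 0) ^ 6 * ((39/100) - r) ^ 2) +
      (5450180501658975287/22300038585337500) * ((r - 0) ^ 7 * ((39/100) - r) ^ 1) +
      (701871639916205287/44600077170675000) * ((r - 0) ^ 8 * ((39/100) - r) ^ 0)) := by
    unfold F6a_al F6a_be F6a_ga
    ring
  rw [key]
  have : 0 ≤ (189344766400000/594667695609) * ((r - 0) ^ 0 * ((39/100) - r) ^ 8) +
      (3677950786048000/1784003086827) * ((r - 0) ^ 1 * ((39/100) - r) ^ 7) +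
      (10175887622565280/1784003086827) * ((r - 0) ^ 2 * ((39/100) - r) ^ 6) +
      (578066944219840/66074188401) * ((r - 0) ^ 3 * ((39/100) - r) ^ 5) +
      (71893763176845718/8920015434135) * ((r - 0) ^ 4 * ((39/100) - r) ^ 4) +
      (40179749265458944/8920015434135) * ((r - 0) ^ 5 * ((39/100) - r) ^ 3) +
      (21724776253975958429/14866692390225000) * ((r - 0) ^ 6 * ((39/100) - r) ^ 2) +
      (5450180501658975287/22300038585337500) * ((r - 0) ^ 7 * ((39/100) - r) ^ 1) +
      (701871639916205287/44600077170675000) * ((r - 0) ^ 8 * ((39/100) - r) ^ 0) := by positivity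
  linarith

theorem F6a_p2_01 (r : ℝ) (h1 : 0 ≤ r) (h2 : r ≤ (39/100)) :
    F6a_al (41/50) (169/2500) r * (1 - 2 * r) ^ 2 + F6a_be (41/50) (169/2500) r * (1 - 2 * r) + F6a_ga (41/50) (169/2500) r ≤ 0 := by
  exact F6a_p2_01_0 r h1 h2

theorem F6a_p3_01_0 (r : ℝ) (h1 : (97/250) ≤ r) (h2 : r ≤ (89/100)) :
    (230567/3687500) * (1 - r ^ 2) ^ 3 + 446 / 100 * F6a_be (41/50) (169/2500) r + F6a_al (41/50) (169/2500) r ≤ 0 := by
  have e1 : 0 ≤ r - (97/250) := by linarith
  have e2 : 0 ≤ (89/100) - r := by linarith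
  have key : (230567/3687500) * (1 - r ^ 2) ^ 3 + 446 / 100 * F6a_be (41/50) (169/2500) r + F6a_al (41/50) (169/2500) r =
    -((7846034367118496542023637/720384547077688427734375) * ((r - (97/250)) ^ 0 * ((89/100) - r) ^ 6) +
      (9618270161076957955090707/144076909415537685546875) * ((r - (97/250)) ^ 1 * ((89/100) - r) ^ 5) +
      (3930851424912933899094659/23052305506486029687500) * ((r - (97/250)) ^ 2 * ((89/100) - r) ^ 4) +
      (533616564607793704609461/2305230550648602968750) * ((r - (97/250)) ^ 3 * ((89/100) - r) ^ 3) +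
      (647653011592365088017671/3688368881037764750000) * ((r - (97/250)) ^ 4 * ((89/100) - r) ^ 2) +
      (260527576679023699054827/3688368881037764750000) * ((r - (97/250)) ^ 5 * ((89/100) - r) ^ 1) +
      (35187632625308640115033/2950695104830211800000) * ((r - (97/250)) ^ 6 * ((89/100) - r) ^ 0)) := by
    unfold F6a_al F6a_be
    ring
  rw [key]
  have : 0 ≤ (7846034367118496542023637/720384547077688427734375) * ((r - (97/250)) ^ 0 * ((89/100) - r) ^ 6) +
      (9618270161076957955090707/144076909415537685546875) * ((r - (97/250)) ^ 1 * ((89/100) - r) ^ 5) +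
      (3930851424912933899094659/23052305506486029687500) * ((r - (97/250)) ^ 2 * ((89/100) - r) ^ 4) +
      (533616564607793704609461/2305230550648602968750) * ((r - (97/250)) ^ 3 * ((89/100) - r) ^ 3) +
      (647653011592365088017671/3688368881037764750000) * ((r - (97/250)) ^ 4 * ((89/100) - r) ^ 2) +
      (260527576679023699054827/3688368881037764750000) * ((r - (97/250)) ^ 5 * ((89/100) - r) ^ 1) +
      (35187632625308640115033/2950695104830211800000) * ((r - (97/250)) ^ 6 * ((89/100) - r) ^ 0) := by positivity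
  linarith

theorem F6a_p3_01 (r : ℝ) (h1 : (97/250) ≤ r) (h2 : r ≤ (89/100)) :
    (230567/3687500) * (1 - r ^ 2) ^ 3 + 446 / 100 * F6a_be (41/50) (169/2500) r + F6a_al (41/50) (169/2500) r ≤ 0 := by
  exact F6a_p3_01_0 r h1 h2

theorem F6a_p1_10_0 (r : ℝ) (h1 : 0 ≤ r) (h2 : r ≤ (11/100)) :
    F6a_al (99361/100000) 0 r * (1 + 2 * r) ^ 2 + F6a_be (99361/100000) 0 r * (1 + 2 * r) + F6a_ga (99361/100000) 0 r ≤ 0 := by
  have e1 : 0 ≤ r - 0 := by linarith
  have e2 : 0 ≤ (11/100) - r := by linarith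
  have key : F6a_al (99361/100000) 0 r * (1 + 2 * r) ^ 2 + F6a_be (99361/100000) 0 r * (1 + 2 * r) + F6a_ga (99361/100000) 0 r =
    -((18563163865120/214358881) * ((r - 0) ^ 0 * ((11/100) - r) ^ 8) +
      (677773326670966/1071794405) * ((r - 0) ^ 1 * ((11/100) - r) ^ 7) +
      (85379324382247187/42871776200) * ((r - 0) ^ 2 * ((11/100) - r) ^ 6) +
      (75595943876182241/21435888100) * ((r - 0) ^ 3 * ((11/100) - r) ^ 5) +
      (8216239951252604716157/2143588810000000) * ((r - 0) ^ 4 * ((11/100) - r) ^ 4) +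
      (1399902804368841838157/535897202500000) * ((r - 0) ^ 5 * ((11/100) - r) ^ 3) +
      (23316368079077811302085001/21435888100000000000) * ((r - 0) ^ 6 * ((11/100) - r) ^ 2) +
      (2707258403994953335805001/10717944050000000000) * ((r - 0) ^ 7 * ((11/100) - r) ^ 1) +
      (537293223105689234235001/21435888100000000000) * ((r - 0) ^ 8 * ((11/100) - r) ^ 0)) := by
    unfold F6a_al F6a_be F6a_ga
    ring
  rw [key]
  have : 0 ≤ (18563163865120/214358881) * ((r - 0) ^ 0 * ((11/100) - r) ^ 8) +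
      (677773326670966/1071794405) * ((r - 0) ^ 1 * ((11/100) - r) ^ 7) +
      (85379324382247187/42871776200) * ((r - 0) ^ 2 * ((11/100) - r) ^ 6) +
      (75595943876182241/21435888100) * ((r - 0) ^ 3 * ((11/100) - r) ^ 5) +
      (8216239951252604716157/2143588810000000) * ((r - 0) ^ 4 * ((11/100) - r) ^ 4) +
      (1399902804368841838157/535897202500000) * ((r - 0) ^ 5 * ((11/100) - r) ^ 3) +
      (23316368079077811302085001/21435888100000000000) * ((r - 0) ^ 6 * ((11/100) - r) ^ 2) +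
      (2707258403994953335805001/10717944050000000000) * ((r - 0) ^ 7 * ((11/100) - r) ^ 1) +
      (537293223105689234235001/21435888100000000000) * ((r - 0) ^ 8 * ((11/100) - r) ^ 0) := by positivity
  linarith

theorem F6a_p1_10_1 (r : ℝ) (h1 : (11/100) ≤ r) (h2 : r ≤ (11/50)) :
    F6a_al (99361/100000) 0 r * (1 + 2 * r) ^ 2 + F6a_be (99361/100000) 0 r * (1 + 2 * r) + F6a_ga (99361/100000) 0 r ≤ 0 := by
  have e1 : 0 ≤ r - (11/100) := by linarith
  have e2 : 0 ≤ (11/50) - r := by linarith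
  have key : F6a_al (99361/100000) 0 r * (1 + 2 * r) ^ 2 + F6a_be (99361/100000) 0 r * (1 + 2 * r) + F6a_ga (99361/100000) 0 r =
    -((537293223105689234235001/21435888100000000000) * ((r - (11/100)) ^ 0 * ((11/50) - r) ^ 8) +
      (1591087380850560538075007/10717944050000000000) * ((r - (11/100)) ^ 1 * ((11/50) - r) ^ 7) +
      (1537994751011262426773017/4287177620000000000) * ((r - (11/100)) ^ 2 * ((11/50) - r) ^ 6) +
      (2422064213594169655195073/5358972025000000000) * ((r - (11/100)) ^ 3 * ((11/50) - r) ^ 5) +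
      (344353307542803215813531/1071794405000000000) * ((r - (11/100)) ^ 4 * ((11/50) - r) ^ 4) +
      (49651581521505862851263/334935751562500000) * ((r - (11/100)) ^ 5 * ((11/50) - r) ^ 3) +
      (95319566825870887680043/1339743006250000000) * ((r - (11/100)) ^ 6 * ((11/50) - r) ^ 2) +
      (2459586878484831386001/66987150312500000) * ((r - (11/100)) ^ 7 * ((11/50) - r) ^ 1) +
      (3058663067770641807501/334935751562500000) * ((r - (11/100)) ^ 8 * ((11/50) - r) ^ 0)) := by
    unfold F6a_al F6a_be F6a_ga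
    ring
  rw [key]
  have : 0 ≤ (537293223105689234235001/21435888100000000000) * ((r - (11/100)) ^ 0 * ((11/50) - r) ^ 8) +
      (1591087380850560538075007/10717944050000000000) * ((r - (11/100)) ^ 1 * ((11/50) - r) ^ 7) +
      (1537994751011262426773017/4287177620000000000) * ((r - (11/100)) ^ 2 * ((11/50) - r) ^ 6) +
      (2422064213594169655195073/5358972025000000000) * ((r - (11/100)) ^ 3 * ((11/50) - r) ^ 5) +
      (344353307542803215813531/1071794405000000000) * ((r - (11/100)) ^ 4 * ((11/50) - r) ^ 4) +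
      (49651581521505862851263/334935751562500000) * ((r - (11/100)) ^ 5 * ((11/50) - r) ^ 3) +
      (95319566825870887680043/1339743006250000000) * ((r - (11/100)) ^ 6 * ((11/50) - r) ^ 2) +
      (2459586878484831386001/66987150312500000) * ((r - (11/100)) ^ 7 * ((11/50) - r) ^ 1) +
      (3058663067770641807501/334935751562500000) * ((r - (11/100)) ^ 8 * ((11/50) - r) ^ 0) := by positivity
  linarith

theorem F6a_p1_10_2 (r : ℝ) (h1 : (11/50) ≤ r) (h2 : r ≤ (11/25)) :
    F6a_al (99361/100000) 0 r * (1 + 2 * r) ^ 2 + F6a_be (99361/100000) 0 r * (1 + 2 * r) + F6a_ga (99361/100000) 0 r ≤ 0 := by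
  have e1 : 0 ≤ r - (11/50) := by linarith
  have e2 : 0 ≤ (11/25) - r := by linarith
  have key : F6a_al (99361/100000) 0 r * (1 + 2 * r) ^ 2 + F6a_be (99361/100000) 0 r * (1 + 2 * r) + F6a_ga (99361/100000) 0 r =
    -((3058663067770641807501/85743552400000000000) * ((r - (11/50)) ^ 0 * ((11/25) - r) ^ 8) +
      (24406022420823544760007/42871776200000000000) * ((r - (11/50)) ^ 1 * ((11/25) - r) ^ 7) +
      (69917883084451606422017/17148710480000000000) * ((r - (11/50)) ^ 2 * ((11/25) - r) ^ 6) +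
      (323654727206627042207573/21435888100000000000) * ((r - (11/50)) ^ 3 * ((11/25) - r) ^ 5) +
      (34140523365047060306789/1071794405000000000) * ((r - (11/50)) ^ 4 * ((11/25) - r) ^ 4) +
      (53648381828809932126263/1339743006250000000) * ((r - (11/50)) ^ 5 * ((11/25) - r) ^ 3) +
      (39918448189874786400167/1339743006250000000) * ((r - (11/50)) ^ 6 * ((11/25) - r) ^ 2) +
      (1626978864123699758563/133974300625000000) * ((r - (11/50)) ^ 7 * ((11/25) - r) ^ 1) +
      (2805050498521545810001/1339743006250000000) * ((r - (11/50)) ^ 8 * ((11/25) - r) ^ 0)) := by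
    unfold F6a_al F6a_be F6a_ga
    ring
  rw [key]
  have : 0 ≤ (3058663067770641807501/85743552400000000000) * ((r - (11/50)) ^ 0 * ((11/25) - r) ^ 8) +
      (24406022420823544760007/42871776200000000000) * ((r - (11/50)) ^ 1 * ((11/25) - r) ^ 7) +
      (69917883084451606422017/17148710480000000000) * ((r - (11/50)) ^ 2 * ((11/25) - r) ^ 6) +
      (323654727206627042207573/21435888100000000000) * ((r - (11/50)) ^ 3 * ((11/25) - r) ^ 5) +
      (34140523365047060306789/1071794405000000000) * ((r - (11/50)) ^ 4 * ((11/25) - r) ^ 4) +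
      (53648381828809932126263/1339743006250000000) * ((r - (11/50)) ^ 5 * ((11/25) - r) ^ 3) +
      (39918448189874786400167/1339743006250000000) * ((r - (11/50)) ^ 6 * ((11/25) - r) ^ 2) +
      (1626978864123699758563/133974300625000000) * ((r - (11/50)) ^ 7 * ((11/25) - r) ^ 1) +
      (2805050498521545810001/1339743006250000000) * ((r - (11/50)) ^ 8 * ((11/25) - r) ^ 0) := by positivity
  linarith

theorem F6a_p1_10_3 (r : ℝ) (h1 : (11/25) ≤ r) (h2 : r ≤ (89/100)) :
    F6a_al (99361/100000) 0 r * (1 + 2 * r) ^ 2 + F6a_be (99361/100000) 0 r * (1 + 2 * r) + F6a_ga (99361/100000) 0 r ≤ 0 := by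
  have e1 : 0 ≤ r - (11/25) := by linarith
  have e2 : 0 ≤ (89/100) - r := by linarith
  have key : F6a_al (99361/100000) 0 r * (1 + 2 * r) ^ 2 + F6a_be (99361/100000) 0 r * (1 + 2 * r) + F6a_ga (99361/100000) 0 r =
    -((5610100997043091620002/821051044464111328125) * ((r - (11/25)) ^ 0 * ((89/100) - r) ^ 8) +
      (70124234395625787527926/821051044464111328125) * ((r - (11/25)) ^ 1 * ((89/100) - r) ^ 7) +
      (744077484060824333605477/1642102088928222656250) * ((r - (11/25)) ^ 2 * ((89/100) - r) ^ 6) +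
      (4382760919418023575092263/3284204177856445312500) * ((r - (11/25)) ^ 3 * ((89/100) - r) ^ 5) +
      (12568072655110899198167861/5254726684570312500000) * ((r - (11/25)) ^ 4 * ((89/100) - r) ^ 4) +
      (562868331934521983205390397/210189067382812500000000) * ((r - (11/25)) ^ 5 * ((89/100) - r) ^ 3) +
      (3082970332510774108696748593/1681512539062500000000000) * ((r - (11/25)) ^ 6 * ((89/100) - r) ^ 2) +
      (591296337967199335328306389/840756269531250000000000) * ((r - (11/25)) ^ 7 * ((89/100) - r) ^ 1) +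
      (194948941528353998243930401/1681512539062500000000000) * ((r - (11/25)) ^ 8 * ((89/100) - r) ^ 0)) := by
    unfold F6a_al F6a_be F6a_ga
    ring
  rw [key]
  have : 0 ≤ (5610100997043091620002/821051044464111328125) * ((r - (11/25)) ^ 0 * ((89/100) - r) ^ 8) +
      (70124234395625787527926/821051044464111328125) * ((r - (11/25)) ^ 1 * ((89/100) - r) ^ 7) +
      (744077484060824333605477/1642102088928222656250) * ((r - (11/25)) ^ 2 * ((89/100) - r) ^ 6) +
      (4382760919418023575092263/3284204177856445312500) * ((r - (11/25)) ^ 3 * ((89/100) - r) ^ 5) +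
      (12568072655110899198167861/5254726684570312500000) * ((r - (11/25)) ^ 4 * ((89/100) - r) ^ 4) +
      (562868331934521983205390397/210189067382812500000000) * ((r - (11/25)) ^ 5 * ((89/100) - r) ^ 3) +
      (3082970332510774108696748593/1681512539062500000000000) * ((r - (11/25)) ^ 6 * ((89/100) - r) ^ 2) +
      (591296337967199335328306389/840756269531250000000000) * ((r - (11/25)) ^ 7 * ((89/100) - r) ^ 1) +
      (194948941528353998243930401/1681512539062500000000000) * ((r - (11/25)) ^ 8 * ((89/100) - r) ^ 0) := by positivity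
  linarith

theorem F6a_p1_10 (r : ℝ) (h1 : 0 ≤ r) (h2 : r ≤ (89/100)) :
    F6a_al (99361/100000) 0 r * (1 + 2 * r) ^ 2 + F6a_be (99361/100000) 0 r * (1 + 2 * r) + F6a_ga (99361/100000) 0 r ≤ 0 := by
  by_cases g1 : r ≤ (11/100)
  · exact F6a_p1_10_0 r h1 g1
  by_cases g2 : r ≤ (11/50)
  · exact F6a_p1_10_1 r (le_of_lt (not_le.mp g1)) g2
  by_cases g3 : r ≤ (11/25)
  · exact F6a_p1_10_2 r (le_of_lt (not_le.mp g2)) g3
  exact F6a_p1_10_3 r (le_of_lt (not_le.mp g3)) h2

theorem F6a_p2_10_0 (r : ℝ) (h1 : 0 ≤ r) (h2 : r ≤ (39/100)) :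
    F6a_al (99361/100000) 0 r * (1 - 2 * r) ^ 2 + F6a_be (99361/100000) 0 r * (1 - 2 * r) + F6a_ga (99361/100000) 0 r ≤ 0 := by
  have e1 : 0 ≤ r - 0 := by linarith
  have e2 : 0 ≤ (39/100) - r := by linarith
  have key : F6a_al (99361/100000) 0 r * (1 - 2 * r) ^ 2 + F6a_be (99361/100000) 0 r * (1 - 2 * r) + F6a_ga (99361/100000) 0 r =
    -((18563163865120/5352009260481) * ((r - 0) ^ 0 * ((39/100) - r) ^ 8) +
      (972106180915666/26760046302405) * ((r - 0) ^ 1 * ((39/100) - r) ^ 7) +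
      (162661240782896987/1070401852096200) * ((r - 0) ^ 2 * ((39/100) - r) ^ 6) +
      (176118738862797641/535200926048100) * ((r - 0) ^ 3 * ((39/100) - r) ^ 5) +
      (21565904332932667563757/53520092604810000000) * ((r - 0) ^ 4 * ((39/100) - r) ^ 4) +
      (3784031571177404185757/13380023151202500000) * ((r - 0) ^ 5 * ((39/100) - r) ^ 3) +
      (57634274835127091220145201/535200926048100000000000) * ((r - 0) ^ 6 * ((39/100) - r) ^ 2) +
      (4983314122438949349865201/267600463024050000000000) * ((r - 0) ^ 7 * ((39/100) - r) ^ 1) +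
      (408498630670766772295201/535200926048100000000000) * ((r - 0) ^ 8 * ((39/100) - r) ^ 0)) := by
    unfold F6a_al F6a_be F6a_ga
    ring
  rw [key]
  have : 0 ≤ (18563163865120/5352009260481) * ((r - 0) ^ 0 * ((39/100) - r) ^ 8) +
      (972106180915666/26760046302405) * ((r - 0) ^ 1 * ((39/100) - r) ^ 7) +
      (162661240782896987/1070401852096200) * ((r - 0) ^ 2 * ((39/100) - r) ^ 6) +
      (176118738862797641/535200926048100) * ((r - 0) ^ 3 * ((39/100) - r) ^ 5) +
      (21565904332932667563757/53520092604810000000) * ((r - 0) ^ 4 * ((39/100) - r) ^ 4) +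
      (3784031571177404185757/13380023151202500000) * ((r - 0) ^ 5 * ((39/100) - r) ^ 3) +
      (57634274835127091220145201/535200926048100000000000) * ((r - 0) ^ 6 * ((39/100) - r) ^ 2) +
      (4983314122438949349865201/267600463024050000000000) * ((r - 0) ^ 7 * ((39/100) - r) ^ 1) +
      (408498630670766772295201/535200926048100000000000) * ((r - 0) ^ 8 * ((39/100) - r) ^ 0) := by positivity
  linarith

theorem F6a_p2_10 (r : ℝ) (h1 : 0 ≤ r) (h2 : r ≤ (39/100)) :
    F6a_al (99361/100000) 0 r * (1 - 2 * r) ^ 2 + F6a_be (99361/100000) 0 r * (1 - 2 * r) + F6a_ga (99361/100000) 0 r ≤ 0 := by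
  exact F6a_p2_10_0 r h1 h2

theorem F6a_p3_10_0 (r : ℝ) (h1 : (97/250) ≤ r) (h2 : r ≤ (89/100)) :
    (1056369090347/14750000000000) * (1 - r ^ 2) ^ 3 + 446 / 100 * F6a_be (99361/100000) 0 r + F6a_al (99361/100000) 0 r ≤ 0 := by
  have e1 : 0 ≤ r - (97/250) := by linarith
  have e2 : 0 ≤ (89/100) - r := by linarith
  have key : (1056369090347/14750000000000) * (1 - r ^ 2) ^ 3 + 446 / 100 * F6a_be (99361/100000) 0 r + F6a_al (99361/100000) 0 r =
    -((1570049713445139272697333222217/2881538188310753710937500000000) * ((r - (97/250)) ^ 0 * ((89/100) - r) ^ 6) +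
      (2767108446420482306194054538087/576307637662150742187500000000) * ((r - (97/250)) ^ 1 * ((89/100) - r) ^ 5) +
      (1470054818078587848478633787719/92209222025944118750000000000) * ((r - (97/250)) ^ 2 * ((89/100) - r) ^ 4) +
      (237389424674779546667173962201/9220922202594411875000000000) * ((r - (97/250)) ^ 3 * ((89/100) - r) ^ 3) +
      (317255276644028831643053721811/14753475524151059000000000000) * ((r - (97/250)) ^ 4 * ((89/100) - r) ^ 2) +
      (134246038274373663059349673007/14753475524151059000000000000) * ((r - (97/250)) ^ 5 * ((89/100) - r) ^ 1) +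
      (20270060639452162159280859253/11802780419320847200000000000) * ((r - (97/250)) ^ 6 * ((89/100) - r) ^ 0)) := by
    unfold F6a_al F6a_be
    ring
  rw [key]
  have : 0 ≤ (1570049713445139272697333222217/2881538188310753710937500000000) * ((r - (97/250)) ^ 0 * ((89/100) - r) ^ 6) +
      (2767108446420482306194054538087/576307637662150742187500000000) * ((r - (97/250)) ^ 1 * ((89/100) - r) ^ 5) +
      (1470054818078587848478633787719/92209222025944118750000000000) * ((r - (97/250)) ^ 2 * ((89/100) - r) ^ 4) +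
      (237389424674779546667173962201/9220922202594411875000000000) * ((r - (97/250)) ^ 3 * ((89/100) - r) ^ 3) +
      (317255276644028831643053721811/14753475524151059000000000000) * ((r - (97/250)) ^ 4 * ((89/100) - r) ^ 2) +
      (134246038274373663059349673007/14753475524151059000000000000) * ((r - (97/250)) ^ 5 * ((89/100) - r) ^ 1) +
      (20270060639452162159280859253/11802780419320847200000000000) * ((r - (97/250)) ^ 6 * ((89/100) - r) ^ 0) := by positivity
  linarith

theorem F6a_p3_10 (r : ℝ) (h1 : (97/250) ≤ r) (h2 : r ≤ (89/100)) :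
    (1056369090347/14750000000000) * (1 - r ^ 2) ^ 3 + 446 / 100 * F6a_be (99361/100000) 0 r + F6a_al (99361/100000) 0 r ≤ 0 := by
  exact F6a_p3_10_0 r h1 h2

theorem F6a_p1_11_0 (r : ℝ) (h1 : 0 ≤ r) (h2 : r ≤ (11/25)) :
    F6a_al (99361/100000) (169/2500) r * (1 + 2 * r) ^ 2 + F6a_be (99361/100000) (169/2500) r * (1 + 2 * r) + F6a_ga (99361/100000) (169/2500) r ≤ 0 := by
  have e1 : 0 ≤ r - 0 := by linarith
  have e2 : 0 ≤ (11/25) - r := by linarith
  have key : F6a_al (99361/100000) (169/2500) r * (1 + 2 * r) ^ 2 + F6a_be (99361/100000) (169/2500) r * (1 + 2 * r) + F6a_ga (99361/100000) (169/2500) r =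
    -((59914039406751/35120559063040) * ((r - 0) ^ 0 * ((11/25) - r) ^ 8) +
      (1251082024174043/109751747072000) * ((r - 0) ^ 1 * ((11/25) - r) ^ 7) +
      (640828080902678359/21950349414400000) * ((r - 0) ^ 2 * ((11/25) - r) ^ 6) +
      (405199071247887277/10975174707200000) * ((r - 0) ^ 3 * ((11/25) - r) ^ 5) +
      (4175336461011379883/137189683840000000) * ((r - 0) ^ 4 * ((11/25) - r) ^ 4) +
      (2277862811252646391/68594841920000000) * ((r - 0) ^ 5 * ((11/25) - r) ^ 3) +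
      (53400763340425075271/1339743006250000000) * ((r - 0) ^ 6 * ((11/25) - r) ^ 2) +
      (281414250737833808711/10717944050000000000) * ((r - 0) ^ 7 * ((11/25) - r) ^ 1) +
      (282462376131388068047/42871776200000000000) * ((r - 0) ^ 8 * ((11/25) - r) ^ 0)) := by
    unfold F6a_al F6a_be F6a_ga
    ring
  rw [key]
  have : 0 ≤ (59914039406751/35120559063040) * ((r - 0) ^ 0 * ((11/25) - r) ^ 8) +
      (1251082024174043/109751747072000) * ((r - 0) ^ 1 * ((11/25) - r) ^ 7) +
      (640828080902678359/21950349414400000) * ((r - 0) ^ 2 * ((11/25) - r) ^ 6) +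
      (405199071247887277/10975174707200000) * ((r - 0) ^ 3 * ((11/25) - r) ^ 5) +
      (4175336461011379883/137189683840000000) * ((r - 0) ^ 4 * ((11/25) - r) ^ 4) +
      (2277862811252646391/68594841920000000) * ((r - 0) ^ 5 * ((11/25) - r) ^ 3) +
      (53400763340425075271/1339743006250000000) * ((r - 0) ^ 6 * ((11/25) - r) ^ 2) +
      (281414250737833808711/10717944050000000000) * ((r - 0) ^ 7 * ((11/25) - r) ^ 1) +
      (282462376131388068047/42871776200000000000) * ((r - 0) ^ 8 * ((11/25) - r) ^ 0) := by positivity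
  linarith

theorem F6a_p1_11_1 (r : ℝ) (h1 : (11/25) ≤ r) (h2 : r ≤ (89/100)) :
    F6a_al (99361/100000) (169/2500) r * (1 + 2 * r) ^ 2 + F6a_be (99361/100000) (169/2500) r * (1 + 2 * r) + F6a_ga (99361/100000) (169/2500) r ≤ 0 := by
  have e1 : 0 ≤ r - (11/25) := by linarith
  have e2 : 0 ≤ (89/100) - r := by linarith
  have key : F6a_al (99361/100000) (169/2500) r * (1 + 2 * r) ^ 2 + F6a_be (99361/100000) (169/2500) r * (1 + 2 * r) + F6a_ga (99361/100000) (169/2500) r =
    -((4519398018102209088752/821051044464111328125) * ((r - (11/25)) ^ 0 * ((89/100) - r) ^ 8) +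
      (54712235153722988684176/821051044464111328125) * ((r - (11/25)) ^ 1 * ((89/100) - r) ^ 7) +
      (285531742678902135576176/821051044464111328125) * ((r - (11/25)) ^ 2 * ((89/100) - r) ^ 6) +
      (3338316397313860241529763/3284204177856445312500) * ((r - (11/25)) ^ 3 * ((89/100) - r) ^ 5) +
      (9547979694306218960417861/5254726684570312500000) * ((r - (11/25)) ^ 4 * ((89/100) - r) ^ 4) +
      (427627394063565154437390397/210189067382812500000000) * ((r - (11/25)) ^ 5 * ((89/100) - r) ^ 3) +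
      (2345402963468154811384748593/1681512539062500000000000) * ((r - (11/25)) ^ 6 * ((89/100) - r) ^ 2) +
      (450688884501193618592306389/840756269531250000000000) * ((r - (11/25)) ^ 7 * ((89/100) - r) ^ 1) +
      (148884372736819820579930401/1681512539062500000000000) * ((r - (11/25)) ^ 8 * ((89/100) - r) ^ 0)) := by
    unfold F6a_al F6a_be F6a_ga
    ring
  rw [key]
  have : 0 ≤ (4519398018102209088752/821051044464111328125) * ((r - (11/25)) ^ 0 * ((89/100) - r) ^ 8) +
      (54712235153722988684176/821051044464111328125) * ((r - (11/25)) ^ 1 * ((89/100) - r) ^ 7) +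
      (285531742678902135576176/821051044464111328125) * ((r - (11/25)) ^ 2 * ((89/100) - r) ^ 6) +
      (3338316397313860241529763/3284204177856445312500) * ((r - (11/25)) ^ 3 * ((89/100) - r) ^ 5) +
      (9547979694306218960417861/5254726684570312500000) * ((r - (11/25)) ^ 4 * ((89/100) - r) ^ 4) +
      (427627394063565154437390397/210189067382812500000000) * ((r - (11/25)) ^ 5 * ((89/100) - r) ^ 3) +
      (2345402963468154811384748593/1681512539062500000000000) * ((r - (11/25)) ^ 6 * ((89/100) - r) ^ 2) +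
      (450688884501193618592306389/840756269531250000000000) * ((r - (11/25)) ^ 7 * ((89/100) - r) ^ 1) +
      (148884372736819820579930401/1681512539062500000000000) * ((r - (11/25)) ^ 8 * ((89/100) - r) ^ 0) := by positivity
  linarith

theorem F6a_p1_11 (r : ℝ) (h1 : 0 ≤ r) (h2 : r ≤ (89/100)) :
    F6a_al (99361/100000) (169/2500) r * (1 + 2 * r) ^ 2 + F6a_be (99361/100000) (169/2500) r * (1 + 2 * r) + F6a_ga (99361/100000) (169/2500) r ≤ 0 := by
  by_cases g1 : r ≤ (11/25)
  · exact F6a_p1_11_0 r h1 g1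
  exact F6a_p1_11_1 r (le_of_lt (not_le.mp g1)) h2

theorem F6a_p2_11_0 (r : ℝ) (h1 : 0 ≤ r) (h2 : r ≤ (39/100)) :
    F6a_al (99361/100000) (169/2500) r * (1 - 2 * r) ^ 2 + F6a_be (99361/100000) (169/2500) r * (1 - 2 * r) + F6a_ga (99361/100000) (169/2500) r ≤ 0 := by
  have e1 : 0 ≤ r - 0 := by linarith
  have e2 : 0 ≤ (39/100) - r := by linarith
  have key : F6a_al (99361/100000) (169/2500) r * (1 - 2 * r) ^ 2 + F6a_be (99361/100000) (169/2500) r * (1 - 2 * r) + F6a_ga (99361/100000) (169/2500) r =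
    -((13314230979278/2973338478045) * ((r - 0) ^ 0 * ((39/100) - r) ^ 8) +
      (9155082766814624/223000385853375) * ((r - 0) ^ 1 * ((39/100) - r) ^ 7) +
      (6964553167163717353/44600077170675000) * ((r - 0) ^ 2 * ((39/100) - r) ^ 6) +
      (781287506880866851/2477782065037500) * ((r - 0) ^ 3 * ((39/100) - r) ^ 5) +
      (6502624559470412155919/17840030868270000000) * ((r - 0) ^ 4 * ((39/100) - r) ^ 4) +
      (1077020879590825117919/4460007717067500000) * ((r - 0) ^ 5 * ((39/100) - r) ^ 3) +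
      (5054927375361591095571689/59466769560900000000000) * ((r - 0) ^ 6 * ((39/100) - r) ^ 2) +
      (1100090995397857185955067/89200154341350000000000) * ((r - 0) ^ 7 * ((39/100) - r) ^ 1) +
      (9689635102387302765067/178400308682700000000000) * ((r - 0) ^ 8 * ((39/100) - r) ^ 0)) := by
    unfold F6a_al F6a_be F6a_ga
    ring
  rw [key]
  have : 0 ≤ (13314230979278/2973338478045) * ((r - 0) ^ 0 * ((39/100) - r) ^ 8) +
      (9155082766814624/223000385853375) * ((r - 0) ^ 1 * ((39/100) - r) ^ 7) +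
      (6964553167163717353/44600077170675000) * ((r - 0) ^ 2 * ((39/100) - r) ^ 6) +
      (781287506880866851/2477782065037500) * ((r - 0) ^ 3 * ((39/100) - r) ^ 5) +
      (6502624559470412155919/17840030868270000000) * ((r - 0) ^ 4 * ((39/100) - r) ^ 4) +
      (1077020879590825117919/4460007717067500000) * ((r - 0) ^ 5 * ((39/100) - r) ^ 3) +
      (5054927375361591095571689/59466769560900000000000) * ((r - 0) ^ 6 * ((39/100) - r) ^ 2) +
      (1100090995397857185955067/89200154341350000000000) * ((r - 0) ^ 7 * ((39/100) - r) ^ 1) +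
      (9689635102387302765067/178400308682700000000000) * ((r - 0) ^ 8 * ((39/100) - r) ^ 0) := by positivity
  linarith

theorem F6a_p2_11 (r : ℝ) (h1 : 0 ≤ r) (h2 : r ≤ (39/100)) :
    F6a_al (99361/100000) (169/2500) r * (1 - 2 * r) ^ 2 + F6a_be (99361/100000) (169/2500) r * (1 - 2 * r) + F6a_ga (99361/100000) (169/2500) r ≤ 0 := by
  exact F6a_p2_11_0 r h1 h2

theorem F6a_p3_11_0 (r : ℝ) (h1 : (97/250) ≤ r) (h2 : r ≤ (89/100)) :
    (1259169090347/14750000000000) * (1 - r ^ 2) ^ 3 + 446 / 100 * F6a_be (99361/100000) (169/2500) r + F6a_al (99361/100000) (169/2500) r ≤ 0 := by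
  have e1 : 0 ≤ r - (97/250) := by linarith
  have e2 : 0 ≤ (89/100) - r := by linarith
  have key : (1259169090347/14750000000000) * (1 - r ^ 2) ^ 3 + 446 / 100 * F6a_be (99361/100000) (169/2500) r + F6a_al (99361/100000) (169/2500) r =
    -((200530425597156931814695722217/2881538188310753710937500000000) * ((r - (97/250)) ^ 0 * ((89/100) - r) ^ 6) +
      (1369334832670996080044729538087/576307637662150742187500000000) * ((r - (97/250)) ^ 1 * ((89/100) - r) ^ 5) +
      (1007220129890176963962983787719/92209222025944118750000000000) * ((r - (97/250)) ^ 2 * ((89/100) - r) ^ 4) +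
      (185117205539163208722073962201/9220922202594411875000000000) * ((r - (97/250)) ^ 3 * ((89/100) - r) ^ 3) +
      (257467837583072362674453721811/14753475524151059000000000000) * ((r - (97/250)) ^ 4 * ((89/100) - r) ^ 2) +
      (107037805937890718996149673007/14753475524151059000000000000) * ((r - (97/250)) ^ 5 * ((89/100) - r) ^ 1) +
      (15794293892761111496480859253/11802780419320847200000000000) * ((r - (97/250)) ^ 6 * ((89/100) - r) ^ 0)) := by
    unfold F6a_al F6a_be
    ring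
  rw [key]
  have : 0 ≤ (200530425597156931814695722217/2881538188310753710937500000000) * ((r - (97/250)) ^ 0 * ((89/100) - r) ^ 6) +
      (1369334832670996080044729538087/576307637662150742187500000000) * ((r - (97/250)) ^ 1 * ((89/100) - r) ^ 5) +
      (1007220129890176963962983787719/92209222025944118750000000000) * ((r - (97/250)) ^ 2 * ((89/100) - r) ^ 4) +
      (185117205539163208722073962201/9220922202594411875000000000) * ((r - (97/250)) ^ 3 * ((89/100) - r) ^ 3) +
      (257467837583072362674453721811/14753475524151059000000000000) * ((r - (97/250)) ^ 4 * ((89/100) - r) ^ 2) +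
      (107037805937890718996149673007/14753475524151059000000000000) * ((r - (97/250)) ^ 5 * ((89/100) - r) ^ 1) +
      (15794293892761111496480859253/11802780419320847200000000000) * ((r - (97/250)) ^ 6 * ((89/100) - r) ^ 0) := by positivity
  linarith

theorem F6a_p3_11 (r : ℝ) (h1 : (97/250) ≤ r) (h2 : r ≤ (89/100)) :
    (1259169090347/14750000000000) * (1 - r ^ 2) ^ 3 + 446 / 100 * F6a_be (99361/100000) (169/2500) r + F6a_al (99361/100000) (169/2500) r ≤ 0 := by
  exact F6a_p3_11_0 r h1 h2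

/-- reduction to the corners in `s` and `B`, for fixed `h` -/
theorem F6a_corner (s r h B : ℝ) (hr0 : 0 ≤ r) (hr1 : r ≤ 89 / 100)
    (hB0 : 0 ≤ B) (hB1 : B ≤ 676 / 10000) (hs0 : 82 / 100 ≤ s) (hs1 : s ≤ 99361 / 100000)
    (c00 : Psi (41 / 50) (r ^ 2) h 0 + 3 / 10000 ≤ 0)
    (c01 : Psi (41 / 50) (r ^ 2) h (169 / 2500) + 3 / 10000 ≤ 0)
    (c10 : Psi (99361 / 100000) (r ^ 2) h 0 + 3 / 10000 ≤ 0)
    (c11 : Psi (99361 / 100000) (r ^ 2) h (169 / 2500) + 3 / 10000 ≤ 0) :
    Psi s (r ^ 2) h B + 3 / 10000 ≤ 0 := by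
  have hW0 : 0 ≤ 1 - r ^ 2 := by nlinarith
  have hr2 : r ^ 2 ≤ 1 := by nlinarith
  have hny : 0 ≤ 4 * (1 - r ^ 2) ^ 4 * h ^ 2 - 2 * (1 - r ^ 2) ^ 3 * (h - 1)
      + (1 - r ^ 2) ^ 2 * r ^ 2 := by
    have e : 4 * (1 - r ^ 2) ^ 4 * h ^ 2 - 2 * (1 - r ^ 2) ^ 3 * (h - 1)
        + (1 - r ^ 2) ^ 2 * r ^ 2 = (2 * (1 - r ^ 2) ^ 2 * h - (1 - r ^ 2) / 2) ^ 2
          + (1 - r ^ 2) ^ 2 * (7 / 4 - r ^ 2) := by ring
    rw [e]
    have : 0 ≤ 7 / 4 - r ^ 2 := by linarith
    positivity
  -- affine in B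
  have hB : ∀ s' : ℝ, Psi s' (r ^ 2) h 0 + 3 / 10000 ≤ 0 →
      Psi s' (r ^ 2) h (169 / 2500) + 3 / 10000 ≤ 0 → Psi s' (r ^ 2) h B + 3 / 10000 ≤ 0 := by
    intro s' e0 e1
    have id : ∀ B' : ℝ, Psi s' (r ^ 2) h B' + 3 / 10000 = (Psi s' (r ^ 2) h 0 + 3 / 10000)
        + ((Psi s' (r ^ 2) h (169 / 2500) - Psi s' (r ^ 2) h 0) * (2500 / 169)) * B'
        + 0 * B' ^ 2 := by
      intro B'
      unfold Psi
      ring
    have g1 : (0 : ℝ) ≤ B := hB0
    have g2 : B ≤ 169 / 2500 := by linarith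
    rw [id B]
    apply F6a_conv le_rfl g1 g2
    · rw [← id 0]
      exact e0
    · rw [← id (169 / 2500)]
      exact e1
  have d0 := hB _ c00 c01
  have d1 := hB _ c10 c11
  -- convex in s
  have ids : ∀ s' : ℝ, Psi s' (r ^ 2) h B + 3 / 10000 =
      (67 / 1000 * (3 * (1 + B) + 2 * r ^ 2 * B)
        + 15 / 10000 * (2 * (r ^ 2) ^ 2 * (1 + B)
          + 2 * (4 * (1 - r ^ 2) ^ 4 * h ^ 2 - 2 * (1 - r ^ 2) ^ 3 * (h - 1)
            + (1 - r ^ 2) ^ 2 * r ^ 2) * B)
        - 2 / 100 * B - 4769 / 100000 * r ^ 2 - 1 + 3 / 10000)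
      + (-(402 / 1000) * (1 + B) + 1604 / 100000 * r ^ 2
        - 1604 / 100000 * ((1 - r ^ 2) ^ 2 * (h - 1) - (1 - r ^ 2) * r ^ 2) + 1) * s'
      + (201 / 1000 * (1 + B) + 107 / 100000 * (2 * r ^ 2 - (r ^ 2) ^ 2
          + (4 * (1 - r ^ 2) ^ 4 * h ^ 2 - 2 * (1 - r ^ 2) ^ 3 * (h - 1)
            + (1 - r ^ 2) ^ 2 * r ^ 2))) * s' ^ 2 := by
    intro s'
    unfold Psi
    ring
  rw [ids s]
  have hq : 0 ≤ 201 / 1000 * (1 + B) + 107 / 100000 * (2 * r ^ 2 - (r ^ 2) ^ 2
          + (4 * (1 - r ^ 2) ^ 4 * h ^ 2 - 2 * (1 - r ^ 2) ^ 3 * (h - 1)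
            + (1 - r ^ 2) ^ 2 * r ^ 2)) := by
    have : 0 ≤ 2 * r ^ 2 - (r ^ 2) ^ 2 := by nlinarith [sq_nonneg r]
    nlinarith
  apply F6a_conv hq (x1 := 41 / 50) (x2 := 99361 / 100000) (by linarith) hs1
  · rw [← ids (41 / 50)]
    exact d0
  · rw [← ids (99361 / 100000)]
    exact d1

/-- from `al x² + be x + ga ≤ 0` to the value at `h = 1/x` -/
theorem F6a_at (s B r x : ℝ) (hx : 0 < x)
    (h : F6a_al s B r * x ^ 2 + F6a_be s B r * x + F6a_ga s B r ≤ 0) :
    Psi s (r ^ 2) (1 / x) B + 3 / 10000 ≤ 0 := by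
  rw [F6a_psi]
  have e : F6a_al s B r + F6a_be s B r * (1 / x) + F6a_ga s B r * (1 / x) ^ 2 =
      (F6a_al s B r * x ^ 2 + F6a_be s B r * x + F6a_ga s B r) / x ^ 2 := by
    field_simp
  rw [e]
  exact div_nonpos_of_nonpos_of_nonneg h (by positivity)

/-- the value at the upper end of the `h`-interval, second case -/
theorem F6a_at2 (s B r h K : ℝ) (hr : r ^ 2 < 1) (hs : 0 ≤ s) (hB : 0 ≤ B)
    (hh : h ^ 2 * (59 / 1000 * (1 - r ^ 2)) = 1) (hh0 : 446 / 100 ≤ h)
    (hK : K = 4 * (3 / 1000 * B + 107 / 100000 * s ^ 2) * (1000 / 59))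
    (hp : K * (1 - r ^ 2) ^ 3 + 446 / 100 * F6a_be s B r + F6a_al s B r ≤ 0) :
    Psi s (r ^ 2) h B + 3 / 10000 ≤ 0 := by
  rw [F6a_psi]
  have hbe : F6a_be s B r ≤ 0 := by
    unfold F6a_be
    have hW : 0 ≤ 1 - r ^ 2 := by linarith
    have t1 : 0 ≤ 2 * (3 / 1000 * B + 107 / 100000 * s ^ 2) * (1 - r ^ 2) ^ 3 := by positivity
    have t2 : 0 ≤ 1604 / 100000 * s * (1 - r ^ 2) ^ 2 := by positivity
    linarith
  have h1 : F6a_be s B r * h ≤ F6a_be s B r * (446 / 100) := mul_le_mul_of_nonpos_left hh0 hbe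
  have h2 : F6a_ga s B r * h ^ 2 = K * (1 - r ^ 2) ^ 3 := by
    unfold F6a_ga
    rw [hK]
    have : h ^ 2 * (1 - r ^ 2) = 1000 / 59 := by linarith
    calc 4 * (3 / 1000 * B + 107 / 100000 * s ^ 2) * (1 - r ^ 2) ^ 4 * h ^ 2
        = 4 * (3 / 1000 * B + 107 / 100000 * s ^ 2) * (1 - r ^ 2) ^ 3 * (h ^ 2 * (1 - r ^ 2)) := by
          ring
      _ = _ := by rw [this]; ring
  rw [h2]
  linarith

theorem psi_neg (s r d B : ℝ) (hr0 : 0 ≤ r) (hr1 : r ≤ 8887 / 10000) (hd0 : 0 < d)
    (hd1 : 1 - 2 * r ≤ d) (hd2 : d ≤ 1 + 2 * r) (hd3 : 59 / 1000 * (1 - r ^ 2) ≤ d ^ 2)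
    (hB0 : 0 ≤ B) (hB1 : B ≤ 676 / 10000) (hs0 : 82 / 100 ≤ s) (hs1 : s ≤ 99361 / 100000) :
    Psi s (r ^ 2) (1 / d) B ≤ -(3 / 10000) := by
  have hr2 : r ≤ 89 / 100 := by linarith
  have hx : 0 < 1 + 2 * r := by linarith
  have hW : r ^ 2 < 1 := by nlinarith
  -- lower end
  have low : Psi s (r ^ 2) (1 / (1 + 2 * r)) B + 3 / 10000 ≤ 0 := by
    apply F6a_corner s r _ B hr0 hr2 hB0 hB1 hs0 hs1
    · exact F6a_at _ _ _ _ hx (F6a_p1_00 r hr0 hr2)
    · exact F6a_at _ _ _ _ hx (F6a_p1_01 r hr0 hr2)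
    · exact F6a_at _ _ _ _ hx (F6a_p1_10 r hr0 hr2)
    · exact F6a_at _ _ _ _ hx (F6a_p1_11 r hr0 hr2)
  have hle : 1 / (1 + 2 * r) ≤ 1 / d := one_div_le_one_div_of_le hd0 hd2
  have hga : 0 ≤ F6a_ga s B r := by
    unfold F6a_ga
    have : 0 ≤ 1 - r ^ 2 := by linarith
    positivity
  -- upper end
  have high : ∃ h2 : ℝ, 1 / d ≤ h2 ∧ Psi s (r ^ 2) h2 B + 3 / 10000 ≤ 0 := by
    rcases le_total r (388 / 1000) with hc | hc
    · have hy : 0 < 1 - 2 * r := by linarith
      have hc' : r ≤ 39 / 100 := by linarith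
      refine ⟨1 / (1 - 2 * r), one_div_le_one_div_of_le hy hd1, ?_⟩
      apply F6a_corner s r _ B hr0 hr2 hB0 hB1 hs0 hs1
      · exact F6a_at _ _ _ _ hy (F6a_p2_00 r hr0 hc')
      · exact F6a_at _ _ _ _ hy (F6a_p2_01 r hr0 hc')
      · exact F6a_at _ _ _ _ hy (F6a_p2_10 r hr0 hc')
      · exact F6a_at _ _ _ _ hy (F6a_p2_11 r hr0 hc')
    · have hpos : 0 < 59 / 1000 * (1 - r ^ 2) := by
        have : 0 < 1 - r ^ 2 := by linarith
        positivity
      set y := Real.sqrt (59 / 1000 * (1 - r ^ 2)) with hy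
      have hy2 : y ^ 2 = 59 / 1000 * (1 - r ^ 2) := Real.sq_sqrt hpos.le
      have hy0 : 0 < y := Real.sqrt_pos.mpr hpos
      have hyd : y ≤ d := by
        rw [hy]
        exact (Real.sqrt_le_left hd0.le).mpr hd3
      have hh : (1 / y) ^ 2 * (59 / 1000 * (1 - r ^ 2)) = 1 := by
        rw [← hy2]
        field_simp
      have hh0 : 446 / 100 ≤ 1 / y := by
        rw [le_div_iff₀ hy0]
        have h3 : y ^ 2 ≤ (100 / 446) ^ 2 := by
          rw [hy2]
          nlinarith
        have h4 : y ≤ 100 / 446 := by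
          exact (pow_le_pow_iff_left₀ hy0.le (by norm_num) (by norm_num)).mp h3
        linarith
      refine ⟨1 / y, one_div_le_one_div_of_le hy0 hyd, ?_⟩
      apply F6a_corner s r _ B hr0 hr2 hB0 hB1 hs0 hs1
      · exact F6a_at2 _ _ r _ _ hW (by norm_num) (by norm_num) hh hh0 (by norm_num)
          (F6a_p3_00 r (by linarith) hr2)
      · exact F6a_at2 _ _ r _ _ hW (by norm_num) (by norm_num) hh hh0 (by norm_num)
          (F6a_p3_01 r (by linarith) hr2)
      · exact F6a_at2 _ _ r _ _ hW (by norm_num) (by norm_num) hh hh0 (by norm_num)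
          (F6a_p3_10 r (by linarith) hr2)
      · exact F6a_at2 _ _ r _ _ hW (by norm_num) (by norm_num) hh hh0 (by norm_num)
          (F6a_p3_11 r (by linarith) hr2)
  obtain ⟨h2, hle2, high⟩ := high
  have fin : Psi s (r ^ 2) (1 / d) B + 3 / 10000 ≤ 0 := by
    rw [F6a_psi] at low high ⊢
    exact F6a_conv hga hle hle2 low high
  linarith

end Pool.H61.Rh
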