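import Pool.Agent.H61.Rh.Dm
import Pool.Agent.H61.Rh.F4
import Pool.Agent.H61.Rh.F6a

/-! # F6b: the pointwise inequality

The left side is a convex function of `v` (`normSq` of real-affine functions of `v`, with
nonnegative coefficients, plus a real-linear function), so by `kap_vertices` it is at most its
maximum over the vertices `v = Vx y j`.  There `normSq (x - z) ≤ 2 normSq x + 2 normSq z`,
`normSq a = 1 + normSq b`, `2 (1 - 1/s)² ≤ 3 (1-s)²` (`s ≥ 0.82`), `1/s² ≥ 1`,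
`q(s) = 0.00107 s² + 0.01818 s - 0.0124 ≥ 0` (so `((1-s) + (1-s)² q(s))/s² ≥ 1 - s`),
`normSq_Vx`, `cr_Vx` bound it by `Psi s (‖y‖²) (1/d_j) (normSq b)`, and `psi_neg`
applies with `r = ‖y‖` (`dom_norm`, `|dt u_j y| ≤ ‖y‖`, `Dom y`). -/

set_option autoImplicit false

namespace Pool.H61.Rh

open Complex Finset

private lemma F6b_cv (l x : Fin 3 → ℝ) (hl : ∀ j, 0 ≤ l j) (hs : ∑ j, l j = 1) :
    (∑ j, l j * x j) ^ 2 ≤ ∑ j, l j * x j ^ 2 := by
  rw [Fin.sum_univ_three] at hs ⊢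
  rw [Fin.sum_univ_three]
  have h0 := hl 0
  have h1 := hl 1
  have h2 := hl 2
  have e : (l 0 * x 0 ^ 2 + l 1 * x 1 ^ 2 + l 2 * x 2 ^ 2) -
      (l 0 * x 0 + l 1 * x 1 + l 2 * x 2) ^ 2 =
      l 0 * l 1 * (x 0 - x 1) ^ 2 + l 0 * l 2 * (x 0 - x 2) ^ 2 + l 1 * l 2 * (x 1 - x 2) ^ 2 := by
    linear_combination -(l 0 * x 0 ^ 2 + l 1 * x 1 ^ 2 + l 2 * x 2 ^ 2) * hs
  have h3 : 0 ≤ l 0 * l 1 * (x 0 - x 1) ^ 2 + l 0 * l 2 * (x 0 - x 2) ^ 2 +
      l 1 * l 2 * (x 1 - x 2) ^ 2 := by positivity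
  linarith

private lemma F6b_ns (l : Fin 3 → ℝ) (z : Fin 3 → ℂ) (hl : ∀ j, 0 ≤ l j) (hs : ∑ j, l j = 1) :
    normSq (∑ j, ((l j : ℝ) : ℂ) * z j) ≤ ∑ j, l j * normSq (z j) := by
  have hr := F6b_cv l (fun j => (z j).re) hl hs
  have hi := F6b_cv l (fun j => (z j).im) hl hs
  have e1 : (∑ j, ((l j : ℝ) : ℂ) * z j).re = ∑ j, l j * (z j).re := by
    rw [Complex.re_sum]
    exact Finset.sum_congr rfl fun j _ => by rw [re_ofReal_mul]
  have e2 : (∑ j, ((l j : ℝ) : ℂ) * z j).im = ∑ j, l j * (z j).im := by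
    rw [Complex.im_sum]
    exact Finset.sum_congr rfl fun j _ => by rw [im_ofReal_mul]
  have e3 : ∑ j, l j * normSq (z j) = ∑ j, l j * (z j).re ^ 2 + ∑ j, l j * (z j).im ^ 2 := by
    rw [← Finset.sum_add_distrib]
    exact Finset.sum_congr rfl fun j _ => by rw [normSq_apply]; ring
  rw [e3, normSq_apply, e1, e2]
  nlinarith [hr, hi]

private lemma F6b_two (x z : ℂ) : normSq (x - z) ≤ 2 * normSq x + 2 * normSq z := by
  simp only [normSq_apply, sub_re, sub_im]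
  nlinarith [sq_nonneg (x.re + z.re), sq_nonneg (x.im + z.im)]

private lemma F6b_uu (j : Fin 3) : (uu j).re * (uu j).re + (uu j).im * (uu j).im = 1 := by
  have h := s3_mul
  fin_cases j
  · show (1 : ℝ) * 1 + 0 * 0 = 1
    norm_num
  · show (-1 / 2 : ℝ) * (-1 / 2) + s3 / 2 * (s3 / 2) = 1
    linear_combination (1 / 4 : ℝ) * h
  · show (-1 / 2 : ℝ) * (-1 / 2) + -(s3 / 2) * -(s3 / 2) = 1
    linear_combination (1 / 4 : ℝ) * h

private lemma F6b_dt (y : ℂ) (j : Fin 3) : |dt (uu j) y| ≤ ‖y‖ := by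
  apply abs_le_of_sq_le_sq _ (norm_nonneg y)
  rw [← Complex.normSq_eq_norm_sq, normSq_apply]
  have h := F6b_uu j
  unfold dt
  have e : (y.re * y.re + y.im * y.im) - ((uu j).re * y.re + (uu j).im * y.im) ^ 2 =
      ((uu j).re * y.im - (uu j).im * y.re) ^ 2 := by
    linear_combination -(y.re * y.re + y.im * y.im) * h
  nlinarith [sq_nonneg ((uu j).re * y.im - (uu j).im * y.re)]

/-- the bound at a vertex -/
private lemma F6b_vertex (s : ℝ) (y a b : ℂ) (hD : Dom y) (hn : normSq a - normSq b = 1)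
    (hb : ‖b‖ ≤ 13 / 50) (hs0 : 82 / 100 ≤ s) (hs1 : s ≤ 99361 / 100000) (j : Fin 3) :
    67 / 1000 * normSq (((1 - 1 / s : ℝ) : ℂ) * a - (starRingEnd ℂ) y * b)
    + 15 / 10000 * normSq (normSq y * a - I * (starRingEnd ℂ) (Vx y j) * b)
    - 2 / 100 / s ^ 2 * normSq b
    - ((1 - s) + (1 - s) ^ 2 * (107 / 100000 * s ^ 2 + 1818 / 100000 * s - 124 / 10000)) / s ^ 2
    + (-(4769 / 100000) + 1604 / 100000 * s + 2 * (107 / 100000) * s ^ 2) * normSq y
    - 107 / 100000 * s ^ 2 * normSq y ^ 2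
    + 107 / 100000 * s ^ 2 * normSq (Vx y j) - 1604 / 100000 * s * cr y (Vx y j)
      ≤ -(3 / 10000) := by
  have hspos : 0 < s := by linarith
  have hs2 : 0 < s ^ 2 := by positivity
  have hs2' : 2 / 3 ≤ s ^ 2 := by nlinarith
  have hs2'' : s ^ 2 ≤ 1 := by nlinarith
  have hB0 : 0 ≤ normSq b := normSq_nonneg b
  have hB1 : normSq b ≤ 676 / 10000 := by
    rw [Complex.normSq_eq_norm_sq]
    nlinarith [norm_nonneg b]
  have hr0 := norm_nonneg y
  have hr1 := dom_norm hD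
  have hy : normSq y = ‖y‖ ^ 2 := Complex.normSq_eq_norm_sq y
  have hdt := abs_le.mp (F6b_dt y j)
  have hdpos : 0 < 1 - 2 * dt (uu j) y := by have := (hD j).1; linarith
  have hP := psi_neg s ‖y‖ (1 - 2 * dt (uu j) y) (normSq b) hr0 hr1 hdpos (by linarith [hdt.2])
    (by linarith [hdt.1]) (by rw [← hy]; exact (hD j).2) hB0 hB1 hs0 hs1
  rw [← hy] at hP
  refine le_trans ?_ hP
  have hV := normSq_Vx y hD j
  have hC := cr_Vx y hD j
  have hV0 := normSq_nonneg (Vx y j)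
  have hρ0 := normSq_nonneg y
  -- term 1
  have t1 : normSq (((1 - 1 / s : ℝ) : ℂ) * a - (starRingEnd ℂ) y * b) ≤
      3 * (1 - s) ^ 2 * (1 + normSq b) + 2 * normSq y * normSq b := by
    refine (F6b_two _ _).trans ?_
    rw [normSq_mul, normSq_mul, normSq_conj, normSq_ofReal]
    have ha : normSq a = 1 + normSq b := by linarith
    rw [ha]
    have e : 2 * ((1 - 1 / s) * (1 - 1 / s)) ≤ 3 * (1 - s) ^ 2 := by
      have e1 : (1 - 1 / s) * (1 - 1 / s) = (1 - s) ^ 2 / s ^ 2 := by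
        field_simp
        ring
      rw [e1, ← mul_div_assoc, div_le_iff₀ hs2]
      nlinarith [sq_nonneg (1 - s), mul_nonneg (sq_nonneg (1 - s)) (sub_nonneg.mpr hs2')]
    have e2 := mul_le_mul_of_nonneg_right e (by linarith : (0 : ℝ) ≤ 1 + normSq b)
    linarith
  have t2 : normSq (normSq y * a - I * (starRingEnd ℂ) (Vx y j) * b) ≤
      2 * normSq y ^ 2 * (1 + normSq b) + 2 * normSq (Vx y j) * normSq b := by
    refine (F6b_two _ _).trans ?_
    rw [normSq_mul, normSq_mul, normSq_mul, normSq_conj, normSq_ofReal, normSq_I]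
    have ha : normSq a = 1 + normSq b := by linarith
    rw [ha]
    apply le_of_eq
    ring
  have t3 : 2 / 100 * normSq b ≤ 2 / 100 / s ^ 2 * normSq b := by
    apply mul_le_mul_of_nonneg_right _ hB0
    rw [le_div_iff₀ hs2]
    linarith
  have t4 : 1 - s ≤ ((1 - s) + (1 - s) ^ 2 *
      (107 / 100000 * s ^ 2 + 1818 / 100000 * s - 124 / 10000)) / s ^ 2 := by
    rw [le_div_iff₀ hs2]
    have q0 : 0 ≤ 107 / 100000 * s ^ 2 + 1818 / 100000 * s - 124 / 10000 := by nlinarith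
    have q1 := mul_nonneg (sq_nonneg (1 - s)) q0
    have q2 : (1 - s) * s ^ 2 ≤ (1 - s) * 1 := mul_le_mul_of_nonneg_left hs2'' (by linarith)
    linarith
  rw [hV] at t2 ⊢
  rw [hC]
  unfold Psi
  linarith

theorem pw (s : ℝ) (y v a b : ℂ) (hD : Dom y) (hK : Kap y v) (hn : normSq a - normSq b = 1)
    (hb : ‖b‖ ≤ 13 / 50) (hs0 : 82 / 100 ≤ s) (hs1 : s ≤ 99361 / 100000) :
    67 / 1000 * normSq (((1 - 1 / s : ℝ) : ℂ) * a - (starRingEnd ℂ) y * b)
    + 15 / 10000 * normSq (normSq y * a - I * (starRingEnd ℂ) v * b)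
    - 2 / 100 / s ^ 2 * normSq b
    - ((1 - s) + (1 - s) ^ 2 * (107 / 100000 * s ^ 2 + 1818 / 100000 * s - 124 / 10000)) / s ^ 2
    + (-(4769 / 100000) + 1604 / 100000 * s + 2 * (107 / 100000) * s ^ 2) * normSq y
    - 107 / 100000 * s ^ 2 * normSq y ^ 2
    + 107 / 100000 * s ^ 2 * normSq v - 1604 / 100000 * s * cr y v ≤ -(3 / 10000) := by
  have hD' := hD
  obtain ⟨l, hl0, hl1, hlv⟩ := kap_vertices y v hD hK
  have hvert := F6b_vertex s y a b hD hn hb hs0 hs1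
  have hspos : 0 < s := by linarith
  have hlc : ∑ j, ((l j : ℝ) : ℂ) = 1 := by
    rw [← ofReal_sum, hl1, ofReal_one]
  -- convexity
  have c1 : normSq v ≤ ∑ j, l j * normSq (Vx y j) := by
    rw [hlv]
    exact F6b_ns l _ hl0 hl1
  have c2 : normSq (normSq y * a - I * (starRingEnd ℂ) v * b) ≤
      ∑ j, l j * normSq (normSq y * a - I * (starRingEnd ℂ) (Vx y j) * b) := by
    have e : (normSq y * a - I * (starRingEnd ℂ) v * b : ℂ) =
        ∑ j, ((l j : ℝ) : ℂ) * (normSq y * a - I * (starRingEnd ℂ) (Vx y j) * b) := by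
      have e1 : ∀ j, ((l j : ℝ) : ℂ) * (normSq y * a - I * (starRingEnd ℂ) (Vx y j) * b) =
          ((l j : ℝ) : ℂ) * (normSq y * a) -
            (starRingEnd ℂ) (((l j : ℝ) : ℂ) * Vx y j) * (I * b) := by
        intro j
        rw [map_mul, conj_ofReal]
        ring
      rw [Finset.sum_congr rfl fun j _ => e1 j, Finset.sum_sub_distrib, ← Finset.sum_mul,
        ← Finset.sum_mul, ← map_sum, ← hlv, hlc]
      ring
    rw [e]
    exact F6b_ns l _ hl0 hl1
  have c3 : cr y v = ∑ j, l j * cr y (Vx y j) := by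
    conv_lhs => rw [hlv]
    simp only [Fin.sum_univ_three, cr_add_right, cr_smul_right]
  set K : ℝ := 67 / 1000 * normSq (((1 - 1 / s : ℝ) : ℂ) * a - (starRingEnd ℂ) y * b)
    - 2 / 100 / s ^ 2 * normSq b
    - ((1 - s) + (1 - s) ^ 2 * (107 / 100000 * s ^ 2 + 1818 / 100000 * s - 124 / 10000)) / s ^ 2
    + (-(4769 / 100000) + 1604 / 100000 * s + 2 * (107 / 100000) * s ^ 2) * normSq y
    - 107 / 100000 * s ^ 2 * normSq y ^ 2 with hKdef
  have hvert' : ∀ j, K + 15 / 10000 * normSq (normSq y * a - I * (starRingEnd ℂ) (Vx y j) * b)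
      + 107 / 100000 * s ^ 2 * normSq (Vx y j) - 1604 / 100000 * s * cr y (Vx y j)
      ≤ -(3 / 10000) := by
    intro j
    have := hvert j
    rw [hKdef]
    linarith
  have hsum : ∑ j, l j * (K + 15 / 10000 *
        normSq (normSq y * a - I * (starRingEnd ℂ) (Vx y j) * b)
      + 107 / 100000 * s ^ 2 * normSq (Vx y j) - 1604 / 100000 * s * cr y (Vx y j)) ≤
      ∑ j, l j * (-(3 / 10000)) :=
    Finset.sum_le_sum fun j _ => mul_le_mul_of_nonneg_left (hvert' j) (hl0 j)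
  rw [← Finset.sum_mul, hl1, one_mul] at hsum
  have e2 : ∑ j, l j * (K + 15 / 10000 *
        normSq (normSq y * a - I * (starRingEnd ℂ) (Vx y j) * b)
      + 107 / 100000 * s ^ 2 * normSq (Vx y j) - 1604 / 100000 * s * cr y (Vx y j)) =
      (∑ j, l j) * K + 15 / 10000 *
        (∑ j, l j * normSq (normSq y * a - I * (starRingEnd ℂ) (Vx y j) * b))
      + 107 / 100000 * s ^ 2 * (∑ j, l j * normSq (Vx y j))
      - 1604 / 100000 * s * (∑ j, l j * cr y (Vx y j)) := by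
    simp only [Fin.sum_univ_three]
    ring
  rw [e2, hl1, one_mul, ← c3] at hsum
  have c1' := mul_le_mul_of_nonneg_left c1 (by positivity : (0 : ℝ) ≤ 107 / 100000 * s ^ 2)
  have hfin : K + 15 / 10000 * normSq (normSq y * a - I * (starRingEnd ℂ) v * b)
      + 107 / 100000 * s ^ 2 * normSq v - 1604 / 100000 * s * cr y v ≤ -(3 / 10000) := by
    linarith
  rw [hKdef] at hfin
  linarith

end Pool.H61.Rh
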