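import Pool.Agent.H61.Rh.F2b
import Pool.Agent.H61.Rh.F2c
import Pool.Agent.H61.Rh.F3
import Pool.Agent.H61.Rh.F5
import Pool.Agent.H61.Rh.F6b

/-! # F7: lower bound for the period

Suppose `3T < 2√3·0.9011`, put `ω = π/(3T) ≥ 1`, `s = 1/ω ∈ [0.82, 0.99361]`.  By `b_crude`,
`hat_lt`, `frame`, `b_small` we may assume `ck T 0 (conj b) = 0`, `‖b‖ ≤ 13/50`.
`p_j = P_j ω^{2-j}` with `P4 = 107/100000, P3 = 1604/100000, P2 = -4769/100000,
P1 = 1818/100000 + 248/10000 - 1, P0 = 1 - 124/10000`, so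
`∑ p_j X_k^j = ω² P(6k+1)`, `P(x) = (x-1)² q(x) - (x-1)`.
`wirt` for `f = conj b` and `(p0 - ω²·2/100, p1, p2, 0, p3, p4)` (`cert1`), and for `f = a` and
`(A1ω² + A2 - p0, -2A1ω - p1, A1 - p2, -2A2, -p3, A2 - p4)`, `A1 = 67/1000`, `A2 = 15/10000`
(`cert2`, and `(ω²x²-1)² ≥ ω²(x²-1)²` for `ω ≥ 1`, `x² ≥ 1`); at almost every point the sum of the
two integrands is, by `idents`, equal to the left side of `pw` (`a' - iωa = i((1-ω)a - ȳb)`,
`∑ p_j = ω² P(s) = ((1-s) + (1-s)² q(s))/s²`, `p2 + p3 + 2p4 = P2 + P3 s + 2 P4 s²`). -/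

set_option autoImplicit false

namespace Pool.H61.Rh

open Complex Finset MeasureTheory

private lemma F7_lip_mul {f g : ℝ → ℂ} (hf : ∃ C : NNReal, LipschitzWith C f)
    (hg : ∃ C : NNReal, LipschitzWith C g) (bf : ∃ M : ℝ, ∀ τ, ‖f τ‖ ≤ M)
    (bg : ∃ M : ℝ, ∀ τ, ‖g τ‖ ≤ M) : ∃ C : NNReal, LipschitzWith C (fun τ => f τ * g τ) := by
  obtain ⟨C, hC⟩ := hf
  obtain ⟨C', hC'⟩ := hg
  obtain ⟨M, hM⟩ := bf
  obtain ⟨M', hM'⟩ := bg
  refine ⟨Real.toNNReal (M * C' + C * M'), LipschitzWith.of_dist_le' fun x y => ?_⟩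
  have e : f x * g x - f y * g y = f x * (g x - g y) + (f x - f y) * g y := by ring
  have h1 := hC.dist_le_mul x y
  have h2 := hC'.dist_le_mul x y
  rw [dist_eq_norm] at h1 h2
  rw [dist_eq_norm, e]
  calc ‖f x * (g x - g y) + (f x - f y) * g y‖
      ≤ ‖f x * (g x - g y)‖ + ‖(f x - f y) * g y‖ := norm_add_le _ _
    _ = ‖f x‖ * ‖g x - g y‖ + ‖f x - f y‖ * ‖g y‖ := by rw [norm_mul, norm_mul]
    _ ≤ M * (C' * dist x y) + (C * dist x y) * M' := by
        apply add_le_add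
        · exact mul_le_mul (hM x) h2 (norm_nonneg _) (le_trans (norm_nonneg _) (hM x))
        · exact mul_le_mul h1 (hM' y) (norm_nonneg _) (by positivity)
    _ = _ := by ring

private lemma F7_lip_sub {f g : ℝ → ℂ} (hf : ∃ C : NNReal, LipschitzWith C f)
    (hg : ∃ C : NNReal, LipschitzWith C g) : ∃ C : NNReal, LipschitzWith C (fun τ => f τ - g τ) := by
  obtain ⟨C, hC⟩ := hf
  obtain ⟨C', hC'⟩ := hg
  exact ⟨C + C', hC.sub hC'⟩

private lemma F7_lip_I {f : ℝ → ℂ} (hf : ∃ C : NNReal, LipschitzWith C f) :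
    ∃ C : NNReal, LipschitzWith C (fun τ => I * f τ) := by
  obtain ⟨C, hC⟩ := hf
  refine ⟨C, LipschitzWith.of_dist_le_mul fun x y => ?_⟩
  have h1 := hC.dist_le_mul x y
  rw [dist_eq_norm] at h1
  rw [dist_eq_norm, ← mul_sub, norm_mul, norm_I, one_mul]
  exact h1

private lemma F7_lip_conj {f : ℝ → ℂ} (hf : ∃ C : NNReal, LipschitzWith C f) :
    ∃ C : NNReal, LipschitzWith C (fun τ => (starRingEnd ℂ) (f τ)) := by
  obtain ⟨C, hC⟩ := hf
  refine ⟨C, LipschitzWith.of_dist_le_mul fun x y => ?_⟩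
  have h1 := hC.dist_le_mul x y
  rw [dist_eq_norm] at h1
  rw [dist_eq_norm, ← map_sub, RCLike.norm_conj]
  exact h1

private lemma F7_continuous_form (q0 q1 q2 q2' q3 q4 : ℝ) :
    Continuous (fun p : ℂ × ℂ × ℂ => form q0 q1 q2 q2' q3 q4 p.1 p.2.1 p.2.2) := by
  unfold form cr dt
  fun_prop

private lemma F7_int (T : ℝ) (q0 q1 q2 q2' q3 q4 : ℝ) (f f1 : ℝ → ℂ) (hf : Continuous f)
    (C : NNReal) (hC : LipschitzWith C f1) :
    IntervalIntegrable (fun τ => form q0 q1 q2 q2' q3 q4 (f τ) (f1 τ) (deriv f1 τ))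
      volume 0 T := by
  have hcf := F7_continuous_form q0 q1 q2 q2' q3 q4
  have hd : ∀ τ, ‖deriv f1 τ‖ ≤ C := fun τ => norm_deriv_le_of_lipschitz hC
  have hK : IsCompact ((fun τ => (f τ, f1 τ)) '' Set.uIcc 0 T) :=
    isCompact_uIcc.image (hf.prodMk hC.continuous)
  have hK2 : IsCompact ((fun p : ℂ × ℂ × ℂ => form q0 q1 q2 q2' q3 q4 p.1 p.2.1 p.2.2) ''
      ((f '' Set.uIcc 0 T) ×ˢ ((f1 '' Set.uIcc 0 T) ×ˢ Metric.closedBall (0 : ℂ) C))) :=
    ((isCompact_uIcc.image hf).prod ((isCompact_uIcc.image hC.continuous).prod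
      (isCompact_closedBall (0 : ℂ) C))).image hcf
  obtain ⟨B, hB⟩ := hK2.isBounded.exists_norm_le
  rw [intervalIntegrable_iff]
  have hmeas : Measurable (fun τ => form q0 q1 q2 q2' q3 q4 (f τ) (f1 τ) (deriv f1 τ)) :=
    hcf.measurable.comp (hf.measurable.prodMk (hC.continuous.measurable.prodMk
      (measurable_deriv f1)))
  refine Measure.integrableOn_of_bounded (M := B) ?_ hmeas.aestronglyMeasurable ?_
  · rw [Set.uIoc, Real.volume_Ioc]
    exact ENNReal.ofReal_ne_top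
  · refine (ae_restrict_iff' measurableSet_uIoc).mpr (Filter.Eventually.of_forall fun τ hτ => ?_)
    apply hB
    have hτ' : τ ∈ Set.uIcc 0 T := Set.uIoc_subset_uIcc hτ
    exact ⟨(f τ, f1 τ, deriv f1 τ), ⟨⟨τ, hτ', rfl⟩, ⟨τ, hτ', rfl⟩, by simpa using hd τ⟩, rfl⟩

private lemma F7_conj_form (q0 q1 q2 q3 q4 : ℝ) (b b1 b2 : ℂ) :
    form q0 q1 q2 0 q3 q4 ((starRingEnd ℂ) b) ((starRingEnd ℂ) b1) ((starRingEnd ℂ) b2) =
      q0 * normSq b - q1 * cr b b1 + q2 * normSq b1 - q3 * cr b1 b2 + q4 * normSq b2 := by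
  simp only [form, cr, dt, normSq_apply, conj_re, conj_im]
  ring

private lemma F7_sq1 (w : ℝ) (a b y a1 : ℂ) (ha1 : a1 = I * (a - (starRingEnd ℂ) y * b)) :
    normSq (((1 - w : ℝ) : ℂ) * a - (starRingEnd ℂ) y * b) =
      normSq a1 - 2 * w * cr a a1 + w ^ 2 * normSq a := by
  subst ha1
  simp only [cr, normSq_apply, mul_re, mul_im, sub_re, sub_im, ofReal_re, ofReal_im, conj_re,
    conj_im, I_re, I_im]
  ring

private lemma F7_sq2 (a a2 : ℂ) : normSq (a2 + a) = normSq a2 + 2 * dt a a2 + normSq a := by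
  simp only [dt, normSq_apply, add_re, add_im]
  ring

/-- the pointwise inequality for the two forms -/
private lemma F7_pt (w s : ℝ) (hsw : s * w = 1) (y v a b a1 b1 a2 b2 : ℂ) (hD : Dom y)
    (hK : Kap y v) (hn : normSq a - normSq b = 1) (hb : ‖b‖ ≤ 13 / 50) (hs0 : 82 / 100 ≤ s)
    (hs1 : s ≤ 99361 / 100000)
    (ha1 : a1 = I * (a - (starRingEnd ℂ) y * b)) (hb1 : b1 = I * (y * a - b))
    (ha2 : a2 = I * (a1 - ((starRingEnd ℂ) v * b + (starRingEnd ℂ) y * b1)))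
    (hb2 : b2 = I * ((v * a + y * a1) - b1)) :
    form (67 / 1000 * w ^ 2 + 15 / 10000 - (1 - 124 / 10000) * w ^ 2)
      (-(2 * (67 / 1000) * w) - (1818 / 100000 + 248 / 10000 - 1) * w)
      (67 / 1000 - (-(4769 / 100000))) (-(2 * (15 / 10000))) (-(1604 / 100000 * s))
      (15 / 10000 - 107 / 100000 * s ^ 2) a a1 a2 +
    form ((1 - 124 / 10000) * w ^ 2 - w ^ 2 * (2 / 100))
      ((1818 / 100000 + 248 / 10000 - 1) * w) (-(4769 / 100000)) 0 (1604 / 100000 * s)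
      (107 / 100000 * s ^ 2) ((starRingEnd ℂ) b) ((starRingEnd ℂ) b1) ((starRingEnd ℂ) b2)
      ≤ -(3 / 10000) := by
  obtain ⟨i1, i2, i3, i4, i5⟩ := idents a b y v a1 b1 a2 b2 hn ha1 hb1 ha2 hb2
  have hp := pw s y v a b hD hK hn hb hs0 hs1
  have hs : s ≠ 0 := by
    intro h
    rw [h] at hs0
    norm_num at hs0
  have hw : 1 / s = w := by
    field_simp
    linear_combination -hsw
  rw [hw, F7_sq1 w a b y a1 ha1, ← i5, F7_sq2] at hp
  have hdiv : ∀ x : ℝ, x / s ^ 2 = x * w ^ 2 := by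
    intro x
    rw [← hw]
    field_simp
  rw [hdiv, hdiv] at hp
  rw [F7_conj_form]
  unfold form
  refine le_trans (le_of_eq ?_) hp
  linear_combination (-(1818 / 100000 + 248 / 10000 - 1) * w) * i1
    + (4769 / 100000) * i2 - 1604 / 100000 * s * i3 - 107 / 100000 * s ^ 2 * i4
    - (1 - 124 / 10000) * w ^ 2 * hn
    + ((1818 / 100000 + 248 / 10000 - 1) * w + (-(4769 / 100000) + 1604 / 100000 * s
      + 107 / 100000 * s ^ 2) * (w * s + 1)) * hsw

theorem RS.main {T : ℝ} {a b y : ℝ → ℂ} (h : RS T a b y)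
    (hz : ck T 0 (fun τ => (starRingEnd ℂ) (b τ)) = 0) (hb : ∀ τ, ‖b τ‖ ≤ 13 / 50)
    (hT : 3 * T < 2 * s3 * (9011 / 10000)) : False := by
  have hTp := h.Tpos
  have hTl := h.Tlow
  have hpi := Real.pi_pos
  obtain ⟨w, hw⟩ : ∃ w : ℝ, w = Real.pi / (3 * T) := ⟨_, rfl⟩
  obtain ⟨s, hs⟩ : ∃ s : ℝ, s = 3 * T / Real.pi := ⟨_, rfl⟩
  have hsw : s * w = 1 := by
    rw [hs, hw]
    field_simp
  have hwp : 0 < w := by rw [hw]; positivity
  have hs0 : 82 / 100 ≤ s := by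
    rw [hs, le_div_iff₀ hpi]
    have h1 := Real.pi_lt_d6
    have h2 := s3_gt
    nlinarith
  have hs1 : s ≤ 99361 / 100000 := by
    rw [hs, div_le_iff₀ hpi]
    have h1 := Real.pi_gt_d6
    have h2 := s3_lt
    nlinarith
  have hw1 : 1 ≤ w := by nlinarith
  -- bounds and Lipschitz
  have hna : ∀ τ, ‖a τ‖ ≤ 2 := by
    intro τ
    have h1 := h.hn τ
    have h2 := hb τ
    rw [normSq_eq_norm_sq, normSq_eq_norm_sq] at h1
    nlinarith [norm_nonneg (a τ), norm_nonneg (b τ)]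
  have hny : ∀ τ, ‖y τ‖ ≤ 1 := fun τ => (dom_norm (h.dom τ)).trans (by norm_num)
  have hca : Continuous a := continuous_iff_continuousAt.mpr fun τ => (h.ha τ).continuousAt
  have hcb : Continuous b := continuous_iff_continuousAt.mpr fun τ => (h.hb τ).continuousAt
  have ba : ∃ M : ℝ, ∀ τ, ‖a τ‖ ≤ M := ⟨2, hna⟩
  have bb : ∃ M : ℝ, ∀ τ, ‖b τ‖ ≤ M := ⟨_, hb⟩
  have by' : ∃ M : ℝ, ∀ τ, ‖y τ‖ ≤ M := ⟨1, hny⟩
  have byc : ∃ M : ℝ, ∀ τ, ‖(starRingEnd ℂ) (y τ)‖ ≤ M := ⟨1, fun τ => by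
    rw [RCLike.norm_conj]; exact hny τ⟩
  have hLa : ∃ C : NNReal, LipschitzWith C a := by
    refine ⟨3, lipschitzWith_of_nnnorm_deriv_le (fun τ => (h.ha τ).differentiableAt) fun τ => ?_⟩
    rw [(h.ha τ).deriv]
    rw [← NNReal.coe_le_coe, coe_nnnorm, norm_mul, norm_I, one_mul]
    refine (norm_sub_le _ _).trans ?_
    rw [norm_mul, RCLike.norm_conj]
    have h1 := hna τ
    have h2 := hny τ
    have h3 := hb τ
    have h4 := mul_le_mul h2 h3 (norm_nonneg _) zero_le_one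
    push_cast
    linarith
  have hLb : ∃ C : NNReal, LipschitzWith C b := by
    refine ⟨3, lipschitzWith_of_nnnorm_deriv_le (fun τ => (h.hb τ).differentiableAt) fun τ => ?_⟩
    rw [(h.hb τ).deriv]
    rw [← NNReal.coe_le_coe, coe_nnnorm, norm_mul, norm_I, one_mul]
    refine (norm_sub_le _ _).trans ?_
    rw [norm_mul]
    have h1 := hna τ
    have h2 := hny τ
    have h3 := hb τ
    have h4 := mul_le_mul h2 h1 (norm_nonneg _) zero_le_one
    push_cast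
    linarith
  have hLy := h.ylip
  obtain ⟨Ca, hCa⟩ : ∃ C : NNReal, LipschitzWith C
      (fun τ => I * (a τ - (starRingEnd ℂ) (y τ) * b τ)) :=
    F7_lip_I (F7_lip_sub hLa (F7_lip_mul (F7_lip_conj hLy) hLb byc bb))
  obtain ⟨Cb, hCb⟩ : ∃ C : NNReal, LipschitzWith C
      (fun τ => (starRingEnd ℂ) (I * (y τ * a τ - b τ))) :=
    F7_lip_conj (F7_lip_I (F7_lip_sub (F7_lip_mul hLy hLa by' ba) hLb))
  -- Wirtinger for `a`
  have Wa := wirt hTp a (fun τ => I * (a τ - (starRingEnd ℂ) (y τ) * b τ)) h.ha ⟨Ca, hCa⟩ h.pa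
    (67 / 1000 * w ^ 2 + 15 / 10000 - (1 - 124 / 10000) * w ^ 2)
    (-(2 * (67 / 1000) * w) - (1818 / 100000 + 248 / 10000 - 1) * w)
    (67 / 1000 - (-(4769 / 100000))) (-(2 * (15 / 10000))) (-(1604 / 100000 * s))
    (15 / 10000 - 107 / 100000 * s ^ 2) (by
      intro k hk
      rw [← hw]
      have hc := cert2 k
      obtain ⟨x, hx⟩ : ∃ x : ℝ, x = 6 * (k : ℝ) + 1 := ⟨_, rfl⟩
      have hx2 : 6 * (k : ℝ) = x - 1 := by rw [hx]; ring
      have hx1 : 1 ≤ x ^ 2 := by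
        have hk1 : (1 : ℝ) ≤ |(k : ℝ)| := by
          rw [← Int.cast_abs]
          exact_mod_cast Int.one_le_abs hk
        rw [hx]
        rcases abs_cases (k : ℝ) with ⟨h1, h2⟩ | ⟨h1, h2⟩
        · rw [h1] at hk1
          nlinarith
        · rw [h1] at hk1
          nlinarith
      rw [← hx, hx2] at hc
      have e : sym (67 / 1000 * w ^ 2 + 15 / 10000 - (1 - 124 / 10000) * w ^ 2)
          (-(2 * (67 / 1000) * w) - (1818 / 100000 + 248 / 10000 - 1) * w)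
          (67 / 1000 - (-(4769 / 100000))) (-(2 * (15 / 10000))) (-(1604 / 100000 * s))
          (15 / 10000 - 107 / 100000 * s ^ 2) (w * x) =
          w ^ 2 * (67 / 1000 * (x - 1) ^ 2 - ((x - 1) ^ 2 * (107 / 100000 * x ^ 2
            + 1818 / 100000 * x - 124 / 10000) - (x - 1))) +
          15 / 10000 * (w ^ 2 * x ^ 2 - 1) ^ 2 := by
        unfold sym
        linear_combination (-(1604 / 100000) * w ^ 2 * x ^ 3
          - 107 / 100000 * (w * s + 1) * w ^ 2 * x ^ 4) * hsw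
      rw [← hx, e]
      have hq5 : 0 ≤ (w - 1) * (w * x ^ 2 + 1) := mul_nonneg (by linarith) (by positivity)
      have hq : w * (x ^ 2 - 1) ≤ w ^ 2 * x ^ 2 - 1 := by linear_combination hq5
      have hq0 : 0 ≤ w * (x ^ 2 - 1) := mul_nonneg hwp.le (by linarith)
      have hq2 : (w * (x ^ 2 - 1)) ^ 2 ≤ (w ^ 2 * x ^ 2 - 1) ^ 2 :=
        pow_le_pow_left₀ hq0 hq 2
      have hq3 : 0 ≤ w ^ 2 * (67 / 1000 * (x - 1) ^ 2 + 15 / 10000 * (x ^ 2 - 1) ^ 2 -
          ((x - 1) ^ 2 * (107 / 100000 * x ^ 2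
            + 1818 / 100000 * x - 124 / 10000) - (x - 1))) :=
        mul_nonneg (sq_nonneg _) (by linarith)
      nlinarith)
  have Wb := wirt hTp (fun τ => (starRingEnd ℂ) (b τ))
    (fun τ => (starRingEnd ℂ) (I * (y τ * a τ - b τ))) (fun τ => (h.hb τ).star) ⟨Cb, hCb⟩ (by
      intro τ
      rw [h.pb, map_mul, conj_conj])
    ((1 - 124 / 10000) * w ^ 2 - w ^ 2 * (2 / 100))
    ((1818 / 100000 + 248 / 10000 - 1) * w) (-(4769 / 100000)) 0 (1604 / 100000 * s)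
    (107 / 100000 * s ^ 2) (by
      intro k hk
      rw [← hw]
      have hc := cert1 k hk
      obtain ⟨x, hx⟩ : ∃ x : ℝ, x = 6 * (k : ℝ) + 1 := ⟨_, rfl⟩
      have hx2 : 6 * (k : ℝ) = x - 1 := by rw [hx]; ring
      rw [← hx, hx2] at hc
      have e : sym ((1 - 124 / 10000) * w ^ 2 - w ^ 2 * (2 / 100))
          ((1818 / 100000 + 248 / 10000 - 1) * w) (-(4769 / 100000)) 0 (1604 / 100000 * s)
          (107 / 100000 * s ^ 2) (w * x) =
          w ^ 2 * ((x - 1) ^ 2 * (107 / 100000 * x ^ 2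
            + 1818 / 100000 * x - 124 / 10000) - (x - 1) - 2 / 100) := by
        unfold sym
        linear_combination (1604 / 100000 * w ^ 2 * x ^ 3
          + 107 / 100000 * (w * s + 1) * w ^ 2 * x ^ 4) * hsw
      rw [← hx, e]
      exact mul_nonneg (sq_nonneg _) (by linarith))
  rw [← hw] at Wa Wb
  have Wa0 : 0 ≤ T * (sym (67 / 1000 * w ^ 2 + 15 / 10000 - (1 - 124 / 10000) * w ^ 2)
      (-(2 * (67 / 1000) * w) - (1818 / 100000 + 248 / 10000 - 1) * w)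
      (67 / 1000 - (-(4769 / 100000))) (-(2 * (15 / 10000))) (-(1604 / 100000 * s))
      (15 / 10000 - 107 / 100000 * s ^ 2) w * normSq (ck T 0 a)) := by
    refine mul_nonneg hTp.le (mul_nonneg ?_ (normSq_nonneg _))
    have e : sym (67 / 1000 * w ^ 2 + 15 / 10000 - (1 - 124 / 10000) * w ^ 2)
      (-(2 * (67 / 1000) * w) - (1818 / 100000 + 248 / 10000 - 1) * w)
      (67 / 1000 - (-(4769 / 100000))) (-(2 * (15 / 10000))) (-(1604 / 100000 * s))
      (15 / 10000 - 107 / 100000 * s ^ 2) w = 15 / 10000 * (w ^ 2 - 1) ^ 2 := by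
      unfold sym
      linear_combination (-(1604 / 100000) * w ^ 2
          - 107 / 100000 * (w * s + 1) * w ^ 2) * hsw
    rw [e]
    positivity
  rw [hz, normSq_zero, mul_zero, mul_zero] at Wb
  have Ia := F7_int T (67 / 1000 * w ^ 2 + 15 / 10000 - (1 - 124 / 10000) * w ^ 2)
    (-(2 * (67 / 1000) * w) - (1818 / 100000 + 248 / 10000 - 1) * w)
    (67 / 1000 - (-(4769 / 100000))) (-(2 * (15 / 10000))) (-(1604 / 100000 * s))
    (15 / 10000 - 107 / 100000 * s ^ 2) a _ hca Ca hCa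
  have Ib := F7_int T ((1 - 124 / 10000) * w ^ 2 - w ^ 2 * (2 / 100))
    ((1818 / 100000 + 248 / 10000 - 1) * w) (-(4769 / 100000)) 0 (1604 / 100000 * s)
    (107 / 100000 * s ^ 2) (fun τ => (starRingEnd ℂ) (b τ)) _ (continuous_conj.comp hcb) Cb hCb
  have hsum := add_le_add (Wa0.trans Wa) Wb
  rw [← intervalIntegral.integral_add Ia Ib] at hsum
  obtain ⟨Cy, hCy⟩ := h.ylip
  have hae : (fun τ => form (67 / 1000 * w ^ 2 + 15 / 10000 - (1 - 124 / 10000) * w ^ 2)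
      (-(2 * (67 / 1000) * w) - (1818 / 100000 + 248 / 10000 - 1) * w)
      (67 / 1000 - (-(4769 / 100000))) (-(2 * (15 / 10000))) (-(1604 / 100000 * s))
      (15 / 10000 - 107 / 100000 * s ^ 2) (a τ) (I * (a τ - (starRingEnd ℂ) (y τ) * b τ))
      (deriv (fun τ => I * (a τ - (starRingEnd ℂ) (y τ) * b τ)) τ) +
    form ((1 - 124 / 10000) * w ^ 2 - w ^ 2 * (2 / 100))
      ((1818 / 100000 + 248 / 10000 - 1) * w) (-(4769 / 100000)) 0 (1604 / 100000 * s)
      (107 / 100000 * s ^ 2) ((starRingEnd ℂ) (b τ)) ((starRingEnd ℂ) (I * (y τ * a τ - b τ)))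
      (deriv (fun τ => (starRingEnd ℂ) (I * (y τ * a τ - b τ))) τ))
      ≤ᵐ[volume] fun _ => -(3 / 10000 : ℝ) := by
    filter_upwards [h.kap, hCy.ae_differentiableAt] with τ hk hd
    have hv := hd.hasDerivAt
    have hd1 : HasDerivAt (fun τ => I * (a τ - (starRingEnd ℂ) (y τ) * b τ))
        (I * (I * (a τ - (starRingEnd ℂ) (y τ) * b τ) -
          ((starRingEnd ℂ) (deriv y τ) * b τ + (starRingEnd ℂ) (y τ) *
            (I * (y τ * a τ - b τ))))) τ :=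
      (((h.ha τ).sub ((hv.star).mul (h.hb τ)))).const_mul I
    have hd2 : HasDerivAt (fun τ => I * (y τ * a τ - b τ))
        (I * ((deriv y τ * a τ + y τ * (I * (a τ - (starRingEnd ℂ) (y τ) * b τ))) -
          I * (y τ * a τ - b τ))) τ :=
      ((hv.mul (h.ha τ)).sub (h.hb τ)).const_mul I
    have hd3 : HasDerivAt (fun τ => (starRingEnd ℂ) (I * (y τ * a τ - b τ)))
        ((starRingEnd ℂ) (I * ((deriv y τ * a τ + y τ * (I * (a τ - (starRingEnd ℂ) (y τ) * b τ))) -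
          I * (y τ * a τ - b τ)))) τ := hd2.star
    rw [hd1.deriv, hd3.deriv]
    exact F7_pt w s hsw (y τ) (deriv y τ) (a τ) (b τ) _ _ _ _ (h.dom τ) hk (h.hn τ) (hb τ) hs0 hs1
      rfl rfl rfl rfl
  have hle := intervalIntegral.integral_mono_ae hTp.le (Ia.add Ib)
    (intervalIntegrable_const) hae
  rw [intervalIntegral.integral_const] at hle
  have hfin := hsum.trans hle
  simp only [smul_eq_mul, sub_zero] at hfin
  nlinarith

theorem RS.bound {T : ℝ} {a b y : ℝ → ℂ} (h : RS T a b y) (hb0 : b 0 = 0) :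
    2 * s3 * (9011 / 10000) ≤ 3 * T := by
  by_contra hcon
  push Not at hcon
  have hT : T ≤ 105 / 100 := by
    have := s3_lt
    nlinarith
  have hcon' : 3 * T < 2 * s3 * (9025 / 10000) := by
    have := s3_pos
    nlinarith
  obtain ⟨a', b', h', hz⟩ := h.frame (h.hat_lt (fun τ => h.b_crude hb0 hT τ) hcon')
  exact h'.main hz (fun τ => h'.b_small hz hcon' τ) hcon

end Pool.H61.Rh
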