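import Pool.Agent.H61.Rh.Basic

/-! # G1: elementary facts on strictly convex norms -/

set_option autoImplicit false

namespace Pool.H61.Rh

open Complex Finset

theorem SN.zero {ν : ℂ → ℝ} (h : SN ν) : ν 0 = 0 := by
  have := h.hom 0 0
  simpa using this

theorem SN.neg {ν : ℂ → ℝ} (h : SN ν) (x : ℂ) : ν (-x) = ν x := by
  have := h.hom (-1) x
  rw [show (((-1 : ℝ) : ℂ)) * x = -x by push_cast; ring] at this
  rw [this]
  norm_num

theorem SN.nonneg {ν : ℂ → ℝ} (h : SN ν) (x : ℂ) : 0 ≤ ν x := by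
  rcases eq_or_ne x 0 with rfl | hx
  · rw [h.zero]
  · exact (h.pos x hx).le

private lemma G1_up {ν : ℂ → ℝ} (h : SN ν) (x : ℂ) : ν x ≤ (ν 1 + ν I) * ‖x‖ := by
  have e : x = (x.re : ℂ) * 1 + (x.im : ℂ) * I := by
    rw [mul_one]; exact (re_add_im x).symm
  have h1 : ν x ≤ |x.re| * ν 1 + |x.im| * ν I := by
    calc ν x = ν ((x.re : ℂ) * 1 + (x.im : ℂ) * I) := by rw [← e]
      _ ≤ ν ((x.re : ℂ) * 1) + ν ((x.im : ℂ) * I) := h.tri _ _
      _ = |x.re| * ν 1 + |x.im| * ν I := by rw [h.hom, h.hom]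
  have h2 := abs_re_le_norm x
  have h3 := abs_im_le_norm x
  have h4 := h.nonneg 1
  have h5 := h.nonneg I
  nlinarith [mul_le_mul_of_nonneg_right h2 h4, mul_le_mul_of_nonneg_right h3 h5]

private lemma G1_sub {ν : ℂ → ℝ} (h : SN ν) (x y : ℂ) : |ν x - ν y| ≤ (ν 1 + ν I) * ‖x - y‖ := by
  have h1 := h.tri (x - y) y
  have h2 := h.tri (y - x) x
  rw [sub_add_cancel] at h1 h2
  have h3 := G1_up h (x - y)
  have h4 := G1_up h (y - x)
  rw [norm_sub_rev] at h4
  rw [abs_le]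
  constructor <;> linarith

private lemma G1_cont {ν : ℂ → ℝ} (h : SN ν) : Continuous ν := by
  have h0 : 0 ≤ ν 1 + ν I := add_nonneg (h.nonneg 1) (h.nonneg I)
  have : LipschitzWith (ν 1 + ν I).toNNReal ν := by
    refine LipschitzWith.of_dist_le_mul fun x y => ?_
    rw [Real.dist_eq, dist_eq_norm, Real.coe_toNNReal _ h0]
    exact G1_sub h x y
  exact this.continuous

/-- equivalence with the Euclidean norm: upper bound from `x = x.re + x.im I`; `ν` is then
Lipschitz, hence continuous, and its minimum on the unit circle is positive -/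
theorem SN.equiv {ν : ℂ → ℝ} (h : SN ν) :
    ∃ c C : ℝ, 0 < c ∧ 0 < C ∧ ∀ x, c * ‖x‖ ≤ ν x ∧ ν x ≤ C * ‖x‖ := by
  have hne : (Metric.sphere (0 : ℂ) 1).Nonempty := ⟨1, by simp⟩
  obtain ⟨x0, hx0, hmin⟩ := (isCompact_sphere (0 : ℂ) 1).exists_isMinOn hne
    (G1_cont h).continuousOn
  have hx0n : ‖x0‖ = 1 := by simpa using hx0
  have hx00 : x0 ≠ 0 := by
    rintro rfl
    simp at hx0n
  refine ⟨ν x0, ν 1 + ν I, h.pos _ hx00, add_pos (h.pos _ one_ne_zero) (h.pos _ I_ne_zero),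
    fun x => ⟨?_, G1_up h x⟩⟩
  rcases eq_or_ne x 0 with rfl | hx
  · rw [norm_zero, mul_zero, h.zero]
  · have hn : 0 < ‖x‖ := norm_pos_iff.mpr hx
    have h1 : ((‖x‖⁻¹ : ℝ) : ℂ) * x ∈ Metric.sphere (0 : ℂ) 1 := by
      rw [mem_sphere_zero_iff_norm, norm_mul, norm_real, Real.norm_eq_abs,
        abs_of_pos (inv_pos.mpr hn)]
      exact inv_mul_cancel₀ hn.ne'
    have h2 : ν x0 ≤ ν (((‖x‖⁻¹ : ℝ) : ℂ) * x) := hmin h1
    rw [h.hom, abs_of_pos (inv_pos.mpr hn)] at h2
    calc ν x0 * ‖x‖ ≤ (‖x‖⁻¹ * ν x) * ‖x‖ := mul_le_mul_of_nonneg_right h2 hn.le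
      _ = ν x := by field_simp

theorem SN.continuous {ν : ℂ → ℝ} (h : SN ν) : Continuous ν := G1_cont h

/-- **Monotonicity lemma.**  `y = αx + βz`, `p = y/(α+β)` is the crossing point of the
segments `[x,z]` and `[0,y]` (`α + β > 1` by strict convexity: `1 = ν y < α + β`).
`ν (y-x) ≤ ν (y-p) + ν (p-x) = (1 - 1/(α+β)) + β/(α+β) ν (z-x)` and
`1 = ν z ≤ ν p + ν (z-p) = 1/(α+β) + α/(α+β) ν (z-x)`; add; strictness of the first because
`y - p` and `p - x` are linearly independent.  Same with `x, z` exchanged. -/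
theorem SN.cone {ν : ℂ → ℝ} (h : SN ν) (x z : ℂ) (α β : ℝ) (hα : 0 < α) (hβ : 0 < β)
    (hx : ν x = 1) (hz : ν z = 1) (hxz : cr x z ≠ 0) (hy : ν (α * x + β * z) = 1) :
    1 < α + β ∧ ν ((α * x + β * z) - x) < ν (z - x) ∧ ν (z - (α * x + β * z)) < ν (z - x) := by
  have hs0 : 0 < α + β := add_pos hα hβ
  have hs : 1 < α + β := by
    have := h.strict (α * x) (β * z) (by
      rw [cr_smul_left, cr_smul_right]
      exact mul_ne_zero hα.ne' (mul_ne_zero hβ.ne' hxz))
    rw [hy, h.hom, h.hom, hx, hz, abs_of_pos hα, abs_of_pos hβ] at this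
    linarith
  have hsc : ((α : ℂ) + (β : ℂ)) ≠ 0 := by
    rw [← ofReal_add]; exact_mod_cast hs0.ne'
  set D : ℝ := ν (z - x) with hD
  have hg : 0 < 1 - 1 / (α + β) := by
    rw [sub_pos, div_lt_one hs0]; exact hs
  -- norms of the pieces
  have hp : ν (((1 / (α + β) : ℝ) : ℂ) * (α * x + β * z)) = 1 / (α + β) := by
    rw [h.hom, hy, mul_one, abs_of_pos (by positivity)]
  have n1 : 1 ≤ 1 / (α + β) + α / (α + β) * D := by
    have e : z = ((1 / (α + β) : ℝ) : ℂ) * (α * x + β * z) + ((α / (α + β) : ℝ) : ℂ) * (z - x) := by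
      push_cast
      field_simp
      ring
    have := h.tri (((1 / (α + β) : ℝ) : ℂ) * (α * x + β * z)) (((α / (α + β) : ℝ) : ℂ) * (z - x))
    rw [← e, hz, hp, h.hom, abs_of_pos (by positivity)] at this
    exact this
  have n2 : 1 ≤ 1 / (α + β) + β / (α + β) * D := by
    have e : x = ((1 / (α + β) : ℝ) : ℂ) * (α * x + β * z) + ((-(β / (α + β)) : ℝ) : ℂ) * (z - x) := by
      push_cast
      field_simp
      ring
    have := h.tri (((1 / (α + β) : ℝ) : ℂ) * (α * x + β * z))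
      (((-(β / (α + β)) : ℝ) : ℂ) * (z - x))
    rw [← e, hx, hp, h.hom, abs_neg, abs_of_pos (by positivity)] at this
    exact this
  have hcr : cr (α * x + β * z) (z - x) = (α + β) * cr x z := by
    rw [cr_add_left, cr_smul_left, cr_smul_left, cr_sub_right, cr_sub_right, cr_self, cr_self,
      cr_swap z x]
    ring
  have hsum : α / (α + β) * D + β / (α + β) * D = D := by
    field_simp
  refine ⟨hs, ?_, ?_⟩
  · have e : (α * x + β * z) - x = ((1 - 1 / (α + β) : ℝ) : ℂ) * (α * x + β * z) +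
        ((β / (α + β) : ℝ) : ℂ) * (z - x) := by
      push_cast
      field_simp
      ring
    have := h.strict (((1 - 1 / (α + β) : ℝ) : ℂ) * (α * x + β * z))
      (((β / (α + β) : ℝ) : ℂ) * (z - x)) (by
        rw [cr_smul_left, cr_smul_right, hcr]
        exact mul_ne_zero hg.ne' (mul_ne_zero (by positivity) (mul_ne_zero hs0.ne' hxz)))
    rw [← e, h.hom, h.hom, hy, abs_of_pos hg, abs_of_pos (by positivity : 0 < β / (α + β))] at this
    linarith
  · have e : z - (α * x + β * z) = ((α / (α + β) : ℝ) : ℂ) * (z - x) +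
        ((-(1 - 1 / (α + β)) : ℝ) : ℂ) * (α * x + β * z) := by
      push_cast
      field_simp
      ring
    have := h.strict (((α / (α + β) : ℝ) : ℂ) * (z - x))
      (((-(1 - 1 / (α + β)) : ℝ) : ℂ) * (α * x + β * z)) (by
        rw [cr_smul_left, cr_smul_right, cr_swap (z - x), hcr]
        exact mul_ne_zero (by positivity) (mul_ne_zero (neg_ne_zero.mpr hg.ne')
          (neg_ne_zero.mpr (mul_ne_zero hs0.ne' hxz))))
    rw [← e, h.hom, h.hom, hy, abs_neg, abs_of_pos hg,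
      abs_of_pos (by positivity : 0 < α / (α + β))] at this
    linarith

end Pool.H61.Rh
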