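import Pool.Agent.H61.Rh.G1

/-! # G2: the boundary curve `Gp ν t`, `t` = angle -/

set_option autoImplicit false

namespace Pool.H61.Rh

open Complex Finset

/-- boundary point of direction `e^{it}` -/
noncomputable def Gp (ν : ℂ → ℝ) (t : ℝ) : ℂ := ((1 / ν (exp (t * I)) : ℝ) : ℂ) * exp (t * I)

private lemma G2_pos {ν : ℂ → ℝ} (h : SN ν) (t : ℝ) : 0 < ν (exp (t * I)) :=
  h.pos _ (exp_ne_zero _)

private lemma G2_cr (s t : ℝ) : cr (exp (s * I)) (exp (t * I)) = Real.sin (t - s) := by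
  rw [cr, exp_ofReal_mul_I_re, exp_ofReal_mul_I_re, exp_ofReal_mul_I_im, exp_ofReal_mul_I_im,
    Real.sin_sub]
  ring

theorem SN.Gp_cont {ν : ℂ → ℝ} (h : SN ν) : Continuous (Gp ν) := by
  unfold Gp
  have hc : Continuous fun t : ℝ => exp ((t : ℂ) * I) := by fun_prop
  have h1 : Continuous fun t : ℝ => 1 / ν (exp ((t : ℂ) * I)) :=
    continuous_const.div (h.continuous.comp hc) fun t => (G2_pos h t).ne'
  exact (continuous_ofReal.comp h1).mul hc

theorem SN.Gp_norm {ν : ℂ → ℝ} (h : SN ν) (t : ℝ) : ν (Gp ν t) = 1 := by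
  have hp := G2_pos h t
  rw [Gp, h.hom, abs_of_pos (by positivity)]
  field_simp

theorem SN.Gp_pi {ν : ℂ → ℝ} (h : SN ν) (t : ℝ) : Gp ν (t + Real.pi) = - Gp ν t := by
  have e : exp (((t + Real.pi : ℝ) : ℂ) * I) = -exp (t * I) := by
    rw [show ((t + Real.pi : ℝ) : ℂ) * I = t * I + Real.pi * I by push_cast; ring, exp_add,
      exp_pi_mul_I]
    ring
  rw [Gp, Gp, e, h.neg]
  ring

/-- `cr (e^{is}) (e^{it}) = sin (t - s)` -/
theorem SN.Gp_cr {ν : ℂ → ℝ} (h : SN ν) (s t : ℝ) (h1 : s < t) (h2 : t < s + Real.pi) :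
    0 < cr (Gp ν s) (Gp ν t) := by
  have hs := G2_pos h s
  have ht := G2_pos h t
  rw [Gp, Gp, cr_smul_left, cr_smul_right, G2_cr]
  have : 0 < Real.sin (t - s) := Real.sin_pos_of_pos_of_lt_pi (by linarith) (by linarith)
  positivity

/-- a unit vector to the left of `Gp ν s` is `Gp ν t` with `t ∈ (s, s + π)`
(`t = s + arg (v / e^{is})`) -/
theorem SN.Gp_surj {ν : ℂ → ℝ} (h : SN ν) (s : ℝ) (v : ℂ) (hv : ν v = 1)
    (hc : 0 < cr (Gp ν s) v) : ∃ t, s < t ∧ t < s + Real.pi ∧ Gp ν t = v := by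
  have hs := G2_pos h s
  have hcr : 0 < cr (exp (s * I)) v := by
    rw [Gp, cr_smul_left] at hc
    exact (pos_iff_pos_of_mul_pos hc).mp (by positivity)
  set w : ℂ := exp (-(s * I)) * v with hw
  have hwim : 0 < w.im := by
    have : w.im = cr (exp (s * I)) v := by
      rw [hw, show -((s : ℂ) * I) = ((-s : ℝ) : ℂ) * I by push_cast; ring, mul_im,
        exp_ofReal_mul_I_re, exp_ofReal_mul_I_im, cr, exp_ofReal_mul_I_re, exp_ofReal_mul_I_im,
        Real.cos_neg, Real.sin_neg]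
      ring
    rw [this]
    exact hcr
  have hw0 : w ≠ 0 := by
    intro h0
    rw [h0] at hwim
    simp at hwim
  have hn : 0 < ‖w‖ := norm_pos_iff.mpr hw0
  have hsin : 0 < Real.sin w.arg := by
    rw [sin_arg]
    positivity
  have h1 : 0 < w.arg := by
    by_contra hcon
    push Not at hcon
    have := Real.sin_nonpos_of_nonpos_of_neg_pi_le hcon (neg_pi_lt_arg w).le
    linarith
  have h2 : w.arg < Real.pi := by
    refine lt_of_le_of_ne (arg_le_pi w) fun he => ?_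
    rw [he, Real.sin_pi] at hsin
    exact lt_irrefl _ hsin
  refine ⟨s + w.arg, by linarith, by linarith, ?_⟩
  have hv' : v = (‖w‖ : ℂ) * exp (((s + w.arg : ℝ) : ℂ) * I) := by
    have e1 := norm_mul_exp_arg_mul_I w
    have e2 : v = exp (s * I) * w := by
      rw [hw, ← mul_assoc, ← exp_add, add_neg_cancel, exp_zero, one_mul]
    rw [e2]
    nth_rewrite 1 [← e1]
    rw [show ((s + w.arg : ℝ) : ℂ) * I = s * I + w.arg * I by push_cast; ring, exp_add]
    ring
  have hp := G2_pos h (s + w.arg)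
  have hnu : ‖w‖ * ν (exp (((s + w.arg : ℝ) : ℂ) * I)) = 1 := by
    rw [← hv, hv', h.hom, abs_of_pos hn]
  have hinv : 1 / ν (exp (((s + w.arg : ℝ) : ℂ) * I)) = ‖w‖ := by
    rw [div_eq_iff hp.ne']
    exact hnu.symm
  rw [Gp, hinv]
  exact hv'.symm

/-- `Gp ν t` is a positive combination of `Gp ν s` and `Gp ν u`, `s < t < u < s + π`
(Cramer's rule and `Gp_cr`) -/
theorem SN.Gp_comb {ν : ℂ → ℝ} (h : SN ν) (s t u : ℝ) (h1 : s < t) (h2 : t < u)
    (h3 : u < s + Real.pi) :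
    ∃ α β : ℝ, 0 < α ∧ 0 < β ∧ Gp ν t = α * Gp ν s + β * Gp ν u := by
  have c1 := h.Gp_cr s t h1 (by linarith)
  have c2 := h.Gp_cr t u h2 (by linarith)
  have c3 := h.Gp_cr s u (h1.trans h2) h3
  refine ⟨cr (Gp ν t) (Gp ν u) / cr (Gp ν s) (Gp ν u), cr (Gp ν s) (Gp ν t) /
    cr (Gp ν s) (Gp ν u), by positivity, by positivity, ?_⟩
  have c3' := c3.ne'
  apply Complex.ext
  · simp only [add_re, mul_re, ofReal_re, ofReal_im, zero_mul, sub_zero]
    field_simp
    simp only [cr]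
    ring
  · simp only [add_im, mul_im, ofReal_re, ofReal_im, zero_mul, add_zero]
    field_simp
    simp only [cr]
    ring

end Pool.H61.Rh
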