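import Pool.Agent.H61.Rh.G2

/-! # G3: the next vertex map

For fixed `t` the function `x ↦ ν (Gp x - Gp t)` is continuous and strictly increasing on
`[t, t + π]` (`SN.cone` with `Gp_comb`; for the end point `t + π` use
`ν (Gp x - Gp t) < 2 = ν (Gp (t+π) - Gp t)` by `strict`), with values `0` and `2` at the ends;
`σ t` is the unique point of `(t, t+π)` with value `1`.
Monotone: `t < s`.  If `s ≥ σ t` then `σ s > s ≥ σ t`.  If `s < σ t` then
`ν (Gp (σ t) - Gp s) < ν (Gp (σ t) - Gp t) = 1` (other part of `SN.cone`), so `σ s > σ t`.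
`r := Gp (σ t) - Gp t` has norm `1`, `cr (Gp (σ t)) r > 0`, `cr r (- Gp t) > 0`, so
`r = Gp t''` with `σ t < t'' < t + π`, and `ν (r - Gp (σ t)) = 1`, so `σ (σ t) = t''`; then
`ν (Gp (t+π) - r) = ν (Gp (σ t)) = 1` gives `σ t'' = t + π`.
`σ` is strictly increasing and surjective (`σ³ = · + π`), hence continuous
(`Monotone.continuous_of_surjective`). -/

set_option autoImplicit false

namespace Pool.H61.Rh

open Complex Finset

/-- the next vertex map -/
structure NV (ν : ℂ → ℝ) (σ : ℝ → ℝ) : Prop where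
  mono : StrictMono σ
  cont : Continuous σ
  gt : ∀ t, t < σ t
  lt : ∀ t, σ t < t + Real.pi
  one : ∀ t, ν (Gp ν (σ t) - Gp ν t) = 1
  hex : ∀ t, Gp ν (σ (σ t)) = Gp ν (σ t) - Gp ν t
  cube : ∀ t, σ (σ (σ t)) = t + Real.pi

private lemma G3_two {ν : ℂ → ℝ} (h : SN ν) (t : ℝ) :
    ν (Gp ν (t + Real.pi) - Gp ν t) = 2 := by
  have e : Gp ν (t + Real.pi) - Gp ν t = -(((2 : ℝ) : ℂ) * Gp ν t) := by
    rw [h.Gp_pi]; push_cast; ring
  rw [e, h.neg, h.hom, h.Gp_norm]
  norm_num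

/-- the distance to a fixed point increases -/
private lemma G3_lt {ν : ℂ → ℝ} (h : SN ν) (t x y : ℝ) (h1 : t ≤ x) (h2 : x < y)
    (h3 : y ≤ t + Real.pi) : ν (Gp ν x - Gp ν t) < ν (Gp ν y - Gp ν t) := by
  rcases eq_or_lt_of_le h1 with rfl | h1
  · rw [sub_self, h.zero]
    rcases eq_or_lt_of_le h3 with rfl | h3
    · rw [G3_two h]; norm_num
    · apply h.pos
      intro h0
      have h4 := h.Gp_cr t y h2 h3
      rw [sub_eq_zero.mp h0, cr_self] at h4
      exact lt_irrefl _ h4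
  · rcases eq_or_lt_of_le h3 with rfl | h3
    · rw [G3_two h]
      have hc : cr (Gp ν x) (-Gp ν t) ≠ 0 := by
        have := h.Gp_cr t x h1 (by linarith)
        rw [cr_neg_right, cr_swap]
        rw [neg_neg]
        exact this.ne'
      have := h.strict _ _ hc
      rw [h.neg, h.Gp_norm, h.Gp_norm, ← sub_eq_add_neg] at this
      linarith
    · obtain ⟨α, β, hα, hβ, he⟩ := h.Gp_comb t x y h1 h2 (by linarith)
      have hc : cr (Gp ν t) (Gp ν y) ≠ 0 := (h.Gp_cr t y (h1.trans h2) h3).ne'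
      have hy : ν (α * Gp ν t + β * Gp ν y) = 1 := by rw [← he]; exact h.Gp_norm x
      have := (h.cone (Gp ν t) (Gp ν y) α β hα hβ (h.Gp_norm t) (h.Gp_norm y) hc hy).2.1
      rwa [← he] at this

/-- the distance decreases when the first point moves towards the second one -/
private lemma G3_lt' {ν : ℂ → ℝ} (h : SN ν) (t s x : ℝ) (h1 : t < s) (h2 : s < x)
    (h3 : x < t + Real.pi) : ν (Gp ν x - Gp ν s) < ν (Gp ν x - Gp ν t) := by
  obtain ⟨α, β, hα, hβ, he⟩ := h.Gp_comb t s x h1 h2 h3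
  have hc : cr (Gp ν t) (Gp ν x) ≠ 0 := (h.Gp_cr t x (h1.trans h2) h3).ne'
  have hy : ν (α * Gp ν t + β * Gp ν x) = 1 := by rw [← he]; exact h.Gp_norm s
  have := (h.cone (Gp ν t) (Gp ν x) α β hα hβ (h.Gp_norm t) (h.Gp_norm x) hc hy).2.2
  rwa [← he] at this

private lemma G3_ex {ν : ℂ → ℝ} (h : SN ν) (t : ℝ) :
    ∃ x, t < x ∧ x < t + Real.pi ∧ ν (Gp ν x - Gp ν t) = 1 := by
  have hpi := Real.pi_pos
  have hcont : ContinuousOn (fun x => ν (Gp ν x - Gp ν t)) (Set.Icc t (t + Real.pi)) :=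
    (h.continuous.comp (h.Gp_cont.sub continuous_const)).continuousOn
  have hi := intermediate_value_Icc (by linarith : t ≤ t + Real.pi) hcont
  have h1 : (1 : ℝ) ∈ Set.Icc (ν (Gp ν t - Gp ν t)) (ν (Gp ν (t + Real.pi) - Gp ν t)) := by
    rw [G3_two h, sub_self, h.zero]
    constructor <;> norm_num
  obtain ⟨x, ⟨hx1, hx2⟩, hx⟩ := hi h1
  have hx' : ν (Gp ν x - Gp ν t) = 1 := hx
  refine ⟨x, lt_of_le_of_ne hx1 ?_, lt_of_le_of_ne hx2 ?_, hx'⟩
  · rintro rfl
    rw [sub_self, h.zero] at hx'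
    norm_num at hx'
  · rintro rfl
    rw [G3_two h] at hx'
    norm_num at hx'

private lemma G3_uniq {ν : ℂ → ℝ} (h : SN ν) (t x y : ℝ) (h1 : t < x) (h2 : x < t + Real.pi)
    (h3 : t < y) (h4 : y < t + Real.pi) (hx : ν (Gp ν x - Gp ν t) = 1)
    (hy : ν (Gp ν y - Gp ν t) = 1) : x = y := by
  rcases lt_trichotomy x y with hc | hc | hc
  · have := G3_lt h t x y h1.le hc h4.le
    linarith
  · exact hc
  · have := G3_lt h t y x h3.le hc h2.le
    linarith

theorem SN.exists_nv {ν : ℂ → ℝ} (h : SN ν) : ∃ σ : ℝ → ℝ, NV ν σ := by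
  have hpi := Real.pi_pos
  choose σ hgt hlt hone using fun t => G3_ex h t
  have hmono : StrictMono σ := by
    intro t s hts
    rcases le_or_gt (σ t) s with hc | hc
    · exact lt_of_le_of_lt hc (hgt s)
    · by_contra hcon
      push Not at hcon
      have h1 : ν (Gp ν (σ t) - Gp ν s) < 1 := by
        rw [← hone t]
        exact G3_lt' h t s (σ t) hts hc (hlt t)
      rcases eq_or_lt_of_le hcon with he | hl
      · have := hone s
        rw [he] at this
        linarith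
      · have := G3_lt h s (σ s) (σ t) (hgt s).le hl (by linarith [hlt t])
        rw [hone s] at this
        linarith
  have hkey : ∀ t, Gp ν (σ (σ t)) = Gp ν (σ t) - Gp ν t ∧ σ (σ (σ t)) = t + Real.pi := by
    intro t
    have hc1 : 0 < cr (Gp ν t) (Gp ν (σ t)) := h.Gp_cr t (σ t) (hgt t) (hlt t)
    have hc2 : 0 < cr (Gp ν (σ t)) (Gp ν (σ t) - Gp ν t) := by
      rw [cr_sub_right, cr_self, cr_swap (Gp ν (σ t)) (Gp ν t)]
      linarith
    obtain ⟨w, hw1, hw2, hw⟩ := h.Gp_surj (σ t) (Gp ν (σ t) - Gp ν t) (hone t) hc2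
    have hwone : ν (Gp ν w - Gp ν (σ t)) = 1 := by
      rw [hw, show Gp ν (σ t) - Gp ν t - Gp ν (σ t) = -Gp ν t by ring, h.neg, h.Gp_norm]
    have hsw : σ (σ t) = w :=
      G3_uniq h (σ t) _ _ (hgt _) (hlt _) hw1 hw2 (hone _) hwone
    have hc3 : 0 < cr (Gp ν w) (Gp ν (t + Real.pi)) := by
      rw [hw, h.Gp_pi, cr_neg_right, cr_sub_left, cr_self, cr_swap (Gp ν (σ t)) (Gp ν t)]
      linarith
    have hwt : w < t + Real.pi := by
      by_contra hcon
      push Not at hcon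
      rcases eq_or_lt_of_le hcon with he | hl
      · rw [← he, cr_self] at hc3
        exact lt_irrefl _ hc3
      · have := h.Gp_cr (t + Real.pi) w hl (by linarith [hlt t])
        rw [cr_swap] at this
        linarith
    have hlast : ν (Gp ν (t + Real.pi) - Gp ν w) = 1 := by
      rw [hw, h.Gp_pi, show -Gp ν t - (Gp ν (σ t) - Gp ν t) = -Gp ν (σ t) by ring, h.neg,
        h.Gp_norm]
    have h3 : σ w = t + Real.pi :=
      G3_uniq h w _ _ (hgt _) (hlt _) hwt (by linarith [hgt t]) (hone _) hlast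
    rw [hsw]
    exact ⟨hw, h3⟩
  have hsurj : Function.Surjective σ := by
    intro t
    refine ⟨σ (σ (t - Real.pi)), ?_⟩
    rw [(hkey (t - Real.pi)).2]
    ring
  exact ⟨σ, ⟨hmono, hmono.monotone.continuous_of_surjective hsurj, hgt, hlt, hone,
    fun t => (hkey t).1, fun t => (hkey t).2⟩⟩

end Pool.H61.Rh
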