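import Pool.Agent.H61.Rh.G3

/-! # G6a (first paragraph; the rest is G6b, G6): configurations inscribed in the unit ball of a strictly convex norm

`t ↦ cr (Gp t) (Gp (σ t))` is continuous and has period `π` (`σ (t+π) = σ t + π` from `cube`), so it
has a minimum at some `t₀`; `p = Gp t₀`, `q = Gp (σ t₀)`.  `k = (√3/2)/cr p q`.  Let
`L = hx a b` be the linear map with `L p = 1`, `L q = ζ` (exists), so `cr (L x) (L y) = k cr x y`,
`L (q - p) = ζ - 1`, `L (-p) = -1`.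
For `t ∈ [t₀, σ t₀]` consider the hexagon `(L Gp t, L Gp (σ t), L Gp (σ (σ t)))`;
`s t = pr (L Gp t) (L Gp (σ t))` is continuous, `s t₀ = 0`, `s (σ t₀) = 1`, and monotone on
`[t₀, σ t₀]`: `3 (s t' - s t) = dt Δp (ζ-1) + dt Δq (-1) + dt Δr (-ζ)` with nonnegative terms,
because of `SN.chords` with the chords `Gp(σ t₀) - Gp(t₀)` etc. (each `Δ` lies in a sector of
`120°`, see A1).  Choose `t_i ∈ [t₀, σ t₀]` with `s t_i = i/N` (`t_0 = t₀`, `t_N = σ t₀`); they are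
increasing.  `P i = L Gp t_i`, `Q i = L Gp (σ t_i)`, `Q i - P i = L Gp (σ (σ t_i))`.
All conditions of `Cfg` follow from `SN.chords` (four parameters within `[x, x + π]`, using
`σ t₀ ≤ σ t_j ≤ σ σ t₀ ≤ σ σ t_j ≤ t₀ + π`), `det` from minimality.
`Ws N P Q = k ∑ cr (Gp (x_i)) (Gp (x_{i+1}))` for the partition
`x = t_0, …, t_N = σ t_0, σ t_1, …, σ t_N = σσ t_0, …, t_0 + π` of length `3N`; `SN.poly_le`. -/

set_option autoImplicit false

namespace Pool.H61.Rh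

open Complex Finset MeasureTheory

theorem exists_L (p q : ℂ) (h : 0 < cr p q) :
    ∃ a b : ℂ, hx a b p = 1 ∧ hx a b q = ze ∧
      ∀ x y, cr (hx a b x) (hx a b y) = s3 / 2 / cr p q * cr x y := by
  have hD : p * (starRingEnd ℂ) q - (starRingEnd ℂ) p * q = -2 * I * (cr p q : ℂ) := by
    apply Complex.ext
    · simp only [sub_re, mul_re, mul_im, conj_re, conj_im, neg_re, neg_im, I_re, I_im, ofReal_re,
        ofReal_im, re_ofNat, im_ofNat]
      ring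
    · simp only [sub_im, mul_re, mul_im, conj_re, conj_im, neg_re, neg_im, I_re, I_im, ofReal_re,
        ofReal_im, re_ofNat, im_ofNat, cr]
      ring
  have hD0 : p * (starRingEnd ℂ) q - (starRingEnd ℂ) p * q ≠ 0 := by
    rw [hD]
    refine mul_ne_zero (mul_ne_zero (by norm_num) I_ne_zero) ?_
    rw [Ne, ofReal_eq_zero]
    exact h.ne'
  obtain ⟨a, ha⟩ : ∃ a : ℂ, a = ((starRingEnd ℂ) q - ze * (starRingEnd ℂ) p) /
      (p * (starRingEnd ℂ) q - (starRingEnd ℂ) p * q) := ⟨_, rfl⟩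
  obtain ⟨b, hb⟩ : ∃ b : ℂ, b = (p * ze - q) /
      (p * (starRingEnd ℂ) q - (starRingEnd ℂ) p * q) := ⟨_, rfl⟩
  have h1 : hx a b p = 1 := by
    unfold hx
    rw [ha, hb, div_mul_eq_mul_div, div_mul_eq_mul_div, ← add_div, div_eq_iff hD0]
    ring
  have h2 : hx a b q = ze := by
    unfold hx
    rw [ha, hb, div_mul_eq_mul_div, div_mul_eq_mul_div, ← add_div, div_eq_iff hD0]
    ring
  refine ⟨a, b, h1, h2, fun x y => ?_⟩
  have h3 := cr_hx a b p q
  rw [h1, h2, cr_one_ze] at h3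
  have h4 : normSq a - normSq b = s3 / 2 / cr p q := by
    rw [eq_div_iff h.ne']
    exact h3.symm
  rw [cr_hx, h4]

theorem SN.exists_t0 {ν : ℂ → ℝ} (h : SN ν) {σ : ℝ → ℝ} (hσ : NV ν σ) :
    ∃ t0, ∀ t, cr (Gp ν t0) (Gp ν (σ t0)) ≤ cr (Gp ν t) (Gp ν (σ t)) := by
  have hc : Continuous fun t => cr (Gp ν t) (Gp ν (σ t)) :=
    continuous_cr.comp (h.Gp_cont.prodMk (h.Gp_cont.comp hσ.cont))
  have hper : Function.Periodic (fun t => cr (Gp ν t) (Gp ν (σ t))) Real.pi := by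
    intro t
    have h1 : σ (t + Real.pi) = σ t + Real.pi := by
      rw [← hσ.cube t, hσ.cube (σ t)]
    change cr (Gp ν (t + Real.pi)) (Gp ν (σ (t + Real.pi))) = cr (Gp ν t) (Gp ν (σ t))
    rw [h1, h.Gp_pi, h.Gp_pi, cr_neg_left, cr_neg_right, neg_neg]
  obtain ⟨t0, -, hmin⟩ := (isCompact_Icc (a := (0 : ℝ)) (b := Real.pi)).exists_isMinOn
    (Set.nonempty_Icc.mpr Real.pi_pos.le) hc.continuousOn
  refine ⟨t0, fun t => ?_⟩
  obtain ⟨y, hy, hty⟩ := hper.exists_mem_Ico₀ Real.pi_pos t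
  have h2 : cr (Gp ν t0) (Gp ν (σ t0)) ≤ cr (Gp ν y) (Gp ν (σ y)) :=
    hmin (Set.Ico_subset_Icc_self hy)
  have h3 : cr (Gp ν t) (Gp ν (σ t)) = cr (Gp ν y) (Gp ν (σ y)) := hty
  rw [h3]
  exact h2

end Pool.H61.Rh
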