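import Pool.Agent.H61.Rh.A4
import Pool.Agent.H61.Rh.B1
import Pool.Agent.H61.Rh.B3
import Pool.Agent.H61.Rh.D1
import Pool.Agent.H61.Rh.E6
import Pool.Agent.H61.Rh.F7
import Pool.Agent.H61.Rh.G6
import Pool.Agent.H61.Rh.H1a
import Pool.Agent.H61.Rh.H1b

/-! # H2: assembly -/

set_option autoImplicit false

namespace Pool.H61.Rh

open Complex Finset MeasureTheory

theorem SN.density {ν : ℂ → ℝ} (h : SN ν) :
    ∃ p q : ℂ, ν p = 1 ∧ ν q = 1 ∧ ν (q - p) = 1 ∧ 0 < cr p q ∧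
      9011 / 10000 * (4 * cr p q) ≤ (volume {z : ℂ | ν z ≤ 1}).toReal := by
  obtain ⟨p, q, hp, hq, hr, hc, hcfg⟩ := h.core_cfg
  refine ⟨p, q, hp, hq, hr, hc, ?_⟩
  by_contra hcon
  push Not at hcon
  set V := (volume {z : ℂ | ν z ≤ 1}).toReal with hV
  set A := s3 / 2 / cr p q * V with hA
  have hAlt : A < 2 * s3 * (9011 / 10000) := by
    rw [hA, div_mul_eq_mul_div, div_lt_iff₀ hc]
    have := s3_pos
    nlinarith
  obtain ⟨γ, S, hPC⟩ := exists_PC A (fun k => by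
    obtain ⟨P, Q, hC, hW⟩ := hcfg (k + 1) (Nat.succ_pos k)
    obtain ⟨p', q', hC', hd', hW'⟩ := balanced (Nat.succ_pos k) hC
    refine dc_of_cfg (Nat.succ_pos k) hC' hd' ?_
    push_cast at hW' ⊢
    linarith)
  obtain ⟨T, γ', hAC, hT⟩ := exists_AC hPC
  have hT' : 3 * T < 2 * s3 * (9011 / 10000) := lt_of_le_of_lt hT hAlt
  obtain ⟨a, b, y, hRS, hb0⟩ := hAC.rs (by
    have := s3_pos
    nlinarith)
  exact absurd (hRS.bound hb0) (by linarith)

theorem packing_C (K : Set ℂ) (hc : Convex ℝ K) (hk : IsCompact K) (hi : (interior K).Nonempty)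
    (hs : ∀ x ∈ K, -x ∈ K) :
    ∃ v w : ℂ, cr v w ≠ 0 ∧
      (∀ m n : ℤ, ¬ (m = 0 ∧ n = 0) → ∀ x ∈ interior K, x + (m * v + n * w) ∉ interior K) ∧
      901 / 1000 ≤ (volume K).toReal / |cr v w| := by
  obtain ⟨ν, hν, h1, h2⟩ := sn_of_body K hc hk hi hs (1 / 20000) (by norm_num)
  obtain ⟨p, q, hp, hq, hr, hcr, hV⟩ := hν.density
  have hR : (0 : ℝ) < 2 * (1 + 1 / 20000) := by norm_num
  refine ⟨((2 * (1 + 1 / 20000) : ℝ) : ℂ) * p, ((2 * (1 + 1 / 20000) : ℝ) : ℂ) * q, ?_, ?_, ?_⟩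
  · rw [cr_smul_left, cr_smul_right]
    positivity
  · intro m n hmn x hx hx'
    have e1 : (m : ℂ) * (((2 * (1 + 1 / 20000) : ℝ) : ℂ) * p)
        + n * (((2 * (1 + 1 / 20000) : ℝ) : ℂ) * q)
        = ((2 * (1 + 1 / 20000) : ℝ) : ℂ) * (m * p + n * q) := by ring
    rw [e1] at hx'
    have h3 := hν.lattice_far p q hp hq hr m n hmn
    have h4 : ν (((2 * (1 + 1 / 20000) : ℝ) : ℂ) * (m * p + n * q))
        = 2 * (1 + 1 / 20000) * ν (m * p + n * q) := by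
      rw [hν.hom, abs_of_pos hR]
    have h5 := h2 x hx
    have h6 := h2 _ hx'
    have h7 : ν (((2 * (1 + 1 / 20000) : ℝ) : ℂ) * (m * p + n * q)) ≤
        ν (x + ((2 * (1 + 1 / 20000) : ℝ) : ℂ) * (m * p + n * q)) + ν (-x) := by
      have := hν.tri (x + ((2 * (1 + 1 / 20000) : ℝ) : ℂ) * (m * p + n * q)) (-x)
      rwa [show x + ((2 * (1 + 1 / 20000) : ℝ) : ℂ) * (m * p + n * q) + -x
        = ((2 * (1 + 1 / 20000) : ℝ) : ℂ) * (m * p + n * q) by ring] at this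
    rw [hν.neg, h4] at h7
    nlinarith
  · have hsub : {z : ℂ | ν z ≤ 1} ⊆ K := fun z hz => h1 z hz
    have hfin : volume K ≠ ⊤ := hk.measure_lt_top.ne
    have hle : (volume {z : ℂ | ν z ≤ 1}).toReal ≤ (volume K).toReal :=
      ENNReal.toReal_mono hfin (measure_mono hsub)
    rw [cr_smul_left, cr_smul_right, abs_of_pos (by positivity), le_div_iff₀ (by positivity)]
    nlinarith

end Pool.H61.Rh
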