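import Pool.Agent.H61.Rh.H2

/-! # H3: transfer to `ℝ × ℝ`

`K' = {z : ℂ | (z.re, z.im) ∈ K}` (preimage under `Complex.equivRealProdCLM` /
`Complex.measurableEquivRealProd`, which is a volume preserving linear homeomorphism). -/

set_option autoImplicit false

namespace Pool.H61.Rh

open Complex Finset MeasureTheory

/-- every origin-symmetric convex body of the plane has a lattice packing of density at least
`0.901` -/
theorem packing_R2 (K : Set (ℝ × ℝ)) (hc : Convex ℝ K) (hk : IsCompact K)
    (hi : (interior K).Nonempty) (hs : ∀ x ∈ K, -x ∈ K) :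
    ∃ v w : ℝ × ℝ, v.1 * w.2 - v.2 * w.1 ≠ 0 ∧
      (∀ m n : ℤ, ¬ (m = 0 ∧ n = 0) →
        ∀ x ∈ interior K, x + ((m : ℝ) • v + (n : ℝ) • w) ∉ interior K) ∧
      901 / 1000 ≤ (volume K).toReal / |v.1 * w.2 - v.2 * w.1| := by
  let e := Complex.equivRealProdCLM
  have hint : interior (e ⁻¹' K) = e ⁻¹' interior K :=
    (e.toHomeomorph.preimage_interior K).symm
  have hvol : volume (e ⁻¹' K) = volume K := by
    have h1 : MeasurePreserving Complex.measurableEquivRealProd := Complex.volume_preserving_equiv_real_prod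
    have h2 := h1.measure_preimage_equiv K
    exact h2
  obtain ⟨v, w, hvw, hpack, hd⟩ := packing_C (e ⁻¹' K)
    (hc.linear_preimage e.toLinearEquiv.toLinearMap)
    (e.toHomeomorph.isCompact_preimage.2 hk)
    (by
      rw [hint]
      obtain ⟨x, hx⟩ := hi
      refine ⟨e.symm x, ?_⟩
      simpa using hx)
    (by
      intro x hx
      have := hs (e x) hx
      simpa using this)
  refine ⟨e v, e w, ?_, ?_, ?_⟩
  · simpa [cr, e] using hvw
  · intro m n hmn x hx hx'
    refine hpack m n hmn (e.symm x) ?_ ?_
    · rw [hint]; simpa using hx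
    · rw [hint]
      show e (e.symm x + (m * v + n * w)) ∈ interior K
      have h1 : e (e.symm x + (m * v + n * w)) = x + ((m : ℝ) • e v + (n : ℝ) • e w) := by
        have h2 : (m : ℂ) * v + n * w = (m : ℝ) • v + (n : ℝ) • w := by
          simp
        rw [h2, map_add, map_add, map_smul, map_smul, ContinuousLinearEquiv.apply_symm_apply]
      rw [h1]
      exact hx'
  · rw [hvol] at hd
    simpa [cr, e] using hd

end Pool.H61.Rh
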