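import Pool.Agent.H61.Rh.H3

/-! # H4: arbitrary centre of symmetry -/

set_option autoImplicit false

namespace Pool.H61.Rh

open MeasureTheory

theorem packing_center (K : Set (ℝ × ℝ)) (hc : Convex ℝ K) (hk : IsCompact K)
    (hi : (interior K).Nonempty) (c : ℝ × ℝ) (hs : ∀ x ∈ K, c + c - x ∈ K) :
    ∃ v w : ℝ × ℝ, v.1 * w.2 - v.2 * w.1 ≠ 0 ∧
      (∀ m n : ℤ, ¬ (m = 0 ∧ n = 0) →
        ∀ x ∈ interior K, x + ((m : ℝ) • v + (n : ℝ) • w) ∉ interior K) ∧
      901 / 1000 ≤ (volume K).toReal / |v.1 * w.2 - v.2 * w.1| := by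
  let e : (ℝ × ℝ) ≃ₜ (ℝ × ℝ) := Homeomorph.addRight c
  have he : ∀ x, e x = x + c := fun x => rfl
  have hint : interior (e ⁻¹' K) = e ⁻¹' interior K := (e.preimage_interior K).symm
  have hvol : volume (e ⁻¹' K) = volume K := by
    have : (e ⁻¹' K) = (fun x => x + c) ⁻¹' K := rfl
    rw [this]
    exact measure_preimage_add_right volume c K
  obtain ⟨v, w, h1, h2, h3⟩ := packing_R2 (e ⁻¹' K) (by
      have := hc.translate_preimage_left c
      exact this) (e.isCompact_preimage.mpr hk) (by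
      obtain ⟨x, hx⟩ := hi
      refine ⟨x - c, ?_⟩
      rw [hint, Set.mem_preimage, he, sub_add_cancel]
      exact hx) (by
      intro x hx
      rw [Set.mem_preimage, he] at hx ⊢
      have := hs _ hx
      rwa [show c + c - (x + c) = -x + c by abel] at this)
  refine ⟨v, w, h1, ?_, ?_⟩
  · intro m n hmn x hx hx'
    refine h2 m n hmn (x - c) ?_ ?_
    · rw [hint, Set.mem_preimage, he, sub_add_cancel]
      exact hx
    · rw [hint, Set.mem_preimage, he]
      rwa [show x - c + ((m : ℝ) • v + (n : ℝ) • w) + c = x + ((m : ℝ) • v + (n : ℝ) • w) by abel]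
  · rwa [hvol] at h3

end Pool.H61.Rh
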